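import Mathlib
import Pool.Agent.Lib.MP_60829e_nt.ZK.Div

/-! # Theorem ZV: free arithmetical monoids with good primes -/

open Finset

namespace MP60829e.ZV

open MP60829e.ZK (Ar nn)

/-- The bound for the density of the exceptional sets, `u = log B / log M`. -/
noncomputable def rt (C M B : ℕ) : ℝ :=
  C * (1 + Real.log (Real.log B / Real.log M)) ^ C * (Real.log M / Real.log B)

/-- An `Ar` with a set `G` of good primes, which contains almost all primes of degree one. -/
structure ArG (P : Type) extends Ar P where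
  G : Set P
  F : Finset P
  bad : ∀ x, x ∉ G → x ∉ F → 2 ≤ f x

/-- `X` contains no box of good primes with `r` sides of size `t`. -/
def GridFree {P : Type} (G : Set P) (r t : ℕ) (X : Set (P →₀ ℕ)) : Prop :=
  ∀ m : P →₀ ℕ, ∀ q : Fin r → Fin t → P, (∀ i j, q i j ∈ G) → (∀ i, Function.Injective (q i)) →
    ∃ c : Fin r → Fin t, m + ∑ i, Finsupp.single (q i (c i)) 1 ∉ X

namespace ArG

variable {P : Type} (𝔸 : ArG P)

open Classical in
/-- the number of good primes of norm at least `s` in the support -/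
noncomputable def om (s : ℕ) (a : P →₀ ℕ) : ℕ :=
  (a.support.filter (fun x => x ∈ 𝔸.G ∧ s ≤ 𝔸.N x)).card

open Classical in
/-- the elements of norm at most `B` with fewer than `r` good primes of norm at least `s` -/
noncomputable def Sm (s r B : ℕ) : Finset (P →₀ ℕ) :=
  (𝔸.el B).filter (fun a => 𝔸.om s a < r)

theorem mem_Sm {s r B : ℕ} {a : P →₀ ℕ} : a ∈ 𝔸.Sm s r B ↔ nn 𝔸.N a ≤ B ∧ 𝔸.om s a < r := by
  unfold Sm
  rw [mem_filter, Ar.mem_el]

end ArG

/-- The bounds for `u = log B / log M`. -/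
private theorem log_facts {M B : ℕ} (hM : 2 ≤ M) (hB : M ≤ B) :
    0 ≤ Real.log (Real.log B / Real.log M) ∧ 0 ≤ Real.log M / Real.log B := by
  have h1 : (2 : ℝ) ≤ M := by exact_mod_cast hM
  have h2 : (M : ℝ) ≤ B := by exact_mod_cast hB
  have h3 : 0 < Real.log M := Real.log_pos (by linarith)
  have h4 : Real.log M ≤ Real.log B := Real.log_le_log (by linarith) h2
  exact ⟨Real.log_nonneg ((one_le_div₀ h3).2 h4), div_nonneg h3.le (h3.le.trans h4)⟩

theorem rt_nonneg {C M B : ℕ} (hM : 2 ≤ M) (hB : M ≤ B) : 0 ≤ rt C M B := by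
  obtain ⟨h1, h2⟩ := log_facts hM hB
  unfold rt
  positivity

/-- PROOF: `1 + log u ≥ 1`. -/
theorem rt_mono {C C' M B : ℕ} (hM : 2 ≤ M) (hB : M ≤ B) (hC : C ≤ C') : rt C M B ≤ rt C' M B := by
  obtain ⟨h1, h2⟩ := log_facts hM hB
  unfold rt
  refine mul_le_mul_of_nonneg_right ?_ h2
  refine mul_le_mul (by exact_mod_cast hC) (pow_le_pow_right₀ (by linarith) hC) (by positivity)
    (Nat.cast_nonneg _)

/-- PROOF: take `C = k + C₀`, `C₀ ≥ c`. -/
theorem exists_rt (c : ℝ) (k : ℕ) : ∃ C : ℕ, ∀ M B : ℕ, 2 ≤ M → M ≤ B →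
    c * (1 + Real.log (Real.log B / Real.log M)) ^ k * (Real.log M / Real.log B) ≤ rt C M B := by
  obtain ⟨C₀, hC₀⟩ := exists_nat_ge c
  refine ⟨k + C₀, fun M B hM hB => ?_⟩
  obtain ⟨h1, h2⟩ := log_facts hM hB
  unfold rt
  refine mul_le_mul_of_nonneg_right ?_ h2
  have h3 : c ≤ ((k + C₀ : ℕ) : ℝ) := hC₀.trans (by exact_mod_cast Nat.le_add_left _ _)
  have h4 : (1 + Real.log (Real.log B / Real.log M)) ^ k ≤
      (1 + Real.log (Real.log B / Real.log M)) ^ (k + C₀) :=
    pow_le_pow_right₀ (by linarith) (Nat.le_add_right _ _)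
  exact mul_le_mul h3 h4 (by positivity) (Nat.cast_nonneg _)

end MP60829e.ZV
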