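import Mathlib
import Pool.Agent.Lib.MP_60829e_nt.ZL.LD
import Pool.Agent.Lib.MP_60829e_nt.ZL.Om
import Pool.Agent.Lib.MP_60829e_nt.ZL.Fun

/-! # Theorem ZV: definitions (Theorem ZL for vectors of logarithms)

`Qa` = the algebraic numbers, `Lt` = the `Qa`-span of `1` and all logarithms of algebraic numbers, `J` a
finite set, the index set of the coordinates. Compare ZL/Defs.lean (`J` a point). -/

open Module Finset MvPolynomial

namespace MP60829e.ZV

open MP60829e.ST (Qa Lt)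

variable {J : Type} [Fintype J]

/-- The exponents of degree at most `D`. -/
noncomputable def Ix (J : Type) [Fintype J] (D : ℕ) : Finset (J →₀ ℕ) :=
  (Finsupp.finite_of_degree_le (σ := J) D).toFinset

theorem mem_Ix {D : ℕ} {α : J →₀ ℕ} : α ∈ Ix J D ↔ α.degree ≤ D := by
  unfold Ix
  rw [Set.Finite.mem_toFinset]
  exact Iff.rfl

/-- The monomial. -/
noncomputable def mon (x : J → ℂ) (α : J →₀ ℕ) : ℂ := ∏ j, x j ^ α j

/-- The coordinates of `x` are linearly independent modulo `V`. -/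
def Ind (V : Submodule Qa ℂ) (x : J → ℂ) : Prop := ∀ c : J → Qa, ∑ j, c j • x j ∈ V → c = 0

/-- No nonlinear polynomial of degree at most `D` over `Y` takes at `z` a value in `Y * Lt`. -/
def Gen (Y : Submodule Qa ℂ) (D : ℕ) (z : J → ℂ) : Prop :=
  ∀ f : MvPolynomial J ℂ, (∀ α, f.coeff α ∈ Y) → f.totalDegree ≤ D → eval z f ∈ Y * Lt →
    f.totalDegree ≤ 1

/-- A row: a set of vectors over `Lt`, with `0`, which contains for each space of dimension `< T` a vector
with coordinates linearly independent modulo this space. -/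
def Row (T : ℕ) (R : Set (J → ℂ)) : Prop :=
  (0 : J → ℂ) ∈ R ∧ (∀ x ∈ R, ∀ j, x j ∈ Lt) ∧
    ∀ V : Submodule Qa ℂ, FiniteDimensional Qa V → finrank Qa V < T → ∃ x ∈ R, Ind V x

/-- The span of `1` and of the coordinates of `w`, `δ 0`, …, `δ (m - 1)`. -/
noncomputable def P (w : J → ℂ) (δ : ℕ → J → ℂ) (m : ℕ) : Submodule Qa ℂ :=
  Submodule.span Qa (insert 1 (Set.range w ∪ {z | ∃ t < m, ∃ j, z = δ t j}))

/-- The mixed difference of order `S` of the monomial `α` at `w`, with steps `δ t`, `t ∈ S`. -/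
noncomputable def om (w : J → ℂ) (δ : ℕ → J → ℂ) (α : J →₀ ℕ) (S : Finset ℕ) : ℂ :=
  ∑ S' ∈ S.powerset, (-1) ^ (S.card + S'.card) * mon (w + ∑ t ∈ S', δ t) α

/-- The top differences `om 0 δ α S`, `|α| = |S|`, `S ⊆ {0, …, m - 1}`, are linearly independent over
`Y`. (`om 0 δ α S` is `∏ j, (α j)!` times the sum over the maps `e : S → J` of content `α` of
`∏ t ∈ S, δ t (e t)`.) -/
def MF (Y : Submodule Qa ℂ) (δ : ℕ → J → ℂ) (m : ℕ) : Prop :=
  ∀ c : (J →₀ ℕ) → Finset ℕ → ℂ, (∀ α S, c α S ∈ Y) →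
    ∑ S ∈ (range m).powerset, ∑ α ∈ (Ix J m).filter (fun α => α.degree = S.card),
      c α S * om 0 δ α S = 0 →
    ∀ S ∈ (range m).powerset, ∀ α : J →₀ ℕ, α.degree = S.card → c α S = 0

/-- The differences `om w δ α S`, `S ⊆ {0, …, m - 1}`, `|S| ≤ |α| ≤ D`, are linearly independent over
`A`. -/
def FF (A : Submodule Qa ℂ) (w : J → ℂ) (δ : ℕ → J → ℂ) (m D : ℕ) : Prop :=
  ∀ b : (J →₀ ℕ) → Finset ℕ → ℂ, (∀ α S, b α S ∈ A) →
    ∑ α ∈ Ix J D, ∑ S ∈ (range m).powerset, b α S * om w δ α S = 0 →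
    ∀ α ∈ Ix J D, ∀ S ∈ (range m).powerset, S.card ≤ α.degree → b α S = 0

/-- Every polynomial of degree at most `D` with coefficients in `E * Lt` vanishing at `x` is a
combination of the `X j - x j` over `E`. -/
def Good (E : Submodule Qa ℂ) (D : ℕ) (x : J → ℂ) : Prop :=
  ∀ F : MvPolynomial J ℂ, (∀ α, F.coeff α ∈ E * Lt) → F.totalDegree ≤ D → eval x F = 0 →
    ∃ G : J → MvPolynomial J ℂ, (∀ j α, (G j).coeff α ∈ E) ∧ (∀ j, (G j).totalDegree ≤ D) ∧
      F = ∑ j, (X j - C (x j)) * G j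

end MP60829e.ZV
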