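import Mathlib
import Pool.Agent.Lib.MP_60829e_nt.ZK.Lg

/-! # Theorem ZV: no multiplicative relations between the conjugates of primes of degree one -/

open Finset NumberField IsDedekindDomain Module

namespace MP60829e.ZV

open MP60829e.ZK (Pr toI lgK gen span_gen gen_ne_zero)

/-- Different embeddings differ at some integer. -/
theorem exists_sep {K N : Type} [Field K] [NumberField K] [Field N] {f g : K →+* N} (h : f ≠ g) :
    ∃ θ : 𝓞 K, f (θ : K) ≠ g (θ : K) := by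
  by_contra hcon
  push Not at hcon
  apply h
  ext z
  obtain ⟨a, b, hb, rfl⟩ := IsFractionRing.div_surjective (A := 𝓞 K) z
  rw [map_div₀, map_div₀]
  have h1 := hcon a
  have h2 := hcon b
  rw [show algebraMap (𝓞 K) K a = (a : K) from rfl, show algebraMap (𝓞 K) K b = (b : K) from rfl,
    h1, h2]

/-- A prime ideal of degree one: each integer is congruent to a rational integer. -/
theorem exists_int {K : Type} [Field K] [NumberField K] {x : Ideal (𝓞 K)}
    (hp : (Ideal.absNorm x).Prime) (θ : 𝓞 K) : ∃ a : ℤ, θ - (a : 𝓞 K) ∈ x := by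
  have hcard : Nat.card (𝓞 K ⧸ x) = Ideal.absNorm x := rfl
  have : Fact (Ideal.absNorm x).Prime := ⟨hp⟩
  have hne : (1 : 𝓞 K ⧸ x) ≠ 0 := by
    intro h1
    rw [← map_one (Ideal.Quotient.mk x), Ideal.Quotient.eq_zero_iff_mem] at h1
    rw [(Ideal.eq_top_iff_one x).2 h1, Ideal.absNorm_top] at hp
    exact Nat.not_prime_one hp
  have h2 := zmultiples_eq_top_of_prime_card hcard hne
  have h3 : (Ideal.Quotient.mk x θ) ∈ AddSubgroup.zmultiples (1 : 𝓞 K ⧸ x) := by
    rw [h2]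
    trivial
  obtain ⟨a, ha⟩ := AddSubgroup.mem_zmultiples_iff.1 h3
  refine ⟨a, ?_⟩
  rw [← Ideal.Quotient.eq_zero_iff_mem, map_sub, ← ha, map_intCast, zsmul_eq_mul, mul_one, sub_self]

theorem disc_aux (K N : Type) [Field K] [NumberField K] [Field N] [NumberField N] {J : Type}
    [Fintype J] (f : J → K →+* N) (hf : Function.Injective f) :
    ∃ Δ : ℕ, Δ ≠ 0 ∧ ∀ (P : HeightOneSpectrum (𝓞 N)) (i j : J) (x : Ideal (𝓞 K)),
      (Ideal.absNorm x).Prime → ¬ Ideal.absNorm x ∣ Δ →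
      (∀ a ∈ x, RingOfIntegers.mapRingHom (f i) a ∈ P.asIdeal) →
      (∀ a ∈ x, RingOfIntegers.mapRingHom (f j) a ∈ P.asIdeal) → i = j := by
  classical
  have h1 : ∀ p : J × J, ∃ θ : 𝓞 K, p.1 ≠ p.2 → f p.1 (θ : K) ≠ f p.2 (θ : K) := by
    intro p
    by_cases hp : p.1 = p.2
    · exact ⟨0, fun h => absurd hp h⟩
    · obtain ⟨θ, hθ⟩ := exists_sep (fun h => hp (hf h))
      exact ⟨θ, fun _ => hθ⟩
  choose θ hθ using h1
  refine ⟨∏ p : J × J, if p.1 ≠ p.2 then Ideal.absNorm (Ideal.span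
    {RingOfIntegers.mapRingHom (f p.1) (θ p) - RingOfIntegers.mapRingHom (f p.2) (θ p)}) else 1,
    ?_, ?_⟩
  · rw [Finset.prod_ne_zero_iff]
    intro p _
    split_ifs with hp
    · rw [Ne, Ideal.absNorm_eq_zero_iff, Ideal.span_singleton_eq_bot, sub_eq_zero]
      intro h2
      exact hθ p hp (congrArg (fun z : 𝓞 N => (z : N)) h2)
    · exact one_ne_zero
  · intro P i j x hp hndvd hi hj
    by_contra hij
    obtain ⟨a, ha⟩ := exists_int hp (θ (i, j))
    have hmem : RingOfIntegers.mapRingHom (f i) (θ (i, j)) -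
        RingOfIntegers.mapRingHom (f j) (θ (i, j)) ∈ P.asIdeal := by
      have h3 := P.asIdeal.sub_mem (hi _ ha) (hj _ ha)
      rw [map_sub, map_sub, map_intCast, map_intCast] at h3
      simpa using h3
    have hpP : ((Ideal.absNorm x : ℕ) : 𝓞 N) ∈ P.asIdeal := by
      have h3 := hi _ (Ideal.absNorm_mem x)
      rwa [map_natCast] at h3
    have h4 : Ideal.absNorm P.asIdeal ∣ Ideal.absNorm (Ideal.span
        {RingOfIntegers.mapRingHom (f i) (θ (i, j)) -
          RingOfIntegers.mapRingHom (f j) (θ (i, j))}) :=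
      Ideal.absNorm_dvd_absNorm_of_le ((Ideal.span_singleton_le_iff_mem _).2 hmem)
    have h5 : Ideal.absNorm P.asIdeal ∣ (Ideal.absNorm x) ^ finrank ℤ (𝓞 N) := by
      have h6 : Ideal.absNorm P.asIdeal ∣ Ideal.absNorm (Ideal.span {((Ideal.absNorm x : ℕ) : 𝓞 N)}) :=
        Ideal.absNorm_dvd_absNorm_of_le ((Ideal.span_singleton_le_iff_mem _).2 hpP)
      rw [Ideal.absNorm_span_singleton, Algebra.norm_natCast] at h6
      simpa using h6
    obtain ⟨k, -, hk⟩ := (Nat.dvd_prime_pow hp).1 h5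
    have hk0 : k ≠ 0 := by
      rintro rfl
      rw [pow_zero, Ideal.absNorm_eq_one_iff] at hk
      exact P.isPrime.ne_top hk
    apply hndvd
    refine ((dvd_pow_self _ hk0).trans (hk ▸ h4)).trans ?_
    have h7 := Finset.dvd_prod_of_mem (fun p : J × J => if p.1 ≠ p.2 then Ideal.absNorm (Ideal.span
      {RingOfIntegers.mapRingHom (f p.1) (θ p) - RingOfIntegers.mapRingHom (f p.2) (θ p)}) else 1)
      (Finset.mem_univ (i, j))
    simp only at h7
    rwa [if_pos hij] at h7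

/-- Two ideals of prime norm whose images are in `P` have the same norm. -/
theorem norm_eq_of_mem {K N : Type} [Field K] [NumberField K] [Field N] [NumberField N]
    {f g : K →+* N} (P : HeightOneSpectrum (𝓞 N)) {x y : Ideal (𝓞 K)}
    (hx : (Ideal.absNorm x).Prime) (hy : (Ideal.absNorm y).Prime)
    (h1 : ∀ a ∈ x, RingOfIntegers.mapRingHom f a ∈ P.asIdeal)
    (h2 : ∀ a ∈ y, RingOfIntegers.mapRingHom g a ∈ P.asIdeal) :
    Ideal.absNorm x = Ideal.absNorm y := by
  by_contra hne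
  have h3 : IsCoprime ((Ideal.absNorm x : ℕ) : ℤ) ((Ideal.absNorm y : ℕ) : ℤ) :=
    Nat.isCoprime_iff_coprime.2 ((Nat.coprime_primes hx hy).2 hne)
  obtain ⟨a, b, hab⟩ := h3
  have h4 := h1 _ (Ideal.absNorm_mem x)
  have h5 := h2 _ (Ideal.absNorm_mem y)
  rw [map_natCast] at h4 h5
  apply P.isPrime.ne_top
  rw [Ideal.eq_top_iff_one]
  have h6 : (1 : 𝓞 N) = (a : 𝓞 N) * ((Ideal.absNorm x : ℕ) : 𝓞 N) +
      (b : 𝓞 N) * ((Ideal.absNorm y : ℕ) : 𝓞 N) := by
    have h7 := congrArg (Int.cast : ℤ → 𝓞 N) hab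
    push_cast at h7
    exact h7.symm
  rw [h6]
  exact P.asIdeal.add_mem (P.asIdeal.mul_mem_left _ h4) (P.asIdeal.mul_mem_left _ h5)

/-- If `P` contains the image of `gen x` it contains the image of `x`. -/
theorem mem_of_gen_mem {K N : Type} [Field K] [NumberField K] [Field N] [NumberField N]
    {f : K →+* N} (P : HeightOneSpectrum (𝓞 N)) (x : Pr K)
    (h : RingOfIntegers.mapRingHom f (gen K x) ∈ P.asIdeal) :
    ∀ a ∈ x.asIdeal, RingOfIntegers.mapRingHom f a ∈ P.asIdeal := by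
  have h1 : x.asIdeal ^ classNumber K ≤ P.asIdeal.comap (RingOfIntegers.mapRingHom f) := by
    rw [← span_gen, Ideal.span_singleton_le_iff_mem]
    exact h
  have hpr : (P.asIdeal.comap (RingOfIntegers.mapRingHom f)).IsPrime := by
    have := P.isPrime
    infer_instance
  have h2 : x.asIdeal ≤ P.asIdeal.comap (RingOfIntegers.mapRingHom f) := hpr.le_of_pow_le h1
  exact fun a ha => h2 ha

/-- There is a prime which contains the image of `gen x`. -/
theorem exists_over {K N : Type} [Field K] [NumberField K] [Field N] [NumberField N]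
    (f : K →+* N) (x : Pr K) :
    ∃ P : HeightOneSpectrum (𝓞 N), RingOfIntegers.mapRingHom f (gen K x) ∈ P.asIdeal := by
  have hg0 : (gen K x : K) ≠ 0 := by
    exact_mod_cast gen_ne_zero K x
  have h1 : ¬ IsUnit (RingOfIntegers.mapRingHom f (gen K x)) := by
    intro hu
    obtain ⟨u, hu⟩ := hu
    have h2 : IsIntegral ℤ (f ((gen K x : K)⁻¹)) := by
      have h3 : f ((gen K x : K)⁻¹) = (((u⁻¹ : (𝓞 N)ˣ) : 𝓞 N) : N) := by
        have h4 : ((u : 𝓞 N) : N) * (((u⁻¹ : (𝓞 N)ˣ) : 𝓞 N) : N) = 1 := by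
          simp
        have h5 : ((u : 𝓞 N) : N) = f (gen K x : K) := by
          rw [hu]
          rfl
        rw [h5] at h4
        rw [map_inv₀]
        exact (eq_inv_of_mul_eq_one_right h4).symm
      rw [h3]
      exact RingOfIntegers.isIntegral_coe _
    have h6 : IsIntegral ℤ ((gen K x : K)⁻¹) :=
      (isIntegral_algHom_iff f.toIntAlgHom f.injective).1 h2
    obtain ⟨b, hb⟩ : ∃ b : 𝓞 K, (b : K) = (gen K x : K)⁻¹ := ⟨⟨_, h6⟩, rfl⟩
    have h7 : gen K x * b = 1 := by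
      apply RingOfIntegers.coe_injective
      rw [map_mul, map_one]
      change (gen K x : K) * (b : K) = 1
      rw [hb, mul_inv_cancel₀ hg0]
    have h8 : Ideal.span {gen K x} = ⊤ := Ideal.span_singleton_eq_top.2 (IsUnit.of_mul_eq_one _ h7)
    rw [span_gen] at h8
    have h9 : x.asIdeal ^ classNumber K ≤ x.asIdeal :=
      Ideal.pow_le_self (NumberField.classNumber_ne_zero K)
    rw [h8] at h9
    exact x.isPrime.ne_top (top_le_iff.1 h9)
  have h2 : Ideal.span {RingOfIntegers.mapRingHom f (gen K x)} ≠ ⊤ := fun h =>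
    h1 (Ideal.span_singleton_eq_top.1 h)
  obtain ⟨M, hM, hle⟩ := Ideal.exists_le_maximal _ h2
  have h3 : RingOfIntegers.mapRingHom f (gen K x) ∈ M :=
    (Ideal.span_singleton_le_iff_mem _).1 hle
  refine ⟨⟨M, hM.isPrime, ?_⟩, h3⟩
  intro h4
  rw [h4, Ideal.mem_bot] at h3
  have h5 := congrArg (fun z : 𝓞 N => (z : N)) h3
  have h6 : f (gen K x : K) = 0 := h5
  rw [map_eq_zero] at h6
  exact hg0 h6

/-- **No multiplicative relations.** -/
theorem exists_disc_aux (K : Type) [Field K] [NumberField K] : ∃ Δ : ℕ, Δ ≠ 0 ∧ ∀ (s : Finset (Pr K)),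
    (∀ x ∈ s, (Ideal.absNorm x.asIdeal).Prime ∧ ¬ Ideal.absNorm x.asIdeal ∣ Δ) →
    (∀ x ∈ s, ∀ x' ∈ s, Ideal.absNorm x.asIdeal = Ideal.absNorm x'.asIdeal → x = x') →
    ∀ n : Pr K → (K →+* ℂ) → ℤ, ∏ x ∈ s, ∏ σ : K →+* ℂ, (σ (gen K x : K)) ^ n x σ = 1 →
      ∀ x ∈ s, ∀ σ, n x σ = 0 := by
  classical
  obtain ⟨N, hN⟩ : ∃ N : IntermediateField ℚ ℂ, N = IntermediateField.normalClosure ℚ K ℂ := ⟨_, rfl⟩
  have hfd : FiniteDimensional ℚ N := by
    rw [hN]
    infer_instance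
  have hnf : NumberField N := { to_charZero := inferInstance, to_finiteDimensional := hfd }
  have hmem : ∀ (σ : K →+* ℂ) (z : K), σ z ∈ N := by
    intro σ z
    rw [hN]
    exact (AlgHom.fieldRange_le_normalClosure σ.toRatAlgHom) ⟨z, rfl⟩
  obtain ⟨f, hf⟩ : ∃ f : (K →+* ℂ) → K →+* N, ∀ σ z, (f σ z : ℂ) = σ z :=
    ⟨fun σ => σ.codRestrict N (hmem σ), fun σ z => rfl⟩
  have hfi : Function.Injective f := by
    intro σ τ h
    ext z
    rw [← hf σ z, ← hf τ z, h]
  obtain ⟨Δ, hΔ0, hΔ⟩ := disc_aux K N f hfi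
  refine ⟨Δ, hΔ0, fun s hs hs' n hprod x hx σ => ?_⟩
  obtain ⟨P, hP⟩ := exists_over (f σ) x
  have hPx := mem_of_gen_mem P x hP
  -- the other factors are units at `P`
  have hunit : ∀ y ∈ s, ∀ τ : K →+* ℂ, (y, τ) ≠ (x, σ) →
      P.valuation N (f τ (gen K y : K)) = 1 := by
    intro y hy τ hne
    have h1 : f τ (gen K y : K) =
        algebraMap (𝓞 N) N (RingOfIntegers.mapRingHom (f τ) (gen K y)) := rfl
    rw [h1, HeightOneSpectrum.valuation_eq_one_iff_notMem]
    intro h2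
    have h3 := mem_of_gen_mem P y h2
    have h4 := norm_eq_of_mem P (hs y hy).1 (hs x hx).1 h3 hPx
    have h5 := hs' y hy x hx h4
    subst h5
    have h6 := hΔ P τ σ y.asIdeal (hs y hy).1 (hs y hy).2 h3 hPx
    exact hne (by rw [h6])
  have hlt : P.valuation N (f σ (gen K x : K)) < 1 := by
    have h1 : f σ (gen K x : K) =
        algebraMap (𝓞 N) N (RingOfIntegers.mapRingHom (f σ) (gen K x)) := rfl
    rw [h1, HeightOneSpectrum.valuation_lt_one_iff_mem]
    exact hP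
  have hne0 : P.valuation N (f σ (gen K x : K)) ≠ 0 := by
    rw [Ne, Valuation.zero_iff, map_eq_zero]
    exact_mod_cast gen_ne_zero K x
  have hprodN : ∏ y ∈ s, ∏ τ : K →+* ℂ, (f τ (gen K y : K)) ^ n y τ = 1 := by
    apply N.val.injective
    rw [map_prod, map_one]
    refine Eq.trans ?_ hprod
    refine Finset.prod_congr rfl fun y _ => ?_
    rw [map_prod]
    refine Finset.prod_congr rfl fun τ _ => ?_
    rw [map_zpow₀]
    congr 1
    exact hf τ _
  have h1 := congrArg (P.valuation N) hprodN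
  rw [map_prod, map_one] at h1
  have h2 : ∏ y ∈ s, P.valuation N (∏ τ : K →+* ℂ, (f τ (gen K y : K)) ^ n y τ) =
      (P.valuation N (f σ (gen K x : K))) ^ n x σ := by
    rw [Finset.prod_eq_single_of_mem x hx]
    · rw [map_prod, Finset.prod_eq_single_of_mem σ (Finset.mem_univ σ), map_zpow₀]
      intro τ _ hτ
      rw [map_zpow₀, hunit x hx τ (fun h => hτ (Prod.mk.inj h).2), one_zpow]
    · intro y hy hyx
      rw [map_prod]
      refine Finset.prod_eq_one fun τ _ => ?_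
      rw [map_zpow₀, hunit y hy τ (fun h => hyx (Prod.mk.inj h).1), one_zpow]
  rw [h2] at h1
  by_contra hn
  rcases lt_or_gt_of_ne hn with h3 | h3
  · obtain ⟨k, hk⟩ : ∃ k : ℕ, n x σ = -((k + 1 : ℕ) : ℤ) := ⟨(-(n x σ) - 1).toNat, by omega⟩
    rw [hk, zpow_neg, zpow_natCast, inv_eq_one] at h1
    exact absurd h1 (pow_lt_one₀ zero_le hlt (Nat.succ_ne_zero k)).ne
  · obtain ⟨k, hk⟩ : ∃ k : ℕ, n x σ = ((k + 1 : ℕ) : ℤ) := ⟨(n x σ - 1).toNat, by omega⟩
    rw [hk, zpow_natCast] at h1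
    exact absurd h1 (pow_lt_one₀ zero_le hlt (Nat.succ_ne_zero k)).ne

end MP60829e.ZV
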