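import Mathlib
import Pool.Agent.Lib.MP_60829e_nt.ZK.Lg
import Pool.Agent.Lib.MP_60829e_nt.ZK.NFa
import Pool.Agent.Lib.MP_60829e_nt.ZV.Disc
import Pool.Agent.Lib.MP_60829e_nt.ZV.Ar2
import Pool.Agent.Lib.MP_60829e_nt.ZV.Defs

/-! # Theorem ZV: the logarithms of all conjugates -/

open Finset NumberField IsDedekindDomain Module

namespace MP60829e.ZV

open MP60829e.ST (Qa Lt)
open MP60829e.ZK (Pr toI lgK gen Ar nn)

variable (K : Type) [Field K] [NumberField K]

/-- The prime ideals of degree one over primes which do not divide `Δ`. -/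
def GP (Δ : ℕ) : Set (Pr K) :=
  {x | (Ideal.absNorm x.asIdeal).Prime ∧ ¬ Ideal.absNorm x.asIdeal ∣ Δ}

/-- Let `N` be a number field in `ℂ` which contains all the `σ K` (or `N = 𝓞`-closure as you like),
`Δ` the absolute norm of `∏_{σ ≠ τ} (σ θ - τ θ)`, `K = ℚ(θ)`. If `x` is in `GP K Δ` and a prime `P` of `N`
contains `σ x` and `τ x` then `θ = a + y` with `a ∈ ℤ`, `y ∈ x` (degree one), so `σ θ - τ θ ∈ P` and
`σ = τ`. Hence for each `x` and `σ` there is a multiplicative valuation-like map (the multiplicity of `P`)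
which is positive at `σ (gen x)`, and `0` at `τ (gen x)`, `τ ≠ σ`, and at `τ (gen x')` for `x'` over another
prime number. The statement below is what is needed: there are no multiplicative relations. -/
theorem exists_disc : ∃ Δ : ℕ, Δ ≠ 0 ∧ ∀ (s : Finset (Pr K)), (∀ x ∈ s, x ∈ GP K Δ) →
    (∀ x ∈ s, ∀ x' ∈ s, Ideal.absNorm x.asIdeal = Ideal.absNorm x'.asIdeal → x = x') →
    ∀ n : Pr K → (K →+* ℂ) → ℤ, ∏ x ∈ s, ∏ σ : K →+* ℂ, (σ (gen K x : K)) ^ n x σ = 1 →
      ∀ x ∈ s, ∀ σ, n x σ = 0 :=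
  exists_disc_aux K

end MP60829e.ZV
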