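import Mathlib
import Pool.Agent.Lib.MP_60829e_nt.ZV.Conj

/-! # Theorem ZV: the good primes of a number field -/

open Finset NumberField IsDedekindDomain Module

namespace MP60829e.ZV

open MP60829e.ZK (Pr Ar nn)

variable (K : Type) [Field K] [NumberField K]

/-- PROOF: `ZK.exists_ar`, `G = GP K Δ`, `F` = the primes over the prime divisors of `Δ` (finite by
`over_le`); `f x = 1` if and only if the norm is a prime number. -/
theorem exists_arG (Δ : ℕ) (hΔ : Δ ≠ 0) : ∃ 𝔸 : ArG (Pr K),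
    𝔸.N = (fun x => Ideal.absNorm x.asIdeal) ∧ 𝔸.G = GP K Δ := by
  classical
  obtain ⟨𝔸, h𝔸⟩ := ZK.exists_ar K
  have hfin : ∀ q : ℕ, {x | 𝔸.pr x = q}.Finite := by
    intro q
    by_contra hinf
    obtain ⟨s, hs, hc⟩ := Set.Infinite.exists_subset_card_eq hinf (𝔸.d + 1)
    have h1 := 𝔸.over_le q s fun x hx => hs hx
    omega
  have hFfin : {x | 𝔸.pr x ∣ Δ}.Finite := by
    have h1 : {x | 𝔸.pr x ∣ Δ} ⊆ ⋃ q ∈ (Δ.divisors : Set ℕ), {x | 𝔸.pr x = q} := by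
      intro x hx
      simp only [Set.mem_iUnion]
      exact ⟨𝔸.pr x, Finset.mem_coe.2 (Nat.mem_divisors.2 ⟨hx, hΔ⟩), rfl⟩
    exact ((Finset.finite_toSet _).biUnion fun q _ => hfin q).subset h1
  refine ⟨{ toAr := 𝔸, G := GP K Δ, F := hFfin.toFinset, bad := fun x hG hF => ?_ }, h𝔸, rfl⟩
  by_contra hcon
  have h1 := 𝔸.f_pos x
  have h2 : 𝔸.f x = 1 := by omega
  have h3 : Ideal.absNorm x.asIdeal = 𝔸.pr x := by
    have h4 := 𝔸.N_eq x
    rw [h𝔸, h2, pow_one] at h4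
    exact h4
  apply hG
  refine ⟨?_, ?_⟩
  · rw [h3]
    exact 𝔸.prime_pr x
  · rw [h3]
    intro h4
    exact hF (hFfin.mem_toFinset.2 h4)

end MP60829e.ZV
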