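import Mathlib
import Pool.Agent.Lib.MP_60829e_nt.ZK.Div

/-! # Theorem ZV: Mertens' theorem for intervals -/

open Finset

namespace MP60829e.ZV

open MP60829e.ZK (Ar nn)

private theorem har (a b : ℝ) (ha : 0 < a) (hb : 0 < b) (J : ℕ) :
    ∑ j ∈ range (J + 1), 1 / (a + j * b) ≤ 1 / a + 1 / b * Real.log ((a + J * b) / a) := by
  induction J with
  | zero =>
    rw [Finset.sum_range_one, Nat.cast_zero, zero_mul, add_zero, div_self ha.ne', Real.log_one,
      mul_zero, add_zero]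
  | succ J ih =>
    rw [Finset.sum_range_succ]
    have hJ : (0 : ℝ) ≤ J := Nat.cast_nonneg J
    have h1 : 0 < a + J * b := by positivity
    have h2 : 0 < a + ((J + 1 : ℕ) : ℝ) * b := by positivity
    have h3 : 1 / (a + ((J + 1 : ℕ) : ℝ) * b) ≤
        1 / b * Real.log ((a + ((J + 1 : ℕ) : ℝ) * b) / (a + J * b)) := by
      have h4 := Real.one_sub_inv_le_log_of_pos (div_pos h2 h1)
      rw [inv_div] at h4
      have h5 : 1 - (a + J * b) / (a + ((J + 1 : ℕ) : ℝ) * b) =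
          b / (a + ((J + 1 : ℕ) : ℝ) * b) := by
        rw [eq_div_iff h2.ne', sub_mul, div_mul_cancel₀ _ h2.ne']
        push_cast
        ring
      rw [h5] at h4
      calc 1 / (a + ((J + 1 : ℕ) : ℝ) * b) = 1 / b * (b / (a + ((J + 1 : ℕ) : ℝ) * b)) := by
            field_simp
        _ ≤ _ := mul_le_mul_of_nonneg_left h4 (by positivity)
    have h6 : Real.log ((a + ((J + 1 : ℕ) : ℝ) * b) / a) =
        Real.log ((a + ((J + 1 : ℕ) : ℝ) * b) / (a + J * b)) + Real.log ((a + J * b) / a) := by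
      rw [← Real.log_mul (div_pos h2 h1).ne' (div_pos h1 ha).ne', div_mul_div_cancel₀ h1.ne']
    rw [h6, mul_add]
    linarith

/-- A dyadic block. -/
private theorem block {P : Type} (𝔸 : Ar P) {y : ℕ} (hy : 2 ≤ y) (T : Finset P)
    (hT : ∀ x ∈ T, y ≤ 𝔸.N x ∧ 𝔸.N x < 2 * y) :
    ∑ x ∈ T, 1 / ((𝔸.N x : ℝ) - 1) ≤ 24 * 𝔸.d * (1 / Real.log y) := by
  have hy2 : (2 : ℝ) ≤ y := by exact_mod_cast hy
  have hy0 : (0 : ℝ) < y := by linarith
  have hly : 0 < Real.log y := Real.log_pos (by linarith)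
  have h1 := MP60829e.ZK.psiK_le 𝔸 T 1 (2 * y)
  have h2 : ∑ x ∈ T, ∑ k ∈ Icc 1 1, (if 𝔸.N x ^ k ≤ 2 * y then Real.log (𝔸.N x) else 0) =
      ∑ x ∈ T, Real.log (𝔸.N x) := by
    refine Finset.sum_congr rfl fun x hx => ?_
    rw [Finset.Icc_self, Finset.sum_singleton, pow_one, if_pos (hT x hx).2.le]
  rw [h2] at h1
  have h3 : ∀ x ∈ T, 1 / ((𝔸.N x : ℝ) - 1) ≤ 2 / (y * Real.log y) * Real.log (𝔸.N x) := by
    intro x hx
    have hN : (y : ℝ) ≤ 𝔸.N x := by exact_mod_cast (hT x hx).1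
    have hN0 : (0 : ℝ) < 𝔸.N x := by linarith
    have hlN : Real.log y ≤ Real.log (𝔸.N x) := Real.log_le_log hy0 hN
    have h4 : 1 / ((𝔸.N x : ℝ) - 1) ≤ 2 / y := by
      rw [div_le_div_iff₀ (by linarith) hy0]
      linarith
    refine h4.trans ?_
    have h5 : 2 / (y * Real.log y) * Real.log (𝔸.N x) = 2 / y * (Real.log (𝔸.N x) / Real.log y) := by
      field_simp
    rw [h5]
    have h6 : 1 ≤ Real.log (𝔸.N x) / Real.log y := by
      rw [le_div_iff₀ hly, one_mul]
      exact hlN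
    have h7 : (0 : ℝ) ≤ 2 / y := by positivity
    calc (2 : ℝ) / y = 2 / y * 1 := (mul_one _).symm
      _ ≤ _ := mul_le_mul_of_nonneg_left h6 h7
  refine (Finset.sum_le_sum h3).trans ?_
  rw [← Finset.mul_sum]
  have h8 : (0 : ℝ) ≤ 2 / (y * Real.log y) := by positivity
  refine (mul_le_mul_of_nonneg_left h1 h8).trans (le_of_eq ?_)
  push_cast
  field_simp
  ring

/-- Mertens' theorem for intervals, upper bound. PROOF: dyadic blocks and Chebyshev's bound
`ZK.psiK_le`. -/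
theorem sum_inv_interval {P : Type} (𝔸 : Ar P) : ∃ C : ℝ, 0 ≤ C ∧ ∀ s B : ℕ, 2 ≤ s → s ≤ B →
    ∀ T : Finset P, (∀ x ∈ T, s ≤ 𝔸.N x ∧ 𝔸.N x ≤ B) →
      ∑ x ∈ T, 1 / ((𝔸.N x : ℝ) - 1) ≤ C * (1 + Real.log (Real.log B / Real.log s)) := by
  classical
  have hl2 : 0 < Real.log 2 := Real.log_pos one_lt_two
  refine ⟨24 * 𝔸.d * (1 / Real.log 2), by positivity, fun s B hs hB T hT => ?_⟩
  have hs2 : (2 : ℝ) ≤ s := by exact_mod_cast hs
  have hs0 : (0 : ℝ) < s := by linarith
  have hls : 0 < Real.log s := Real.log_pos (by linarith)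
  have hl2s : Real.log 2 ≤ Real.log s := Real.log_le_log (by norm_num) hs2
  obtain ⟨J, hJ⟩ : ∃ J : ℕ, J = Nat.log 2 (B / s) := ⟨_, rfl⟩
  have hmap : ∀ x ∈ T, Nat.log 2 (𝔸.N x / s) ∈ range (J + 1) := by
    intro x hx
    rw [mem_range, hJ, Nat.lt_succ_iff]
    exact Nat.log_mono_right (Nat.div_le_div_right (hT x hx).2)
  rw [← Finset.sum_fiberwise_of_maps_to hmap]
  have hblock : ∀ j ∈ range (J + 1),
      ∑ x ∈ T.filter (fun x => Nat.log 2 (𝔸.N x / s) = j), 1 / ((𝔸.N x : ℝ) - 1) ≤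
        24 * 𝔸.d * (1 / (Real.log s + j * Real.log 2)) := by
    intro j _
    have h1 := block 𝔸 (y := 2 ^ j * s) (by
        have := Nat.one_le_two_pow (n := j)
        nlinarith) (T.filter (fun x => Nat.log 2 (𝔸.N x / s) = j)) (by
      intro x hx
      rw [mem_filter] at hx
      obtain ⟨hxT, hxj⟩ := hx
      have hpos : 𝔸.N x / s ≠ 0 := by
        have := Nat.div_pos (hT x hxT).1 (by omega)
        omega
      constructor
      · rw [← hxj]
        exact (Nat.le_div_iff_mul_le (by omega)).1 (Nat.pow_log_le_self 2 hpos)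
      · have h2 := Nat.lt_pow_succ_log_self (b := 2) (by norm_num) (𝔸.N x / s)
        rw [hxj, Nat.div_lt_iff_lt_mul (by omega)] at h2
        calc 𝔸.N x < 2 ^ (j + 1) * s := h2
          _ = 2 * (2 ^ j * s) := by ring)
    have h2 : Real.log ((2 ^ j * s : ℕ) : ℝ) = Real.log s + j * Real.log 2 := by
      push_cast
      rw [Real.log_mul (by positivity) hs0.ne', Real.log_pow]
      ring
    rw [h2] at h1
    exact h1
  refine (Finset.sum_le_sum hblock).trans ?_
  rw [← Finset.mul_sum]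
  have h3 := har (Real.log s) (Real.log 2) hls hl2 J
  have h4 : Real.log s + J * Real.log 2 ≤ Real.log B := by
    have h5 : (2 ^ J * s : ℕ) ≤ B := by
      rw [hJ]
      refine (Nat.le_div_iff_mul_le (by omega)).1 (Nat.pow_log_le_self 2 ?_)
      have := Nat.div_pos hB (by omega)
      omega
    have h6 : ((2 ^ J * s : ℕ) : ℝ) ≤ B := by exact_mod_cast h5
    have h7 : Real.log ((2 ^ J * s : ℕ) : ℝ) = Real.log s + J * Real.log 2 := by
      push_cast
      rw [Real.log_mul (by positivity) hs0.ne', Real.log_pow]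
      ring
    rw [← h7]
    exact Real.log_le_log (by positivity) h6
  have h8 : Real.log ((Real.log s + J * Real.log 2) / Real.log s) ≤
      Real.log (Real.log B / Real.log s) := by
    refine Real.log_le_log (by positivity) ?_
    exact div_le_div_of_nonneg_right h4 hls.le
  have h9 : 1 / Real.log s ≤ 1 / Real.log 2 := one_div_le_one_div_of_le hl2 hl2s
  have h10 : ∑ j ∈ range (J + 1), 1 / (Real.log s + j * Real.log 2) ≤
      1 / Real.log 2 * (1 + Real.log (Real.log B / Real.log s)) := by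
    have h11 := mul_le_mul_of_nonneg_left h8 (by positivity : (0 : ℝ) ≤ 1 / Real.log 2)
    linarith
  have h12 : (0 : ℝ) ≤ 24 * 𝔸.d := by positivity
  refine (mul_le_mul_of_nonneg_left h10 h12).trans (le_of_eq ?_)
  ring

end MP60829e.ZV
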