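import Mathlib
import Pool.Agent.Lib.MP_60829e_nt.ZV.Ar2
import Pool.Agent.Lib.MP_60829e_nt.ZK.Div

/-! # Theorem ZV: sums of logarithms over primes -/

open Finset

namespace MP60829e.ZV

open MP60829e.ZK (Ar nn over_sum)

/-- Mertens' first theorem, upper bound. -/
theorem sum_log_div (n : ℕ) (hn : 1 ≤ n) :
    ∑ p ∈ (Icc 1 n).filter Nat.Prime, Real.log p / p ≤ Real.log 4 * (1 + Real.log n) := by
  have hlog4 : 0 ≤ Real.log 4 := Real.log_nonneg (by norm_num)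
  have hth : ∀ k : ℕ, Chebyshev.theta k = ∑ p ∈ (Icc 1 k).filter Nat.Prime, Real.log p := by
    intro k
    rw [Chebyshev.theta_eq_sum_Icc, Nat.floor_natCast]
    refine Finset.sum_congr ?_ fun _ _ => rfl
    ext p
    simp only [mem_filter, mem_Icc]
    constructor
    · rintro ⟨⟨_, h⟩, hp⟩
      exact ⟨⟨hp.one_lt.le, h⟩, hp⟩
    · rintro ⟨⟨_, h⟩, hp⟩
      exact ⟨⟨Nat.zero_le _, h⟩, hp⟩
  have key : ∀ n : ℕ, 1 ≤ n → ∑ p ∈ (Icc 1 n).filter Nat.Prime, Real.log p / p ≤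
      Chebyshev.theta n / n + Real.log 4 * ((harmonic n : ℝ) - 1) := by
    intro n hn
    induction n, hn using Nat.le_induction with
    | base =>
      have h1 : (Icc 1 1).filter Nat.Prime = ∅ := by decide
      rw [h1, Finset.sum_empty]
      have h2 := Chebyshev.theta_nonneg ((1 : ℕ) : ℝ)
      have h3 : ((harmonic 1 : ℚ) : ℝ) = 1 := by
        rw [harmonic_succ, harmonic_zero]
        norm_num
      rw [h3]
      simp only [sub_self, mul_zero, add_zero]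
      positivity
    | succ n hn ih =>
      have hn0 : (0 : ℝ) < n := by exact_mod_cast hn
      have h3 : Icc 1 (n + 1) = insert (n + 1) (Icc 1 n) := by
        ext x; simp only [mem_Icc, mem_insert]; omega
      have h4 : ∑ p ∈ (Icc 1 (n + 1)).filter Nat.Prime, Real.log p / p -
          Chebyshev.theta ((n + 1 : ℕ) : ℝ) / ((n + 1 : ℕ) : ℝ) =
          ∑ p ∈ (Icc 1 n).filter Nat.Prime, Real.log p / p -
          Chebyshev.theta (n : ℝ) / ((n + 1 : ℕ) : ℝ) := by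
        rw [hth (n + 1), hth n, h3, Finset.filter_insert]
        split_ifs with hp
        · rw [Finset.sum_insert (by simp), Finset.sum_insert (by simp)]
          ring
        · ring
      have h5 := Chebyshev.theta_le_log4_mul_x hn0.le
      have h6 : ((harmonic (n + 1) : ℚ) : ℝ) = (harmonic n : ℝ) + 1 / ((n + 1 : ℕ) : ℝ) := by
        rw [harmonic_succ]
        push_cast
        ring
      have h7 : Chebyshev.theta (n : ℝ) / n - Chebyshev.theta (n : ℝ) / ((n + 1 : ℕ) : ℝ) ≤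
          Real.log 4 * (1 / ((n + 1 : ℕ) : ℝ)) := by
        have h8 : Chebyshev.theta (n : ℝ) / n - Chebyshev.theta (n : ℝ) / ((n + 1 : ℕ) : ℝ) =
            (Chebyshev.theta (n : ℝ) / n) * (1 / ((n + 1 : ℕ) : ℝ)) := by
          push_cast
          field_simp
          ring
        rw [h8]
        refine mul_le_mul_of_nonneg_right ?_ (by positivity)
        rw [div_le_iff₀ hn0]
        exact h5
      rw [h6]
      linarith
  have h1 := key n hn
  have hn0 : (0 : ℝ) < n := by exact_mod_cast hn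
  have h2 := Chebyshev.theta_le_log4_mul_x hn0.le
  have h3 : Chebyshev.theta (n : ℝ) / n ≤ Real.log 4 := by
    rw [div_le_iff₀ hn0]
    exact h2
  have h4 := harmonic_le_one_add_log n
  have h5 : Real.log 4 * ((harmonic n : ℝ) - 1) ≤ Real.log 4 * Real.log n :=
    mul_le_mul_of_nonneg_left (by linarith) hlog4
  linarith

/-- PROOF: the primes with `f x = 1` and `N x < s`: Chebyshev; `f x ≥ 2`: convergent series
`∑ p, d * 8 / p ^ (3 / 2)`; `F`: finitely many. -/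
theorem sum_log_small {P : Type} (𝔸 : ArG P) : ∃ C : ℝ, 0 ≤ C ∧ ∀ s : ℕ, 2 ≤ s →
    ∀ T : Finset P, (∀ x ∈ T, 𝔸.N x < s ∨ x ∉ 𝔸.G) →
      ∑ x ∈ T, Real.log (𝔸.N x) / ((𝔸.N x : ℝ) - 1) ≤ C * Real.log s := by
  classical
  have hN2 : ∀ x, (2 : ℝ) ≤ 𝔸.N x := fun x => by exact_mod_cast 𝔸.two_le x
  obtain ⟨c2, hc2⟩ : ∃ c2 : ℝ, c2 = ∑' n : ℕ, 8 * (1 / (n : ℝ) ^ (3 / 2 : ℝ)) := ⟨_, rfl⟩
  have hsum : Summable fun n : ℕ => 8 * (1 / (n : ℝ) ^ (3 / 2 : ℝ)) :=
    (Real.summable_one_div_nat_rpow.2 (by norm_num)).mul_left 8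
  have hc20 : 0 ≤ c2 := by
    rw [hc2]
    exact tsum_nonneg fun n => by positivity
  have hlog4 : 0 < Real.log 4 := Real.log_pos (by norm_num)
  have hlog2 : 0 < Real.log 2 := Real.log_pos (by norm_num)
  have hd0 : (0 : ℝ) ≤ 𝔸.d := Nat.cast_nonneg _
  have hF0 : (0 : ℝ) ≤ 𝔸.F.card := Nat.cast_nonneg _
  refine ⟨𝔸.d * (2 * (Real.log 4 * (1 / Real.log 2 + 1))) + (𝔸.d * c2 + 𝔸.F.card) / Real.log 2,
    by positivity, fun s hs T hT => ?_⟩
  have hs2 : (2 : ℝ) ≤ s := by exact_mod_cast hs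
  have hlogs : Real.log 2 ≤ Real.log s := Real.log_le_log (by norm_num) hs2
  -- the three parts
  have h1 : ∑ x ∈ T, Real.log (𝔸.N x) / ((𝔸.N x : ℝ) - 1) ≤
      ∑ x ∈ T.filter (fun x => 𝔸.f x = 1 ∧ 𝔸.N x < s), Real.log (𝔸.N x) / ((𝔸.N x : ℝ) - 1) +
      ∑ x ∈ T.filter (fun x => 2 ≤ 𝔸.f x), Real.log (𝔸.N x) / ((𝔸.N x : ℝ) - 1) +
      ∑ x ∈ T.filter (fun x => x ∈ 𝔸.F), Real.log (𝔸.N x) / ((𝔸.N x : ℝ) - 1) := by
    rw [Finset.sum_filter, Finset.sum_filter, Finset.sum_filter, ← Finset.sum_add_distrib,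
      ← Finset.sum_add_distrib]
    refine Finset.sum_le_sum fun x hx => ?_
    have h0 : 0 ≤ Real.log (𝔸.N x) / ((𝔸.N x : ℝ) - 1) :=
      div_nonneg (Real.log_natCast_nonneg _) (by linarith [hN2 x])
    by_cases ha : 𝔸.f x = 1 ∧ 𝔸.N x < s
    · rw [if_pos ha]
      have h2 : 0 ≤ (if 2 ≤ 𝔸.f x then Real.log (𝔸.N x) / ((𝔸.N x : ℝ) - 1) else 0) := by
        split_ifs <;> simp [h0]
      have h3 : 0 ≤ (if x ∈ 𝔸.F then Real.log (𝔸.N x) / ((𝔸.N x : ℝ) - 1) else 0) := by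
        split_ifs <;> simp [h0]
      linarith
    · rw [if_neg ha]
      by_cases hb : 2 ≤ 𝔸.f x
      · rw [if_pos hb]
        have h3 : 0 ≤ (if x ∈ 𝔸.F then Real.log (𝔸.N x) / ((𝔸.N x : ℝ) - 1) else 0) := by
          split_ifs <;> simp [h0]
        linarith
      · have hf1 : 𝔸.f x = 1 := by
          have := 𝔸.f_pos x
          omega
        have hxG : x ∉ 𝔸.G := by
          rcases hT x hx with h | h
          · exact absurd ⟨hf1, h⟩ ha
          · exact h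
        have hxF : x ∈ 𝔸.F := by
          by_contra h
          exact hb (𝔸.bad x hxG h)
        rw [if_neg hb, if_pos hxF]
        linarith
  -- the first part
  have h2 : ∑ x ∈ T.filter (fun x => 𝔸.f x = 1 ∧ 𝔸.N x < s),
      Real.log (𝔸.N x) / ((𝔸.N x : ℝ) - 1) ≤ 𝔸.d * (2 * (Real.log 4 * (1 + Real.log s))) := by
    obtain ⟨g, hg⟩ : ∃ g : ℕ → ℝ, g = fun (n : ℕ) => if 2 ≤ n then Real.log n / ((n : ℝ) - 1) else 0 :=
      ⟨_, rfl⟩
    have hg0 : ∀ n, 0 ≤ g n := by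
      intro n
      rw [hg]
      dsimp only
      split_ifs with h
      · have : (2 : ℝ) ≤ n := by exact_mod_cast h
        exact div_nonneg (Real.log_natCast_nonneg _) (by linarith)
      · exact le_rfl
    have h3 := over_sum 𝔸.toAr (T.filter (fun x => 𝔸.f x = 1 ∧ 𝔸.N x < s)) g hg0
    have h4 : ∑ x ∈ T.filter (fun x => 𝔸.f x = 1 ∧ 𝔸.N x < s),
        Real.log (𝔸.N x) / ((𝔸.N x : ℝ) - 1) =
        ∑ x ∈ T.filter (fun x => 𝔸.f x = 1 ∧ 𝔸.N x < s), g (𝔸.pr x) := by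
      refine Finset.sum_congr rfl fun x hx => ?_
      rw [mem_filter] at hx
      rw [𝔸.N_eq, hx.2.1, pow_one, hg]
      dsimp only
      rw [if_pos (𝔸.prime_pr x).two_le]
    rw [h4]
    refine h3.trans (mul_le_mul_of_nonneg_left ?_ hd0)
    have h5 : ∑ p ∈ (T.filter (fun x => 𝔸.f x = 1 ∧ 𝔸.N x < s)).image 𝔸.pr, g p ≤
        ∑ p ∈ (Icc 1 s).filter Nat.Prime, g p := by
      refine Finset.sum_le_sum_of_subset_of_nonneg ?_ fun p _ _ => hg0 p
      intro p hp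
      rw [mem_image] at hp
      obtain ⟨x, hx, rfl⟩ := hp
      rw [mem_filter] at hx
      rw [mem_filter, mem_Icc]
      have h6 := 𝔸.pr_le x
      exact ⟨⟨(𝔸.prime_pr x).one_lt.le, by omega⟩, 𝔸.prime_pr x⟩
    refine h5.trans ?_
    have h6 : ∑ p ∈ (Icc 1 s).filter Nat.Prime, g p ≤
        ∑ p ∈ (Icc 1 s).filter Nat.Prime, 2 * (Real.log p / p) := by
      refine Finset.sum_le_sum fun p hp => ?_
      rw [mem_filter] at hp
      have hp2 : (2 : ℝ) ≤ p := by exact_mod_cast hp.2.two_le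
      rw [hg]
      dsimp only
      rw [if_pos hp.2.two_le, ← mul_div_assoc, div_le_div_iff₀ (by linarith) (by linarith)]
      have h7 : 0 ≤ Real.log p := Real.log_natCast_nonneg _
      nlinarith
    refine h6.trans ?_
    rw [← Finset.mul_sum]
    exact mul_le_mul_of_nonneg_left (sum_log_div s (by omega)) (by norm_num)
  -- the second part
  have h3 : ∑ x ∈ T.filter (fun x => 2 ≤ 𝔸.f x), Real.log (𝔸.N x) / ((𝔸.N x : ℝ) - 1) ≤
      𝔸.d * c2 := by
    obtain ⟨g, hg⟩ : ∃ g : ℕ → ℝ, g = fun (n : ℕ) => 8 * (1 / (n : ℝ) ^ (3 / 2 : ℝ)) := ⟨_, rfl⟩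
    have hg0 : ∀ n, 0 ≤ g n := by
      intro n
      rw [hg]
      positivity
    have h4 : ∀ x ∈ T.filter (fun x => 2 ≤ 𝔸.f x),
        Real.log (𝔸.N x) / ((𝔸.N x : ℝ) - 1) ≤ g (𝔸.pr x) := by
      intro x hx
      rw [mem_filter] at hx
      have hp0 : (0 : ℝ) < 𝔸.pr x := by exact_mod_cast (𝔸.prime_pr x).pos
      have hp1 : 1 ≤ 𝔸.pr x := (𝔸.prime_pr x).pos
      have hNp : ((𝔸.pr x : ℝ)) ^ 2 ≤ 𝔸.N x := by
        rw [𝔸.N_eq]
        exact_mod_cast Nat.pow_le_pow_right hp1 hx.2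
      have hN0 : (0 : ℝ) < 𝔸.N x := by linarith [hN2 x]
      have h5 : Real.log (𝔸.N x) ≤ (𝔸.N x : ℝ) ^ (1 / 4 : ℝ) / (1 / 4) :=
        Real.log_le_rpow_div hN0.le (by norm_num)
      have h6 : Real.log (𝔸.N x) / ((𝔸.N x : ℝ) - 1) ≤
          (4 * (𝔸.N x : ℝ) ^ (1 / 4 : ℝ)) / ((𝔸.N x : ℝ) / 2) := by
        refine div_le_div₀ (by positivity) (by linarith) (by positivity) ?_
        linarith [hN2 x]
      refine h6.trans ?_
      have h7 : (4 * (𝔸.N x : ℝ) ^ (1 / 4 : ℝ)) / ((𝔸.N x : ℝ) / 2) =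
          8 * (1 / (𝔸.N x : ℝ) ^ (3 / 4 : ℝ)) := by
        have h8 : (𝔸.N x : ℝ) = (𝔸.N x : ℝ) ^ (1 / 4 : ℝ) * (𝔸.N x : ℝ) ^ (3 / 4 : ℝ) := by
          rw [← Real.rpow_add hN0]
          norm_num
        have h9 : 0 < (𝔸.N x : ℝ) ^ (1 / 4 : ℝ) := by positivity
        have h10 : 0 < (𝔸.N x : ℝ) ^ (3 / 4 : ℝ) := by positivity
        rw [div_eq_iff (by positivity)]
        nth_rw 3 [h8]
        field_simp
        norm_num
      rw [h7, hg]
      dsimp only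
      refine mul_le_mul_of_nonneg_left ?_ (by norm_num)
      refine one_div_le_one_div_of_le (by positivity) ?_
      have h8 : (𝔸.pr x : ℝ) ^ (3 / 2 : ℝ) = ((𝔸.pr x : ℝ) ^ 2) ^ (3 / 4 : ℝ) := by
        rw [← Real.rpow_natCast, ← Real.rpow_mul hp0.le]
        norm_num
      rw [h8]
      exact Real.rpow_le_rpow (by positivity) hNp (by norm_num)
    refine (Finset.sum_le_sum h4).trans ((over_sum 𝔸.toAr _ g hg0).trans ?_)
    refine mul_le_mul_of_nonneg_left ?_ hd0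
    rw [hc2, hg]
    exact hsum.sum_le_tsum _ fun n _ => by positivity
  -- the third part
  have h4 : ∑ x ∈ T.filter (fun x => x ∈ 𝔸.F), Real.log (𝔸.N x) / ((𝔸.N x : ℝ) - 1) ≤
      𝔸.F.card := by
    have h5 : ∀ x ∈ T.filter (fun x => x ∈ 𝔸.F), Real.log (𝔸.N x) / ((𝔸.N x : ℝ) - 1) ≤ 1 := by
      intro x _
      rw [div_le_one (by linarith [hN2 x])]
      exact Real.log_le_sub_one_of_pos (by linarith [hN2 x])
    refine (Finset.sum_le_sum h5).trans ?_
    rw [Finset.sum_const, nsmul_eq_mul, mul_one]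
    exact_mod_cast card_le_card fun x hx => (mem_filter.1 hx).2
  have h5 : 1 ≤ Real.log s / Real.log 2 := (one_le_div hlog2).2 hlogs
  have h6 : 𝔸.d * (2 * (Real.log 4 * (1 + Real.log s))) ≤
      𝔸.d * (2 * (Real.log 4 * (1 / Real.log 2 + 1))) * Real.log s := by
    have h7 : 1 + Real.log s ≤ (1 / Real.log 2 + 1) * Real.log s := by
      rw [add_mul, one_mul, one_div_mul_eq_div]
      linarith
    calc 𝔸.d * (2 * (Real.log 4 * (1 + Real.log s)))
        ≤ 𝔸.d * (2 * (Real.log 4 * ((1 / Real.log 2 + 1) * Real.log s))) := by gcongr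
      _ = _ := by ring
  have h7 : 𝔸.d * c2 + 𝔸.F.card ≤ (𝔸.d * c2 + 𝔸.F.card) / Real.log 2 * Real.log s := by
    rw [div_mul_eq_mul_div, mul_div_assoc]
    exact le_mul_of_one_le_right (by positivity) h5
  rw [add_mul]
  linarith

end MP60829e.ZV
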