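import Mathlib
import Pool.Agent.Lib.MP_60829e_nt.ZV.Sum2b
import Pool.Agent.Lib.MP_60829e_nt.ZK.Sum

/-! # Theorem ZV: sums over smooth elements -/

open Finset

namespace MP60829e.ZV

open MP60829e.ZK (Ar nn nn_add nn_single log_nn exp_le N_le_nn geom_le)

/-- PROOF: `1 / n = 1 / y + ∑_{n ≤ k < y} 1 / (k (k + 1))` and `card_le`. -/
theorem sum_inv_el {P : Type} (𝔸 : Ar P) {y : ℕ} (hy : 1 ≤ y) :
    ∑ a ∈ 𝔸.el y, 1 / (nn 𝔸.N a : ℝ) ≤ 𝔸.A * (1 + Real.log y) := by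
  classical
  have hA0 : (0 : ℝ) ≤ 𝔸.A := Nat.cast_nonneg _
  have key : ∀ y : ℕ, 1 ≤ y → ∑ a ∈ 𝔸.el y, 1 / (nn 𝔸.N a : ℝ) ≤
      (𝔸.el y).card / y + 𝔸.A * ((harmonic y : ℝ) - 1) := by
    intro y hy
    induction y, hy using Nat.le_induction with
    | base =>
      have h1 : ∑ a ∈ 𝔸.el 1, 1 / (nn 𝔸.N a : ℝ) ≤ ∑ a ∈ 𝔸.el 1, (1 : ℝ) := by
        refine Finset.sum_le_sum fun a _ => ?_
        have h2 : (1 : ℝ) ≤ nn 𝔸.N a := by exact_mod_cast 𝔸.nn_pos a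
        rw [div_le_one (by linarith)]
        exact h2
      rw [Finset.sum_const, nsmul_eq_mul, mul_one] at h1
      have h3 : ((harmonic 1 : ℚ) : ℝ) = 1 := by
        rw [harmonic_succ, harmonic_zero]
        norm_num
      rw [h3]
      simp only [Nat.cast_one, div_one, sub_self, mul_zero, add_zero]
      exact h1
    | succ y hy ih =>
      have hy0 : (0 : ℝ) < y := by exact_mod_cast hy
      have hsub : 𝔸.el y ⊆ 𝔸.el (y + 1) := by
        intro a ha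
        rw [𝔸.mem_el] at ha ⊢
        omega
      have h1 : ∑ a ∈ 𝔸.el (y + 1), 1 / (nn 𝔸.N a : ℝ) - (𝔸.el (y + 1)).card / ((y + 1 : ℕ) : ℝ) =
          ∑ a ∈ 𝔸.el y, 1 / (nn 𝔸.N a : ℝ) - (𝔸.el y).card / ((y + 1 : ℕ) : ℝ) := by
        have h2 : ∀ s : Finset (P →₀ ℕ), ∑ a ∈ s, 1 / (nn 𝔸.N a : ℝ) - s.card / ((y + 1 : ℕ) : ℝ) =
            ∑ a ∈ s, (1 / (nn 𝔸.N a : ℝ) - 1 / ((y + 1 : ℕ) : ℝ)) := by
          intro s
          rw [Finset.sum_sub_distrib, Finset.sum_const, nsmul_eq_mul]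
          ring
        rw [h2, h2]
        symm
        refine Finset.sum_subset hsub fun a ha ha' => ?_
        rw [𝔸.mem_el] at ha ha'
        have h3 : nn 𝔸.N a = y + 1 := by omega
        rw [h3, sub_self]
      have h4 := 𝔸.card_el hy
      have h5 : ((𝔸.el y).card : ℝ) ≤ 𝔸.A * y := by exact_mod_cast h4
      have h6 : ((harmonic (y + 1) : ℚ) : ℝ) = (harmonic y : ℝ) + 1 / ((y + 1 : ℕ) : ℝ) := by
        rw [harmonic_succ]
        push_cast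
        ring
      have h7 : ((𝔸.el y).card : ℝ) / y - (𝔸.el y).card / ((y + 1 : ℕ) : ℝ) ≤
          𝔸.A * (1 / ((y + 1 : ℕ) : ℝ)) := by
        have h8 : ((𝔸.el y).card : ℝ) / y - (𝔸.el y).card / ((y + 1 : ℕ) : ℝ) =
            (((𝔸.el y).card : ℝ) / y) * (1 / ((y + 1 : ℕ) : ℝ)) := by
          push_cast
          field_simp
          ring
        rw [h8]
        refine mul_le_mul_of_nonneg_right ?_ (by positivity)
        rw [div_le_iff₀ hy0]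
        exact h5
      rw [h6]
      linarith
  have h1 := key y hy
  have hy0 : (0 : ℝ) < y := by exact_mod_cast hy
  have h2 : ((𝔸.el y).card : ℝ) / y ≤ 𝔸.A := by
    rw [div_le_iff₀ hy0]
    exact_mod_cast 𝔸.card_el hy
  have h4 := harmonic_le_one_add_log y
  have h5 : 𝔸.A * ((harmonic y : ℝ) - 1) ≤ 𝔸.A * Real.log y :=
    mul_le_mul_of_nonneg_left (by linarith) hA0
  linarith

/-- The logarithmic sum over a finite set closed under divisors. PROOF as for `ZK.div_closed`: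
`log (nn a) = ∑ x, ∑_{1 ≤ k ≤ a x} log (N x)` (`ZK.log_nn`), `a = k x + b`,
`∑_k (N x) ^ (- k) ≤ 1 / (N x - 1)`. -/
theorem log_sum {P : Type} (𝔸 : Ar P) (S : Finset (P →₀ ℕ)) (T : Finset P)
    (hd : ∀ a ∈ S, ∀ b, b ≤ a → b ∈ S) (hT : ∀ a ∈ S, a.support ⊆ T) :
    ∑ a ∈ S, Real.log (nn 𝔸.N a) / (nn 𝔸.N a : ℝ) ≤
      (∑ x ∈ T, Real.log (𝔸.N x) / ((𝔸.N x : ℝ) - 1)) * ∑ a ∈ S, 1 / (nn 𝔸.N a : ℝ) := by
  classical
  obtain ⟨B, hB⟩ : ∃ B : ℕ, ∀ a ∈ S, nn 𝔸.N a ≤ B :=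
    ⟨S.sup (nn 𝔸.N), fun a ha => Finset.le_sup (f := nn 𝔸.N) ha⟩
  have hL : ∀ x : P, 0 ≤ Real.log (𝔸.N x) := fun x => Real.log_natCast_nonneg _
  have hN2 : ∀ x, (2 : ℝ) ≤ 𝔸.N x := fun x => by exact_mod_cast 𝔸.two_le x
  have hSg0 : (0 : ℝ) ≤ ∑ a ∈ S, 1 / (nn 𝔸.N a : ℝ) := Finset.sum_nonneg fun m _ => by positivity
  have h1 : ∑ a ∈ S, Real.log (nn 𝔸.N a) / (nn 𝔸.N a : ℝ) =
      ∑ x ∈ T, ∑ k ∈ Icc 1 B, ∑ a ∈ S,
        (if k ≤ a x then Real.log (𝔸.N x) / (nn 𝔸.N a : ℝ) else 0) := by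
    have h2 : ∀ a ∈ S, Real.log (nn 𝔸.N a) / (nn 𝔸.N a : ℝ) =
        ∑ x ∈ T, ∑ k ∈ Icc 1 B, (if k ≤ a x then Real.log (𝔸.N x) / (nn 𝔸.N a : ℝ) else 0) := by
      intro a ha
      rw [log_nn 𝔸 (hB a ha) (hT a ha), Finset.sum_div]
      refine Finset.sum_congr rfl fun x _ => ?_
      rw [Finset.sum_div]
      refine Finset.sum_congr rfl fun k _ => ?_
      split_ifs
      · rfl
      · rw [zero_div]
    rw [Finset.sum_congr rfl h2, Finset.sum_comm]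
    refine Finset.sum_congr rfl fun x _ => ?_
    rw [Finset.sum_comm]
  rw [h1, Finset.sum_mul]
  refine Finset.sum_le_sum fun x _ => ?_
  have h2 : ∀ k ∈ Icc 1 B, ∑ a ∈ S,
      (if k ≤ a x then Real.log (𝔸.N x) / (nn 𝔸.N a : ℝ) else 0) ≤
        (Real.log (𝔸.N x) * (1 / (𝔸.N x : ℝ) ^ k)) * ∑ a ∈ S, 1 / (nn 𝔸.N a : ℝ) := by
    intro k _
    rw [← Finset.sum_filter]
    have hadd : ∀ a ∈ (S.filter fun a => k ≤ a x : Finset (P →₀ ℕ)),
        (a - Finsupp.single x k) + Finsupp.single x k = a := by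
      intro a ha
      refine tsub_add_cancel_of_le ?_
      rw [Finsupp.single_le_iff]
      exact (mem_filter.1 ha).2
    have hinj : Set.InjOn (fun a : P →₀ ℕ => a - Finsupp.single x k)
        ((S.filter fun a => k ≤ a x : Finset (P →₀ ℕ)) : Set (P →₀ ℕ)) := by
      intro a ha b hb hab
      rw [← hadd a ha, ← hadd b hb]
      exact congrArg (fun z => z + Finsupp.single x k) hab
    calc ∑ a ∈ S.filter (fun a => k ≤ a x), Real.log (𝔸.N x) / (nn 𝔸.N a : ℝ)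
        = ∑ a ∈ S.filter (fun a => k ≤ a x), (Real.log (𝔸.N x) * (1 / (𝔸.N x : ℝ) ^ k)) *
            (1 / (nn 𝔸.N (a - Finsupp.single x k) : ℝ)) := by
          refine Finset.sum_congr rfl fun a ha => ?_
          have h4 : nn 𝔸.N a = nn 𝔸.N (a - Finsupp.single x k) * 𝔸.N x ^ k := by
            conv_lhs => rw [← hadd a ha]
            rw [nn_add, nn_single]
          have h5 : (0 : ℝ) < 𝔸.N x := by linarith [hN2 x]
          have h6 : (0 : ℝ) < nn 𝔸.N (a - Finsupp.single x k) := by exact_mod_cast 𝔸.nn_pos _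
          rw [h4]
          push_cast
          field_simp
      _ = ∑ b ∈ (S.filter (fun a => k ≤ a x)).image (fun a => a - Finsupp.single x k),
            (Real.log (𝔸.N x) * (1 / (𝔸.N x : ℝ) ^ k)) * (1 / (nn 𝔸.N b : ℝ)) := by
          rw [Finset.sum_image hinj]
      _ ≤ ∑ b ∈ S, (Real.log (𝔸.N x) * (1 / (𝔸.N x : ℝ) ^ k)) * (1 / (nn 𝔸.N b : ℝ)) := by
          refine Finset.sum_le_sum_of_subset_of_nonneg ?_ (fun b _ _ => by
            have := hL x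
            positivity)
          intro b hb
          rw [mem_image] at hb
          obtain ⟨a, ha, rfl⟩ := hb
          exact hd a (mem_filter.1 ha).1 _ tsub_le_self
      _ = _ := by rw [Finset.mul_sum]
  refine (Finset.sum_le_sum h2).trans ?_
  rw [← Finset.sum_mul]
  refine mul_le_mul_of_nonneg_right ?_ hSg0
  rw [← Finset.mul_sum]
  calc Real.log (𝔸.N x) * ∑ k ∈ Icc 1 B, 1 / (𝔸.N x : ℝ) ^ k
      ≤ Real.log (𝔸.N x) * (1 / ((𝔸.N x : ℝ) - 1)) :=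
        mul_le_mul_of_nonneg_left (geom_le _ (hN2 x) B) (hL x)
    _ = _ := by rw [mul_one_div]

/-- The elements with fewer than `r` large good primes are closed under divisors. -/
theorem Sm_closed {P : Type} (𝔸 : ArG P) (s r B : ℕ) :
    ∀ a ∈ 𝔸.Sm s r B, ∀ b, b ≤ a → b ∈ 𝔸.Sm s r B := by
  classical
  intro a ha b hb
  rw [ArG.mem_Sm] at ha ⊢
  have hab : b + (a - b) = a := add_tsub_cancel_of_le hb
  constructor
  · refine le_trans ?_ ha.1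
    rw [← hab, nn_add]
    exact Nat.le_mul_of_pos_right _ (𝔸.nn_pos _)
  · refine lt_of_le_of_lt (Finset.card_le_card (Finset.filter_subset_filter _ ?_)) ha.2
    intro x hx
    rw [Finsupp.mem_support_iff] at hx ⊢
    have := hb x
    intro h0
    rw [h0] at this
    exact hx (Nat.le_zero.1 this)

/-- The sum over the smooth elements, with the right exponent. PROOF: `S = Sm s 1 B` is closed under
divisors and all its primes satisfy `N x < s ∨ x ∉ G`; by `log_sum`, `sum_log_small` the sum of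
`log (nn a) / nn a` is at most `C log s * Sg`, `Sg = ∑_{a ∈ S} 1 / nn a`; so the part of `Sg` with
`log (nn a) > 2 C log s` is at most `Sg / 2`, and `Sg ≤ 2 * (sum over nn a ≤ exp (2 C log s))`, which is at most
`2 A (1 + 2 C log s)` (`sum_inv_el`). -/
theorem sum_smooth {P : Type} (𝔸 : ArG P) : ∃ C : ℝ, 0 ≤ C ∧ ∀ s B : ℕ, 2 ≤ s →
    ∑ a ∈ 𝔸.Sm s 1 B, 1 / (nn 𝔸.N a : ℝ) ≤ C * Real.log s := by
  classical
  obtain ⟨c, hc0, hc⟩ := sum_log_small 𝔸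
  have hlog2 : 0 < Real.log 2 := Real.log_pos (by norm_num)
  have hA0 : (0 : ℝ) ≤ 𝔸.A := Nat.cast_nonneg _
  refine ⟨2 * 𝔸.A * (1 / Real.log 2 + 2 * (c + 1)), by positivity, fun s B hs => ?_⟩
  have hs2 : (2 : ℝ) ≤ s := by exact_mod_cast hs
  have hlogs : Real.log 2 ≤ Real.log s := Real.log_le_log (by norm_num) hs2
  have hlogs0 : 0 < Real.log s := by linarith
  obtain ⟨S, hS⟩ : ∃ S, S = 𝔸.Sm s 1 B := ⟨_, rfl⟩
  obtain ⟨T, hT⟩ : ∃ T : Finset P, T = S.biUnion fun a => a.support := ⟨_, rfl⟩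
  have hTS : ∀ a ∈ S, a.support ⊆ T := by
    intro a ha
    rw [hT]
    exact subset_biUnion_of_mem (fun a : P →₀ ℕ => a.support) ha
  have hTx : ∀ x ∈ T, 𝔸.N x < s ∨ x ∉ 𝔸.G := by
    intro x hx
    rw [hT, mem_biUnion] at hx
    obtain ⟨a, ha, hxa⟩ := hx
    rw [hS, ArG.mem_Sm] at ha
    by_contra hcon
    push Not at hcon
    have h1 : 0 < 𝔸.om s a := by
      unfold ArG.om
      rw [Finset.card_pos]
      exact ⟨x, mem_filter.2 ⟨hxa, hcon.2, hcon.1⟩⟩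
    omega
  have h1 := log_sum 𝔸.toAr S T (by
    rw [hS]
    exact Sm_closed 𝔸 s 1 B) hTS
  have h2 := hc s hs T hTx
  obtain ⟨Sg, hSg⟩ : ∃ Sg : ℝ, Sg = ∑ a ∈ S, 1 / (nn 𝔸.N a : ℝ) := ⟨_, rfl⟩
  have hSg0 : 0 ≤ Sg := by
    rw [hSg]
    exact Finset.sum_nonneg fun m _ => by positivity
  rw [← hS, ← hSg]
  rw [← hSg] at h1
  have h3 : ∑ a ∈ S, Real.log (nn 𝔸.N a) / (nn 𝔸.N a : ℝ) ≤ c * Real.log s * Sg :=
    h1.trans (mul_le_mul_of_nonneg_right h2 hSg0)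
  -- the bound `y`
  obtain ⟨z, hz⟩ : ∃ z : ℝ, z = 2 * (c + 1) * Real.log s := ⟨_, rfl⟩
  have hz0 : 0 < z := by
    rw [hz]
    positivity
  obtain ⟨y, hy⟩ : ∃ y : ℕ, y = ⌊Real.exp z⌋₊ := ⟨_, rfl⟩
  have hy1 : 1 ≤ y := by
    rw [hy, Nat.one_le_floor_iff]
    exact Real.one_le_exp hz0.le
  have hylog : Real.log y ≤ z := by
    have h4 : (y : ℝ) ≤ Real.exp z := by
      rw [hy]
      exact Nat.floor_le (Real.exp_pos z).le
    have h5 : (0 : ℝ) < y := by exact_mod_cast hy1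
    calc Real.log y ≤ Real.log (Real.exp z) := Real.log_le_log h5 h4
      _ = z := Real.log_exp z
  have h4 : Sg = ∑ a ∈ S.filter (fun a => nn 𝔸.N a ≤ y), 1 / (nn 𝔸.N a : ℝ) +
      ∑ a ∈ S.filter (fun a => ¬ nn 𝔸.N a ≤ y), 1 / (nn 𝔸.N a : ℝ) := by
    rw [hSg, Finset.sum_filter_add_sum_filter_not]
  have h5 : ∑ a ∈ S.filter (fun a => nn 𝔸.N a ≤ y), 1 / (nn 𝔸.N a : ℝ) ≤
      𝔸.A * (1 + Real.log y) := by
    refine le_trans ?_ (sum_inv_el 𝔸.toAr hy1)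
    refine Finset.sum_le_sum_of_subset_of_nonneg ?_ (fun _ _ _ => by positivity)
    intro a ha
    rw [𝔸.mem_el]
    exact (mem_filter.1 ha).2
  have h6 : z * ∑ a ∈ S.filter (fun a => ¬ nn 𝔸.N a ≤ y), 1 / (nn 𝔸.N a : ℝ) ≤
      c * Real.log s * Sg := by
    refine le_trans ?_ h3
    rw [Finset.mul_sum]
    refine le_trans (Finset.sum_le_sum (g := fun a => Real.log (nn 𝔸.N a) / (nn 𝔸.N a : ℝ)) ?_) ?_
    · intro a ha
      rw [mem_filter] at ha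
      have h7 : Real.exp z < nn 𝔸.N a := by
        have h8 : ⌊Real.exp z⌋₊ < nn 𝔸.N a := by
          rw [← hy]
          exact not_le.1 ha.2
        exact (Nat.floor_lt (Real.exp_pos z).le).1 h8
      have h8 : z ≤ Real.log (nn 𝔸.N a) := by
        calc z = Real.log (Real.exp z) := (Real.log_exp z).symm
          _ ≤ _ := Real.log_le_log (Real.exp_pos z) h7.le
      have h9 : (0 : ℝ) < nn 𝔸.N a := by exact_mod_cast 𝔸.nn_pos a
      rw [mul_one_div]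
      exact div_le_div_of_nonneg_right h8 h9.le
    · refine Finset.sum_le_sum_of_subset_of_nonneg (filter_subset _ _) fun a _ _ => ?_
      exact div_nonneg (Real.log_natCast_nonneg _) (Nat.cast_nonneg _)
  have h7 : ∑ a ∈ S.filter (fun a => ¬ nn 𝔸.N a ≤ y), 1 / (nn 𝔸.N a : ℝ) ≤ Sg / 2 := by
    have h8 : z * ∑ a ∈ S.filter (fun a => ¬ nn 𝔸.N a ≤ y), 1 / (nn 𝔸.N a : ℝ) ≤ z * (Sg / 2) := by
      refine h6.trans ?_
      rw [hz]
      have h9 : c * Real.log s * Sg ≤ (c + 1) * Real.log s * Sg := by gcongr; linarith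
      refine h9.trans (le_of_eq ?_)
      ring
    exact le_of_mul_le_mul_left h8 hz0
  have h8 : Sg ≤ 2 * (𝔸.A * (1 + z)) := by
    have h9 : 𝔸.A * (1 + Real.log y) ≤ 𝔸.A * (1 + z) :=
      mul_le_mul_of_nonneg_left (by linarith) hA0
    linarith
  refine h8.trans ?_
  rw [hz]
  have h9 : (1 : ℝ) ≤ 1 / Real.log 2 * Real.log s := by
    rw [one_div_mul_eq_div]
    exact (one_le_div hlog2).2 hlogs
  calc 2 * (𝔸.A * (1 + 2 * (c + 1) * Real.log s))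
      ≤ 2 * (𝔸.A * (1 / Real.log 2 * Real.log s + 2 * (c + 1) * Real.log s)) := by gcongr
    _ = _ := by ring

/-- One more prime. Compare `ZK.sum_step`. -/
theorem sum_step_of {P : Type} (𝔸 : ArG P) (h : ∃ C : ℝ, 0 ≤ C ∧ ∀ s B : ℕ, 2 ≤ s → s ≤ B →
    ∀ T : Finset P, (∀ x ∈ T, s ≤ 𝔸.N x ∧ 𝔸.N x ≤ B) →
      ∑ x ∈ T, 1 / ((𝔸.N x : ℝ) - 1) ≤ C * (1 + Real.log (Real.log B / Real.log s))) :
    ∃ C : ℝ, 0 ≤ C ∧ ∀ s r B : ℕ, 1 ≤ r → 2 ≤ s → s ≤ B →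
    ∑ a ∈ 𝔸.Sm s (r + 1) B, 1 / (nn 𝔸.N a : ℝ) ≤
      (C * (1 + Real.log (Real.log B / Real.log s))) * ∑ a ∈ 𝔸.Sm s r B, 1 / (nn 𝔸.N a : ℝ) := by
  classical
  obtain ⟨c, hc0, hc⟩ := h
  refine ⟨c + 1, by linarith, fun s r B hr hs hsB => ?_⟩
  have hs2 : (2 : ℝ) ≤ s := by exact_mod_cast hs
  have hlogs : 0 < Real.log s := Real.log_pos (by linarith)
  have hlogB : Real.log s ≤ Real.log B :=
    Real.log_le_log (by linarith) (by exact_mod_cast hsB)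
  have hv : 0 ≤ Real.log (Real.log B / Real.log s) :=
    Real.log_nonneg ((one_le_div hlogs).2 hlogB)
  have hnn0 : (0 : ℝ) ≤ ∑ a ∈ 𝔸.Sm s r B, 1 / (nn 𝔸.N a : ℝ) :=
    Finset.sum_nonneg fun m _ => by positivity
  obtain ⟨W, hWd⟩ : ∃ W : Finset P, W = ((𝔸.Sm s (r + 1) B).biUnion fun a => a.support).filter
      (fun x => s ≤ 𝔸.N x) := ⟨_, rfl⟩
  have hWB : ∀ x ∈ W, s ≤ 𝔸.N x ∧ 𝔸.N x ≤ B := by
    intro x hx
    rw [hWd, mem_filter, mem_biUnion] at hx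
    obtain ⟨⟨a, ha, hxa⟩, hsx⟩ := hx
    exact ⟨hsx, (N_le_nn 𝔸.toAr hxa).trans ((ArG.mem_Sm 𝔸).1 ha).1⟩
  have hN2 : ∀ x, (2 : ℝ) ≤ 𝔸.N x := fun x => by exact_mod_cast 𝔸.two_le x
  -- choose a good prime of norm at least s
  have hch : ∀ a ∈ (𝔸.Sm s (r + 1) B) \ (𝔸.Sm s r B), ∃ x : P × ℕ × (P →₀ ℕ),
      x.1 ∈ W ∧ x.2.1 ∈ Icc 1 B ∧ x.2.2 ∈ 𝔸.Sm s r B ∧ Finsupp.single x.1 x.2.1 + x.2.2 = a := by
    intro a ha
    rw [mem_sdiff] at ha
    obtain ⟨h1, h2⟩ := ha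
    have h1' := (ArG.mem_Sm 𝔸).1 h1
    rw [ArG.mem_Sm] at h2
    have h3 : 𝔸.om s a = r := by
      have : ¬ 𝔸.om s a < r := fun h => h2 ⟨h1'.1, h⟩
      omega
    obtain ⟨x, hx⟩ := Finset.card_pos.mp (show 0 < 𝔸.om s a by omega)
    rw [mem_filter] at hx
    refine ⟨(x, a x, a.erase x), ?_, ?_, ?_, Finsupp.single_add_erase x a⟩
    · rw [hWd, mem_filter, mem_biUnion]
      exact ⟨⟨a, h1, hx.1⟩, hx.2.2⟩
    · rw [mem_Icc]
      have h4 := Finsupp.mem_support_iff.1 hx.1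
      exact ⟨Nat.one_le_iff_ne_zero.2 h4, exp_le 𝔸.toAr h1'.1 x⟩
    · simp only
      rw [ArG.mem_Sm]
      constructor
      · have h4 : nn 𝔸.N a = 𝔸.N x ^ a x * nn 𝔸.N (a.erase x) := by
          conv_lhs => rw [← Finsupp.single_add_erase x a]
          rw [nn_add, nn_single]
        have h5 : 0 < 𝔸.N x ^ a x := Nat.pow_pos (by have := 𝔸.two_le x; omega)
        refine le_trans ?_ h1'.1
        rw [h4]
        exact Nat.le_mul_of_pos_left _ h5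
      · rw [← h3]
        refine Finset.card_lt_card ?_
        rw [Finset.ssubset_iff_of_subset (filter_subset_filter _ (by
          rw [Finsupp.support_erase]
          exact Finset.erase_subset _ _))]
        refine ⟨x, mem_filter.2 hx, ?_⟩
        rw [mem_filter, Finsupp.support_erase]
        rintro ⟨h4, _⟩
        exact Finset.notMem_erase x _ h4
  rcases isEmpty_or_nonempty P with hP | hP
  · have h1 : 𝔸.Sm s (r + 1) B = 𝔸.Sm s r B := by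
      ext a
      have h0 : 𝔸.om s a = 0 := by
        unfold ArG.om
        rw [Finset.card_eq_zero]
        exact Finset.eq_empty_of_isEmpty _
      rw [ArG.mem_Sm, ArG.mem_Sm, h0]
      exact ⟨fun h => ⟨h.1, by omega⟩, fun h => ⟨h.1, by omega⟩⟩
    rw [h1]
    refine le_mul_of_one_le_left hnn0 ?_
    nlinarith
  choose! x hx1 hx2 hx3 hx4 using hch
  have hsub : 𝔸.Sm s r B ⊆ 𝔸.Sm s (r + 1) B := by
    intro m hm
    rw [ArG.mem_Sm] at hm ⊢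
    exact ⟨hm.1, by omega⟩
  have h1 : ∑ a ∈ (𝔸.Sm s (r + 1) B) \ (𝔸.Sm s r B), 1 / (nn 𝔸.N a : ℝ) ≤
      ∑ y ∈ W ×ˢ (Icc 1 B ×ˢ 𝔸.Sm s r B), 1 / ((𝔸.N y.1 : ℝ) ^ y.2.1 * nn 𝔸.N y.2.2) := by
    have hinj : Set.InjOn x (((𝔸.Sm s (r + 1) B) \ (𝔸.Sm s r B) : Finset (P →₀ ℕ)) : Set (P →₀ ℕ)) := by
      intro a ha b hb hab
      rw [← hx4 a ha, ← hx4 b hb, hab]
    calc ∑ a ∈ (𝔸.Sm s (r + 1) B) \ (𝔸.Sm s r B), 1 / (nn 𝔸.N a : ℝ)
        = ∑ a ∈ (𝔸.Sm s (r + 1) B) \ (𝔸.Sm s r B),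
            1 / ((𝔸.N (x a).1 : ℝ) ^ (x a).2.1 * nn 𝔸.N (x a).2.2) := by
          refine Finset.sum_congr rfl fun a ha => ?_
          congr 1
          conv_lhs => rw [← hx4 a ha]
          rw [nn_add, nn_single]
          push_cast
          ring
      _ = ∑ y ∈ ((𝔸.Sm s (r + 1) B) \ (𝔸.Sm s r B)).image x,
            1 / ((𝔸.N y.1 : ℝ) ^ y.2.1 * nn 𝔸.N y.2.2) := by
          rw [Finset.sum_image hinj]
      _ ≤ _ := by
          refine Finset.sum_le_sum_of_subset_of_nonneg ?_ (fun y _ _ => by positivity)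
          intro y hy
          rw [mem_image] at hy
          obtain ⟨a, ha, rfl⟩ := hy
          rw [mem_product, mem_product]
          exact ⟨hx1 a ha, hx2 a ha, hx3 a ha⟩
  have h2 : ∑ y ∈ W ×ˢ (Icc 1 B ×ˢ 𝔸.Sm s r B), 1 / ((𝔸.N y.1 : ℝ) ^ y.2.1 * nn 𝔸.N y.2.2) =
      (∑ p ∈ W, ∑ k ∈ Icc 1 B, 1 / (𝔸.N p : ℝ) ^ k) * ∑ a ∈ 𝔸.Sm s r B, 1 / (nn 𝔸.N a : ℝ) := by
    rw [Finset.sum_product, Finset.sum_mul]
    refine Finset.sum_congr rfl fun p _ => ?_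
    rw [Finset.sum_product, Finset.sum_mul]
    refine Finset.sum_congr rfl fun k _ => ?_
    rw [Finset.mul_sum]
    refine Finset.sum_congr rfl fun m _ => ?_
    rw [one_div_mul_one_div]
  have h4 : ∑ p ∈ W, ∑ k ∈ Icc 1 B, 1 / (𝔸.N p : ℝ) ^ k ≤
      c * (1 + Real.log (Real.log B / Real.log s)) :=
    (Finset.sum_le_sum fun p _ => geom_le (𝔸.N p) (hN2 p) B).trans (hc s B hs hsB W hWB)
  rw [← Finset.sum_sdiff hsub]
  have h6 := mul_le_mul_of_nonneg_right h4 hnn0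
  rw [h2] at h1
  have h7 : 0 ≤ Real.log (Real.log B / Real.log s) * ∑ a ∈ 𝔸.Sm s r B, 1 / (nn 𝔸.N a : ℝ) :=
    mul_nonneg hv hnn0
  nlinarith

end MP60829e.ZV
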