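import Mathlib
import Pool.Agent.Lib.MP_60829e_nt.ZV.Ar2
import Pool.Agent.Lib.MP_60829e_nt.ZV.Sum2a
import Pool.Agent.Lib.MP_60829e_nt.ZV.Sum2c
import Pool.Agent.Lib.MP_60829e_nt.ZK.Sum

/-! # Theorem ZV: sums over primes and over smooth elements

`sum_inv_interval`: Sum2a; `sum_log_small`: Sum2b; `sum_inv_el`, `log_sum`, `sum_smooth`,
`sum_step_of`: Sum2c. -/

open Finset

namespace MP60829e.ZV

open MP60829e.ZK (Ar nn)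

/-- Compare `ZK.sum_step`: same proof with `sum_inv_interval`. -/
theorem sum_step {P : Type} (𝔸 : ArG P) : ∃ C : ℝ, 0 ≤ C ∧ ∀ s r B : ℕ, 1 ≤ r → 2 ≤ s → s ≤ B →
    ∑ a ∈ 𝔸.Sm s (r + 1) B, 1 / (nn 𝔸.N a : ℝ) ≤
      (C * (1 + Real.log (Real.log B / Real.log s))) * ∑ a ∈ 𝔸.Sm s r B, 1 / (nn 𝔸.N a : ℝ) :=
  sum_step_of 𝔸 (sum_inv_interval 𝔸.toAr)

end MP60829e.ZV
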