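import Mathlib
import Pool.Agent.Lib.MP_60829e_nt.ZV.Sum2

/-! # Theorem ZV: elements with few large good primes -/

open Finset

namespace MP60829e.ZV

open MP60829e.ZK (Ar nn)

/-- PROOF: `ZK.div_closed` for `Sm s r B`, `sum_smooth`, `sum_step` (compare `ZK.few`). -/
theorem few {P : Type} (𝔸 : ArG P) (r : ℕ) (hr : 1 ≤ r) : ∃ C : ℝ, 0 ≤ C ∧ ∀ s B : ℕ, 2 ≤ s →
    s ≤ B → ((𝔸.Sm s r B).card : ℝ) ≤
      C * (1 + Real.log (Real.log B / Real.log s)) ^ (r - 1) * (Real.log s / Real.log B) * B := by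
  classical
  obtain ⟨C1, hC1, h1⟩ := sum_smooth 𝔸
  obtain ⟨C2, hC2, h2⟩ := sum_step 𝔸
  refine ⟨(6 * 𝔸.d + 1) * (C1 * C2 ^ (r - 1)), by positivity, fun s B hs hsB => ?_⟩
  have hs2 : (2 : ℝ) ≤ s := by exact_mod_cast hs
  have hsB' : (s : ℝ) ≤ B := by exact_mod_cast hsB
  have hB0 : (0 : ℝ) ≤ B := Nat.cast_nonneg _
  have hls : 0 < Real.log s := Real.log_pos (by linarith)
  have hlB : Real.log s ≤ Real.log B := Real.log_le_log (by linarith) hsB'
  have hL0 : 0 < Real.log B := by linarith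
  have hv : 0 ≤ Real.log (Real.log B / Real.log s) :=
    Real.log_nonneg ((one_le_div₀ hls).2 hlB)
  set v : ℝ := 1 + Real.log (Real.log B / Real.log s) with hvd
  have hv1 : 0 ≤ v := by linarith
  have hmain : ∀ r' : ℕ, 1 ≤ r' → ∑ a ∈ 𝔸.Sm s r' B, 1 / (nn 𝔸.N a : ℝ) ≤
      C1 * Real.log s * (C2 * v) ^ (r' - 1) := by
    intro r' hr'
    induction r', hr' using Nat.le_induction with
    | base => simpa using h1 s B hs
    | succ r' hr' ih =>
      refine (h2 s r' B hr' hs hsB).trans ?_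
      have h5 : r' + 1 - 1 = (r' - 1) + 1 := by omega
      rw [h5, pow_succ, ← hvd]
      calc C2 * v * ∑ a ∈ 𝔸.Sm s r' B, 1 / (nn 𝔸.N a : ℝ)
          ≤ C2 * v * (C1 * Real.log s * (C2 * v) ^ (r' - 1)) :=
            mul_le_mul_of_nonneg_left ih (by positivity)
        _ = C1 * Real.log s * ((C2 * v) ^ (r' - 1) * (C2 * v)) := by ring
  have h3 := ZK.div_closed 𝔸.toAr (𝔸.Sm s r B) B (by omega) (fun a ha => (𝔸.mem_Sm.1 ha).1) (by
    intro a ha b hb
    rw [ArG.mem_Sm] at ha ⊢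
    have hab : b + (a - b) = a := add_tsub_cancel_of_le hb
    constructor
    · refine le_trans ?_ ha.1
      rw [← hab, ZK.nn_add]
      exact Nat.le_mul_of_pos_right _ (𝔸.nn_pos _)
    · refine lt_of_le_of_lt (Finset.card_le_card (Finset.filter_subset_filter _ ?_)) ha.2
      intro x hx
      rw [Finsupp.mem_support_iff] at hx ⊢
      have := hb x
      intro h0
      rw [h0] at this
      exact hx (Nat.le_zero.1 this))
  have h4 : ((𝔸.Sm s r B).card : ℝ) * Real.log B ≤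
      (6 * 𝔸.d + 1) * B * (C1 * Real.log s * (C2 * v) ^ (r - 1)) :=
    h3.trans (mul_le_mul_of_nonneg_left (hmain r hr) (by positivity))
  have h5 : (6 * (𝔸.d : ℝ) + 1) * (C1 * C2 ^ (r - 1)) * v ^ (r - 1) *
      (Real.log s / Real.log B) * B =
      (6 * 𝔸.d + 1) * B * (C1 * Real.log s * (C2 * v) ^ (r - 1)) / Real.log B := by
    rw [mul_pow]
    ring
  rw [h5, le_div_iff₀ hL0]
  exact h4

end MP60829e.ZV
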