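import Mathlib
import Pool.Agent.Lib.MP_60829e_nt.ZV.Ar2
import Pool.Agent.Lib.MP_60829e_nt.ZK.Typ

/-! # Theorem ZV: elements with many large good primes -/

open Finset

namespace MP60829e.ZV

open MP60829e.ZK (Ar nn nn_add nn_sum exists_ix)
open MP60829e.Rate (BoxFree)

/-- an element with at least `r` good primes of norm at least `s` -/
theorem exists_split {P : Type} (𝔸 : ArG P) {r s : ℕ} {b : P →₀ ℕ} (h : r ≤ 𝔸.om s b) :
    ∃ (m : P →₀ ℕ) (y : Fin r → P), (∀ i, y i ∈ 𝔸.G ∧ s ≤ 𝔸.N (y i)) ∧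
      b = m + ∑ i, Finsupp.single (y i) 1 := by
  classical
  obtain ⟨A, hA, hAr⟩ := Finset.exists_subset_card_eq h
  let e : Fin r ≃ A := (Fintype.equivFinOfCardEq (by simpa using hAr)).symm
  have hmem : ∀ i, (e i : P) ∈ b.support ∧ ((e i : P) ∈ 𝔸.G ∧ s ≤ 𝔸.N (e i)) := by
    intro i
    have h1 := hA (e i).2
    rwa [mem_filter] at h1
  have hle : ∑ i, Finsupp.single (e i : P) 1 ≤ b := by
    have h1 : ∑ i, Finsupp.single (e i : P) 1 = ∑ x ∈ A, Finsupp.single x 1 := by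
      rw [← Finset.sum_coe_sort A (fun x => Finsupp.single x 1)]
      exact Equiv.sum_comp e (fun x : A => Finsupp.single (x : P) 1)
    rw [h1]
    intro z
    rw [Finsupp.finsetSum_apply]
    by_cases hz : z ∈ A
    · rw [Finset.sum_eq_single z (fun x _ hx => Finsupp.single_eq_of_ne (by exact fun h => hx h.symm)) (fun h => absurd hz h),
        Finsupp.single_eq_same]
      have := hA hz
      rw [mem_filter, Finsupp.mem_support_iff] at this
      omega
    · rw [Finset.sum_eq_zero]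
      · exact Nat.zero_le _
      · intro x hx
        exact Finsupp.single_eq_of_ne (by rintro rfl; exact hz hx)
  refine ⟨b - ∑ i, Finsupp.single (e i : P) 1, fun i => (e i : P), fun i => (hmem i).2, ?_⟩
  exact (tsub_add_cancel_of_le hle).symm

/-- Compare `Rate.typical` (Rate/Count.lean). The block of a prime `x` is `N x / s`; there are at most
`d * s` primes in a block: choose an injection of the block into `Fin (d * s)`. Box theorem with `d * s`
instead of `s`. -/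
theorem typical {P : Type} (𝔸 : ArG P) (r t s B : ℕ) (hs : 1 ≤ s) (hd : 1 ≤ 𝔸.d)
    (X : Set (P →₀ ℕ)) (hX : GridFree 𝔸.G r t X) (β : ℝ) (hβ0 : 0 ≤ β)
    (hβ : ∀ T : Finset (Fin r → Fin (𝔸.d * s)), BoxFree r t (𝔸.d * s) T →
      (T.card : ℝ) ≤ β * (𝔸.d * s : ℕ) ^ r) [DecidablePred (· ∈ X)] :
    (((𝔸.el B).filter (fun a => a ∈ X ∧ r ≤ 𝔸.om s a)).card : ℝ) ≤
      𝔸.A * 𝔸.d ^ r * B * (1 + Real.log B) ^ r * β := by
  classical
  have hs0 : (0 : ℝ) < s := by exact_mod_cast hs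
  obtain ⟨ix, hix⟩ := exists_ix 𝔸.toAr hd s hs
  set T : (Fin r → ℕ) × (P →₀ ℕ) → Finset (Fin r → Fin (𝔸.d * s)) := fun x =>
    (univ : Finset (Fin r → Fin (𝔸.d * s))).filter (fun o =>
      ∃ y : Fin r → P, (∀ i, y i ∈ 𝔸.G ∧ 𝔸.N (y i) / s = x.1 i ∧ ix (y i) = o i) ∧
        x.2 + ∑ i, Finsupp.single (y i) 1 ∈ X) with hT
  set J : Finset (Fin r → ℕ) := Fintype.piFinset (fun _ : Fin r => Icc 1 B) with hJ
  set Q : Finset ((Fin r → ℕ) × (P →₀ ℕ)) :=
    (J ×ˢ 𝔸.el B).filter (fun x => nn 𝔸.N x.2 * ∏ i, (s * x.1 i) ≤ B) with hQ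
  have hfree : ∀ x ∈ Q, BoxFree r t (𝔸.d * s) (T x) := by
    intro x _ w hw
    by_contra hcon
    push Not at hcon
    have hq : ∀ i a, ∃ z : P, z ∈ 𝔸.G ∧ 𝔸.N z / s = x.1 i ∧ ix z = w i a := by
      intro i a
      have h1 := hcon (fun _ => a)
      rw [hT, mem_filter] at h1
      obtain ⟨y, hy, _⟩ := h1.2
      exact ⟨y i, hy i⟩
    choose q hqG hq1 hq2 using hq
    obtain ⟨c, hc⟩ := hX x.2 q hqG (by
      intro i a a' haa
      apply hw i
      rw [← hq2 i a, ← hq2 i a', haa])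
    have h2 := hcon c
    rw [hT, mem_filter] at h2
    obtain ⟨y, hy, hyX⟩ := h2.2
    have h3 : ∀ i, y i = q i (c i) := fun i =>
      hix _ _ ((hy i).2.1.trans (hq1 i (c i)).symm) ((hy i).2.2.trans (hq2 i (c i)).symm)
    apply hc
    simpa only [h3] using hyX
  set S : Finset (P →₀ ℕ) := (𝔸.el B).filter (fun a => a ∈ X ∧ r ≤ 𝔸.om s a) with hS
  have hSm : ∀ b ∈ S, nn 𝔸.N b ≤ B ∧ b ∈ X ∧ r ≤ 𝔸.om s b := by
    intro b hb
    rw [hS, mem_filter, 𝔸.mem_el] at hb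
    exact hb
  have hsplit : ∀ b : S, ∃ (m : P →₀ ℕ) (y : Fin r → P), (∀ i, y i ∈ 𝔸.G ∧ s ≤ 𝔸.N (y i)) ∧
      (b : P →₀ ℕ) = m + ∑ i, Finsupp.single (y i) 1 := by
    intro b
    exact exists_split 𝔸 (hSm b b.2).2.2
  choose M Y hY hMY using hsplit
  have hnb : ∀ b : S, nn 𝔸.N (M b) * ∏ i, 𝔸.N (Y b i) ≤ B := by
    intro b
    have h1 := (hSm b b.2).1
    rw [hMY b, nn_add, nn_sum] at h1
    exact h1
  have hNpos : ∀ x, 0 < 𝔸.N x := fun x => by
    have := 𝔸.two_le x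
    omega
  have hcover : S.card ≤ (Q.sigma T).card := by
    have h1 := Finset.card_le_card_of_injOn (s := S.attach) (t := Q.sigma T)
      (fun b => ⟨(fun i => 𝔸.N (Y b i) / s, M b), fun i => ix (Y b i)⟩) ?_ ?_
    · rwa [Finset.card_attach] at h1
    · intro b _
      have hb := hSm b b.2
      rw [mem_coe, mem_sigma]
      refine ⟨?_, ?_⟩
      · rw [hQ, mem_filter, mem_product, hJ, Fintype.mem_piFinset, 𝔸.mem_el]
        have hpr : 0 < ∏ i, 𝔸.N (Y b i) := Finset.prod_pos fun i _ => hNpos _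
        refine ⟨⟨fun i => ?_, ?_⟩, ?_⟩
        · rw [mem_Icc]
          refine ⟨Nat.div_pos (hY b i).2 hs, (Nat.div_le_self _ _).trans ?_⟩
          refine le_trans ?_ (hnb b)
          calc 𝔸.N (Y b i) ≤ ∏ i, 𝔸.N (Y b i) :=
                Nat.le_of_dvd hpr (Finset.dvd_prod_of_mem _ (mem_univ i))
            _ ≤ _ := Nat.le_mul_of_pos_left _ (𝔸.nn_pos _)
        · exact le_trans (Nat.le_mul_of_pos_right _ hpr) (hnb b)
        · refine le_trans (Nat.mul_le_mul_left _ ?_) (hnb b)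
          exact Finset.prod_le_prod' fun i _ => Nat.mul_div_le _ _
      · rw [hT, mem_filter]
        refine ⟨mem_univ _, Y b, fun i => ⟨(hY b i).1, rfl, rfl⟩, ?_⟩
        simp only
        rw [← hMY b]
        exact hb.2.1
    · intro b _ b' _ hbb
      simp only [Sigma.mk.injEq, Prod.mk.injEq, heq_eq_eq] at hbb
      obtain ⟨⟨h2, h3⟩, h4⟩ := hbb
      have h5 : Y b = Y b' := by
        funext i
        exact hix _ _ (congrFun h2 i) (congrFun h4 i)
      apply Subtype.ext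
      rw [hMY b, hMY b', h3, h5]
  have hQcard : ((Q.card : ℕ) : ℝ) ≤ 𝔸.A * B * ((1 + Real.log B) / s) ^ r := by
    have h1 : Q.card = ∑ j ∈ J, ((𝔸.el B).filter (fun m => nn 𝔸.N m * ∏ i, (s * j i) ≤ B)).card := by
      rw [hQ, Finset.card_filter, Finset.sum_product]
      refine Finset.sum_congr rfl fun j _ => ?_
      rw [Finset.card_filter]
    rw [h1]
    push_cast
    have h2 : ∀ j ∈ J, (((𝔸.el B).filter (fun m => nn 𝔸.N m * ∏ i, (s * j i) ≤ B)).card : ℝ) ≤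
        𝔸.A * B * ∏ i, (1 / ((s : ℝ) * j i)) := by
      intro j hj
      rw [hJ, Fintype.mem_piFinset] at hj
      have hjpos : 0 < ∏ i, (s * j i) := Finset.prod_pos fun i _ => by
        have := (mem_Icc.mp (hj i)).1
        exact Nat.mul_pos hs this
      have h3 : ((𝔸.el B).filter (fun m => nn 𝔸.N m * ∏ i, (s * j i) ≤ B)).card ≤
          𝔸.A * (B / ∏ i, (s * j i)) := by
        rcases Nat.eq_zero_or_pos (B / ∏ i, (s * j i)) with h0 | h0
        · rw [h0, Nat.mul_zero, Nat.le_zero, Finset.card_eq_zero, Finset.filter_eq_empty_iff]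
          intro m _ hm
          have h4 : nn 𝔸.N m ≤ B / ∏ i, (s * j i) := (Nat.le_div_iff_mul_le hjpos).mpr hm
          have := 𝔸.nn_pos m
          omega
        · refine le_trans (card_le_card ?_) (𝔸.card_el h0)
          intro m hm
          rw [mem_filter] at hm
          rw [𝔸.mem_el]
          exact (Nat.le_div_iff_mul_le hjpos).mpr hm.2
      have h4 : ((B / ∏ i, (s * j i) : ℕ) : ℝ) ≤ (B : ℝ) / ((∏ i, (s * j i) : ℕ) : ℝ) := Nat.cast_div_le
      have h5 : (((𝔸.el B).filter (fun m => nn 𝔸.N m * ∏ i, (s * j i) ≤ B)).card : ℝ) ≤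
          𝔸.A * ((B / ∏ i, (s * j i) : ℕ) : ℝ) := by exact_mod_cast h3
      refine (h5.trans (mul_le_mul_of_nonneg_left h4 (Nat.cast_nonneg _))).trans (le_of_eq ?_)
      rw [Finset.prod_div_distrib, Finset.prod_const_one]
      push_cast
      ring
    refine (Finset.sum_le_sum h2).trans ?_
    rw [← Finset.mul_sum]
    refine mul_le_mul_of_nonneg_left ?_ (by positivity)
    have h6 : ∑ j ∈ J, ∏ i, (1 / ((s : ℝ) * j i)) = ∏ _i : Fin r, ∑ j ∈ Icc 1 B, (1 / ((s : ℝ) * j)) := by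
      rw [hJ, Finset.prod_univ_sum]
    rw [h6, Finset.prod_const, card_univ, Fintype.card_fin]
    exact pow_le_pow_left₀ (Finset.sum_nonneg fun j _ => by positivity)
      (MP60829e.Rate.sum_inv_le s B hs) r
  have hβ1 : 0 ≤ β * (𝔸.d * s : ℕ) ^ r := by positivity
  calc ((S.card : ℕ) : ℝ) ≤ ((Q.sigma T).card : ℝ) := by exact_mod_cast hcover
    _ = ∑ x ∈ Q, ((T x).card : ℝ) := by rw [card_sigma]; push_cast; rfl
    _ ≤ ∑ x ∈ Q, β * (𝔸.d * s : ℕ) ^ r := Finset.sum_le_sum fun x hx => hβ _ (hfree x hx)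
    _ = Q.card * (β * (𝔸.d * s : ℕ) ^ r) := by rw [sum_const, nsmul_eq_mul]
    _ ≤ (𝔸.A * B * ((1 + Real.log B) / s) ^ r) * (β * (𝔸.d * s : ℕ) ^ r) :=
        mul_le_mul_of_nonneg_right hQcard hβ1
    _ = 𝔸.A * 𝔸.d ^ r * B * (1 + Real.log B) ^ r * β := by
        rw [div_pow]
        push_cast
        rw [mul_pow]
        field_simp

end MP60829e.ZV
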