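import Mathlib
import Pool.Agent.Lib.MP_60829e_nt.ZV.Few2
import Pool.Agent.Lib.MP_60829e_nt.ZV.Typ2
import Pool.Agent.Lib.MP_60829e_nt.ZK.Cnt

/-! # Theorem ZV: the count for families of sets without boxes -/

open Finset

namespace MP60829e.ZV

open MP60829e.ZK (Ar nn)
open MP60829e.Rate (BoxFree box)

/-- The side of the boxes. -/
noncomputable def sd (r t M : ℕ) (L : ℝ) : ℕ :=
  ⌈(t : ℝ) ^ 2 * (M * (1 + L) ^ (r + 1)) ^ (t ^ r)⌉₊

private theorem base_ge (r M : ℕ) (L : ℝ) (hL : 0 ≤ L) : (M : ℝ) ≤ M * (1 + L) ^ (r + 1) :=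
  le_mul_of_one_le_right (Nat.cast_nonneg _) (one_le_pow₀ (by linarith))

theorem le_sd (r t M : ℕ) (L : ℝ) (ht : 2 ≤ t) (hM : 2 ≤ M) (hL : 0 ≤ L) : M ≤ sd r t M L := by
  have h1 : (M : ℝ) ≤ sd r t M L := by
    refine le_trans ?_ (Nat.le_ceil _)
    have hM2 : (2 : ℝ) ≤ M := by exact_mod_cast hM
    have ht2 : (2 : ℝ) ≤ t := by exact_mod_cast ht
    have h2 := base_ge r M L hL
    have h3 : (M : ℝ) * (1 + L) ^ (r + 1) ≤ (M * (1 + L) ^ (r + 1)) ^ (t ^ r) :=
      le_self_pow₀ (by linarith) (by positivity)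
    have h4 : (1 : ℝ) ≤ (t : ℝ) ^ 2 := one_le_pow₀ (by linarith)
    have h5 : (M * (1 + L) ^ (r + 1)) ^ (t ^ r) ≤
        (t : ℝ) ^ 2 * (M * (1 + L) ^ (r + 1)) ^ (t ^ r) :=
      le_mul_of_one_le_left (by positivity) h4
    linarith
  exact_mod_cast h1

/-- Compare `Rate.blk_density`. -/
private theorem density (r t d M : ℕ) (L : ℝ) (ht : 2 ≤ t) (hM : 2 ≤ M) (hL : 0 ≤ L) (hd : 1 ≤ d)
    (T : Finset (Fin r → Fin (d * sd r t M L))) (hT : BoxFree r t (d * sd r t M L) T) :
    (T.card : ℝ) ≤ 2 / (M * (1 + L) ^ (r + 1)) * ((d * sd r t M L : ℕ) : ℝ) ^ r := by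
  have hs2 : 2 ≤ sd r t M L := hM.trans (le_sd r t M L ht hM hL)
  have ht0 : (0 : ℝ) < t := by exact_mod_cast (by omega : 0 < t)
  have hM0 : (0 : ℝ) < M := by exact_mod_cast (by omega : 0 < M)
  have hS1 : 1 ≤ d * sd r t M L := Nat.mul_pos hd (by omega)
  have hle : (sd r t M L : ℝ) ≤ ((d * sd r t M L : ℕ) : ℝ) := by
    exact_mod_cast Nat.le_mul_of_pos_left _ hd
  have hS0 : (0 : ℝ) < ((d * sd r t M L : ℕ) : ℝ) := by exact_mod_cast hS1
  have hb0 : (0 : ℝ) < M * (1 + L) ^ (r + 1) := by positivity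
  have h1 := box r t (d * sd r t M L) ht hS1 T hT
  have h2 : (t : ℝ) ^ 2 / ((d * sd r t M L : ℕ) : ℝ) ≤
      1 / (M * (1 + L) ^ (r + 1)) ^ (t ^ r) := by
    rw [div_le_div_iff₀ hS0 (by positivity), one_mul]
    exact (Nat.le_ceil _).trans hle
  have h3 : ((T.card : ℝ) / (((d * sd r t M L : ℕ) : ℝ)) ^ r) ^ (t ^ r) ≤
      (2 / (M * (1 + L) ^ (r + 1))) ^ (t ^ r) := by
    refine h1.trans ?_
    have h5 : (2 / (M * (1 + L) ^ (r + 1))) ^ (t ^ r) =
        2 ^ (t ^ r) * (1 / (M * (1 + L) ^ (r + 1)) ^ (t ^ r)) := by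
      rw [div_pow, mul_one_div]
    rw [h5]
    exact mul_le_mul_of_nonneg_left h2 (by positivity)
  have h4 := le_of_pow_le_pow_left₀ (by positivity) (by positivity) h3
  rwa [div_le_iff₀ (by positivity)] at h4

private theorem half_le_log {M : ℕ} (hM : 2 ≤ M) : 1 / 2 ≤ Real.log M := by
  have h1 := Real.log_two_gt_d9
  have h2 : Real.log 2 ≤ Real.log M := Real.log_le_log (by norm_num) (by exact_mod_cast hM)
  linarith

theorem log_sd (r t M : ℕ) (L : ℝ) (ht : 2 ≤ t) (hM : 2 ≤ M) (hL : Real.log M ≤ L) :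
    Real.log (sd r t M L) ≤ (2 * Real.log (2 * (t : ℝ) ^ 2) + t ^ r + 4 * t ^ r * (r + 1)) *
      (1 + Real.log (L / Real.log M)) * Real.log M := by
  have hM2 : (2 : ℝ) ≤ M := by exact_mod_cast hM
  have ht2 : (2 : ℝ) ≤ t := by exact_mod_cast ht
  have hl := half_le_log hM
  have hL0 : 0 < L := by linarith
  obtain ⟨l, hlM⟩ : ∃ l, l = Real.log M := ⟨_, rfl⟩
  rw [← hlM] at hL hl ⊢
  have hl0 : 0 < l := by linarith
  obtain ⟨x, hx⟩ : ∃ x : ℝ, x = (t : ℝ) ^ 2 * (M * (1 + L) ^ (r + 1)) ^ (t ^ r) := ⟨_, rfl⟩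
  have hb1 : (1 : ℝ) ≤ M * (1 + L) ^ (r + 1) := by
    have := base_ge r M L hL0.le
    linarith
  have hb0 : (0 : ℝ) < M * (1 + L) ^ (r + 1) := by linarith
  have hx1 : 1 ≤ x := by
    rw [hx]
    exact one_le_mul_of_one_le_of_one_le (one_le_pow₀ (by linarith)) (one_le_pow₀ hb1)
  have h1 : (sd r t M L : ℝ) ≤ 2 * x := by
    have h2 : (sd r t M L : ℝ) < x + 1 := by
      rw [hx]
      exact Nat.ceil_lt_add_one (by rw [← hx]; linarith)
    linarith
  have hs0 : (0 : ℝ) < sd r t M L := by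
    have h2 := le_sd r t M L ht hM hL0.le
    exact_mod_cast (by omega : 0 < sd r t M L)
  have h2 : Real.log (2 * x) = Real.log (2 * (t : ℝ) ^ 2) +
      t ^ r * (l + (r + 1) * Real.log (1 + L)) := by
    have h3 : Real.log (M * (1 + L) ^ (r + 1)) = l + (r + 1) * Real.log (1 + L) := by
      rw [Real.log_mul (by positivity) (by positivity), Real.log_pow, hlM]
      push_cast
      ring
    rw [hx, ← mul_assoc, Real.log_mul (by positivity) (by positivity), Real.log_pow, h3]
    push_cast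
    ring
  -- the logarithm of `1 + L`
  obtain ⟨v, hv⟩ : ∃ v, v = 1 + Real.log (L / l) := ⟨_, rfl⟩
  have hu1 : 1 ≤ L / l := (one_le_div₀ hl0).2 hL
  have hv1 : 1 ≤ v := by
    rw [hv]
    have := Real.log_nonneg hu1
    linarith
  have h3 : Real.log (1 + L) ≤ 4 * (v * l) := by
    have h4 : 1 + L ≤ (2 * (L / l)) * (1 + l) := by
      have h5 : L = (L / l) * l := by field_simp
      have h6 : 0 ≤ (L / l - 1) + (L / l) * l + 0 := by
        have : 0 ≤ (L / l) * l := by positivity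
        linarith
      nlinarith
    have h5 : Real.log (1 + L) ≤ Real.log (2 * (L / l)) + Real.log (1 + l) := by
      rw [← Real.log_mul (by positivity) (by positivity)]
      exact Real.log_le_log (by linarith) h4
    have h6 : Real.log (2 * (L / l)) = Real.log 2 + (v - 1) := by
      rw [Real.log_mul (by norm_num) (by positivity), hv]
      ring
    have h7 : Real.log (1 + l) ≤ l := by
      have := Real.log_le_sub_one_of_pos (show (0 : ℝ) < 1 + l by linarith)
      linarith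
    have h8 : Real.log 2 ≤ l := by
      rw [hlM]
      exact Real.log_le_log (by norm_num) hM2
    have h9 : v - 1 ≤ 2 * (v * l) - 1 := by nlinarith
    have h10 : l ≤ v * l := by nlinarith
    linarith
  refine (Real.log_le_log hs0 h1).trans ?_
  rw [h2, ← hv]
  have h4 : 0 ≤ Real.log (2 * (t : ℝ) ^ 2) := Real.log_nonneg (by nlinarith)
  have h5 : 1 ≤ 2 * (v * l) := by nlinarith
  have h6 : l ≤ v * l := by nlinarith
  have h7 : Real.log (2 * (t : ℝ) ^ 2) ≤ Real.log (2 * (t : ℝ) ^ 2) * (2 * (v * l)) :=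
    le_mul_of_one_le_right h4 h5
  have h8 : (t : ℝ) ^ r * (l + (r + 1) * Real.log (1 + L)) ≤
      (t : ℝ) ^ r * (v * l + (r + 1) * (4 * (v * l))) := by
    refine mul_le_mul_of_nonneg_left ?_ (by positivity)
    exact add_le_add h6 (mul_le_mul_of_nonneg_left h3 (by positivity))
  calc Real.log (2 * (t : ℝ) ^ 2) + t ^ r * (l + (r + 1) * Real.log (1 + L))
      ≤ Real.log (2 * (t : ℝ) ^ 2) * (2 * (v * l)) +
        (t : ℝ) ^ r * (v * l + (r + 1) * (4 * (v * l))) := add_le_add h7 h8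
    _ = (2 * Real.log (2 * (t : ℝ) ^ 2) + t ^ r + 4 * t ^ r * (r + 1)) * v * l := by ring

/-- PROOF. `L = log B`, `v = 1 + log (L / log M)`. Let `s` be the smallest natural number with
`s ≥ t ^ 2 * (M * (1 + L) ^ (r + 1)) ^ (t ^ r)`. By `Rate.box` a set without boxes of side `t` in
`Fin r → Fin (d * s)` has density at most `2 / (M * (1 + L) ^ (r + 1))`, so by `typical` (sum over `M` sets) the
elements of the union with at least `r` good primes of norm `≥ s` are at most `2 A d ^ r B / (1 + L)`, which is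
`≤ c * (log M / L) * B`. Further `M ≤ s`, `log s ≤ c (log (1 + L) + log M) ≤ c' v log M`
(`log L = log (L / log M) + log log M ≤ v + log M`). If `s ≤ B` use `few` (`log (L / log s) ≤ log (L / log M)`);
if `s > B` then `L ≤ c' v log M` and the trivial bound `A * B` (`card_el`) is enough. `exists_rt` at the end.
`d = 0`: there are no primes, at most one element. -/
theorem count {P : Type} (𝔸 : ArG P) (r t : ℕ) (hr : 1 ≤ r) (ht : 2 ≤ t) : ∃ C : ℕ, ∀ M B : ℕ,
    2 ≤ M → M ≤ B → ∀ X : Fin M → Set (P →₀ ℕ), (∀ e, GridFree 𝔸.G r t (X e)) →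
      ({a : P →₀ ℕ | nn 𝔸.N a ≤ B ∧ ∃ e, a ∈ X e}.ncard : ℝ) ≤ rt C M B * B := by
  classical
  rcases Nat.eq_zero_or_pos 𝔸.d with hd | hd
  · obtain ⟨C, hC⟩ := exists_rt 2 0
    refine ⟨C, fun M B hM hB X _ => ?_⟩
    have hempty : IsEmpty P := by
      refine ⟨fun x => ?_⟩
      have h1 := 𝔸.over_le (𝔸.pr x) {x} (by
        intro y hy
        rw [Finset.mem_singleton.1 hy])
      rw [Finset.card_singleton, hd] at h1
      omega
    have h1 : ({a : P →₀ ℕ | nn 𝔸.N a ≤ B ∧ ∃ e, a ∈ X e}.ncard : ℝ) ≤ 1 := by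
      exact_mod_cast Set.ncard_le_one_of_subsingleton _
    refine h1.trans ?_
    have hB0 : (0 : ℝ) < B := by exact_mod_cast (by omega : 0 < B)
    refine le_trans ?_ (mul_le_mul_of_nonneg_right (hC M B hM hB) hB0.le)
    have hl := half_le_log hM
    have hL := half_le_log (hM.trans hB)
    have hL0 : 0 < Real.log B := by linarith
    have h2 : Real.log B ≤ B := (Real.log_le_sub_one_of_pos hB0).trans (by linarith)
    have h3 : 2 * (1 + Real.log (Real.log B / Real.log M)) ^ 0 * (Real.log M / Real.log B) * B =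
        (2 * Real.log M) * (B / Real.log B) := by
      rw [pow_zero]
      ring
    rw [h3]
    exact one_le_mul_of_one_le_of_one_le (by linarith) ((one_le_div₀ hL0).2 h2)
  · obtain ⟨C₁, hC₁0, hC₁⟩ := few 𝔸 r hr
    obtain ⟨c', hc'⟩ : ∃ c' : ℝ, c' = 2 * Real.log (2 * (t : ℝ) ^ 2) + t ^ r +
        4 * t ^ r * (r + 1) := ⟨_, rfl⟩
    have ht2 : (2 : ℝ) ≤ t := by exact_mod_cast ht
    have hc'0 : 0 ≤ c' := by
      have h4 : 0 ≤ Real.log (2 * (t : ℝ) ^ 2) := Real.log_nonneg (by nlinarith)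
      rw [hc']
      positivity
    obtain ⟨C, hC⟩ := exists_rt (C₁ * c' + 4 * (𝔸.A * 𝔸.d ^ r) + 𝔸.A * c') r
    refine ⟨C, fun M B hM hB X hX => ?_⟩
    have hB0 : (0 : ℝ) < B := by exact_mod_cast (by omega : 0 < B)
    refine le_trans ?_ (mul_le_mul_of_nonneg_right (hC M B hM hB) hB0.le)
    have hl := half_le_log hM
    have hlL : Real.log M ≤ Real.log B := Real.log_le_log (by
      exact_mod_cast (by omega : 0 < M)) (by exact_mod_cast hB)
    have hs := le_sd r t M (Real.log B) ht hM (by linarith)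
    have hlogs := log_sd r t M (Real.log B) ht hM hlL
    rw [← hc'] at hlogs
    have hdens := fun T hT => density r t 𝔸.d M (Real.log B) ht hM (by linarith) hd T hT
    obtain ⟨s, hsd⟩ : ∃ s, s = sd r t M (Real.log B) := ⟨_, rfl⟩
    rw [← hsd] at hs hlogs hdens
    obtain ⟨L, hLB⟩ : ∃ L, L = Real.log B := ⟨_, rfl⟩
    obtain ⟨l, hlM⟩ : ∃ l, l = Real.log M := ⟨_, rfl⟩
    obtain ⟨v, hv⟩ : ∃ v, v = 1 + Real.log (Real.log B / Real.log M) := ⟨_, rfl⟩
    rw [← hv, ← hlM] at hlogs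
    rw [← hv, ← hlM, ← hLB]
    rw [← hlM] at hl hlL
    rw [← hLB] at hlL hdens
    have hl0 : 0 < l := by linarith
    have hL0 : 0 < L := by linarith
    have hv1 : 1 ≤ v := by
      rw [hv, ← hLB, ← hlM]
      have := Real.log_nonneg ((one_le_div₀ hl0).2 hlL)
      linarith
    have hvr : v ≤ v ^ r := le_self_pow₀ hv1 (by omega)
    have hv0 : 0 ≤ v := by linarith
    obtain ⟨S, hS⟩ : ∃ S : Finset (P →₀ ℕ), S = (𝔸.el B).filter (fun a => ∃ e, a ∈ X e) :=
      ⟨_, rfl⟩
    have hset : {a : P →₀ ℕ | nn 𝔸.N a ≤ B ∧ ∃ e, a ∈ X e} = (S : Set (P →₀ ℕ)) := by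
      ext a
      rw [hS, Finset.mem_coe, mem_filter, ZK.Ar.mem_el]
      exact Iff.rfl
    rw [hset, Set.ncard_coe_finset]
    rcases le_or_gt s B with hsB | hsB
    · -- few large good primes
      have hlogs0 : l ≤ Real.log s := by
        rw [hlM]
        exact Real.log_le_log (by exact_mod_cast (by omega : 0 < M)) (by exact_mod_cast hs)
      have hlogsL : Real.log s ≤ L := by
        rw [hLB]
        exact Real.log_le_log (by exact_mod_cast (by omega : 0 < s)) (by exact_mod_cast hsB)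
      have hfew : ((𝔸.Sm s r B).card : ℝ) ≤ C₁ * c' * v ^ r * (l / L) * B := by
        refine (hC₁ s B (hM.trans hs) hsB).trans ?_
        refine mul_le_mul_of_nonneg_right ?_ hB0.le
        rw [← hLB]
        have h1 : 1 + Real.log (L / Real.log s) ≤ v := by
          rw [hv, ← hLB, ← hlM]
          have h2 : Real.log (L / Real.log s) ≤ Real.log (L / l) := by
            refine Real.log_le_log (div_pos hL0 (by linarith)) ?_
            exact div_le_div_of_nonneg_left hL0.le hl0 hlogs0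
          linarith
        have h0 : 0 ≤ 1 + Real.log (L / Real.log s) := by
          have := Real.log_nonneg ((one_le_div₀ (show 0 < Real.log s by linarith)).2 hlogsL)
          linarith
        have h2 : (1 + Real.log (L / Real.log s)) ^ (r - 1) ≤ v ^ (r - 1) :=
          pow_le_pow_left₀ h0 h1 _
        have h3 : Real.log s / L ≤ c' * v * l / L := div_le_div_of_nonneg_right hlogs hL0.le
        have h4 : 0 ≤ Real.log s / L := div_nonneg (by linarith) hL0.le
        calc C₁ * (1 + Real.log (L / Real.log s)) ^ (r - 1) * (Real.log s / L)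
            ≤ C₁ * v ^ (r - 1) * (c' * v * l / L) := by
              refine mul_le_mul (mul_le_mul_of_nonneg_left h2 hC₁0) h3 h4 ?_
              positivity
          _ = C₁ * c' * v ^ r * (l / L) := by
              obtain ⟨k, rfl⟩ : ∃ k, r = k + 1 := ⟨r - 1, by omega⟩
              rw [Nat.add_sub_cancel, pow_succ]
              ring
      have htyp : ((S.filter (fun a => r ≤ 𝔸.om s a)).card : ℝ) ≤
          4 * (𝔸.A * 𝔸.d ^ r) * (l / L) * B := by
        have h1 : ∀ e : Fin M, (((𝔸.el B).filter (fun a => a ∈ X e ∧ r ≤ 𝔸.om s a)).card : ℝ) ≤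
            𝔸.A * 𝔸.d ^ r * B * (1 + L) ^ r * (2 / (M * (1 + L) ^ (r + 1))) := by
          intro e
          have h2 := typical 𝔸 r t s B (by omega) hd (X e) (hX e)
            (2 / (M * (1 + L) ^ (r + 1))) (by positivity) hdens
          rwa [← hLB] at h2
        have h2 : S.filter (fun a => r ≤ 𝔸.om s a) ⊆ (Finset.univ : Finset (Fin M)).biUnion
            fun e => (𝔸.el B).filter (fun a => a ∈ X e ∧ r ≤ 𝔸.om s a) := by
          intro a ha
          rw [mem_filter, hS, mem_filter] at ha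
          obtain ⟨⟨ha1, e, he⟩, ha2⟩ := ha
          exact mem_biUnion.2 ⟨e, Finset.mem_univ e, mem_filter.2 ⟨ha1, he, ha2⟩⟩
        have h3 := (card_le_card h2).trans card_biUnion_le
        have h4 : ((S.filter (fun a => r ≤ 𝔸.om s a)).card : ℝ) ≤
            ∑ e : Fin M, (((𝔸.el B).filter (fun a => a ∈ X e ∧ r ≤ 𝔸.om s a)).card : ℝ) := by
          exact_mod_cast h3
        have h5 := h4.trans (Finset.sum_le_sum fun e _ => h1 e)
        rw [Finset.sum_const, nsmul_eq_mul, Finset.card_univ, Fintype.card_fin] at h5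
        refine h5.trans ?_
        have hM0 : (M : ℝ) ≠ 0 := by
          have : 0 < M := by omega
          positivity
        have h1L : 1 + L ≠ 0 := by positivity
        have h6 : (M : ℝ) * (𝔸.A * 𝔸.d ^ r * B * (1 + L) ^ r * (2 / (M * (1 + L) ^ (r + 1)))) =
            𝔸.A * 𝔸.d ^ r * B * (2 / (1 + L)) := by
          rw [pow_succ]
          field_simp
        have h7 : 2 / (1 + L) ≤ 4 * (l / L) := by
          rw [← mul_div_assoc, div_le_div_iff₀ (by positivity) hL0]
          nlinarith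
        rw [h6]
        calc (𝔸.A : ℝ) * 𝔸.d ^ r * B * (2 / (1 + L))
            ≤ 𝔸.A * 𝔸.d ^ r * B * (4 * (l / L)) :=
              mul_le_mul_of_nonneg_left h7 (by positivity)
          _ = 4 * (𝔸.A * 𝔸.d ^ r) * (l / L) * B := by ring
      have h2 : (S.card : ℝ) ≤ ((S.filter (fun a => r ≤ 𝔸.om s a)).card : ℝ) +
          ((𝔸.Sm s r B).card : ℝ) := by
        have h3 : S ⊆ (S.filter (fun a => r ≤ 𝔸.om s a)) ∪ (𝔸.Sm s r B) := by
          intro b hb
          by_cases h4 : r ≤ 𝔸.om s b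
          · exact mem_union_left _ (mem_filter.2 ⟨hb, h4⟩)
          · rw [hS] at hb
            have hb' := (mem_filter.1 hb).1
            refine mem_union_right _ ?_
            rw [ArG.mem_Sm]
            rw [ZK.Ar.mem_el] at hb'
            exact ⟨hb', by omega⟩
        have h4 := (card_le_card h3).trans (card_union_le _ _)
        exact_mod_cast h4
      refine h2.trans ((add_le_add htyp hfew).trans ?_)
      have h5 : (1 : ℝ) ≤ v ^ r := one_le_pow₀ hv1
      have h6 : 0 ≤ 4 * (𝔸.A * 𝔸.d ^ r : ℝ) * (l / L) * B := by positivity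
      have h7 : 4 * (𝔸.A * 𝔸.d ^ r : ℝ) * (l / L) * B ≤
          4 * (𝔸.A * 𝔸.d ^ r : ℝ) * (l / L) * B * v ^ r := le_mul_of_one_le_right h6 h5
      have h8 : 0 ≤ (𝔸.A : ℝ) * c' * v ^ r * (l / L) * B := by positivity
      calc 4 * (𝔸.A * 𝔸.d ^ r : ℝ) * (l / L) * B + C₁ * c' * v ^ r * (l / L) * B
          ≤ 4 * (𝔸.A * 𝔸.d ^ r : ℝ) * (l / L) * B * v ^ r + C₁ * c' * v ^ r * (l / L) * B +
            (𝔸.A : ℝ) * c' * v ^ r * (l / L) * B := by linarith
        _ = (C₁ * c' + 4 * (𝔸.A * 𝔸.d ^ r) + 𝔸.A * c') * v ^ r * (l / L) * B := by ring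
    · -- the trivial bound
      have hlogsL : L ≤ Real.log s := by
        rw [hLB]
        exact Real.log_le_log hB0 (by exact_mod_cast hsB.le)
      have h1 : L ≤ c' * v * l := hlogsL.trans hlogs
      have h2 : (S.card : ℝ) ≤ 𝔸.A * B := by
        rw [hS]
        exact_mod_cast (card_filter_le _ _).trans (𝔸.card_el (by omega))
      refine h2.trans ?_
      have h3 : 1 ≤ c' * v * (l / L) := by
        rw [← mul_div_assoc]
        exact (one_le_div₀ hL0).2 h1
      have h4 : 1 ≤ c' * v ^ r * (l / L) := by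
        refine h3.trans ?_
        refine mul_le_mul_of_nonneg_right ?_ (by positivity)
        exact mul_le_mul_of_nonneg_left hvr hc'0
      have h5 : (𝔸.A : ℝ) * B ≤ 𝔸.A * B * (c' * v ^ r * (l / L)) :=
        le_mul_of_one_le_right (by positivity) h4
      have h6 : 0 ≤ (C₁ * c' + 4 * (𝔸.A * 𝔸.d ^ r : ℝ)) * v ^ r * (l / L) * B := by positivity
      calc (𝔸.A : ℝ) * B ≤ 𝔸.A * B * (c' * v ^ r * (l / L)) +
            (C₁ * c' + 4 * (𝔸.A * 𝔸.d ^ r : ℝ)) * v ^ r * (l / L) * B := by linarith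
        _ = (C₁ * c' + 4 * (𝔸.A * 𝔸.d ^ r) + 𝔸.A * c') * v ^ r * (l / L) * B := by ring

end MP60829e.ZV
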