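import Mathlib
import Pool.Agent.Lib.MP_60829e_nt.ZV.Defs

/-! # Theorem ZV: mixed differences of monomials (compare ZL/Om.lean) -/

open Module Finset MvPolynomial

namespace MP60829e.ZV

open MP60829e.ST (Qa Lt)

variable {J : Type} [Fintype J]

/-- The product of the binomial coefficients. -/
def ch (α β : J →₀ ℕ) : ℕ := ∏ j, (α j).choose (β j)

/-- PROOF: injection into the functions `J → Fin (D + 1)`. -/
theorem card_Ix (D : ℕ) : (Ix J D).card ≤ (D + 1) ^ Fintype.card J := by
  classical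
  have hinj : Set.InjOn (fun α : J →₀ ℕ => fun j => (α j : ℕ)) (Ix J D) := by
    intro α _ β _ h
    exact Finsupp.ext fun j => congrFun h j
  have h1 : (Ix J D).image (fun α : J →₀ ℕ => fun j => (α j : ℕ)) ⊆
      Fintype.piFinset fun _ : J => range (D + 1) := by
    intro f hf
    obtain ⟨α, hα, rfl⟩ := Finset.mem_image.1 hf
    rw [Fintype.mem_piFinset]
    intro j
    have h2 := Finsupp.le_degree j α
    have h3 := mem_Ix.1 hα
    exact Finset.mem_range.2 (by omega)
  rw [← Finset.card_image_of_injOn hinj]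
  refine (Finset.card_le_card h1).trans ?_
  rw [Fintype.card_piFinset]
  simp

theorem zero_mem_Ix (D : ℕ) : (0 : J →₀ ℕ) ∈ Ix J D := by
  rw [mem_Ix, map_zero]
  exact Nat.zero_le D

theorem mon_zero_right (x : J → ℂ) : mon x 0 = 1 := by
  simp [mon]

theorem mon_single (x : J → ℂ) (j : J) : mon x (Finsupp.single j 1) = x j := by
  classical
  unfold mon
  rw [Finset.prod_eq_single j]
  · rw [Finsupp.single_eq_same, pow_one]
  · intro i _ hi
    rw [Finsupp.single_eq_of_ne hi, pow_zero]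
  · intro h
    exact absurd (Finset.mem_univ j) h

theorem mon_add_right (x : J → ℂ) (α β : J →₀ ℕ) : mon x (α + β) = mon x α * mon x β := by
  unfold mon
  rw [← Finset.prod_mul_distrib]
  refine Finset.prod_congr rfl fun j _ => ?_
  rw [Finsupp.add_apply, pow_add]

theorem eval_eq_sum {D : ℕ} (x : J → ℂ) (F : MvPolynomial J ℂ) (hF : F.totalDegree ≤ D) :
    eval x F = ∑ α ∈ Ix J D, F.coeff α * mon x α := by
  rw [eval_eq']
  refine Finset.sum_subset ?_ ?_
  · intro α hα
    rw [mem_Ix]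
    exact (le_totalDegree hα).trans hF
  · intro α _ hα
    rw [notMem_support_iff.1 hα, zero_mul]

theorem ch_eq_zero {α β : J →₀ ℕ} (h : ¬ β ≤ α) : ch α β = 0 := by
  rw [Finsupp.le_def, not_forall] at h
  obtain ⟨j, hj⟩ := h
  unfold ch
  exact Finset.prod_eq_zero (Finset.mem_univ j) (Nat.choose_eq_zero_of_lt (not_le.1 hj))

theorem ch_zero (α : J →₀ ℕ) : ch α 0 = 1 := by
  simp [ch]

theorem ch_single (α : J →₀ ℕ) (j : J) : ch α (Finsupp.single j 1) = α j := by
  classical
  unfold ch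
  rw [Finset.prod_eq_single j]
  · rw [Finsupp.single_eq_same, Nat.choose_one_right]
  · intro i _ hi
    rw [Finsupp.single_eq_of_ne hi, Nat.choose_zero_right]
  · intro h
    exact absurd (Finset.mem_univ j) h

/-- The binomial theorem. PROOF: `add_pow`, `Finset.prod_univ_sum`. -/
theorem mon_add {D : ℕ} (x y : J → ℂ) {α : J →₀ ℕ} (hα : α ∈ Ix J D) :
    mon (x + y) α = ∑ β ∈ Ix J D, (ch α β : ℂ) * mon y β * mon x (α - β) := by
  classical
  have h0 : mon (x + y) α = ∏ j, ∑ m ∈ range (α j + 1),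
      y j ^ m * x j ^ (α j - m) * ((α j).choose m : ℂ) := by
    unfold mon
    refine Finset.prod_congr rfl fun j _ => ?_
    rw [Pi.add_apply, add_comm, add_pow]
  have h1 : ∑ β ∈ Ix J D, (ch α β : ℂ) * mon y β * mon x (α - β) =
      ∑ β ∈ (Ix J D).filter (fun β => β ≤ α), (ch α β : ℂ) * mon y β * mon x (α - β) := by
    refine (Finset.sum_filter_of_ne fun β _ h => ?_).symm
    by_contra hle
    exact h (by rw [ch_eq_zero hle, Nat.cast_zero, zero_mul, zero_mul])
  rw [h0, Finset.prod_univ_sum, h1]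
  refine Finset.sum_nbij' (fun f => Finsupp.equivFunOnFinite.symm f) (fun β => ⇑β) ?_ ?_ ?_ ?_ ?_
  · intro f hf
    rw [Fintype.mem_piFinset] at hf
    have hle : Finsupp.equivFunOnFinite.symm f ≤ α := by
      intro j
      have h2 := Finset.mem_range.1 (hf j)
      change f j ≤ α j
      omega
    exact Finset.mem_filter.2
      ⟨mem_Ix.2 ((Finsupp.degree_mono hle).trans (mem_Ix.1 hα)), hle⟩
  · intro β hβ
    rw [Fintype.mem_piFinset]
    intro j
    have h2 := (Finset.mem_filter.1 hβ).2 j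
    exact Finset.mem_range.2 (by omega)
  · intro f _
    rfl
  · intro β _
    exact Finsupp.ext fun j => rfl
  · intro f _
    unfold ch mon
    rw [Nat.cast_prod, ← Finset.prod_mul_distrib, ← Finset.prod_mul_distrib]
    refine Finset.prod_congr rfl fun j _ => ?_
    have h3 : (Finsupp.equivFunOnFinite.symm f : J →₀ ℕ) j = f j := rfl
    rw [Finsupp.tsub_apply, h3]
    ring

theorem om_empty (w : J → ℂ) (δ : ℕ → J → ℂ) (α : J →₀ ℕ) : om w δ α ∅ = mon w α := by
  simp [om]

/-- Compare `ZL.om_insert_sub`. -/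
theorem om_insert_sub (w : J → ℂ) (δ : ℕ → J → ℂ) (α : J →₀ ℕ) {S : Finset ℕ} {t : ℕ} (ht : t ∉ S) :
    om w δ α (insert t S) = om (w + δ t) δ α S - om w δ α S := by
  have hd : Disjoint S.powerset (S.powerset.image (insert t)) := by
    rw [Finset.disjoint_left]
    intro A hA hA'
    obtain ⟨B, -, hB⟩ := Finset.mem_image.1 hA'
    have h1 : t ∈ A := by rw [← hB]; exact Finset.mem_insert_self _ _
    exact ht (Finset.mem_powerset.1 hA h1)
  have hinj : Set.InjOn (insert t : Finset ℕ → Finset ℕ) S.powerset := by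
    intro A hA B hB hAB
    have h1 : t ∉ A := fun h => ht (Finset.mem_powerset.1 hA h)
    have h2 : t ∉ B := fun h => ht (Finset.mem_powerset.1 hB h)
    rw [← Finset.erase_insert h1, ← Finset.erase_insert h2, hAB]
  unfold om
  rw [Finset.powerset_insert, Finset.sum_union hd, Finset.sum_image hinj,
    Finset.card_insert_of_notMem ht]
  have e1 : ∑ S' ∈ S.powerset, (-1 : ℂ) ^ (S.card + 1 + S'.card) * mon (w + ∑ t ∈ S', δ t) α =
      - ∑ S' ∈ S.powerset, (-1 : ℂ) ^ (S.card + S'.card) * mon (w + ∑ t ∈ S', δ t) α := by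
    rw [← Finset.sum_neg_distrib]
    refine Finset.sum_congr rfl fun A _ => ?_
    rw [show S.card + 1 + A.card = S.card + A.card + 1 by ring, pow_succ]
    ring
  have e2 : ∑ S' ∈ S.powerset, (-1 : ℂ) ^ (S.card + 1 + (insert t S').card) *
      mon (w + ∑ t ∈ insert t S', δ t) α =
      ∑ S' ∈ S.powerset, (-1 : ℂ) ^ (S.card + S'.card) * mon (w + δ t + ∑ t ∈ S', δ t) α := by
    refine Finset.sum_congr rfl fun A hA => ?_
    have h1 : t ∉ A := fun h => ht (Finset.mem_powerset.1 hA h)
    rw [Finset.card_insert_of_notMem h1, Finset.sum_insert h1,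
      show S.card + 1 + (A.card + 1) = S.card + A.card + 2 by ring, pow_add, ← add_assoc]
    norm_num
  rw [e1, e2]
  ring

/-- Compare `ZL.om_add`. -/
theorem om_add {D : ℕ} (w ξ : J → ℂ) (δ : ℕ → J → ℂ) {α : J →₀ ℕ} (hα : α ∈ Ix J D) (S : Finset ℕ) :
    om (w + ξ) δ α S = ∑ β ∈ Ix J D, (ch α β : ℂ) * mon ξ β * om w δ (α - β) S := by
  unfold om
  simp_rw [Finset.mul_sum]
  rw [Finset.sum_comm]
  refine Finset.sum_congr rfl fun A _ => ?_
  rw [show w + ξ + ∑ t ∈ A, δ t = (w + ∑ t ∈ A, δ t) + ξ by abel, mon_add _ _ hα, Finset.mul_sum]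
  refine Finset.sum_congr rfl fun i _ => ?_
  ring

/-- Compare `ZL.om_insert`. -/
theorem om_insert {D : ℕ} (w : J → ℂ) (δ : ℕ → J → ℂ) {α : J →₀ ℕ} (hα : α ∈ Ix J D) {S : Finset ℕ}
    {t : ℕ} (ht : t ∉ S) : om w δ α (insert t S) =
      ∑ β ∈ (Ix J D).filter (fun β => β ≠ 0), (ch α β : ℂ) * mon (δ t) β * om w δ (α - β) S := by
  rw [om_insert_sub w δ α ht, om_add w (δ t) δ hα, Finset.filter_ne',
    ← Finset.add_sum_erase (Ix J D) _ (zero_mem_Ix D), ch_zero, mon_zero_right, tsub_zero]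
  simp

/-- Compare `ZL.om_eq_zero`: induction on `S` with `om_insert`. -/
theorem om_eq_zero (w : J → ℂ) (δ : ℕ → J → ℂ) {α : J →₀ ℕ} {S : Finset ℕ} (h : α.degree < S.card) :
    om w δ α S = 0 := by
  induction S using Finset.induction_on generalizing α with
  | empty => simp at h
  | insert t S ht ih =>
    rw [Finset.card_insert_of_notMem ht] at h
    rw [om_insert w δ (mem_Ix.2 (le_refl α.degree)) ht]
    refine Finset.sum_eq_zero fun β hβ => ?_
    have hβ0 := (Finset.mem_filter.1 hβ).2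
    by_cases hle : β ≤ α
    · have h1 : (α - β).degree + β.degree = α.degree := by
        rw [← map_add, tsub_add_cancel_of_le hle]
      have h2 : β.degree ≠ 0 := fun h => hβ0 ((Finsupp.degree_eq_zero_iff β).1 h)
      rw [ih (by omega), mul_zero]
    · rw [ch_eq_zero hle, Nat.cast_zero, zero_mul, zero_mul]

/-- The top differences. PROOF: `om_insert`, `om_eq_zero`: only the `β` of degree `1` survive. -/
theorem om_top_insert (w : J → ℂ) (δ : ℕ → J → ℂ) {α : J →₀ ℕ} {S : Finset ℕ} {t : ℕ} (ht : t ∉ S)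
    (h : α.degree = S.card + 1) : om w δ α (insert t S) =
      ∑ j, (α j : ℂ) * δ t j * om w δ (α - Finsupp.single j 1) S := by
  rw [om_insert w δ (mem_Ix.2 (le_refl α.degree)) ht]
  have hinj : Function.Injective fun j : J => (Finsupp.single j 1 : J →₀ ℕ) :=
    fun i j hij => (Finsupp.single_left_inj one_ne_zero).1 hij
  have hsub : (Finset.univ.image fun j : J => (Finsupp.single j 1 : J →₀ ℕ)) ⊆
      (Ix J α.degree).filter (fun β => β ≠ 0) := by
    intro β hβ
    obtain ⟨j, -, rfl⟩ := Finset.mem_image.1 hβ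
    refine Finset.mem_filter.2 ⟨mem_Ix.2 ?_, ?_⟩
    · rw [Finsupp.degree_single]
      omega
    · exact fun h0 => one_ne_zero ((Finsupp.single_eq_zero).1 h0)
  rw [← Finset.sum_subset hsub, Finset.sum_image fun i _ j _ hij => hinj hij]
  · refine Finset.sum_congr rfl fun j _ => ?_
    rw [ch_single, mon_single]
  · intro β hβ hβ'
    by_cases hle : β ≤ α
    · have h1 : (α - β).degree + β.degree = α.degree := by
        rw [← map_add, tsub_add_cancel_of_le hle]
      have h2 : β.degree ≠ 0 := fun h0 =>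
        (Finset.mem_filter.1 hβ).2 ((Finsupp.degree_eq_zero_iff β).1 h0)
      have h3 : β.degree ≠ 1 := by
        intro h0
        obtain ⟨j, hj⟩ := (Finsupp.sum_eq_one_iff β).1 h0
        exact hβ' (Finset.mem_image.2 ⟨j, Finset.mem_univ j, hj.symm⟩)
      rw [om_eq_zero w δ (by omega), mul_zero]
    · rw [ch_eq_zero hle, Nat.cast_zero, zero_mul, zero_mul]

/-- PROOF: induction on `S` with `om_top_insert`. -/
theorem om_top (w w' : J → ℂ) (δ : ℕ → J → ℂ) {α : J →₀ ℕ} {S : Finset ℕ} (h : α.degree = S.card) :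
    om w δ α S = om w' δ α S := by
  classical
  induction S using Finset.induction_on generalizing α with
  | empty =>
    rw [Finset.card_empty] at h
    rw [om_empty, om_empty, (Finsupp.degree_eq_zero_iff α).1 h, mon_zero_right, mon_zero_right]
  | insert t S ht ih =>
    rw [Finset.card_insert_of_notMem ht] at h
    rw [om_top_insert w δ ht h, om_top_insert w' δ ht h]
    refine Finset.sum_congr rfl fun j _ => ?_
    by_cases hj : α j = 0
    · rw [hj, Nat.cast_zero, zero_mul, zero_mul, zero_mul]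
    · have hle : Finsupp.single j 1 ≤ α := by
        rw [Finsupp.single_le_iff]
        omega
      have h1 : (α - Finsupp.single j 1).degree + (Finsupp.single j 1 : J →₀ ℕ).degree =
          α.degree := by
        rw [← map_add, tsub_add_cancel_of_le hle]
      rw [Finsupp.degree_single] at h1
      rw [ih (by omega)]

/-- Compare `ZL.pow_eq_sum_om`. -/
theorem mon_eq_sum_om (w : J → ℂ) (δ : ℕ → J → ℂ) (α : J →₀ ℕ) (q : Finset ℕ) :
    mon (w + ∑ t ∈ q, δ t) α = ∑ S ∈ q.powerset, om w δ α S := by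
  classical
  induction q using Finset.induction_on generalizing w with
  | empty => simp [om_empty]
  | insert t q ht ih =>
    have hd : Disjoint q.powerset (q.powerset.image (insert t)) := by
      rw [Finset.disjoint_left]
      intro A hA hA'
      obtain ⟨B, -, hB⟩ := Finset.mem_image.1 hA'
      have h1 : t ∈ A := by rw [← hB]; exact Finset.mem_insert_self _ _
      exact ht (Finset.mem_powerset.1 hA h1)
    have hinj : Set.InjOn (insert t : Finset ℕ → Finset ℕ) q.powerset := by
      intro A hA B hB hAB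
      have h1 : t ∉ A := fun h => ht (Finset.mem_powerset.1 hA h)
      have h2 : t ∉ B := fun h => ht (Finset.mem_powerset.1 hB h)
      rw [← Finset.erase_insert h1, ← Finset.erase_insert h2, hAB]
    rw [Finset.powerset_insert, Finset.sum_union hd, Finset.sum_image hinj, Finset.sum_insert ht,
      ← add_assoc, ih (w + δ t), ← Finset.sum_add_distrib]
    refine Finset.sum_congr rfl fun A hA => ?_
    have h1 : t ∉ A := fun h => ht (Finset.mem_powerset.1 hA h)
    rw [om_insert_sub w δ α h1]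
    ring

theorem one_mem_P (w : J → ℂ) (δ : ℕ → J → ℂ) (m : ℕ) : (1 : ℂ) ∈ P w δ m :=
  Submodule.subset_span (Set.mem_insert _ _)

theorem w_mem_P (w : J → ℂ) (δ : ℕ → J → ℂ) (m : ℕ) (j : J) : w j ∈ P w δ m :=
  Submodule.subset_span (Set.mem_insert_of_mem _ (Or.inl ⟨j, rfl⟩))

theorem delta_mem_P (w : J → ℂ) (δ : ℕ → J → ℂ) {m t : ℕ} (ht : t < m) (j : J) : δ t j ∈ P w δ m :=
  Submodule.subset_span (Set.mem_insert_of_mem _ (Or.inr ⟨t, ht, j, rfl⟩))

theorem P_mono (w : J → ℂ) (δ : ℕ → J → ℂ) {m m' : ℕ} (h : m ≤ m') : P w δ m ≤ P w δ m' := by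
  refine Submodule.span_mono (Set.insert_subset_insert (Set.union_subset_union_right _ ?_))
  rintro z ⟨t, ht, j, rfl⟩
  exact ⟨t, lt_of_lt_of_le ht h, j, rfl⟩

private theorem P_eq (w : J → ℂ) (δ : ℕ → J → ℂ) (m : ℕ) : ∃ s : Finset ℂ,
    P w δ m = Submodule.span Qa (s : Set ℂ) ∧ s.card ≤ (m + 1) * Fintype.card J + 1 := by
  classical
  refine ⟨insert 1 (Finset.univ.image w ∪ ((range m) ×ˢ (Finset.univ : Finset J)).image
    fun p => δ p.1 p.2), ?_, ?_⟩
  · unfold P
    congr 1
    ext z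
    simp only [Set.mem_insert_iff, Set.mem_union, Set.mem_range, Set.mem_ofPred_eq,
      Finset.coe_insert, Finset.coe_union, Finset.coe_image, Finset.coe_univ, Set.image_univ,
      Set.mem_image, Finset.mem_coe, Finset.mem_product, Finset.mem_range, Finset.mem_univ,
      and_true, Prod.exists]
    constructor
    · rintro (h | h | ⟨t, ht, j, rfl⟩)
      · exact Or.inl h
      · exact Or.inr (Or.inl h)
      · exact Or.inr (Or.inr ⟨t, j, ht, rfl⟩)
    · rintro (h | h | ⟨t, j, ht, rfl⟩)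
      · exact Or.inl h
      · exact Or.inr (Or.inl h)
      · exact Or.inr (Or.inr ⟨t, ht, j, rfl⟩)
  · refine (Finset.card_insert_le _ _).trans ?_
    have h1 := Finset.card_union_le (Finset.univ.image w)
      (((range m) ×ˢ (Finset.univ : Finset J)).image fun p => δ p.1 p.2)
    have h2 : (Finset.univ.image w).card ≤ Fintype.card J := Finset.card_image_le
    have h3 : (((range m) ×ˢ (Finset.univ : Finset J)).image fun p => δ p.1 p.2).card ≤
        m * Fintype.card J := by
      refine Finset.card_image_le.trans ?_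
      rw [Finset.card_product, Finset.card_range, Finset.card_univ]
    have h4 : (m + 1) * Fintype.card J = m * Fintype.card J + Fintype.card J := by ring
    omega

instance (w : J → ℂ) (δ : ℕ → J → ℂ) (m : ℕ) : FiniteDimensional Qa (P w δ m) := by
  obtain ⟨s, hs, -⟩ := P_eq w δ m
  rw [hs]
  infer_instance

theorem finrank_P (w : J → ℂ) (δ : ℕ → J → ℂ) (m : ℕ) :
    finrank Qa (P w δ m) ≤ (m + 1) * Fintype.card J + 1 := by
  obtain ⟨s, hs, hc⟩ := P_eq w δ m
  rw [hs]
  exact (finrank_span_finset_le_card _).trans hc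

/-- `P` depends only on `δ 0, …, δ (m - 1)`. -/
theorem P_congr (w : J → ℂ) {δ δ' : ℕ → J → ℂ} {m : ℕ} (h : ∀ t < m, δ t = δ' t) :
    P w δ m = P w δ' m := by
  unfold P
  congr 2
  congr 1
  ext z
  constructor
  · rintro ⟨t, ht, j, rfl⟩
    exact ⟨t, ht, j, by rw [h t ht]⟩
  · rintro ⟨t, ht, j, rfl⟩
    exact ⟨t, ht, j, by rw [h t ht]⟩

theorem om_congr (w : J → ℂ) {δ δ' : ℕ → J → ℂ} (α : J →₀ ℕ) {S : Finset ℕ}
    (h : ∀ t ∈ S, δ t = δ' t) : om w δ α S = om w δ' α S := by
  unfold om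
  refine Finset.sum_congr rfl fun A hA => ?_
  rw [Finset.sum_congr rfl fun t ht => h t (Finset.mem_powerset.1 hA ht)]

theorem mon_mem {Q : Submodule Qa ℂ} (h1 : (1 : ℂ) ∈ Q) {x : J → ℂ} (hx : ∀ j, x j ∈ Q) {D : ℕ}
    {α : J →₀ ℕ} (hα : α ∈ Ix J D) : mon x α ∈ Q ^ D := by
  classical
  have h2 : ∀ s : Finset J, ∏ j ∈ s, x j ^ α j ∈ Q ^ (∑ j ∈ s, α j) := by
    intro s
    induction s using Finset.induction_on with
    | empty =>
      rw [Finset.prod_empty, Finset.sum_empty, pow_zero]
      exact Submodule.one_le.1 le_rfl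
    | insert j s hj ih =>
      rw [Finset.prod_insert hj, Finset.sum_insert hj, pow_add]
      exact Submodule.mul_mem_mul (Submodule.pow_mem_pow Q (hx j) _) ih
  have h3 := h2 Finset.univ
  rw [← Finsupp.degree_eq_sum] at h3
  exact ZL.pow_le_pow_of_one_mem h1 (mem_Ix.1 hα) h3

/-- Compare `ZL.om_mem`. -/
theorem om_mem (w : J → ℂ) (δ : ℕ → J → ℂ) {m D : ℕ} {α : J →₀ ℕ} {S : Finset ℕ}
    (hS : S ∈ (range m).powerset) (hα : α ∈ Ix J D) : om w δ α S ∈ P w δ m ^ D := by
  unfold om
  refine Submodule.sum_mem _ fun A hA => ?_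
  have h2 : mon (w + ∑ t ∈ A, δ t) α ∈ P w δ m ^ D := by
    refine mon_mem (one_mem_P w δ m) (fun j => ?_) hα
    rw [Pi.add_apply, Finset.sum_apply]
    refine Submodule.add_mem _ (w_mem_P w δ m j) (Submodule.sum_mem _ fun t ht => ?_)
    exact delta_mem_P w δ (Finset.mem_range.1
      (Finset.mem_powerset.1 hS (Finset.mem_powerset.1 hA ht))) j
  rcases neg_one_pow_eq_or ℂ (S.card + A.card) with h3 | h3
  · rw [h3, one_mul]; exact h2
  · rw [h3, neg_one_mul]; exact Submodule.neg_mem _ h2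

/-- The same for the base point `0`. -/
theorem om_zero_mem (w : J → ℂ) (δ : ℕ → J → ℂ) {m D : ℕ} {α : J →₀ ℕ} {S : Finset ℕ}
    (hS : S ∈ (range m).powerset) (hα : α ∈ Ix J D) : om 0 δ α S ∈ P w δ m ^ D := by
  unfold om
  refine Submodule.sum_mem _ fun A hA => ?_
  have h2 : mon (0 + ∑ t ∈ A, δ t) α ∈ P w δ m ^ D := by
    refine mon_mem (one_mem_P w δ m) (fun j => ?_) hα
    rw [zero_add, Finset.sum_apply]
    refine Submodule.sum_mem _ fun t ht => ?_
    exact delta_mem_P w δ (Finset.mem_range.1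
      (Finset.mem_powerset.1 hS (Finset.mem_powerset.1 hA ht))) j
  rcases neg_one_pow_eq_or ℂ (S.card + A.card) with h3 | h3
  · rw [h3, one_mul]; exact h2
  · rw [h3, neg_one_mul]; exact Submodule.neg_mem _ h2

end MP60829e.ZV
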