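import Mathlib
import Pool.Agent.Lib.MP_60829e_nt.ZV.Om

/-! # Theorem ZV: consequences of `LD` for vectors (compare ZL/LD.lean) -/

open Module Finset MvPolynomial

namespace MP60829e.ZV

open MP60829e.ST (Qa Lt)
open MP60829e.ZL (LD)

variable {J : Type} [Fintype J]

/-- If `z` is independent modulo `V` there is a functional which is `0` on `V` and at the other
coordinates, and `1` at `z j`. -/
theorem exists_functional {V : Submodule Qa ℂ} {z : J → ℂ} (hz : Ind V z) (j : J) :
    ∃ φ : ℂ →ₗ[Qa] Qa, (∀ x ∈ V, φ x = 0) ∧ φ (z j) = 1 ∧ ∀ i, i ≠ j → φ (z i) = 0 := by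
  classical
  obtain ⟨u, hu⟩ : ∃ u : J → ℂ, u = fun i => if i = j then 0 else z i := ⟨_, rfl⟩
  have h1 : z j ∉ V ⊔ Submodule.span Qa (Set.range u) := by
    intro h
    obtain ⟨v, hv, w, hw, hvw⟩ := Submodule.mem_sup.1 h
    obtain ⟨c, hc⟩ := (Submodule.mem_span_range_iff_exists_fun Qa).1 hw
    have h2 := hz (fun i => if i = j then -1 else c i) (by
      have h3 : ∑ i, (if i = j then (-1 : Qa) else c i) • z i = -v := by
        have h4 : ∑ i, (if i = j then (-1 : Qa) else c i) • z i =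
            ∑ i, (c i • u i - if i = j then z j else 0) := by
          refine Finset.sum_congr rfl fun i _ => ?_
          rw [hu]
          by_cases hi : i = j
          · subst hi
            rw [if_pos rfl, if_pos rfl]
            dsimp only
            rw [if_pos rfl, smul_zero, zero_sub, neg_smul, one_smul]
          · rw [if_neg hi, if_neg hi]
            dsimp only
            rw [if_neg hi, sub_zero]
        rw [h4, Finset.sum_sub_distrib, hc, Finset.sum_ite_eq' Finset.univ j, if_pos (mem_univ j),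
          ← hvw]
        ring
      rw [h3]
      exact V.neg_mem hv)
    have h3 := congrFun h2 j
    rw [if_pos rfl] at h3
    exact neg_ne_zero.2 one_ne_zero h3
  obtain ⟨φ, hφ, hφ1⟩ := ZL.exists_functional h1
  refine ⟨φ, fun x hx => hφ x (Submodule.mem_sup_left hx), hφ1, fun i hi => ?_⟩
  refine hφ _ (Submodule.mem_sup_right (Submodule.subset_span ⟨i, ?_⟩))
  rw [hu]
  exact if_neg hi

/-- Compare `ZL.LD.coeff`. PROOF: `LD` with the functional of `exists_functional`; `b` is a finite sum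
of `a i * v i` (`ZL.exists_sum_of_mem_mul`). -/
theorem coeff_mem_of_LD {Y V A : Submodule Qa ℂ} (h : LD Y V) (h1 : (1 : ℂ) ∈ V) (hA : A ≤ Y)
    {z : J → ℂ} {a0 b : ℂ} {a : J → ℂ} (hz : ∀ j, z j ∈ Lt) (hzV : Ind V z) (ha0 : a0 ∈ Y)
    (ha : ∀ j, a j ∈ Y) (hb : b ∈ A * Lt) (h0 : a0 + ∑ j, a j * z j = b) : ∀ j, a j ∈ A := by
  classical
  intro j
  obtain ⟨n, α, β, hα, hβ, rfl⟩ := ZL.exists_sum_of_mem_mul hb
  obtain ⟨φ, hφV, hφj, hφi⟩ := exists_functional hzV j
  have h2 := h (Option J ⊕ Fin n) (Sum.elim (fun o => o.elim a0 a) fun i => -α i)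
    (Sum.elim (fun o => o.elim 1 z) β)
    (by
      rintro ((_ | i) | i)
      · exact ha0
      · exact ha i
      · exact Y.neg_mem (hA (hα i)))
    (by
      rintro ((_ | i) | i)
      · exact SL.one_mem_Lt
      · exact hz i
      · exact hβ i)
    (by
      rw [Fintype.sum_sum_type, Fintype.sum_option]
      simp only [Sum.elim_inl, Sum.elim_inr, Option.elim_none, Option.elim_some, mul_one,
        neg_mul, Finset.sum_neg_distrib]
      rw [h0, add_neg_cancel]) φ hφV
  rw [Fintype.sum_sum_type, Fintype.sum_option, Finset.sum_eq_single_of_mem j (mem_univ j)] at h2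
  · simp only [Sum.elim_inl, Sum.elim_inr, Option.elim_none, Option.elim_some,
      hφV 1 h1, zero_smul, hφj, one_smul, zero_add, smul_neg, Finset.sum_neg_distrib] at h2
    rw [add_neg_eq_zero] at h2
    rw [h2]
    exact Submodule.sum_mem _ fun i _ => A.smul_mem _ (hα i)
  · intro i _ hi
    simp only [Sum.elim_inl, Option.elim_some]
    rw [hφi i hi, zero_smul]

/-- PROOF: `coeff_mem_of_LD` with `A = ⊥`. -/
theorem zero_of_LD {Y V : Submodule Qa ℂ} (h : LD Y V) (h1 : (1 : ℂ) ∈ V) {z : J → ℂ} {a0 : ℂ}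
    {a : J → ℂ} (hz : ∀ j, z j ∈ Lt) (hzV : Ind V z) (ha0 : a0 ∈ Y) (ha : ∀ j, a j ∈ Y)
    (h0 : a0 + ∑ j, a j * z j = 0) : a0 = 0 ∧ a = 0 := by
  have h2 : ∀ j, a j = 0 := fun j => (Submodule.mem_bot Qa).1
    (coeff_mem_of_LD h h1 bot_le hz hzV ha0 ha (Submodule.zero_mem _) h0 j)
  refine ⟨?_, funext h2⟩
  rw [Finset.sum_eq_zero fun j _ => by rw [h2 j, zero_mul], add_zero] at h0
  exact h0

private theorem coeff_lin (b : ℂ) (a : J → ℂ) [DecidableEq J] (α : J →₀ ℕ) :
    coeff α (C b + ∑ j, C (a j) * X j) =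
      (if 0 = α then b else 0) + ∑ j, if Finsupp.single j 1 = α then a j else 0 := by
  rw [coeff_add, coeff_C, coeff_sum]
  congr 1
  refine Finset.sum_congr rfl fun j _ => ?_
  rw [coeff_C_mul, coeff_X, mul_ite, mul_one, mul_zero]

theorem eq_of_deg_one {f : MvPolynomial J ℂ} (h : f.totalDegree ≤ 1) :
    f = C (f.coeff 0) + ∑ j, C (f.coeff (Finsupp.single j 1)) * X j := by
  classical
  ext α
  rw [coeff_lin]
  by_cases h0 : α = 0
  · subst h0
    rw [if_pos rfl, Finset.sum_eq_zero, add_zero]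
    intro j _
    rw [if_neg]
    intro h1
    have h2 := DFunLike.congr_fun h1 j
    rw [Finsupp.single_eq_same, Finsupp.coe_zero, Pi.zero_apply] at h2
    exact one_ne_zero h2
  · rw [if_neg (Ne.symm h0), zero_add]
    by_cases h1 : ∃ j, Finsupp.single j 1 = α
    · obtain ⟨j, rfl⟩ := h1
      rw [Finset.sum_eq_single_of_mem j (mem_univ j), if_pos rfl]
      intro i _ hi
      rw [if_neg]
      intro h2
      exact hi (Finsupp.single_left_injective one_ne_zero h2)
    · push Not at h1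
      rw [Finset.sum_eq_zero fun j _ => if_neg (h1 j)]
      by_contra hc
      have h2 : (α.sum fun _ e => e) ≤ 1 :=
        (le_totalDegree (MvPolynomial.mem_support_iff.2 hc)).trans h
      obtain ⟨j, hj⟩ : ∃ j, α j ≠ 0 := by
        by_contra hcon
        push Not at hcon
        exact h0 (Finsupp.ext hcon)
      have h3 : Finsupp.single j 1 ≤ α := by
        rw [Finsupp.single_le_iff]
        omega
      obtain ⟨γ, hγ⟩ := exists_add_of_le h3
      have h4 : (α.sum fun _ e => e) = 1 + (γ.sum fun _ e => e) := by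
        rw [hγ, Finsupp.sum_add_index' (fun _ => rfl) (fun _ _ _ => rfl),
          Finsupp.sum_single_index rfl]
      have h5 : (γ.sum fun _ e => e) = 0 := by omega
      refine h1 j ?_
      rw [hγ]
      have h6 : γ = 0 := by
        ext i
        rw [Finsupp.coe_zero, Pi.zero_apply]
        by_contra h7
        have h8 : γ i ≤ γ.sum fun _ e => e :=
          Finset.single_le_sum (f := fun i => γ i) (fun _ _ => Nat.zero_le _)
            (Finsupp.mem_support_iff.2 h7)
        omega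
      rw [h6, add_zero]

/-- PROOF: a polynomial of degree at most `1` is `C (coeff 0) + ∑ j, C (coeff (single j 1)) * X j`. -/
theorem eval_of_deg_one {f : MvPolynomial J ℂ} (h : f.totalDegree ≤ 1) (z : J → ℂ) :
    eval z f = f.coeff 0 + ∑ j, f.coeff (Finsupp.single j 1) * z j := by
  conv_lhs => rw [eq_of_deg_one h]
  rw [map_add, eval_C, map_sum]
  congr 1
  refine Finset.sum_congr rfl fun j _ => ?_
  rw [map_mul, eval_C, eval_X]

/-- PROOF: `Gen` gives degree `≤ 1`, then `zero_of_LD`. -/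
theorem eq_zero_of_gen {Y V : Submodule Qa ℂ} {D : ℕ} {z : J → ℂ} (h : LD Y V) (h1 : (1 : ℂ) ∈ V)
    (hg : Gen Y D z) (hz : ∀ j, z j ∈ Lt) (hzV : Ind V z) (f : MvPolynomial J ℂ)
    (hf : ∀ α, f.coeff α ∈ Y) (hd : f.totalDegree ≤ D) (h0 : eval z f = 0) : f = 0 := by
  have h2 : f.totalDegree ≤ 1 := hg f hf hd (by rw [h0]; exact Submodule.zero_mem _)
  rw [eval_of_deg_one h2] at h0
  obtain ⟨h3, h4⟩ := zero_of_LD h h1 hz hzV (hf 0) (fun j => hf _) h0
  rw [eq_of_deg_one h2, h3, C_0, zero_add]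
  refine Finset.sum_eq_zero fun j _ => ?_
  rw [show coeff (Finsupp.single j 1) f = 0 from congrFun h4 j, C_0, zero_mul]

/-- The coefficient form of `eq_zero_of_gen`. -/
theorem coeff_zero_of_gen {Y V : Submodule Qa ℂ} {D : ℕ} {z : J → ℂ} (h : LD Y V) (h1 : (1 : ℂ) ∈ V)
    (hg : Gen Y D z) (hz : ∀ j, z j ∈ Lt) (hzV : Ind V z) (c : (J →₀ ℕ) → ℂ) (hc : ∀ α, c α ∈ Y)
    (h0 : ∑ α ∈ Ix J D, c α * mon z α = 0) : ∀ α ∈ Ix J D, c α = 0 := by
  classical
  have hco : ∀ α, coeff α (∑ β ∈ Ix J D, monomial β (c β)) = if α ∈ Ix J D then c α else 0 := by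
    intro α
    rw [coeff_sum]
    simp only [coeff_monomial]
    rw [Finset.sum_ite_eq' (Ix J D) α]
  have h2 := eq_zero_of_gen h h1 hg hz hzV (∑ β ∈ Ix J D, monomial β (c β)) (fun α => by
      rw [hco]
      split_ifs
      · exact hc α
      · exact Y.zero_mem) (by
      refine (totalDegree_finsetSum _ _).trans (Finset.sup_le fun β hβ => ?_)
      refine (totalDegree_monomial_le β (c β)).trans ?_
      exact mem_Ix.1 hβ) (by
      rw [map_sum, ← h0]
      refine Finset.sum_congr rfl fun β _ => ?_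
      rw [eval_monomial]
      unfold mon
      rw [Finsupp.prod_fintype]
      intro j
      exact pow_zero _)
  intro α hα
  have h3 := hco α
  rw [h2, coeff_zero, if_pos hα] at h3
  exact h3.symm

theorem Gen.mono {Y Y' : Submodule Qa ℂ} {D D' : ℕ} {z : J → ℂ} (h : Gen Y D z) (hY : Y' ≤ Y)
    (hD : D' ≤ D) : Gen Y' D' z :=
  fun f hf hd he => h f (fun i => hY (hf i)) (hd.trans hD) ((mul_le_mul' hY le_rfl : Y' * Lt ≤ Y * Lt) he)

theorem Row.mono {T T' : ℕ} {R : Set (J → ℂ)} (h : Row T R) (hT : T' ≤ T) : Row T' R :=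
  ⟨h.1, h.2.1, fun V hV hd => h.2.2 V hV (hd.trans_le hT)⟩

theorem Ind.mono {V V' : Submodule Qa ℂ} {x : J → ℂ} (h : Ind V' x) (hV : V ≤ V') : Ind V x :=
  fun c hc => h c (hV hc)

/-- Adding a vector with coordinates in `V` does not change independence modulo `V`. -/
theorem Ind.add {V : Submodule Qa ℂ} {x y : J → ℂ} (h : Ind V x) (hy : ∀ j, y j ∈ V) :
    Ind V (y + x) := by
  intro c hc
  refine h c ?_
  have h1 : ∑ j, c j • x j = ∑ j, c j • (y + x) j - ∑ j, c j • y j := by
    rw [← Finset.sum_sub_distrib]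
    refine Finset.sum_congr rfl fun j _ => ?_
    rw [Pi.add_apply, smul_add, add_sub_cancel_left]
  rw [h1]
  exact V.sub_mem hc (Submodule.sum_mem _ fun j _ => V.smul_mem _ (hy j))

end MP60829e.ZV
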