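import Mathlib
import Pool.Agent.Lib.MP_60829e_nt.ZV.LDv

/-! # Theorem ZV: independence of the differences (compare ZL/Free.lean) -/

open Module Finset MvPolynomial

namespace MP60829e.ZV

open MP60829e.ST (Qa Lt)
open MP60829e.ZL (LD exists_LD)

variable {J : Type} [Fintype J]

private theorem nat_mul_mem {A : Submodule Qa ℂ} {x : ℂ} (hx : x ∈ A) (n : ℕ) :
    (n : ℂ) * x ∈ A := by
  rw [← nsmul_eq_mul]
  exact nsmul_mem hx n

omit [Fintype J] in
private theorem degree_tsub_le (α β : J →₀ ℕ) : (α - β).degree ≤ α.degree :=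
  Finsupp.degree_mono tsub_le_self

private theorem tsub_mem_Ix {D : ℕ} {α : J →₀ ℕ} (hα : α ∈ Ix J D) (β : J →₀ ℕ) :
    α - β ∈ Ix J D :=
  mem_Ix.2 ((degree_tsub_le α β).trans (mem_Ix.1 hα))

omit [Fintype J] in
private theorem tsub_add_single {α : J →₀ ℕ} {j : J} (hj : α j ≠ 0) :
    α - Finsupp.single j 1 + Finsupp.single j 1 = α :=
  tsub_add_cancel_of_le (Finsupp.single_le_iff.2 (Nat.one_le_iff_ne_zero.2 hj))

omit [Fintype J] in
private theorem degree_tsub_single {α : J →₀ ℕ} {j : J} (hj : α j ≠ 0) :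
    (α - Finsupp.single j 1).degree + 1 = α.degree := by
  conv_rhs => rw [← tsub_add_single hj, map_add, Finsupp.degree_single]

/-- PROOF: `om w δ α ∅ = mon w α`: `coeff_zero_of_gen`. -/
theorem FF.zero {A V : Submodule Qa ℂ} {w : J → ℂ} {D : ℕ} (δ : ℕ → J → ℂ) (hLD : LD A V)
    (h1 : (1 : ℂ) ∈ V) (hg : Gen A D w) (hw : ∀ j, w j ∈ Lt) (hwV : Ind V w) : FF A w δ 0 D := by
  intro b hb h0 α hα S hS _
  have hS' : S = ∅ := by simpa using hS
  rw [hS']
  refine coeff_zero_of_gen hLD h1 hg hw hwV (fun α => b α ∅) (fun i => hb i ∅) ?_ α hα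
  rw [← h0]
  refine Finset.sum_congr rfl fun β _ => ?_
  rw [Finset.range_zero, Finset.powerset_empty, Finset.sum_singleton, om_empty]

/-- PROOF: split `S = S'` and `S = insert m S'`, expand with `om_insert`: a polynomial of degree `≤ D`
in `δ m` with coefficients in `A * P w δ m ^ D` (`om_mem`), which is `0` by `coeff_zero_of_gen`. Its
constant coefficient gives `b α S' = 0` (`FF A w δ m D`), its coefficient at `single j 1` is
`∑ α, ∑ S', α j * b α (insert m S') * om w δ (α - single j 1) S'`: again `FF A w δ m D`, applied to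
`b' γ S' = (γ j + 1) * b (γ + single j 1) (insert m S')` for `|γ| < D`, `0` for `|γ| = D`; this gives
`b α (insert m S') = 0` for all `α` with `α j ≠ 0`. -/
theorem FF.succ {A V : Submodule Qa ℂ} {w : J → ℂ} {δ : ℕ → J → ℂ} {m D : ℕ} (h : FF A w δ m D)
    (hLD : LD (A * P w δ m ^ D) V) (h1 : (1 : ℂ) ∈ V) (hg : Gen (A * P w δ m ^ D) D (δ m))
    (hδ : ∀ j, δ m j ∈ Lt) (hδV : Ind V (δ m)) : FF A w δ (m + 1) D := by
  intro b hb h0
  have hd : Disjoint (range m).powerset ((range m).powerset.image (insert m)) := by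
    rw [Finset.disjoint_left]
    intro X hX hX'
    obtain ⟨B, -, hB⟩ := Finset.mem_image.1 hX'
    have h1 : m ∈ X := by rw [← hB]; exact Finset.mem_insert_self _ _
    exact Finset.notMem_range_self (Finset.mem_powerset.1 hX h1)
  have hinj : Set.InjOn (insert m : Finset ℕ → Finset ℕ) (range m).powerset := by
    intro X hX B hB hAB
    have h1 : m ∉ X := fun h => Finset.notMem_range_self (Finset.mem_powerset.1 hX h)
    have h2 : m ∉ B := fun h => Finset.notMem_range_self (Finset.mem_powerset.1 hB h)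
    rw [← Finset.erase_insert h1, ← Finset.erase_insert h2, hAB]
  have hnm : ∀ S ∈ (range m).powerset, m ∉ S := fun S hS h =>
    Finset.notMem_range_self (Finset.mem_powerset.1 hS h)
  -- the coefficients of the polynomial in `δ m`
  obtain ⟨c, hc0, hc1⟩ : ∃ c : (J →₀ ℕ) → ℂ,
      c 0 = ∑ α ∈ Ix J D, ∑ S ∈ (range m).powerset, b α S * om w δ α S ∧
      ∀ β, β ≠ 0 → c β = ∑ α ∈ Ix J D, ∑ S ∈ (range m).powerset,
        b α (insert m S) * ((ch α β : ℂ) * om w δ (α - β) S) := by
    classical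
    refine ⟨fun β => if β = 0 then ∑ α ∈ Ix J D, ∑ S ∈ (range m).powerset, b α S * om w δ α S else
      ∑ α ∈ Ix J D, ∑ S ∈ (range m).powerset,
        b α (insert m S) * ((ch α β : ℂ) * om w δ (α - β) S), if_pos rfl, fun β hβ => if_neg hβ⟩
  have hc : ∀ β, c β ∈ A * P w δ m ^ D := by
    intro β
    by_cases hβ : β = 0
    · subst hβ
      rw [hc0]
      exact Submodule.sum_mem _ fun α hα => Submodule.sum_mem _ fun S hS =>
        Submodule.mul_mem_mul (hb _ _) (om_mem w δ hS hα)
    · rw [hc1 β hβ]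
      exact Submodule.sum_mem _ fun α hα => Submodule.sum_mem _ fun S hS =>
        Submodule.mul_mem_mul (hb _ _) (nat_mul_mem (om_mem w δ hS (tsub_mem_Ix hα β)) _)
  have h2 : ∑ β ∈ Ix J D, c β * mon (δ m) β = 0 := by
    have h3 : ∑ β ∈ (Ix J D).erase 0, c β * mon (δ m) β =
        ∑ α ∈ Ix J D, ∑ S ∈ (range m).powerset, b α (insert m S) * om w δ α (insert m S) := by
      have h4 : ∀ β ∈ (Ix J D).erase 0, c β * mon (δ m) β =
          ∑ α ∈ Ix J D, ∑ S ∈ (range m).powerset,
            b α (insert m S) * ((ch α β : ℂ) * om w δ (α - β) S) * mon (δ m) β := by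
        intro β hβ
        rw [hc1 β (Finset.ne_of_mem_erase hβ), Finset.sum_mul]
        exact Finset.sum_congr rfl fun α _ => Finset.sum_mul _ _ _
      rw [Finset.sum_congr rfl h4, Finset.sum_comm]
      refine Finset.sum_congr rfl fun α hα => ?_
      rw [Finset.sum_comm]
      refine Finset.sum_congr rfl fun S hS => ?_
      rw [om_insert w δ hα (hnm S hS), Finset.filter_ne', Finset.mul_sum]
      refine Finset.sum_congr rfl fun β _ => ?_
      ring
    rw [← Finset.add_sum_erase (Ix J D) _ (zero_mem_Ix D), h3, hc0, mon_zero_right, mul_one,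
      ← Finset.sum_add_distrib, ← h0]
    refine Finset.sum_congr rfl fun α _ => ?_
    rw [Finset.range_add_one (n := m), Finset.powerset_insert,
      Finset.sum_union hd, Finset.sum_image hinj]
  have h3 := coeff_zero_of_gen hLD h1 hg hδ hδV c hc h2
  -- the constant coefficient
  have h4 : ∀ α ∈ Ix J D, ∀ S ∈ (range m).powerset, S.card ≤ α.degree → b α S = 0 :=
    h b hb (hc0.symm.trans (h3 0 (zero_mem_Ix D)))
  -- the coefficients of degree `1`
  have h5 : ∀ j : J, ∀ γ : J →₀ ℕ, γ.degree < D → ∀ S ∈ (range m).powerset, S.card ≤ γ.degree →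
      b (γ + Finsupp.single j 1) (insert m S) = 0 := by
    classical
    intro j γ hγ S hS hSγ
    obtain ⟨g, hgdef⟩ : ∃ g : (J →₀ ℕ) → ℂ, g = fun α => ∑ S ∈ (range m).powerset,
        b α (insert m S) * ((α j : ℂ) * om w δ (α - Finsupp.single j 1) S) := ⟨_, rfl⟩
    have hg0 : ∑ α ∈ Ix J D, g α = 0 := by
      have h6 : (Finsupp.single j 1 : J →₀ ℕ) ≠ 0 := by
        rw [Ne, Finsupp.single_eq_zero]
        exact one_ne_zero
      have h7 : (Finsupp.single j 1 : J →₀ ℕ) ∈ Ix J D := by
        rw [mem_Ix, Finsupp.degree_single]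
        omega
      have h8 := h3 _ h7
      rw [hc1 _ h6] at h8
      rw [← h8, hgdef]
      refine Finset.sum_congr rfl fun α _ => Finset.sum_congr rfl fun S _ => ?_
      rw [ch_single]
    have hbij : ∑ γ ∈ (Ix J D).filter (fun γ => γ.degree < D), g (γ + Finsupp.single j 1) =
        ∑ α ∈ (Ix J D).filter (fun α => α j ≠ 0), g α := by
      refine Finset.sum_nbij' (fun γ => γ + Finsupp.single j 1) (fun α => α - Finsupp.single j 1)
        ?_ ?_ ?_ ?_ ?_
      · intro γ hγ
        rw [mem_filter] at hγ ⊢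
        refine ⟨mem_Ix.2 ?_, ?_⟩
        · rw [map_add, Finsupp.degree_single]
          omega
        · rw [Finsupp.add_apply, Finsupp.single_eq_same]
          omega
      · intro α hα
        rw [mem_filter] at hα ⊢
        refine ⟨tsub_mem_Ix hα.1 _, ?_⟩
        have h6 := degree_tsub_single hα.2
        have h7 := mem_Ix.1 hα.1
        omega
      · intro γ _
        exact add_tsub_cancel_right γ _
      · intro α hα
        exact tsub_add_single (mem_filter.1 hα).2
      · intro γ _
        rfl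
    have hfil : ∑ α ∈ (Ix J D).filter (fun α => α j ≠ 0), g α = ∑ α ∈ Ix J D, g α := by
      refine Finset.sum_filter_of_ne fun α _ hα hj => hα ?_
      rw [hgdef]
      refine Finset.sum_eq_zero fun S _ => ?_
      rw [hj, Nat.cast_zero, zero_mul, mul_zero]
    obtain ⟨b', hb'⟩ : ∃ b' : (J →₀ ℕ) → Finset ℕ → ℂ, b' = fun γ S =>
        if γ.degree < D then ((γ j + 1 : ℕ) : ℂ) * b (γ + Finsupp.single j 1) (insert m S)
          else 0 := ⟨_, rfl⟩
    have h6 := h b' (by
      intro γ S
      rw [hb']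
      dsimp only
      split_ifs
      · exact nat_mul_mem (hb _ _) _
      · exact A.zero_mem) (by
      rw [← hg0, ← hfil, ← hbij, Finset.sum_filter]
      refine Finset.sum_congr rfl fun γ _ => ?_
      split_ifs with h7
      · rw [hgdef]
        refine Finset.sum_congr rfl fun S _ => ?_
        rw [hb']
        dsimp only
        rw [if_pos h7, add_tsub_cancel_right, Finsupp.add_apply, Finsupp.single_eq_same]
        ring
      · refine Finset.sum_eq_zero fun S _ => ?_
        rw [hb']
        dsimp only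
        rw [if_neg h7, zero_mul]) γ (mem_Ix.2 hγ.le) S hS hSγ
    rw [hb'] at h6
    dsimp only at h6
    rw [if_pos hγ, mul_eq_zero] at h6
    rcases h6 with h6 | h6
    · exact absurd h6 (Nat.cast_ne_zero.2 (Nat.succ_ne_zero _))
    · exact h6
  intro α hα S hS hSα
  rw [Finset.range_add_one (n := m), Finset.powerset_insert, Finset.mem_union,
    Finset.mem_image] at hS
  rcases hS with hS | ⟨S', hS', rfl⟩
  · exact h4 α hα S hS hSα
  · rw [Finset.card_insert_of_notMem (hnm S' hS')] at hSα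
    obtain ⟨j, hj⟩ : ∃ j, α j ≠ 0 := by
      by_contra hcon
      push Not at hcon
      have h6 : α = 0 := Finsupp.ext hcon
      rw [h6, map_zero] at hSα
      omega
    have h6 := degree_tsub_single hj
    have h7 := mem_Ix.1 hα
    rw [← tsub_add_single hj]
    exact h5 j _ (by omega) S' hS' (by omega)

/-- PROOF: expand with `om_add`: a polynomial of degree `≤ D` in `ξ` with coefficients in
`A * P w δ m ^ D`; its constant coefficient is the relation for `w`. -/
theorem FF.add {A V : Submodule Qa ℂ} {w ξ : J → ℂ} {δ : ℕ → J → ℂ} {m D : ℕ} (h : FF A w δ m D)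
    (hLD : LD (A * P w δ m ^ D) V) (h1 : (1 : ℂ) ∈ V) (hg : Gen (A * P w δ m ^ D) D ξ)
    (hξ : ∀ j, ξ j ∈ Lt) (hξV : Ind V ξ) : FF A (w + ξ) δ m D := by
  intro b hb h0
  refine h b hb ?_
  obtain ⟨c, hcdef⟩ : ∃ c : (J →₀ ℕ) → ℂ, c = fun β => ∑ α ∈ Ix J D, ∑ S ∈ (range m).powerset,
      b α S * ((ch α β : ℂ) * om w δ (α - β) S) := ⟨_, rfl⟩
  have hc : ∀ β, c β ∈ A * P w δ m ^ D := by
    intro β
    rw [hcdef]
    exact Submodule.sum_mem _ fun α hα => Submodule.sum_mem _ fun S hS =>
      Submodule.mul_mem_mul (hb _ _) (nat_mul_mem (om_mem w δ hS (tsub_mem_Ix hα β)) _)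
  have h2 : ∑ β ∈ Ix J D, c β * mon ξ β = 0 := by
    rw [← h0, hcdef]
    simp only [Finset.sum_mul]
    rw [Finset.sum_comm]
    refine Finset.sum_congr rfl fun α hα => ?_
    rw [Finset.sum_comm]
    refine Finset.sum_congr rfl fun S hS => ?_
    rw [om_add w ξ δ hα S, Finset.mul_sum]
    refine Finset.sum_congr rfl fun i _ => ?_
    ring
  have h3 := coeff_zero_of_gen hLD h1 hg hξ hξV c hc h2 0 (zero_mem_Ix D)
  rw [hcdef] at h3
  rw [← h3]
  refine Finset.sum_congr rfl fun α _ => Finset.sum_congr rfl fun S _ => ?_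
  rw [ch_zero, Nat.cast_one, one_mul, tsub_zero]

theorem FF.congr {A : Submodule Qa ℂ} {w : J → ℂ} {δ δ' : ℕ → J → ℂ} {m D : ℕ} (h : FF A w δ m D)
    (hδ : ∀ t < m, δ t = δ' t) : FF A w δ' m D := by
  intro b hb h0
  refine h b hb ?_
  rw [← h0]
  refine Finset.sum_congr rfl fun j _ => Finset.sum_congr rfl fun S hS => ?_
  rw [om_congr w j fun t ht => hδ t (Finset.mem_range.1 (Finset.mem_powerset.1 hS ht))]

end MP60829e.ZV
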