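import Mathlib
import Pool.Agent.Lib.MP_60829e_nt.ZV.LDv

/-! # Theorem ZV, Step 1: the top differences are linearly independent -/

open Module Finset MvPolynomial

namespace MP60829e.ZV

open MP60829e.ST (Qa Lt)
open MP60829e.ZL (LD)

variable {J : Type} [Fintype J]

theorem MF.zero (Y : Submodule Qa ℂ) (δ : ℕ → J → ℂ) : MF Y δ 0 := by
  classical
  intro c _ h S hS α hα
  rw [Finset.range_zero, Finset.powerset_empty, Finset.mem_singleton] at hS
  subst hS
  rw [Finset.card_empty, Finsupp.degree_eq_zero_iff] at hα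
  subst hα
  rw [Finset.range_zero, Finset.powerset_empty, Finset.sum_singleton] at h
  have h1 : (Ix J 0).filter (fun α : J →₀ ℕ => α.degree = (∅ : Finset ℕ).card) = {0} := by
    ext α
    rw [Finset.mem_filter, Finset.mem_singleton, Finset.card_empty, mem_Ix]
    constructor
    · exact fun h => (Finsupp.degree_eq_zero_iff α).1 h.2
    · rintro rfl
      simp
  rw [h1, Finset.sum_singleton, om_empty, mon_zero_right, mul_one] at h
  exact h

theorem MF.congr {Y : Submodule Qa ℂ} {δ δ' : ℕ → J → ℂ} {m : ℕ} (h : MF Y δ m)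
    (hδ : ∀ t < m, δ t = δ' t) : MF Y δ' m := by
  intro c hc h0
  refine h c hc ?_
  rw [← h0]
  refine Finset.sum_congr rfl fun S hS => Finset.sum_congr rfl fun α _ => ?_
  rw [om_congr 0 α fun t ht => hδ t (Finset.mem_range.1 (Finset.mem_powerset.1 hS ht))]

/-- The change of variables `α = γ + e_j`. -/
theorem sum_shift {m k : ℕ} (hk : k ≤ m) (j : J) (g : (J →₀ ℕ) → ℂ) (g' : (J →₀ ℕ) → ℂ)
    (hg : ∀ γ : J →₀ ℕ, g (γ + Finsupp.single j 1) = ((γ j : ℂ) + 1) * g' γ)
    (hg0 : ∀ α : J →₀ ℕ, α j = 0 → g α = 0) :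
    ∑ α ∈ (Ix J (m + 1)).filter (fun α => α.degree = k + 1), g α =
      ∑ γ ∈ (Ix J m).filter (fun γ => γ.degree = k), ((γ j : ℂ) + 1) * g' γ := by
  classical
  have h1 : ∑ γ ∈ (Ix J m).filter (fun γ => γ.degree = k), ((γ j : ℂ) + 1) * g' γ =
      ∑ α ∈ ((Ix J m).filter (fun γ => γ.degree = k)).image (fun γ => γ + Finsupp.single j 1),
        g α := by
    rw [Finset.sum_image fun a _ b _ hab => add_right_cancel hab]
    exact Finset.sum_congr rfl fun γ _ => (hg γ).symm
  rw [h1]
  symm
  refine Finset.sum_subset ?_ ?_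
  · intro α hα
    obtain ⟨γ, hγ, rfl⟩ := Finset.mem_image.1 hα
    rw [Finset.mem_filter, mem_Ix] at hγ
    rw [Finset.mem_filter, mem_Ix, map_add, Finsupp.degree_single]
    omega
  · intro α hα hα'
    apply hg0
    by_contra hne
    apply hα'
    have hle : Finsupp.single j 1 ≤ α := by
      rw [Finsupp.single_le_iff]
      omega
    have h2 : (α - Finsupp.single j 1) + Finsupp.single j 1 = α := tsub_add_cancel_of_le hle
    have h3 : (α - Finsupp.single j 1).degree + (Finsupp.single j 1 : J →₀ ℕ).degree =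
        α.degree := by
      rw [← map_add, h2]
    rw [Finsupp.degree_single] at h3
    rw [Finset.mem_filter] at hα
    refine Finset.mem_image.2 ⟨α - Finsupp.single j 1, Finset.mem_filter.2 ⟨mem_Ix.2 ?_, ?_⟩, h2⟩
    · omega
    · omega

/-- PROOF: split `S = S'` and `S = insert m S'`; by `om_top_insert`
`∑_{|α| = |S'| + 1} c α (insert m S') * om 0 δ α (insert m S') = ∑ j, δ m j * a j`,
`a j = ∑_{|γ| = |S'|} (γ j + 1) * c (γ + single j 1) (insert m S') * om 0 δ γ S'`
(`γ = α - single j 1`), so `a0 + ∑ j, a j * δ m j = 0` with `a0`, `a j` in `Y * P w δ m ^ m`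
(`om_zero_mem`); `zero_of_LD`, then `MF Y δ m` for `a0` and for each `a j`. -/
theorem MF.succ {Y V : Submodule Qa ℂ} {w : J → ℂ} {δ : ℕ → J → ℂ} {m : ℕ} (h : MF Y δ m)
    (hLD : LD (Y * P w δ m ^ m) V) (h1 : (1 : ℂ) ∈ V) (hδ : ∀ j, δ m j ∈ Lt) (hδV : Ind V (δ m)) :
    MF Y δ (m + 1) := by
  classical
  intro c hc h0
  rw [Finset.range_add_one, Finset.sum_powerset_insert Finset.notMem_range_self] at h0
  have hcard : ∀ S ∈ (range m).powerset, S.card ≤ m := by
    intro S hS
    have := Finset.card_le_card (Finset.mem_powerset.1 hS)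
    rwa [Finset.card_range] at this
  have hmem : ∀ c : (J →₀ ℕ) → Finset ℕ → ℂ, (∀ α S, c α S ∈ Y) →
      ∑ S ∈ (range m).powerset, ∑ α ∈ (Ix J m).filter (fun α => α.degree = S.card),
        c α S * om 0 δ α S ∈ Y * P w δ m ^ m := by
    intro c hc
    refine Submodule.sum_mem _ fun S hS => Submodule.sum_mem _ fun α hα => ?_
    exact Submodule.mul_mem_mul (hc α S) (om_zero_mem w δ hS (Finset.mem_filter.1 hα).1)
  -- the coefficients
  obtain ⟨c', hc'⟩ : ∃ c' : J → (J →₀ ℕ) → Finset ℕ → ℂ, ∀ j γ S,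
      c' j γ S = ((γ j : ℂ) + 1) * c (γ + Finsupp.single j 1) (insert m S) := ⟨_, fun _ _ _ => rfl⟩
  have hc'Y : ∀ j γ S, c' j γ S ∈ Y := by
    intro j γ S
    rw [hc']
    have h2 : ((γ j : ℂ) + 1) * c (γ + Finsupp.single j 1) (insert m S) =
        (γ j + 1) • c (γ + Finsupp.single j 1) (insert m S) := by
      rw [nsmul_eq_mul]
      push_cast
      ring
    rw [h2]
    exact nsmul_mem (hc _ _) _
  have e1 : ∑ S ∈ (range m).powerset, ∑ α ∈ (Ix J (m + 1)).filter (fun α => α.degree = S.card),
      c α S * om 0 δ α S = ∑ S ∈ (range m).powerset,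
        ∑ α ∈ (Ix J m).filter (fun α => α.degree = S.card), c α S * om 0 δ α S := by
    refine Finset.sum_congr rfl fun S hS => Finset.sum_congr ?_ fun _ _ => rfl
    have := hcard S hS
    ext α
    rw [Finset.mem_filter, Finset.mem_filter, mem_Ix, mem_Ix]
    constructor
    · exact fun h => ⟨by omega, h.2⟩
    · exact fun h => ⟨by omega, h.2⟩
  have e2 : ∑ S ∈ (range m).powerset,
      ∑ α ∈ (Ix J (m + 1)).filter (fun α => α.degree = (insert m S).card),
        c α (insert m S) * om 0 δ α (insert m S) =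
      ∑ j, (∑ S ∈ (range m).powerset, ∑ α ∈ (Ix J m).filter (fun α => α.degree = S.card),
        c' j α S * om 0 δ α S) * δ m j := by
    have h2 : ∀ S ∈ (range m).powerset,
        ∑ α ∈ (Ix J (m + 1)).filter (fun α => α.degree = (insert m S).card),
          c α (insert m S) * om 0 δ α (insert m S) =
        ∑ j, (∑ α ∈ (Ix J m).filter (fun α => α.degree = S.card),
          c' j α S * om 0 δ α S) * δ m j := by
      intro S hS
      have hmS : m ∉ S := fun hm => Finset.notMem_range_self (Finset.mem_powerset.1 hS hm)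
      rw [Finset.card_insert_of_notMem hmS]
      have h3 : ∀ α ∈ (Ix J (m + 1)).filter (fun α => α.degree = S.card + 1),
          c α (insert m S) * om 0 δ α (insert m S) =
          ∑ j, ((α j : ℂ) * (c α (insert m S) * om 0 δ (α - Finsupp.single j 1) S)) * δ m j := by
        intro α hα
        rw [om_top_insert 0 δ hmS (Finset.mem_filter.1 hα).2, Finset.mul_sum]
        refine Finset.sum_congr rfl fun j _ => ?_
        ring
      rw [Finset.sum_congr rfl h3, Finset.sum_comm]
      refine Finset.sum_congr rfl fun j _ => ?_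
      rw [← Finset.sum_mul]
      congr 1
      rw [sum_shift (hcard S hS) j
        (fun α => (α j : ℂ) * (c α (insert m S) * om 0 δ (α - Finsupp.single j 1) S))
        (fun γ => c (γ + Finsupp.single j 1) (insert m S) * om 0 δ γ S)]
      · refine Finset.sum_congr rfl fun γ _ => ?_
        rw [hc']
        ring
      · intro γ
        rw [add_tsub_cancel_right, Finsupp.add_apply, Finsupp.single_eq_same]
        push_cast
        ring
      · intro α hα
        rw [hα, Nat.cast_zero, zero_mul]
    rw [Finset.sum_congr rfl h2, Finset.sum_comm]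
    refine Finset.sum_congr rfl fun j _ => ?_
    rw [Finset.sum_mul]
  rw [e1, e2] at h0
  obtain ⟨h3, h4⟩ := zero_of_LD hLD h1 hδ hδV (hmem c hc) (fun j => hmem (c' j) (hc'Y j)) h0
  have h5 := h c hc h3
  intro S hS α hα
  rw [Finset.mem_powerset, Finset.range_add_one] at hS
  by_cases hm : m ∈ S
  · have hpos : 0 < S.card := Finset.card_pos.2 ⟨m, hm⟩
    obtain ⟨j, hj⟩ : ∃ j, α j ≠ 0 := by
      by_contra hcon
      push Not at hcon
      have h6 : α = 0 := Finsupp.ext hcon
      rw [h6, map_zero] at hα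
      omega
    have hle : Finsupp.single j 1 ≤ α := by
      rw [Finsupp.single_le_iff]
      omega
    have h6 : (α - Finsupp.single j 1) + Finsupp.single j 1 = α := tsub_add_cancel_of_le hle
    have h7 : (α - Finsupp.single j 1).degree + (Finsupp.single j 1 : J →₀ ℕ).degree =
        α.degree := by
      rw [← map_add, h6]
    rw [Finsupp.degree_single] at h7
    have h8 := h (c' j) (hc'Y j) (congrFun h4 j) (S.erase m) (Finset.mem_powerset.2 fun t ht => by
      rw [Finset.mem_erase] at ht
      exact (Finset.mem_insert.1 (hS ht.2)).resolve_left ht.1) (α - Finsupp.single j 1) (by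
        rw [Finset.card_erase_of_mem hm]
        omega)
    rw [hc', h6, Finset.insert_erase hm] at h8
    refine (mul_eq_zero.1 h8).resolve_left ?_
    exact Nat.cast_add_one_ne_zero _
  · refine h5 S (Finset.mem_powerset.2 fun t ht => ?_) α hα
    exact (Finset.mem_insert.1 (hS ht)).resolve_left fun h7 => hm (h7 ▸ ht)

/-- Compare `ZL.om_mul_eq`: only the terms with `β = 0` and `|β| = 1` survive. -/
theorem om_mul_eq (w ξ : J → ℂ) (δ : ℕ → J → ℂ) (α : J →₀ ℕ) (S : Finset ℕ) (U : ℂ)
    (hU : S.card + 2 ≤ α.degree → U = 0) :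
    om (w + ξ) δ α S * U = om w δ α S * U +
      ∑ j, ((α j : ℂ) * om w δ (α - Finsupp.single j 1) S * U) * ξ j := by
  classical
  rw [om_add w ξ δ (mem_Ix.2 (le_refl α.degree)), ← Finset.add_sum_erase _ _ (zero_mem_Ix α.degree),
    ch_zero, mon_zero_right, tsub_zero, Nat.cast_one, one_mul, one_mul, add_mul]
  congr 1
  have hinj : Function.Injective fun j : J => (Finsupp.single j 1 : J →₀ ℕ) :=
    fun i j hij => (Finsupp.single_left_inj one_ne_zero).1 hij
  by_cases hd : α.degree = 0
  · rw [(Finsupp.degree_eq_zero_iff α).1 hd]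
    have h1 : (Ix J (0 : J →₀ ℕ).degree).erase 0 = ∅ := by
      rw [Finset.eq_empty_iff_forall_notMem]
      intro β hβ
      rw [Finset.mem_erase, mem_Ix, map_zero, Nat.le_zero, Finsupp.degree_eq_zero_iff] at hβ
      exact hβ.1 hβ.2
    rw [h1, Finset.sum_empty, zero_mul]
    symm
    refine Finset.sum_eq_zero fun j _ => ?_
    simp
  have hsub : (Finset.univ.image fun j : J => (Finsupp.single j 1 : J →₀ ℕ)) ⊆
      (Ix J α.degree).erase 0 := by
    intro β hβ
    obtain ⟨j, -, rfl⟩ := Finset.mem_image.1 hβ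
    rw [Finset.mem_erase, mem_Ix, Finsupp.degree_single]
    exact ⟨fun h0 => one_ne_zero ((Finsupp.single_eq_zero).1 h0), by omega⟩
  rw [Finset.sum_mul, ← Finset.sum_subset hsub, Finset.sum_image fun i _ j _ hij => hinj hij]
  · refine Finset.sum_congr rfl fun j _ => ?_
    rw [ch_single, mon_single]
    ring
  · intro β hβ hβ'
    by_cases hle : β ≤ α
    · have h1 : (α - β).degree + β.degree = α.degree := by
        rw [← map_add, tsub_add_cancel_of_le hle]
      have h2 : β.degree ≠ 0 := fun h0 =>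
        (Finset.mem_erase.1 hβ).1 ((Finsupp.degree_eq_zero_iff β).1 h0)
      have h3 : β.degree ≠ 1 := by
        intro h0
        obtain ⟨j, hj⟩ := (Finsupp.sum_eq_one_iff β).1 h0
        exact hβ' (Finset.mem_image.2 ⟨j, Finset.mem_univ j, hj.symm⟩)
      rcases Nat.lt_or_ge (α - β).degree S.card with h4 | h4
      · rw [om_eq_zero w δ h4, mul_zero, zero_mul]
      · rw [hU (by omega), mul_zero]
    · rw [ch_eq_zero hle, Nat.cast_zero, zero_mul, zero_mul, zero_mul]

end MP60829e.ZV
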