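import Mathlib
import Pool.Agent.Lib.MP_60829e_nt.ZV.GenM
import Pool.Agent.Lib.MP_60829e_nt.ZL.GenA

/-! # Theorem ZV, Step 1 (compare `ZL.step1`) -/

open Module Finset MvPolynomial

namespace MP60829e.ZV

open MP60829e.ST (Qa Lt)
open MP60829e.ZL (LD exists_LD Cb zt zt_mul mem_of_ann finrank_span_le card_small_le
  finrank_finset_sup_le exists_generic card_le_of_zeta one_mem_pow le_mul_of_one_mem)

variable {J : Type} [Fintype J]

/-- A polynomial of degree at least two has a coefficient of degree at least two. -/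
theorem exists_coeff_of_deg {f : MvPolynomial J ℂ} (h : 2 ≤ f.totalDegree) :
    ∃ α : J →₀ ℕ, f.coeff α ≠ 0 ∧ 2 ≤ α.degree := by
  by_contra hcon
  push Not at hcon
  have h1 : f.totalDegree ≤ 1 := by
    unfold MvPolynomial.totalDegree
    refine Finset.sup_le fun α hα => ?_
    have h2 := hcon α (mem_support_iff.1 hα)
    have h3 : α.degree = α.sum fun _ e => e := rfl
    omega
  omega

/-- The terms which survive. -/
private theorem sum_survive {D m : ℕ} (w : J → ℂ) (δ : ℕ → J → ℂ) (U : (J →₀ ℕ) → Finset ℕ → ℂ)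
    (hU0 : ∀ α S, α ∈ Ix J D → S ∈ (range m).powerset → S.card + 2 ≤ α.degree → U α S = 0) (j : J)
    {S : Finset ℕ} (hS : S ∈ (range m).powerset) :
    ∑ α ∈ Ix J D, (α j : ℂ) * om w δ (α - Finsupp.single j 1) S * U α S =
      ∑ γ ∈ (Ix J m).filter (fun γ => γ.degree = S.card),
        (if S.card + 1 ≤ D then ((γ j : ℂ) + 1) * U (γ + Finsupp.single j 1) S else 0) *
          om 0 δ γ S := by
  classical
  have hcard : S.card ≤ m := by
    have := Finset.card_le_card (Finset.mem_powerset.1 hS)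
    rwa [Finset.card_range] at this
  have h1 : ∑ α ∈ Ix J D, (α j : ℂ) * om w δ (α - Finsupp.single j 1) S * U α S =
      ∑ α ∈ (Ix J D).filter (fun α => α.degree = S.card + 1),
        (α j : ℂ) * om w δ (α - Finsupp.single j 1) S * U α S := by
    refine (Finset.sum_filter_of_ne fun α hα hne => ?_).symm
    by_contra hd
    apply hne
    by_cases hj : α j = 0
    · rw [hj, Nat.cast_zero, zero_mul, zero_mul]
    have hle : Finsupp.single j 1 ≤ α := by
      rw [Finsupp.single_le_iff]
      omega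
    have h2 : (α - Finsupp.single j 1).degree + (Finsupp.single j 1 : J →₀ ℕ).degree =
        α.degree := by
      rw [← map_add, tsub_add_cancel_of_le hle]
    rw [Finsupp.degree_single] at h2
    rcases Nat.lt_or_ge (α - Finsupp.single j 1).degree S.card with h3 | h3
    · rw [om_eq_zero w δ h3, mul_zero, zero_mul]
    · rw [hU0 α S hα hS (by omega), mul_zero]
  rw [h1]
  by_cases hD : S.card + 1 ≤ D
  · have h2 : (Ix J D).filter (fun α => α.degree = S.card + 1) =
        (Ix J (m + 1)).filter (fun α => α.degree = S.card + 1) := by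
      ext α
      rw [Finset.mem_filter, Finset.mem_filter, mem_Ix, mem_Ix]
      constructor
      · exact fun h => ⟨by omega, h.2⟩
      · exact fun h => ⟨by omega, h.2⟩
    rw [h2, sum_shift hcard j
      (fun α => (α j : ℂ) * om w δ (α - Finsupp.single j 1) S * U α S)
      (fun γ => om w δ γ S * U (γ + Finsupp.single j 1) S)]
    · refine Finset.sum_congr rfl fun γ hγ => ?_
      rw [if_pos hD, om_top w 0 δ (Finset.mem_filter.1 hγ).2]
      ring
    · intro γ
      rw [add_tsub_cancel_right, Finsupp.add_apply, Finsupp.single_eq_same]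
      push_cast
      ring
    · intro α hα
      rw [hα, Nat.cast_zero, zero_mul, zero_mul]
  · have h2 : (Ix J D).filter (fun α => α.degree = S.card + 1) = ∅ := by
      rw [Finset.eq_empty_iff_forall_notMem]
      intro α hα
      rw [Finset.mem_filter, mem_Ix] at hα
      omega
    rw [h2, Finset.sum_empty]
    symm
    refine Finset.sum_eq_zero fun γ _ => ?_
    rw [if_neg hD, zero_mul]

/-- **Step 1.** PROOF as for `ZL.step1`. Otherwise take for each `q ⊆ range m` a polynomial `f q` over
`Y` of degree in `[2, D]` with `eval (w + ∑ t ∈ q, δ t + ξ) (f q) ∈ Y * Lt`. Let `H` be the span of the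
functions `q ↦ ψ ((f q).coeff α) * zt m S q`, `ψ : ℂ →ₗ Qa`, `2 ≤ |α| ≤ D`, `|S| + 2 ≤ |α|`; by
`ZL.finrank_span_le` and `ZL.card_small_le`, `finrank H ≤ κ * ((Ix J D).card * (m + 1) ^ D)`.
Claim: `q ↦ ψ ((f q).coeff α) * zt m S q` is in `H` for `2 ≤ |α| ≤ D`, `|S| + 1 ≤ |α|`. By
`ZL.mem_of_ann` let `a : Cb m → Qa` kill `H`; `U α S := ∑ q, (a q * zt m S q) • (f q).coeff α ∈ Y` is
`0` for `|S| + 2 ≤ |α|`. By `om_mul_eq` `∑ q, a q • eval (..) (f q) = α0 + ∑ j, α1 j * ξ j`,
`α1 j = ∑ α, ∑ S, α j * om w δ (α - single j 1) S * U α S`, and this is in `Y * Lt`, so `α1 j ∈ Y`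
(`coeff_mem_of_LD`). Only the terms with `|α| = |S| + 1` are not `0` and `om w = om 0` there (`om_top`);
with `γ = α - single j 1`, `α1 j = ∑ S, ∑_{|γ| = |S|} (γ j + 1) * U (γ + single j 1) S * om 0 δ γ S`;
by `MF` (subtract `α1 j` for `S = ∅`) `U (γ + single j 1) S = 0` for `|γ| = |S| ≥ 1`, all `j`.
The rest as in `ZL.step1`. -/
theorem step1 {κ D m : ℕ} (Y V : Submodule Qa ℂ) [FiniteDimensional Qa Y]
    (hκ : finrank Qa Y ≤ κ) (w ξ : J → ℂ) (δ : ℕ → J → ℂ) (hmf : MF Y δ m)
    (hLD : LD (Y * P w δ m ^ D) V) (h1 : (1 : ℂ) ∈ V) (hξ : ∀ j, ξ j ∈ Lt) (hξV : Ind V ξ)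
    (hnum : κ * ((Ix J D).card * (m + 1) ^ D) < 2 ^ m) :
    ∃ q ∈ (range m).powerset, Gen Y D (w + ∑ t ∈ q, δ t + ξ) := by
  classical
  by_contra hcon
  push Not at hcon
  have hf : ∀ q : Cb m, ∃ f : MvPolynomial J ℂ, (∀ i, f.coeff i ∈ Y) ∧ f.totalDegree ≤ D ∧
      eval (w + ∑ t ∈ q.1, δ t + ξ) f ∈ Y * Lt ∧ 2 ≤ f.totalDegree := by
    intro q
    have h2 := hcon q.1 q.2
    unfold Gen at h2
    push Not at h2
    obtain ⟨f, h3, h4, h5, h6⟩ := h2
    exact ⟨f, h3, h4, h5, h6⟩
  choose f hfY hfD hfL hf2 using hf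
  -- the space of functions
  obtain ⟨H, hH⟩ : ∃ H : Submodule Qa (Cb m → Qa), H = Submodule.span Qa
      {g | ∃ (ψ : ℂ →ₗ[Qa] Qa) (α : J →₀ ℕ) (S : Finset ℕ), 2 ≤ α.degree ∧ α ∈ Ix J D ∧
        S ∈ (range m).powerset ∧
        S.card + 2 ≤ α.degree ∧ g = fun q => ψ ((f q).coeff α) * zt m S q} := ⟨_, rfl⟩
  have hHmem : ∀ (ψ : ℂ →ₗ[Qa] Qa) (α : J →₀ ℕ) (S : Finset ℕ), 2 ≤ α.degree → α ∈ Ix J D →
      S ∈ (range m).powerset → S.card + 2 ≤ α.degree →
      (fun q : Cb m => ψ ((f q).coeff α) * zt m S q) ∈ H := by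
    intro ψ α S h2 h3 h4 h5
    rw [hH]
    exact Submodule.subset_span ⟨ψ, α, S, h2, h3, h4, h5, rfl⟩
  have hHrank : finrank Qa H < 2 ^ m := by
    obtain ⟨I, hI⟩ : ∃ I : Finset ((J →₀ ℕ) × Finset ℕ), I = Ix J D ×ˢ
        (range m).powerset.filter (fun S => S.card ≤ D) := ⟨_, rfl⟩
    obtain ⟨W, hW⟩ : ∃ W : (J →₀ ℕ) × Finset ℕ → Submodule Qa (Cb m → Qa), W = fun p =>
        Submodule.span Qa {g : Cb m → Qa | ∃ ψ : ℂ →ₗ[Qa] Qa,
          g = fun q => ψ ((f q).coeff p.1) * zt m p.2 q} := ⟨_, rfl⟩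
    have h2 : H ≤ I.sup W := by
      rw [hH, Submodule.span_le]
      rintro _ ⟨ψ, α, S, h3, h4, h5, h6, rfl⟩
      have h7 : (α, S) ∈ I := by
        rw [hI, Finset.mem_product, Finset.mem_filter]
        have := mem_Ix.1 h4
        exact ⟨h4, h5, (by omega : S.card ≤ D)⟩
      refine Finset.le_sup (f := W) h7 ?_
      rw [hW]
      exact Submodule.subset_span ⟨ψ, rfl⟩
    have h3 : ∀ p ∈ I, finrank Qa (W p) ≤ κ := by
      intro p _
      rw [hW]
      exact (finrank_span_le (fun q => (f q).coeff p.1) (fun q => hfY q _) (zt m p.2)).trans hκ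
    calc finrank Qa H ≤ finrank Qa (I.sup W : Submodule Qa (Cb m → Qa)) :=
          Submodule.finrank_mono h2
      _ ≤ ∑ p ∈ I, finrank Qa (W p) := finrank_finset_sup_le I W
      _ ≤ ∑ _p ∈ I, κ := Finset.sum_le_sum h3
      _ = I.card * κ := by rw [Finset.sum_const, smul_eq_mul]
      _ ≤ ((Ix J D).card * (m + 1) ^ D) * κ := by
          refine Nat.mul_le_mul_right _ ?_
          rw [hI, Finset.card_product]
          exact Nat.mul_le_mul_left _ (card_small_le m D)
      _ = κ * ((Ix J D).card * (m + 1) ^ D) := Nat.mul_comm _ _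
      _ < 2 ^ m := hnum
  -- the claim
  have hclaim : ∀ (ψ : ℂ →ₗ[Qa] Qa) (α : J →₀ ℕ) (S : Finset ℕ), 2 ≤ α.degree → α ∈ Ix J D →
      S ∈ (range m).powerset → S.card + 1 ≤ α.degree →
      (fun q : Cb m => ψ ((f q).coeff α) * zt m S q) ∈ H := by
    intro ψ α S h2 h3 h4 h5
    rcases Nat.lt_or_ge (S.card + 1) α.degree with h6 | h6
    · exact hHmem ψ α S h2 h3 h4 h6
    apply mem_of_ann
    intro a ha
    obtain ⟨U, hU⟩ : ∃ U : (J →₀ ℕ) → Finset ℕ → ℂ,
        U = fun α S => ∑ q : Cb m, (a q * zt m S q) • (f q).coeff α := ⟨_, rfl⟩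
    have hUψ : ∀ (ψ : ℂ →ₗ[Qa] Qa) (α : J →₀ ℕ) (S : Finset ℕ),
        ψ (U α S) = ∑ q : Cb m, a q * (ψ ((f q).coeff α) * zt m S q) := by
      intro ψ α S
      rw [hU]
      dsimp only
      rw [map_sum]
      refine Finset.sum_congr rfl fun q _ => ?_
      rw [map_smul, smul_eq_mul]
      ring
    have hUY : ∀ α S, U α S ∈ Y := by
      intro α S
      rw [hU]
      exact Submodule.sum_mem _ fun q _ => Y.smul_mem _ (hfY q α)
    have hU0 : ∀ α S, α ∈ Ix J D → S ∈ (range m).powerset → S.card + 2 ≤ α.degree →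
        U α S = 0 := by
      intro α S h7 h8 h9
      refine (Module.forall_dual_apply_eq_zero_iff Qa (U α S)).1 fun ψ => ?_
      rw [hUψ]
      exact ha _ (hHmem ψ α S (by omega) h7 h8 h9)
    -- the value
    obtain ⟨b, hb⟩ : ∃ b : ℂ, b = ∑ q : Cb m, a q • eval (w + ∑ t ∈ q.1, δ t + ξ) (f q) :=
      ⟨_, rfl⟩
    have hbL : b ∈ Y * Lt := by
      rw [hb]
      exact Submodule.sum_mem _ fun q _ => Submodule.smul_mem _ _ (hfL q)
    have hpow : ∀ (q : Cb m) (α : J →₀ ℕ), mon (w + ∑ t ∈ q.1, δ t + ξ) α =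
        ∑ S ∈ (range m).powerset, (zt m S q : ℂ) * om (w + ξ) δ α S := by
      intro q α
      rw [show w + ∑ t ∈ q.1, δ t + ξ = w + ξ + ∑ t ∈ q.1, δ t by abel, mon_eq_sum_om]
      refine Finset.sum_subset_zero_on_sdiff (Finset.powerset_mono.2
        (Finset.mem_powerset.1 q.2)) (fun S hS => ?_) fun S hS => ?_
      · rw [Finset.mem_sdiff, Finset.mem_powerset, Finset.mem_powerset] at hS
        unfold zt
        rw [if_neg hS.2]
        simp
      · rw [Finset.mem_powerset] at hS
        unfold zt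
        rw [if_pos hS]
        simp
    have hexp : b = ∑ α ∈ Ix J D, ∑ S ∈ (range m).powerset,
        om (w + ξ) δ α S * U α S := by
      have h7 : ∀ q : Cb m, a q • eval (w + ∑ t ∈ q.1, δ t + ξ) (f q) =
          ∑ α ∈ Ix J D, ∑ S ∈ (range m).powerset,
            om (w + ξ) δ α S * ((a q * zt m S q) • (f q).coeff α) := by
        intro q
        rw [eval_eq_sum _ _ (hfD q), Finset.smul_sum]
        refine Finset.sum_congr rfl fun α _ => ?_
        rw [hpow, Finset.mul_sum, Finset.smul_sum]
        refine Finset.sum_congr rfl fun S _ => ?_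
        rw [mul_smul, Algebra.smul_def, Algebra.smul_def, Algebra.smul_def]
        change ((a q : Qa) : ℂ) * ((f q).coeff α * ((zt m S q : ℂ) * om (w + ξ) δ α S)) =
          om (w + ξ) δ α S * (((a q : Qa) : ℂ) * ((zt m S q : ℂ) * (f q).coeff α))
        ring
      rw [hb]
      simp only [h7]
      rw [Finset.sum_comm]
      refine Finset.sum_congr rfl fun α _ => ?_
      rw [Finset.sum_comm]
      refine Finset.sum_congr rfl fun S _ => ?_
      rw [← Finset.mul_sum, hU]
    obtain ⟨α0, hα0⟩ : ∃ α0 : ℂ, α0 = ∑ α ∈ Ix J D, ∑ S ∈ (range m).powerset,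
        om w δ α S * U α S := ⟨_, rfl⟩
    obtain ⟨α1, hα1⟩ : ∃ α1 : J → ℂ, α1 = fun j => ∑ α ∈ Ix J D, ∑ S ∈ (range m).powerset,
        (α j : ℂ) * om w δ (α - Finsupp.single j 1) S * U α S := ⟨_, rfl⟩
    have hlin : α0 + ∑ j, α1 j * ξ j = b := by
      have h7 : ∑ j, α1 j * ξ j = ∑ α ∈ Ix J D, ∑ S ∈ (range m).powerset,
          ∑ j, ((α j : ℂ) * om w δ (α - Finsupp.single j 1) S * U α S) * ξ j := by
        rw [hα1]
        simp only [Finset.sum_mul]
        rw [Finset.sum_comm]
        refine Finset.sum_congr rfl fun α _ => ?_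
        rw [Finset.sum_comm]
      rw [hexp, hα0, h7, ← Finset.sum_add_distrib]
      refine Finset.sum_congr rfl fun α hα => ?_
      rw [← Finset.sum_add_distrib]
      refine Finset.sum_congr rfl fun S hS => ?_
      exact (om_mul_eq w ξ δ α S (U α S) fun h7 => hU0 α S hα hS h7).symm
    have hα0Y : α0 ∈ Y * P w δ m ^ D := by
      rw [hα0]
      refine Submodule.sum_mem _ fun α hα => Submodule.sum_mem _ fun S hS => ?_
      rw [mul_comm (om w δ α S) (U α S)]
      exact Submodule.mul_mem_mul (hUY α S) (om_mem w δ hS hα)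
    have hα1Y : ∀ j, α1 j ∈ Y * P w δ m ^ D := by
      intro j
      rw [hα1]
      refine Submodule.sum_mem _ fun α hα => Submodule.sum_mem _ fun S hS => ?_
      have h7 : (α j : ℂ) * om w δ (α - Finsupp.single j 1) S * U α S =
          ((α j : ℕ) : Qa) • (U α S * om w δ (α - Finsupp.single j 1) S) := by
        rw [Algebra.smul_def, map_natCast]
        ring
      rw [h7]
      refine Submodule.smul_mem _ _ (Submodule.mul_mem_mul (hUY α S) (om_mem w δ hS ?_))
      rw [mem_Ix] at hα ⊢
      exact (Finsupp.degree_mono (tsub_le_self : α - Finsupp.single j 1 ≤ α)).trans hα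
    have hα1m : ∀ j, α1 j ∈ Y := coeff_mem_of_LD hLD h1
      (le_mul_of_one_mem (one_mem_pow (one_mem_P w δ m) D)) hξ hξV hα0Y hα1Y hbL hlin
    -- a coordinate
    obtain ⟨j, hj⟩ : ∃ j, α j ≠ 0 := by
      by_contra hcon2
      push Not at hcon2
      have h7 : α = 0 := Finsupp.ext hcon2
      rw [h7, map_zero] at h2
      omega
    -- the coefficient
    have hα1' : α1 j = ∑ S ∈ (range m).powerset,
        ∑ γ ∈ (Ix J m).filter (fun γ => γ.degree = S.card),
        (if S.card + 1 ≤ D then ((γ j : ℂ) + 1) * U (γ + Finsupp.single j 1) S else 0) *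
          om 0 δ γ S := by
      rw [hα1]
      dsimp only
      rw [Finset.sum_comm]
      refine Finset.sum_congr rfl fun S hS => ?_
      exact sum_survive w δ U hU0 j hS
    obtain ⟨c, hc⟩ : ∃ c : (J →₀ ℕ) → Finset ℕ → ℂ, c = fun γ S => (if S.card + 1 ≤ D then
        ((γ j : ℂ) + 1) * U (γ + Finsupp.single j 1) S else 0) - if S = ∅ then α1 j else 0 :=
      ⟨_, rfl⟩
    have hcY : ∀ γ S, c γ S ∈ Y := by
      intro γ S
      rw [hc]
      dsimp only
      refine Y.sub_mem ?_ ?_
      · split_ifs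
        · have h7 : ((γ j : ℂ) + 1) * U (γ + Finsupp.single j 1) S =
              (γ j + 1) • U (γ + Finsupp.single j 1) S := by
            rw [nsmul_eq_mul]
            push_cast
            ring
          rw [h7]
          exact nsmul_mem (hUY _ _) _
        · exact Y.zero_mem
      · split_ifs
        · exact hα1m j
        · exact Y.zero_mem
    have hc0 : ∑ S ∈ (range m).powerset,
        ∑ γ ∈ (Ix J m).filter (fun γ => γ.degree = S.card), c γ S * om 0 δ γ S = 0 := by
      rw [hc]
      simp only [sub_mul]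
      simp only [Finset.sum_sub_distrib]
      rw [← hα1', sub_eq_zero]
      symm
      rw [Finset.sum_eq_single ∅]
      · have h7 : (Ix J m).filter (fun γ : J →₀ ℕ => γ.degree = (∅ : Finset ℕ).card) = {0} := by
          ext γ
          rw [Finset.mem_filter, Finset.mem_singleton, Finset.card_empty, mem_Ix]
          constructor
          · exact fun h => (Finsupp.degree_eq_zero_iff γ).1 h.2
          · rintro rfl
            simp
        rw [h7, Finset.sum_singleton, if_pos rfl, om_empty, mon_zero_right, mul_one]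
      · intro S _ hS
        refine Finset.sum_eq_zero fun γ _ => ?_
        rw [if_neg hS, zero_mul]
      · intro h7
        exact absurd (Finset.empty_mem_powerset _) h7
    have hle : Finsupp.single j 1 ≤ α := by
      rw [Finsupp.single_le_iff]
      omega
    have hsub : (α - Finsupp.single j 1) + Finsupp.single j 1 = α := tsub_add_cancel_of_le hle
    have hdeg : (α - Finsupp.single j 1).degree + (Finsupp.single j 1 : J →₀ ℕ).degree =
        α.degree := by
      rw [← map_add, hsub]
    rw [Finsupp.degree_single] at hdeg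
    have hfin := hmf c hcY hc0 S h4 (α - Finsupp.single j 1) (by omega)
    have hSne : S ≠ ∅ := by
      intro h7
      rw [h7, Finset.card_empty] at h6
      omega
    have hαD := mem_Ix.1 h3
    rw [hc] at hfin
    dsimp only at hfin
    rw [if_pos (by omega), if_neg hSne, sub_zero, hsub] at hfin
    have hUS : U α S = 0 := by
      refine (mul_eq_zero.1 hfin).resolve_left ?_
      exact Nat.cast_add_one_ne_zero _
    rw [← hUψ ψ α S, hUS, map_zero]
  -- the ideal
  have hone : ∀ t < m, ∀ h ∈ H, (fun q : Cb m => h q * zt m {t} q) ∈ H := by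
    intro t ht h hh
    rw [hH] at hh
    induction hh using Submodule.span_induction with
    | mem g hg =>
      obtain ⟨ψ, α, S, h3, h4, h5, h6, rfl⟩ := hg
      have h7 : (fun q : Cb m => ψ ((f q).coeff α) * zt m S q * zt m {t} q) =
          fun q : Cb m => ψ ((f q).coeff α) * zt m (S ∪ {t}) q := by
        funext q
        rw [mul_assoc, zt_mul]
      dsimp only
      rw [h7]
      refine hclaim ψ α (S ∪ {t}) h3 h4 ?_ ?_
      · rw [Finset.mem_powerset] at h5 ⊢
        refine Finset.union_subset h5 ?_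
        rw [Finset.singleton_subset_iff, Finset.mem_range]
        exact ht
      · have h8 := Finset.card_union_le S {t}
        rw [Finset.card_singleton] at h8
        omega
    | zero =>
      have h7 : (fun q : Cb m => (0 : Cb m → Qa) q * zt m {t} q) = 0 := by
        funext q
        rw [Pi.zero_apply, zero_mul]
      rw [h7]
      exact H.zero_mem
    | add x y _ _ hx hy =>
      have h7 : (fun q : Cb m => (x + y) q * zt m {t} q) =
          (fun q : Cb m => x q * zt m {t} q) + fun q : Cb m => y q * zt m {t} q := by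
        funext q
        rw [Pi.add_apply, Pi.add_apply, add_mul]
      rw [h7]
      exact H.add_mem hx hy
    | smul c x _ hx =>
      have h7 : (fun q : Cb m => (c • x) q * zt m {t} q) =
          c • fun q : Cb m => x q * zt m {t} q := by
        funext q
        rw [Pi.smul_apply, Pi.smul_apply, smul_eq_mul, smul_eq_mul, mul_assoc]
      rw [h7]
      exact H.smul_mem c hx
  have hall : ∀ h ∈ H, ∀ S : Finset ℕ, S ⊆ range m → (fun q : Cb m => h q * zt m S q) ∈ H := by
    intro h hh S
    induction S using Finset.induction_on with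
    | empty =>
      intro _
      have h7 : (fun q : Cb m => h q * zt m ∅ q) = h := by
        funext q
        unfold zt
        rw [if_pos (Finset.empty_subset _), mul_one]
      rw [h7]
      exact hh
    | insert t S ht ih =>
      intro hS
      have h8 := hone t (Finset.mem_range.1 (hS (Finset.mem_insert_self t S))) _
        (ih ((Finset.subset_insert t S).trans hS))
      have h7 : (fun q : Cb m => h q * zt m (insert t S) q) =
          fun q : Cb m => h q * zt m S q * zt m {t} q := by
        funext q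
        rw [mul_assoc, zt_mul, Finset.insert_eq, Finset.union_comm]
      rw [h7]
      exact h8
  obtain ⟨h, hh, hne⟩ := exists_generic H (by
    intro q
    obtain ⟨α, hα, hα2⟩ := exists_coeff_of_deg (hf2 q)
    obtain ⟨ψ, hψ⟩ : ∃ ψ : Module.Dual Qa ℂ, ψ ((f q).coeff α) ≠ 0 := by
      by_contra hcon2
      push Not at hcon2
      exact hα ((Module.forall_dual_apply_eq_zero_iff Qa _).1 hcon2)
    refine ⟨_, hHmem ψ α ∅ hα2 (mem_Ix.2 ?_) (Finset.empty_mem_powerset _) ?_, ?_⟩
    · exact (le_totalDegree (mem_support_iff.2 hα)).trans (hfD q)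
    · rw [Finset.card_empty, zero_add]
      exact hα2
    · unfold zt
      rw [if_pos (Finset.empty_subset _), mul_one]
      exact hψ)
  have hfinal := card_le_of_zeta H h hne (range m).powerset (Finset.Subset.refl _)
    fun S hS => hall h hh S (Finset.mem_powerset.1 hS)
  rw [Finset.card_powerset, Finset.card_range] at hfinal
  omega

end MP60829e.ZV
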