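import Mathlib
import Pool.Agent.Lib.MP_60829e_nt.ZV.LDv
import Pool.Agent.Lib.MP_60829e_nt.ZV.GenM
import Pool.Agent.Lib.MP_60829e_nt.ZV.GenS

/-! # Theorem ZV, Step 1: generic elements in sums of rows (compare ZL/GenA.lean) -/

open Module Finset MvPolynomial

namespace MP60829e.ZV

open MP60829e.ST (Qa Lt)
open MP60829e.ZL (LD exists_LD exists_num1 finrank_mul_le finrank_pow_le)

/-- Compare `ZL.exists_gen`: same proof. `ξ` is independent modulo `V ⊔ P u δ m ⊔ V'`, so
`u + ∑ t ∈ q, δ t + ξ` is independent modulo `V` (`Ind.add`). (If `u` has coordinates outside `Lt` this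
is still true: the coordinates of `u` are in `P u δ m`.) -/
theorem exists_gen (J : Type) [Fintype J] (κ D ν : ℕ) : ∃ M T : ℕ, ∀ Y V : Submodule Qa ℂ,
    FiniteDimensional Qa Y → FiniteDimensional Qa V → finrank Qa Y ≤ κ → finrank Qa V ≤ ν →
    ∀ u : J → ℂ, ∀ R : ℕ → Set (J → ℂ), (∀ i < M, Row T (R i)) →
      ∃ s : ℕ → J → ℂ, (∀ i < M, s i ∈ R i) ∧ Gen Y D (u + ∑ i ∈ range M, s i) ∧
        Ind V (u + ∑ i ∈ range M, s i) := by
  classical
  obtain ⟨m, hm⟩ := exists_num1 (κ * (Ix J D).card) D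
  obtain ⟨d, hd⟩ : ∃ d, d = (m + 1) * Fintype.card J + 1 := ⟨_, rfl⟩
  have hd1 : 1 ≤ d := by omega
  refine ⟨m + 1, (κ * d ^ m) ^ 3 + 1 + (ν + d + ((κ * d ^ D) ^ 3 + 1)) + 1, ?_⟩
  intro Y V hYf hVf hY hV u R hR
  have hP : ∀ (δ : ℕ → J → ℂ) (i : ℕ), i ≤ m → finrank Qa (P u δ i) ≤ d := by
    intro δ i hi
    refine (finrank_P u δ i).trans ?_
    rw [hd]
    have := Nat.mul_le_mul_right (Fintype.card J) (Nat.add_le_add_right hi 1)
    omega
  have hdim : ∀ (δ : ℕ → J → ℂ) (i e : ℕ), i ≤ m →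
      finrank Qa (Y * P u δ i ^ e : Submodule Qa ℂ) ≤ κ * d ^ e := by
    intro δ i e hi
    refine (finrank_mul_le _ _).trans (Nat.mul_le_mul hY ?_)
    exact (finrank_pow_le _ _).trans (Nat.pow_le_pow_left (hP δ i hi) e)
  -- the steps
  have hδ : ∀ i ≤ m, ∃ δ : ℕ → J → ℂ, (∀ t < i, δ t ∈ R t) ∧ MF Y δ i := by
    intro i
    induction i with
    | zero => exact fun _ => ⟨0, fun t ht => absurd ht (Nat.not_lt_zero t), MF.zero Y 0⟩
    | succ i ih =>
      intro hi
      obtain ⟨δ, h1, h2⟩ := ih (by omega)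
      obtain ⟨V', -, hV1, hV'f, hV'd, hLD⟩ := exists_LD (Y * P u δ i ^ i)
      have h3 : finrank Qa V' < (κ * d ^ m) ^ 3 + 1 +
          (ν + d + ((κ * d ^ D) ^ 3 + 1)) + 1 := by
        have h4 : finrank Qa (Y * P u δ i ^ i : Submodule Qa ℂ) ≤ κ * d ^ m :=
          (hdim δ i i (by omega)).trans
            (Nat.mul_le_mul_left _ (Nat.pow_le_pow_right hd1 (by omega)))
        have h5 := Nat.pow_le_pow_left h4 3
        omega
      obtain ⟨x, hx, hxV⟩ := (hR i (by omega)).2.2 V' hV'f h3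
      have hcongr : ∀ t < i, δ t = Function.update δ i x t := by
        intro t ht
        rw [Function.update_of_ne (by omega)]
      refine ⟨Function.update δ i x, fun t ht => ?_, ?_⟩
      · rcases Nat.lt_or_ge t i with h4 | h4
        · rw [← hcongr t h4]
          exact h1 t h4
        · have : t = i := by omega
          rw [this, Function.update_self]
          exact hx
      · rw [P_congr u hcongr] at hLD
        refine (h2.congr hcongr).succ hLD hV1 ?_ ?_
        · rw [Function.update_self]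
          exact (hR i (by omega)).2.1 x hx
        · rw [Function.update_self]
          exact hxV
  obtain ⟨δ, hδR, hmf⟩ := hδ m le_rfl
  obtain ⟨V', -, hV1, hV'f, hV'd, hLD⟩ := exists_LD (Y * P u δ m ^ D)
  have h3 : finrank Qa (V ⊔ P u δ m ⊔ V' : Submodule Qa ℂ) < (κ * d ^ m) ^ 3 + 1 +
      (ν + d + ((κ * d ^ D) ^ 3 + 1)) + 1 := by
    have h4 := Submodule.finrank_add_le_finrank_add_finrank (V ⊔ P u δ m) V'
    have h5 := Submodule.finrank_add_le_finrank_add_finrank V (P u δ m)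
    have h6 := hP δ m le_rfl
    have h7 := Nat.pow_le_pow_left (hdim δ m D le_rfl) 3
    omega
  obtain ⟨ξ, hξR, hξ⟩ := (hR m (by omega)).2.2 (V ⊔ P u δ m ⊔ V') inferInstance h3
  obtain ⟨q, hq, hgen⟩ := step1 Y V' hY u ξ δ hmf hLD hV1 ((hR m (by omega)).2.1 ξ hξR)
    (hξ.mono le_sup_right) (by rw [← mul_assoc]; exact hm)
  have hqm : ∀ t ∈ q, t < m := fun t ht => Finset.mem_range.1 (Finset.mem_powerset.1 hq ht)
  obtain ⟨s, hs⟩ : ∃ s : ℕ → J → ℂ, s = fun i => if i = m then ξ else if i ∈ q then δ i else 0 :=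
    ⟨_, rfl⟩
  have hsum : u + ∑ i ∈ range (m + 1), s i = u + ∑ t ∈ q, δ t + ξ := by
    rw [Finset.sum_range_succ, ← add_assoc]
    congr 1
    · congr 1
      have h4 : ∀ i ∈ range m, s i = if i ∈ q then δ i else 0 := by
        intro i hi
        rw [hs]
        dsimp only
        rw [if_neg (Finset.mem_range.1 hi).ne]
      rw [Finset.sum_congr rfl h4, ← Finset.sum_filter]
      congr 1
      ext t
      rw [Finset.mem_filter, Finset.mem_range]
      exact ⟨fun h5 => h5.2, fun h5 => ⟨hqm t h5, h5⟩⟩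
    · rw [hs]
      dsimp only
      rw [if_pos rfl]
  refine ⟨s, fun i hi => ?_, ?_, ?_⟩
  · rw [hs]
    dsimp only
    split_ifs with h4 h5
    · rw [h4]
      exact hξR
    · exact hδR i (hqm i h5)
    · exact (hR i hi).1
  · rw [hsum]
    exact hgen
  · rw [hsum]
    refine Ind.mono (Ind.add hξ fun j => ?_) ((le_sup_left : V ≤ V ⊔ P u δ m).trans le_sup_left)
    refine Submodule.mem_sup_left (Submodule.mem_sup_right ?_)
    rw [Pi.add_apply, Finset.sum_apply]
    refine Submodule.add_mem _ (w_mem_P u δ m j) ?_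
    exact Submodule.sum_mem _ fun t ht => delta_mem_P u δ (hqm t ht) j

end MP60829e.ZV
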