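import Mathlib
import Pool.Agent.Lib.MP_60829e_nt.ZV.LDv

/-! # Theorem ZV, Step 2: definitions (compare ZL/StepD.lean) -/

open Module Finset MvPolynomial

namespace MP60829e.ZV

open MP60829e.ST (Qa Lt)
open MP60829e.ZL (Cb zt)

variable {J : Type} [Fintype J] {ι : Type} [Fintype ι]

/-- The functions `q ↦ φ (l q α i) * zt m S q` with `φ = 0` on `V` and at the `ξ j`, `|S| < |α| ≤ D`. -/
noncomputable def HH (m D : ℕ) (V : Submodule Qa ℂ) (ξ : J → ℂ) (l : Cb m → (J →₀ ℕ) → ι → ℂ) :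
    Submodule Qa (Cb m → Qa) :=
  Submodule.span Qa {g | ∃ φ : ℂ →ₗ[Qa] Qa, (∀ x ∈ V, φ x = 0) ∧ (∀ j, φ (ξ j) = 0) ∧ ∃ α i S,
    α ∈ Ix J D ∧ S ∈ (range m).powerset ∧ S.card < α.degree ∧ g = fun q => φ (l q α i) * zt m S q}

/-- The relations at the points `w + ∑ t ∈ q, δ t + ξ`. -/
def Rl (m D : ℕ) (a : ι → ℂ) (w ξ : J → ℂ) (δ : ℕ → J → ℂ) (l : Cb m → (J →₀ ℕ) → ι → ℂ) : Prop :=
  (∀ q α i, l q α i ∈ Lt) ∧
    ∀ q : Cb m, ∑ α ∈ Ix J D, ∑ i, a i * l q α i * mon (w + ∑ t ∈ q.1, δ t + ξ) α = 0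

end MP60829e.ZV
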