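import Mathlib
import Pool.Agent.Lib.MP_60829e_nt.ZV.StepD
import Pool.Agent.Lib.MP_60829e_nt.ZL.StepC

/-! # Theorem ZV, Step 2: the claim (compare ZL/StepC.lean) -/

open Module Finset MvPolynomial

namespace MP60829e.ZV

open MP60829e.ST (Qa Lt)
open MP60829e.ZL (LD Cb zt exists_retr mem_of_ann le_mul_of_one_mem)

/-! Polynomials with coefficients in a space (`cmem`). -/

section Aux

variable {J : Type}

theorem cmem_mul {S T : Submodule Qa ℂ} {p q : MvPolynomial J ℂ} (hp : ∀ β, p.coeff β ∈ S)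
    (hq : ∀ β, q.coeff β ∈ T) (β : J →₀ ℕ) : (p * q).coeff β ∈ S * T := by
  classical
  rw [coeff_mul]
  exact Submodule.sum_mem _ fun x _ => Submodule.mul_mem_mul (hp _) (hq _)

theorem cmem_C {S : Submodule Qa ℂ} {a : ℂ} (ha : a ∈ S) (β : J →₀ ℕ) :
    (C a : MvPolynomial J ℂ).coeff β ∈ S := by
  classical
  rw [coeff_C]
  split_ifs
  · exact ha
  · exact S.zero_mem

theorem cmem_X {S : Submodule Qa ℂ} (h1 : (1 : ℂ) ∈ S) (j : J) (β : J →₀ ℕ) :
    (X j : MvPolynomial J ℂ).coeff β ∈ S := by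
  classical
  rw [coeff_X]
  split_ifs
  · exact h1
  · exact S.zero_mem

theorem cmem_pow {P : Submodule Qa ℂ} {p : MvPolynomial J ℂ} (hp : ∀ β, p.coeff β ∈ P) (k : ℕ)
    (β : J →₀ ℕ) : (p ^ k).coeff β ∈ P ^ k := by
  induction k generalizing β with
  | zero =>
    rw [pow_zero, pow_zero]
    exact cmem_C (Submodule.one_le.1 le_rfl) β
  | succ k ih =>
    rw [pow_succ, pow_succ]
    exact cmem_mul ih hp β

theorem cmem_prod {P : Submodule Qa ℂ} {p : J → MvPolynomial J ℂ}
    (hp : ∀ j β, (p j).coeff β ∈ P) (α : J →₀ ℕ) (s : Finset J) (β : J →₀ ℕ) :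
    (∏ j ∈ s, p j ^ α j).coeff β ∈ P ^ (∑ j ∈ s, α j) := by
  classical
  induction s using Finset.induction_on generalizing β with
  | empty =>
    rw [Finset.prod_empty, Finset.sum_empty, pow_zero]
    exact cmem_C (Submodule.one_le.1 le_rfl) β
  | insert j s hj ih =>
    rw [Finset.prod_insert hj, Finset.sum_insert hj, pow_add]
    exact cmem_mul (cmem_pow (hp j) _) ih β

variable [Fintype J]

/-- The polynomial `a * (t + ∑ j, c j * X j) * ∏ j, (x j + X j) ^ α j`. -/
private noncomputable def pq (a t : ℂ) (c : J → Qa) (x : J → ℂ) (α : J →₀ ℕ) : MvPolynomial J ℂ :=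
  C a * ((C t + ∑ j, C (c j : ℂ) * X j) * ∏ j, (C (x j) + X j) ^ α j)

private theorem coeff_pq {A V P : Submodule Qa ℂ} {a t : ℂ} {c : J → Qa} {x : J → ℂ} {α : J →₀ ℕ}
    {D : ℕ} (ha : a ∈ A) (ht : t ∈ V) (h1V : (1 : ℂ) ∈ V) (h1P : (1 : ℂ) ∈ P) (hx : ∀ j, x j ∈ P)
    (hα : α ∈ Ix J D) (β : J →₀ ℕ) : (pq a t c x α).coeff β ∈ A * P ^ D * V := by
  classical
  have h1 : ∀ β, (∏ j, (C (x j) + X j : MvPolynomial J ℂ) ^ α j).coeff β ∈ P ^ D := by
    intro β
    have h2 := cmem_prod (P := P) (p := fun j => (C (x j) + X j : MvPolynomial J ℂ)) (fun j β => by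
      rw [coeff_add]
      exact P.add_mem (cmem_C (hx j) β) (cmem_X h1P j β)) α Finset.univ β
    refine MP60829e.ZL.pow_le_pow_of_one_mem h1P ?_ h2
    rw [← Finsupp.degree_eq_sum]
    exact mem_Ix.1 hα
  have h2 : ∀ β, (C t + ∑ j, C (c j : ℂ) * X j : MvPolynomial J ℂ).coeff β ∈ V := by
    intro β
    rw [coeff_add, coeff_sum]
    refine V.add_mem (cmem_C ht β) (Submodule.sum_mem _ fun j _ => ?_)
    rw [coeff_C_mul]
    exact V.smul_mem (c j) (cmem_X h1V j β)
  have h3 := cmem_mul (cmem_C (J := J) ha) (cmem_mul h2 h1) β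
  have h4 : A * (V * P ^ D) = A * P ^ D * V := by rw [mul_comm V, mul_assoc]
  rwa [h4] at h3

private theorem totalDegree_pq (a t : ℂ) (c : J → Qa) (x : J → ℂ) {α : J →₀ ℕ} {D : ℕ}
    (hα : α ∈ Ix J D) : (pq a t c x α).totalDegree ≤ D + 1 := by
  classical
  have h1 : (∏ j, (C (x j) + X j : MvPolynomial J ℂ) ^ α j).totalDegree ≤ D := by
    have h2 : ∑ j, α j ≤ D := by
      rw [← Finsupp.degree_eq_sum]
      exact mem_Ix.1 hα
    refine (totalDegree_finsetProd _ _).trans (le_trans (Finset.sum_le_sum fun j _ => ?_) h2)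
    refine (totalDegree_pow _ _).trans ?_
    have h3 : (C (x j) + X j : MvPolynomial J ℂ).totalDegree ≤ 1 := by
      refine (totalDegree_add _ _).trans (max_le ?_ ?_)
      · rw [totalDegree_C]
        exact Nat.zero_le _
      · rw [totalDegree_X]
    calc α j * _ ≤ α j * 1 := Nat.mul_le_mul_left _ h3
      _ = α j := mul_one _
  have h2 : (C t + ∑ j, C (c j : ℂ) * X j : MvPolynomial J ℂ).totalDegree ≤ 1 := by
    refine (totalDegree_add _ _).trans (max_le ?_ ?_)
    · rw [totalDegree_C]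
      exact Nat.zero_le _
    · refine totalDegree_finsetSum_le fun j _ => ?_
      refine (totalDegree_mul _ _).trans ?_
      rw [totalDegree_C, totalDegree_X]
  unfold pq
  refine (totalDegree_mul _ _).trans ?_
  rw [totalDegree_C, zero_add]
  refine (totalDegree_mul _ _).trans ?_
  omega

private theorem eval_pq (a t : ℂ) (c : J → Qa) (x ξ : J → ℂ) (α : J →₀ ℕ) :
    eval ξ (pq a t c x α) = a * (t + ∑ j, (c j : ℂ) * ξ j) * mon (x + ξ) α := by
  unfold pq mon
  rw [map_mul, map_mul, map_add, map_sum, map_prod, eval_C, eval_C, mul_assoc]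
  congr 2
  · congr 1
    refine Finset.sum_congr rfl fun j _ => ?_
    rw [map_mul, eval_C, eval_X]
  · refine Finset.prod_congr rfl fun j _ => ?_
    rw [map_pow, map_add, eval_C, eval_X, Pi.add_apply]

end Aux

variable {J : Type} [Fintype J] {ι : Type} [Fintype ι] {m D c : ℕ}

/-- The monomials of the points, with a function on the cube. -/
theorem mon_eq_sum_zt (w : J → ℂ) (δ : ℕ → J → ℂ) (α : J →₀ ℕ) (q : Cb m) :
    mon (w + ∑ t ∈ q.1, δ t) α = ∑ S ∈ (range m).powerset, zt m S q • om w δ α S := by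
  classical
  rw [mon_eq_sum_om]
  have hq : q.1 ⊆ range m := mem_powerset.1 q.2
  have h1 : q.1.powerset = ((range m).powerset).filter (fun S => S ⊆ q.1) := by
    ext S
    rw [mem_filter, mem_powerset, mem_powerset]
    exact ⟨fun h => ⟨h.trans hq, h⟩, fun h => h.2⟩
  rw [h1, sum_filter]
  refine sum_congr rfl fun S _ => ?_
  unfold zt
  split_ifs with h
  · rw [one_smul]
  · rw [zero_smul]

/-- The sum over the cube, with weights killing the lower moments. -/
theorem sum_cube (w ξ : J → ℂ) (δ : ℕ → J → ℂ) (α : J →₀ ℕ) (b : Cb m → Qa) (p : Cb m → ℂ)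
    (h : ∀ S ∈ (range m).powerset, S.card < α.degree → ∑ q, (b q * zt m S q) • p q = 0) :
    ∑ q : Cb m, b q • (p q * mon (w + ∑ t ∈ q.1, δ t + ξ) α) =
      ∑ S ∈ (range m).powerset, om w δ α S * ∑ q, (b q * zt m S q) • p q := by
  have h1 : ∀ q : Cb m, mon (w + ∑ t ∈ q.1, δ t + ξ) α =
      ∑ S ∈ (range m).powerset, zt m S q • om (w + ξ) δ α S := by
    intro q
    rw [← mon_eq_sum_zt]
    congr 1
    abel
  calc ∑ q : Cb m, b q • (p q * mon (w + ∑ t ∈ q.1, δ t + ξ) α)
      = ∑ S ∈ (range m).powerset, om (w + ξ) δ α S * ∑ q, (b q * zt m S q) • p q := by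
        simp_rw [h1, mul_sum, smul_sum]
        rw [sum_comm]
        refine sum_congr rfl fun S _ => sum_congr rfl fun q _ => ?_
        rw [mul_smul_comm, smul_smul, mul_smul_comm, mul_comm (p q)]
    _ = _ := by
        refine sum_congr rfl fun S hS => ?_
        rcases lt_trichotomy S.card α.degree with h2 | h2 | h2
        · rw [h S hS h2, mul_zero, mul_zero]
        · rw [om_top (w + ξ) w δ h2.symm]
        · rw [om_eq_zero _ _ h2, om_eq_zero _ _ h2]

/-- Compare `ZL.claimB`: same proof. `W = V ⊔ span (range ξ)`, `g` a retraction onto `W`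
(`ZL.exists_retr`), `g (l q α i) = t + ∑ j, c j * ξ j`, `t ∈ V`; the polynomial is
`f = ∑ q, ∑ α, ∑ i, b q • a i * (t + ∑ j, c j * X j) * ∏ j, (w_q j + X j) ^ α j`, of degree `≤ D + 1`. -/
theorem claimB {A V V' : Submodule Qa ℂ} (hV1 : (1 : ℂ) ∈ V) (hVV : V ≤ V') (hVL : V' ≤ Lt)
    {a : ι → ℂ} (ha : LinearIndependent Qa a) (haA : ∀ i, a i ∈ A) {w ξ : J → ℂ} {δ : ℕ → J → ℂ}
    {l : Cb m → (J →₀ ℕ) → ι → ℂ} (hl : Rl m D a w ξ δ l) (hFF : FF A w δ m D)
    (hLD : LD (A * P w δ m ^ D * V) V') (hg : Gen (A * P w δ m ^ D * V) (D + 1) ξ)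
    (hξ : ∀ j, ξ j ∈ Lt) (φ : ℂ →ₗ[Qa] Qa) (hφ : ∀ x ∈ V', φ x = 0) (hφξ : ∀ j, φ (ξ j) = 0)
    {α : J →₀ ℕ} (hα : α ∈ Ix J D) (i : ι) {S : Finset ℕ} (hS : S ∈ (range m).powerset)
    (hSα : S.card ≤ α.degree) : (fun q => φ (l q α i) * zt m S q) ∈ HH m D V ξ l := by
  classical
  apply mem_of_ann
  intro b hb
  obtain ⟨g, hgW, hgid⟩ := exists_retr (V ⊔ Submodule.span Qa (Set.range ξ))
  have hWL : V ⊔ Submodule.span Qa (Set.range ξ) ≤ Lt :=
    sup_le (hVV.trans hVL) (Submodule.span_le.2 (by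
      rintro _ ⟨j, rfl⟩
      exact hξ j))
  have hξW : ∀ j, ξ j ∈ V ⊔ Submodule.span Qa (Set.range ξ) := fun j =>
    Submodule.mem_sup_right (Submodule.subset_span ⟨j, rfl⟩)
  -- the two parts of `l`
  have hdec : ∀ q : Cb m, ∀ α i, ∃ (t : ℂ) (c : J → Qa), t ∈ V ∧
      g (l q α i) = t + ∑ j, (c j : ℂ) * ξ j := by
    intro q α i
    obtain ⟨t, ht, z, hz, h⟩ := Submodule.mem_sup.1 (hgW (l q α i))
    obtain ⟨c, rfl⟩ := (Submodule.mem_span_range_iff_exists_fun Qa).1 hz
    exact ⟨t, c, ht, h.symm⟩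
  choose t c htV htc using hdec
  obtain ⟨pr, hpr⟩ : ∃ pr : Cb m → (J →₀ ℕ) → ι → ℂ, ∀ q α i,
      pr q α i = l q α i - g (l q α i) := ⟨_, fun _ _ _ => rfl⟩
  have hprL : ∀ q α i, pr q α i ∈ Lt := fun q α i => by
    rw [hpr]
    exact Lt.sub_mem (hl.1 q α i) (hWL (hgW _))
  obtain ⟨u, hu⟩ : ∃ u : (J →₀ ℕ) → ι → Finset ℕ → ℂ, ∀ α i S,
      u α i S = ∑ q, (b q * zt m S q) • pr q α i := ⟨_, fun _ _ _ => rfl⟩
  have huL : ∀ α i S, u α i S ∈ Lt := fun α i S => by
    rw [hu]
    exact Submodule.sum_mem _ fun q _ => Submodule.smul_mem _ _ (hprL q α i)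
  -- the lower moments vanish
  have hu0 : ∀ α ∈ Ix J D, ∀ i, ∀ S ∈ (range m).powerset, S.card < α.degree → u α i S = 0 := by
    intro α hα i S hS hSj
    by_contra hne
    obtain ⟨ψ, _, hψ⟩ := ZL.exists_functional (V := ⊥) (z := u α i S)
      (by rwa [Submodule.mem_bot])
    have h1 := hb (fun q => (ψ ∘ₗ (LinearMap.id - g)) (l q α i) * zt m S q)
      (Submodule.subset_span ⟨ψ ∘ₗ (LinearMap.id - g), ?_, ?_, α, i, S, hα, hS, hSj, rfl⟩)
    · have h2 : ψ (u α i S) = 0 := by
        rw [← h1, hu]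
        simp only [map_sum, map_smul, smul_eq_mul]
        refine sum_congr rfl fun q _ => ?_
        simp only [LinearMap.comp_apply, LinearMap.sub_apply, LinearMap.id_apply]
        rw [hpr]
        ring
      rw [h2] at hψ
      exact zero_ne_one hψ
    · intro x hx
      rw [LinearMap.comp_apply, LinearMap.sub_apply, LinearMap.id_apply,
        hgid x (Submodule.mem_sup_left hx), sub_self, map_zero]
    · intro j
      rw [LinearMap.comp_apply, LinearMap.sub_apply, LinearMap.id_apply, hgid (ξ j) (hξW j),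
        sub_self, map_zero]
  -- the polynomial
  obtain ⟨f, hf⟩ : ∃ f : MvPolynomial J ℂ, f = ∑ q : Cb m, ∑ α ∈ Ix J D, ∑ i, b q •
      pq (a i) (t q α i) (c q α i) (w + ∑ t ∈ q.1, δ t) α := ⟨_, rfl⟩
  have hP1 := one_mem_P w δ m
  have hwq : ∀ (q : Cb m) (j : J), (w + ∑ t ∈ q.1, δ t) j ∈ P w δ m := fun q j => by
    rw [Pi.add_apply, Finset.sum_apply]
    exact Submodule.add_mem _ (w_mem_P w δ m j) (Submodule.sum_mem _ fun t ht =>
      delta_mem_P w δ (mem_range.1 (mem_powerset.1 q.2 ht)) j)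
  have hfc : ∀ β, f.coeff β ∈ A * P w δ m ^ D * V := by
    intro β
    rw [hf, coeff_sum]
    refine Submodule.sum_mem _ fun q _ => ?_
    rw [coeff_sum]
    refine Submodule.sum_mem _ fun α hα => ?_
    rw [coeff_sum]
    refine Submodule.sum_mem _ fun i _ => ?_
    rw [coeff_smul]
    exact Submodule.smul_mem _ _ (coeff_pq (haA i) (htV q α i) hV1 hP1 (hwq q) hα β)
  have hfd : f.totalDegree ≤ D + 1 := by
    rw [hf]
    refine totalDegree_finsetSum_le fun q _ => totalDegree_finsetSum_le fun α hα =>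
      totalDegree_finsetSum_le fun i _ => ?_
    exact (totalDegree_smul_le _ _).trans (totalDegree_pq _ _ _ _ hα)
  have hfe : eval ξ f = ∑ q : Cb m, ∑ α ∈ Ix J D, ∑ i, b q • (a i * (g (l q α i)) *
      mon (w + ∑ t ∈ q.1, δ t + ξ) α) := by
    rw [hf, map_sum]
    refine sum_congr rfl fun q _ => ?_
    rw [map_sum]
    refine sum_congr rfl fun α _ => ?_
    rw [map_sum]
    refine sum_congr rfl fun i _ => ?_
    rw [htc, ← eval_pq]
    rw [Algebra.smul_def, Algebra.smul_def, map_mul]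
    congr 1
    exact eval_C _
  -- the relation
  have hrel : eval ξ f + ∑ α ∈ Ix J D, ∑ i, ∑ S ∈ (range m).powerset,
      a i * om w δ α S * u α i S = 0 := by
    have h1 : ∑ q, ∑ α ∈ Ix J D, ∑ i, b q • (a i * pr q α i *
          mon (w + ∑ t ∈ q.1, δ t + ξ) α) =
        ∑ α ∈ Ix J D, ∑ i, ∑ S ∈ (range m).powerset, a i * om w δ α S * u α i S := by
      rw [sum_comm]
      refine sum_congr rfl fun α hα => ?_
      rw [sum_comm]
      refine sum_congr rfl fun i _ => ?_
      have h2 := sum_cube w ξ δ α b (fun q => pr q α i)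
        (fun S hS hSj => by rw [← hu]; exact hu0 α hα i S hS hSj)
      calc ∑ q : Cb m, b q • (a i * pr q α i * mon (w + ∑ t ∈ q.1, δ t + ξ) α)
          = a i * ∑ q : Cb m, b q • (pr q α i * mon (w + ∑ t ∈ q.1, δ t + ξ) α) := by
            rw [mul_sum]
            refine sum_congr rfl fun q _ => ?_
            rw [mul_smul_comm, mul_assoc]
        _ = a i * ∑ S ∈ (range m).powerset, om w δ α S * u α i S := by
            rw [h2]
            simp only [hu]
        _ = _ := by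
            rw [mul_sum]
            exact sum_congr rfl fun S _ => (mul_assoc _ _ _).symm
    rw [← h1, hfe, ← sum_add_distrib]
    refine sum_eq_zero fun q _ => ?_
    rw [← sum_add_distrib]
    have h3 := hl.2 q
    have h4 : b q • (∑ α ∈ Ix J D, ∑ i, a i * l q α i *
        mon (w + ∑ t ∈ q.1, δ t + ξ) α) = 0 := by rw [h3, smul_zero]
    rw [← h4, smul_sum]
    refine sum_congr rfl fun α _ => ?_
    rw [← sum_add_distrib, smul_sum]
    refine sum_congr rfl fun i _ => ?_
    rw [← smul_add]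
    congr 1
    rw [hpr]
    ring
  have hYle : A * P w δ m ^ D ≤ A * P w δ m ^ D * V := le_mul_of_one_mem hV1
  have haom : ∀ α ∈ Ix J D, ∀ i, ∀ S ∈ (range m).powerset,
      a i * om w δ α S ∈ A * P w δ m ^ D := fun α hα i S hS =>
    Submodule.mul_mem_mul (haA i) (om_mem w δ hS hα)
  have hdeg : f.totalDegree ≤ 1 := by
    apply hg f hfc hfd
    rw [eq_neg_of_add_eq_zero_left hrel]
    refine Submodule.neg_mem _ (Submodule.sum_mem _ fun α hα => Submodule.sum_mem _ fun i _ =>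
      Submodule.sum_mem _ fun S hS => ?_)
    exact Submodule.mul_mem_mul (hYle (haom α hα i S hS)) (huL α i S)
  have hfe2 := eval_of_deg_one hdeg ξ
  -- the linear disjointness
  have h5 := hLD (Option (J ⊕ (Ix J D) × ι × Cb m))
    (fun o => o.elim (f.coeff 0) (Sum.elim (fun j => f.coeff (Finsupp.single j 1)) fun p =>
      a p.2.1 * om w δ p.1 p.2.2.1))
    (fun o => o.elim 1 (Sum.elim ξ fun p => u p.1 p.2.1 p.2.2.1))
    (by
      rintro (_ | _ | p)
      · exact hfc 0
      · exact hfc _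
      · exact hYle (haom p.1 p.1.2 p.2.1 p.2.2.1 p.2.2.2))
    (by
      rintro (_ | j | p)
      · exact hVL (hVV hV1)
      · exact hξ j
      · exact huL _ _ _)
    (by
      rw [Fintype.sum_option, Fintype.sum_sum_type]
      simp only [Option.elim, Sum.elim_inl, Sum.elim_inr]
      rw [← add_assoc, mul_one, ← hfe2, ← hrel]
      congr 1
      rw [Fintype.sum_prod_type, ← Finset.sum_coe_sort (Ix J D)]
      refine sum_congr rfl fun α _ => ?_
      rw [Fintype.sum_prod_type]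
      refine sum_congr rfl fun i _ => ?_
      exact Finset.sum_coe_sort (range m).powerset (fun S => (a i * om w δ α S * u α i S : ℂ)))
    φ hφ
  rw [Fintype.sum_option, Fintype.sum_sum_type] at h5
  simp only [Option.elim, Sum.elim_inl, Sum.elim_inr] at h5
  rw [hφ 1 (hVV hV1), zero_smul, zero_add] at h5
  have h5' : ∑ j, φ (ξ j) • f.coeff (Finsupp.single j 1) = 0 :=
    Finset.sum_eq_zero fun j _ => by rw [hφξ, zero_smul]
  rw [h5', zero_add] at h5
  have h6 : ∑ α ∈ Ix J D, ∑ S ∈ (range m).powerset,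
      (∑ i, φ (u α i S) • a i) * om w δ α S = 0 := by
    rw [← h5, Fintype.sum_prod_type, ← Finset.sum_coe_sort (Ix J D)]
    refine sum_congr rfl fun α _ => ?_
    rw [Fintype.sum_prod_type, sum_comm]
    rw [← Finset.sum_coe_sort (range m).powerset
      (fun S => (∑ i, φ (u α i S) • a i) * om w δ α S)]
    refine sum_congr rfl fun S _ => ?_
    rw [sum_mul]
    exact sum_congr rfl fun i _ => smul_mul_assoc _ _ _
  have h7 := hFF (fun α S => ∑ i, φ (u α i S) • a i)
    (fun α S => Submodule.sum_mem _ fun i _ => Submodule.smul_mem _ _ (haA i)) h6 α hα S hS hSα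
  have h8 := Fintype.linearIndependent_iff.1 ha (fun i => φ (u α i S)) h7 i
  -- conclusion
  have h9 : ∀ x ∈ V ⊔ Submodule.span Qa (Set.range ξ), φ x = 0 := by
    intro x hx
    obtain ⟨y, hy, z, hz, rfl⟩ := Submodule.mem_sup.1 hx
    obtain ⟨c, rfl⟩ := (Submodule.mem_span_range_iff_exists_fun Qa).1 hz
    rw [map_add, map_sum, hφ y (hVV hy), zero_add]
    refine Finset.sum_eq_zero fun j _ => ?_
    rw [map_smul, hφξ, smul_zero]
  rw [← h8, hu]
  simp only [map_sum, map_smul, smul_eq_mul]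
  refine sum_congr rfl fun q _ => ?_
  have h10 : φ (pr q α i) = φ (l q α i) := by
    rw [hpr, map_sub, h9 _ (hgW _), sub_zero]
  rw [h10]
  ring

end MP60829e.ZV
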