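import Mathlib
import Pool.Agent.Lib.MP_60829e_nt.ZV.StepD

/-! # Theorem ZV, Step 2: the dimension of the space of functions (compare ZL/StepR.lean) -/

open Module Finset MvPolynomial

namespace MP60829e.ZV

open MP60829e.ST (Qa Lt)
open MP60829e.ZL (Cb zt hpt card_small_le)

variable {J : Type} [Fintype J] {ι : Type} [Fintype ι] {m D c : ℕ}

/-- The pairs `(α, S)`, `|α| ≤ D`, `S ⊆ {0, …, m - 1}`, `|S| ≤ |α|`. -/
private noncomputable def PS (J : Type) [Fintype J] (m D : ℕ) : Finset ((J →₀ ℕ) × Finset ℕ) :=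
  (Ix J D ×ˢ (range m).powerset.filter (fun S => S.card ≤ D)).filter
    (fun p => p.2.card ≤ p.1.degree)

private theorem mem_PS {p : (J →₀ ℕ) × Finset ℕ} :
    p ∈ PS J m D ↔ p.1 ∈ Ix J D ∧ p.2 ∈ (range m).powerset ∧ p.2.card ≤ p.1.degree := by
  unfold PS
  rw [Finset.mem_filter, Finset.mem_product, Finset.mem_filter]
  constructor
  · rintro ⟨⟨h1, h2, h3⟩, h4⟩
    exact ⟨h1, h2, h4⟩
  · rintro ⟨h1, h2, h3⟩
    exact ⟨⟨h1, h2, h3.trans (mem_Ix.1 h1)⟩, h3⟩

private theorem card_PS (J : Type) [Fintype J] (m D : ℕ) :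
    (PS J m D).card ≤ (Ix J D).card * (m + 1) ^ D := by
  unfold PS
  refine (Finset.card_filter_le _ _).trans ?_
  rw [Finset.card_product]
  exact Nat.mul_le_mul_left _ (card_small_le m D)

/-- Compare `ZL.finrank_HH`: same proof with the pairs `(α, S)`, `α ∈ Ix J D`, `S ⊆ range m`,
`|S| ≤ |α|` (at most `(Ix J D).card * (m + 1) ^ D` of them). -/
theorem finrank_HH {A : Submodule Qa ℂ} {a : ι → ℂ} (ha : LinearIndependent Qa a)
    (haA : ∀ i, a i ∈ A) {w ξ : J → ℂ} {δ : ℕ → J → ℂ} {l : Cb m → (J →₀ ℕ) → ι → ℂ}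
    (hl : Rl m D a w ξ δ l) (hFF : FF A (w + ξ) δ m D) (V : Submodule Qa ℂ) :
    finrank Qa (HH m D V ξ l) ≤ (Fintype.card ι * ((Ix J D).card * (m + 1) ^ D)) ^ 2 := by
  classical
  -- the vectors
  obtain ⟨av, hav⟩ : ∃ av : ι × {p // p ∈ PS J m D} → ℂ,
      av = fun i => a i.1 * om (w + ξ) δ i.2.1.1 i.2.1.2 := ⟨_, rfl⟩
  obtain ⟨vec, hvec⟩ : ∃ vec : Cb m → ι × {p // p ∈ PS J m D} → ℂ,
      vec = fun q i => zt m i.2.1.2 q • l q i.2.1.1 i.1 := ⟨_, rfl⟩
  have havi : LinearIndependent Qa av := by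
    rw [Fintype.linearIndependent_iff]
    intro g hg
    have h1 := hFF (fun α S => if h : (α, S) ∈ PS J m D then ∑ i, g (i, ⟨(α, S), h⟩) • a i else 0)
      (fun α S => by
        split_ifs with h
        · exact Submodule.sum_mem _ fun i _ => A.smul_mem _ (haA i)
        · exact A.zero_mem) (by
        have h2 : ∀ p : (J →₀ ℕ) × Finset ℕ, p ∉ PS J m D →
            (if h : (p.1, p.2) ∈ PS J m D then ∑ i, g (i, ⟨(p.1, p.2), h⟩) • a i else 0) *
              om (w + ξ) δ p.1 p.2 = 0 := by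
          intro p hp
          rw [dif_neg hp, zero_mul]
        have h3 : ∀ p : {p // p ∈ PS J m D},
            (if h : (p.1.1, p.1.2) ∈ PS J m D then ∑ i, g (i, ⟨(p.1.1, p.1.2), h⟩) • a i else 0) *
              om (w + ξ) δ p.1.1 p.1.2 = ∑ i, g (i, p) • av (i, p) := by
          intro p
          rw [dif_pos p.2, Finset.sum_mul, hav]
          refine Finset.sum_congr rfl fun i _ => ?_
          rw [smul_mul_assoc]
        rw [← Finset.sum_product']
        rw [← Finset.sum_subset (s₁ := PS J m D) (by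
          intro p hp
          rw [mem_PS] at hp
          rw [Finset.mem_product]
          exact ⟨hp.1, hp.2.1⟩) (fun p _ hp => h2 p hp)]
        rw [← Finset.sum_coe_sort (PS J m D), Finset.sum_congr rfl fun p _ => h3 p,
          Finset.sum_comm, ← Fintype.sum_prod_type', hg])
    rintro ⟨i, ⟨⟨α, S⟩, hp⟩⟩
    have hp' := mem_PS.1 hp
    have h2 := h1 α hp'.1 S hp'.2.1 hp'.2.2
    rw [dif_pos hp] at h2
    exact Fintype.linearIndependent_iff.1 ha (fun i => g (i, ⟨(α, S), hp⟩)) h2 i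
  have horth : ∀ q, ∑ i, av i * vec q i = 0 := by
    intro q
    rw [← hl.2 q, Finset.sum_comm (s := Ix J D), hav, hvec, Fintype.sum_prod_type]
    refine Finset.sum_congr rfl fun i _ => ?_
    have h1 : ∀ α, mon (w + ∑ t ∈ q.1, δ t + ξ) α =
        ∑ S ∈ (range m).powerset, (zt m S q : ℂ) * om (w + ξ) δ α S := by
      intro α
      rw [show w + ∑ t ∈ q.1, δ t + ξ = w + ξ + ∑ t ∈ q.1, δ t by abel, mon_eq_sum_om]
      have h2 : q.1.powerset ⊆ (range m).powerset :=
        Finset.powerset_mono.2 (Finset.mem_powerset.1 q.2)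
      rw [← Finset.sum_subset h2 (fun S _ hS => by
        rw [Finset.mem_powerset] at hS
        unfold zt
        rw [if_neg hS]
        simp)]
      refine Finset.sum_congr rfl fun S hS => ?_
      unfold zt
      rw [if_pos (Finset.mem_powerset.1 hS)]
      simp
    symm
    calc ∑ α ∈ Ix J D, a i * l q α i * mon (w + ∑ t ∈ q.1, δ t + ξ) α
        = ∑ α ∈ Ix J D, ∑ S ∈ (range m).powerset,
            a i * om (w + ξ) δ α S * ((zt m S q : ℂ) * l q α i) := by
          refine Finset.sum_congr rfl fun α _ => ?_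
          rw [h1 α, Finset.mul_sum]
          exact Finset.sum_congr rfl fun S _ => by ring
      _ = ∑ p ∈ Ix J D ×ˢ (range m).powerset,
            a i * om (w + ξ) δ p.1 p.2 * ((zt m p.2 q : ℂ) * l q p.1 i) := by
          rw [Finset.sum_product]
      _ = ∑ p ∈ PS J m D, a i * om (w + ξ) δ p.1 p.2 * ((zt m p.2 q : ℂ) * l q p.1 i) := by
          refine (Finset.sum_subset ?_ ?_).symm
          · intro p hp
            rw [mem_PS] at hp
            rw [Finset.mem_product]
            exact ⟨hp.1, hp.2.1⟩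
          · intro p hp hp'
            rw [Finset.mem_product] at hp
            have h3 : p.1.degree < p.2.card := by
              by_contra h4
              exact hp' (mem_PS.2 ⟨hp.1, hp.2, not_lt.1 h4⟩)
            rw [om_eq_zero _ _ h3]
            ring
      _ = _ := by
          rw [← Finset.sum_coe_sort (PS J m D)]
          rfl
  -- the space of the vectors
  obtain ⟨K, hK⟩ : ∃ K : Submodule Qa (ι × {p // p ∈ PS J m D} → ℂ),
      K = Submodule.span Qa (Set.range vec) := ⟨_, rfl⟩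
  have hKp : ∀ v ∈ K, (∀ i, v i ∈ Lt) ∧ ∑ i, av i * v i = 0 := by
    intro v hv
    rw [hK] at hv
    induction hv using Submodule.span_induction with
    | mem v hv =>
      obtain ⟨q, rfl⟩ := hv
      refine ⟨fun i => ?_, horth q⟩
      rw [hvec]
      exact Lt.smul_mem _ (hl.1 _ _ _)
    | zero => exact ⟨fun i => Lt.zero_mem, by simp⟩
    | add v v' _ _ h1 h2 =>
      refine ⟨fun i => Lt.add_mem (h1.1 i) (h2.1 i), ?_⟩
      simp only [Pi.add_apply, mul_add]
      rw [Finset.sum_add_distrib, h1.2, h2.2, add_zero]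
    | smul k v _ h1 =>
      refine ⟨fun i => Lt.smul_mem _ (h1.1 i), ?_⟩
      simp only [Pi.smul_apply, mul_smul_comm]
      rw [← Finset.smul_sum, h1.2, smul_zero]
  obtain ⟨hKf, hKr⟩ := hpt av havi K (fun v hv => (hKp v hv).1) fun v hv => (hKp v hv).2
  have hcard : Fintype.card (ι × {p // p ∈ PS J m D}) ≤
      Fintype.card ι * ((Ix J D).card * (m + 1) ^ D) := by
    rw [Fintype.card_prod, Fintype.card_coe]
    exact Nat.mul_le_mul_left _ (card_PS J m D)
  have hvK : ∀ q, vec q ∈ K := fun q => by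
    rw [hK]
    exact Submodule.subset_span ⟨q, rfl⟩
  -- the functions
  let Λ : Module.Dual Qa K →ₗ[Qa] (Cb m → Qa) :=
    { toFun := fun Φ q => Φ ⟨vec q, hvK q⟩
      map_add' := fun Φ Ψ => rfl
      map_smul' := fun k Φ => rfl }
  have hle : HH m D V ξ l ≤ LinearMap.range Λ := by
    unfold HH
    rw [Submodule.span_le]
    rintro _ ⟨φ, -, -, α, i, S, hα, hS, hSα, rfl⟩
    have hp : (α, S) ∈ PS J m D := mem_PS.2 ⟨hα, hS, hSα.le⟩
    refine ⟨(φ ∘ₗ LinearMap.proj (i, (⟨(α, S), hp⟩ : {p // p ∈ PS J m D}))) ∘ₗ K.subtype, ?_⟩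
    funext q
    show φ (vec q (i, ⟨(α, S), hp⟩)) = _
    rw [hvec]
    simp only
    rw [map_smul, smul_eq_mul, mul_comm]
  have hdf : FiniteDimensional Qa (Module.Dual Qa K) := Subspace.instModuleDualFiniteDimensional
  have hrf : FiniteDimensional Qa (LinearMap.range Λ) := LinearMap.finiteDimensional_range Λ
  calc finrank Qa (HH m D V ξ l) ≤ finrank Qa (LinearMap.range Λ) := Submodule.finrank_mono hle
    _ ≤ finrank Qa (Module.Dual Qa K) := LinearMap.finrank_range_le Λ
    _ = finrank Qa K := Subspace.dual_finrank_eq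
    _ ≤ Fintype.card (ι × {p // p ∈ PS J m D}) * Fintype.card (ι × {p // p ∈ PS J m D}) := hKr
    _ ≤ _ := by
        rw [pow_two]
        exact Nat.mul_le_mul hcard hcard

end MP60829e.ZV
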