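import Mathlib
import Pool.Agent.Lib.MP_60829e_nt.ZV.StepR
import Pool.Agent.Lib.MP_60829e_nt.ZV.StepC

/-! # Theorem ZV, Step 2: a point with few coefficients (compare ZL/StepQ.lean) -/

open Module Finset MvPolynomial

namespace MP60829e.ZV

open MP60829e.ST (Qa Lt)
open MP60829e.ZL (LD Cb zt)

variable {J : Type} [Fintype J] {ι : Type} [Fintype ι] {m D c : ℕ}

/-- Compare `ZL.exists_q`: same proof. -/
theorem exists_q {A : Submodule Qa ℂ} (V : ℕ → Submodule Qa ℂ) (hV1 : ∀ i, (1 : ℂ) ∈ V i)
    (hVm : Monotone V) (hVL : ∀ i, V i ≤ Lt) {a : ι → ℂ} (ha : LinearIndependent Qa a)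
    (haA : ∀ i, a i ∈ A) {w ξ : J → ℂ} {δ : ℕ → J → ℂ} {l : Cb m → (J →₀ ℕ) → ι → ℂ}
    (hl : Rl m D a w ξ δ l) (hFF : FF A w δ m D) (hFF' : FF A (w + ξ) δ m D)
    (hLD : ∀ i < c, LD (A * P w δ m ^ D * V i) (V (i + 1)))
    (hg : Gen (A * P w δ m ^ D * V c) (D + 1) ξ) (hξ : ∀ j, ξ j ∈ Lt)
    (hnum : (Fintype.card ι * ((Ix J D).card * (m + 1) ^ D)) ^ 2 <
      ∑ i ∈ range (c + 1), m.choose i) :
    ∃ q : Cb m, ∀ α ∈ Ix J D, α ≠ 0 → ∀ i, l q α i ∈ V c ⊔ Submodule.span Qa (Set.range ξ) := by
  classical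
  by_contra hcon
  push Not at hcon
  -- the spaces decrease
  have hanti : ∀ i i' : ℕ, i ≤ i' → HH m D (V i') ξ l ≤ HH m D (V i) ξ l := by
    intro i i' hi
    refine Submodule.span_mono ?_
    rintro g ⟨φ, h1, h2, h3⟩
    exact ⟨φ, fun x hx => h1 x (hVm hi hx), h2, h3⟩
  -- multiplication by a coordinate
  have hmul : ∀ i < c, ∀ t < m, ∀ g ∈ HH m D (V (i + 1)) ξ l,
      (fun q => g q * zt m {t} q) ∈ HH m D (V i) ξ l := by
    intro i hi t ht g hg'
    induction hg' using Submodule.span_induction with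
    | mem g hg' =>
      obtain ⟨φ, h1, h2, α, j, S, hα, hS, hSα, rfl⟩ := hg'
      have h3 : S ∪ {t} ∈ (range m).powerset := by
        rw [Finset.mem_powerset] at hS ⊢
        exact Finset.union_subset hS (by simpa using ht)
      have h4 : (S ∪ {t}).card ≤ α.degree := by
        refine (Finset.card_union_le _ _).trans ?_
        rw [Finset.card_singleton]
        exact hSα
      have h5 := claimB (hV1 i) (hVm (Nat.le_succ i)) (hVL (i + 1)) ha haA hl hFF (hLD i hi)
        (Gen.mono hg (mul_le_mul_right (hVm hi.le) _) le_rfl) hξ φ h1 h2 hα j h3 h4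
      have h6 : (fun q => φ (l q α j) * zt m S q * zt m {t} q) =
          fun q => φ (l q α j) * zt m (S ∪ {t}) q := by
        funext q
        rw [mul_assoc, ZL.zt_mul]
      rw [h6]
      exact h5
    | zero =>
      have h6 : (fun q => (0 : Cb m → Qa) q * zt m {t} q) = 0 := by
        funext q
        simp
      rw [h6]
      exact Submodule.zero_mem _
    | add a b _ _ h1 h2 =>
      have h6 : (fun q => (a + b) q * zt m {t} q) =
          (fun q => a q * zt m {t} q) + fun q => b q * zt m {t} q := by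
        funext q
        simp [add_mul]
      rw [h6]
      exact Submodule.add_mem _ h1 h2
    | smul k a _ h1 =>
      have h6 : (fun q => (k • a) q * zt m {t} q) = k • fun q => a q * zt m {t} q := by
        funext q
        simp [mul_assoc]
      rw [h6]
      exact Submodule.smul_mem _ k h1
  -- a nowhere vanishing function
  obtain ⟨h, hhW, hh0⟩ : ∃ h ∈ HH m D (V c) ξ l, ∀ q, h q ≠ 0 := by
    refine ZL.exists_generic _ fun q => ?_
    obtain ⟨α, hαD, hα0, i, hα⟩ := hcon q
    obtain ⟨φ, hφ, hφ1⟩ := ZL.exists_functional hα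
    refine ⟨fun q' => φ (l q' α i) * zt m ∅ q', Submodule.subset_span ⟨φ, fun x hx => hφ x
      (Submodule.mem_sup_left hx), fun j => hφ (ξ j) (Submodule.mem_sup_right
        (Submodule.subset_span (Set.mem_range_self j))), α, i, ∅, hαD, by simp, ?_, rfl⟩, ?_⟩
    · rw [Finset.card_empty]
      exact Nat.pos_of_ne_zero fun h => hα0 ((Finsupp.degree_eq_zero_iff α).1 h)
    · simp [hφ1, zt]
  -- its products
  have hprod : ∀ S : Finset ℕ, S ⊆ range m → S.card ≤ c →
      (fun q => h q * zt m S q) ∈ HH m D (V (c - S.card)) ξ l := by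
    intro S
    induction S using Finset.induction_on with
    | empty =>
      intro _ _
      have h6 : (fun q => h q * zt m ∅ q) = h := by
        funext q
        simp [zt]
      rw [h6]
      exact hhW
    | insert t S ht ih =>
      intro h1 h2
      rw [Finset.card_insert_of_notMem ht] at h2 ⊢
      have h3 := ih (fun x hx => h1 (Finset.mem_insert_of_mem hx)) (by omega)
      have h4 : c - S.card = (c - (S.card + 1)) + 1 := by omega
      rw [h4] at h3
      have h5 := hmul (c - (S.card + 1)) (by omega) t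
        (Finset.mem_range.1 (h1 (Finset.mem_insert_self _ _))) _ h3
      have h6 : (fun q => h q * zt m S q * zt m {t} q) = fun q => h q * zt m (insert t S) q := by
        funext q
        rw [mul_assoc, ZL.zt_mul, Finset.union_comm, ← Finset.insert_eq]
      rw [← h6]
      exact h5
  have h7 := ZL.card_le_of_zeta (HH m D (V 0) ξ l) h hh0
    ((range m).powerset.filter fun S => S.card ≤ c) (Finset.filter_subset _ _) (by
      intro S hS
      obtain ⟨h8, h9⟩ := Finset.mem_filter.1 hS
      exact hanti 0 _ (Nat.zero_le _) (hprod S (Finset.mem_powerset.1 h8) h9))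
  rw [ZL.card_small_eq] at h7
  exact absurd (h7.trans (finrank_HH ha haA hl hFF' (V 0))) (not_le.2 hnum)

end MP60829e.ZV
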