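import Mathlib
import Pool.Agent.Lib.MP_60829e_nt.ZV.StepQ

/-! # Theorem ZV, Step 2: conclusion (compare ZL/StepF.lean, ZL/Fin.lean) -/

open Module Finset MvPolynomial

namespace MP60829e.ZV

open MP60829e.ST (Qa Lt)
open MP60829e.ZL (LD Cb zt le_mul_of_one_mem one_mem_pow)

variable {J : Type} [Fintype J] {m D c : ℕ}

/-- The nonzero exponents, and a polynomial as a sum over them. -/
theorem eq_sum_nonzero {F : MvPolynomial J ℂ} (hF : F.totalDegree ≤ D) :
    F = C (F.coeff 0) + ∑ α ∈ (Ix J D).filter (fun α => α ≠ 0), C (F.coeff α) * monomial α 1 := by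
  have h1 : F = ∑ α ∈ Ix J D, C (F.coeff α) * monomial α 1 := by
    conv_lhs => rw [F.as_sum]
    rw [Finset.sum_subset (s₂ := Ix J D) (fun α hα => mem_Ix.2 ?_) (fun α _ hα => ?_)]
    · refine Finset.sum_congr rfl fun α _ => ?_
      rw [C_mul_monomial, mul_one]
    · refine le_trans ?_ hF
      have h2 := le_totalDegree hα
      exact h2
    · rw [notMem_support_iff.1 hα, monomial_zero]
  conv_lhs => rw [h1]
  rw [Finset.filter_ne', ← Finset.add_sum_erase (Ix J D) _ (zero_mem_Ix D)]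
  congr 1
  rw [C_mul_monomial, mul_one]
  rfl

/-- The final identity (compare `ZL.final_identity`). PROOF. Substitute `X j - w j` for `X j` in `hH`:
`∑_{α ≠ 0} (T α + ∑ j, c j α (X j - w j)) X ^ α = p0 + ∑ j, p j (X j - w j)`; subtract this from
`F = F_0 + ∑_{α ≠ 0} (T α + ∑ j, c j α ξ j) X ^ α`; `hH` at `ξ` and `hx` give
`F_0 + p0 + ∑ j, p j ξ j = 0`. -/
theorem final_identity {w ξ : J → ℂ} {p0 : ℂ} {p : J → ℂ} {F : MvPolynomial J ℂ}
    (hF : F.totalDegree ≤ D) (hx : eval (w + ξ) F = 0) (T : (J →₀ ℕ) → ℂ) (c : J → (J →₀ ℕ) → ℂ)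
    (hc : ∀ α ∈ Ix J D, α ≠ 0 → F.coeff α = T α + ∑ j, c j α * ξ j)
    (hH : ∑ α ∈ (Ix J D).filter (fun α => α ≠ 0), (C (T α) + ∑ j, C (c j α) * X j) *
      ∏ j, (C (w j) + X j) ^ α j = C p0 + ∑ j, C (p j) * X j) :
    F = ∑ j, (X j - C (w j + ξ j)) *
      (C (p j) - ∑ α ∈ (Ix J D).filter (fun α => α ≠ 0), C (c j α) * monomial α 1) := by
  obtain ⟨N, hN⟩ : ∃ N, N = (Ix J D).filter (fun α => α ≠ 0) := ⟨_, rfl⟩
  rw [← hN] at hH ⊢
  obtain ⟨S2, hS2⟩ : ∃ S2 : J → MvPolynomial J ℂ, ∀ j,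
      S2 j = ∑ α ∈ N, C (c j α) * monomial α 1 := ⟨_, fun _ => rfl⟩
  obtain ⟨S1, hS1⟩ : ∃ S1 : MvPolynomial J ℂ, S1 = ∑ α ∈ N, C (T α) * monomial α 1 := ⟨_, rfl⟩
  simp only [← hS2]
  have hNm : ∀ α ∈ N, α ∈ Ix J D ∧ α ≠ 0 := fun α hα => by
    rw [hN] at hα
    exact Finset.mem_filter.1 hα
  have hmon : ∀ α : J →₀ ℕ, ∏ j, (X j : MvPolynomial J ℂ) ^ α j = monomial α 1 := by
    intro α
    rw [monomial_eq, C_1, one_mul, Finsupp.prod_fintype]
    intro j
    exact pow_zero _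
  -- the translated identity
  have h1 : S1 + ∑ j, (X j - C (w j)) * S2 j = C p0 + ∑ j, C (p j) * (X j - C (w j)) := by
    have h2 := congrArg (aeval fun j => (X j - C (w j) : MvPolynomial J ℂ)) hH
    rw [map_sum, map_add, map_sum] at h2
    have hCC : ∀ z : ℂ, (aeval fun j => (X j - C (w j) : MvPolynomial J ℂ)) (C z) = C z :=
      fun z => by
        rw [aeval_C]
        rfl
    have h3 : ∀ α ∈ N, (aeval fun j => (X j - C (w j) : MvPolynomial J ℂ))
        ((C (T α) + ∑ j, C (c j α) * X j) * ∏ j, (C (w j) + X j) ^ α j) =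
        C (T α) * monomial α 1 + ∑ j, (X j - C (w j)) * (C (c j α) * monomial α 1) := by
      intro α _
      rw [map_mul, map_add, map_sum, map_prod, hCC]
      have h4 : ∏ j, (aeval fun j => (X j - C (w j) : MvPolynomial J ℂ))
          ((C (w j) + X j) ^ α j) = monomial α 1 := by
        rw [← hmon]
        refine Finset.prod_congr rfl fun j _ => ?_
        rw [map_pow, map_add, hCC, aeval_X]
        congr 1
        ring
      rw [h4, add_mul, Finset.sum_mul]
      congr 1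
      refine Finset.sum_congr rfl fun j _ => ?_
      rw [map_mul, hCC, aeval_X]
      ring
    rw [Finset.sum_congr rfl h3, Finset.sum_add_distrib, ← hS1, Finset.sum_comm, hCC] at h2
    have h5 : ∀ j, ∑ α ∈ N, (X j - C (w j)) * (C (c j α) * monomial α 1) =
        (X j - C (w j)) * S2 j := by
      intro j
      rw [hS2, Finset.mul_sum]
    rw [Finset.sum_congr rfl fun j _ => h5 j] at h2
    rw [h2]
    congr 1
    refine Finset.sum_congr rfl fun j _ => ?_
    rw [map_mul, hCC, aeval_X]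
  -- the polynomial
  have h2 : F = C (F.coeff 0) + S1 + ∑ j, C (ξ j) * S2 j := by
    conv_lhs => rw [eq_sum_nonzero hF, ← hN]
    rw [add_assoc]
    congr 1
    have h3 : ∀ α ∈ N, C (F.coeff α) * monomial α (1 : ℂ) =
        C (T α) * monomial α 1 + ∑ j, C (ξ j) * (C (c j α) * monomial α 1) := by
      intro α hα
      rw [hc α (hNm α hα).1 (hNm α hα).2, C_add, map_sum, add_mul, Finset.sum_mul]
      congr 1
      refine Finset.sum_congr rfl fun j _ => ?_
      rw [C_mul]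
      ring
    rw [Finset.sum_congr rfl h3, Finset.sum_add_distrib, ← hS1, Finset.sum_comm]
    congr 1
    refine Finset.sum_congr rfl fun j _ => ?_
    rw [hS2, Finset.mul_sum]
  -- the constant
  have h3 : F.coeff 0 + p0 + ∑ j, p j * ξ j = 0 := by
    have h4 := congrArg (eval ξ) hH
    rw [map_sum, map_add, map_sum, eval_C] at h4
    have h5 : ∀ α ∈ N, eval ξ ((C (T α) + ∑ j, C (c j α) * X j) * ∏ j, (C (w j) + X j) ^ α j) =
        F.coeff α * mon (w + ξ) α := by
      intro α hα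
      rw [map_mul, map_add, map_sum, map_prod, hc α (hNm α hα).1 (hNm α hα).2]
      simp only [map_mul, eval_C, eval_X, map_pow, map_add]
      rfl
    rw [Finset.sum_congr rfl h5] at h4
    have h6 := hx
    rw [eval_eq_sum (w + ξ) F hF, ← Finset.add_sum_erase (Ix J D) _ (zero_mem_Ix D),
      ← Finset.filter_ne', ← hN, h4, mon_zero_right, mul_one] at h6
    have h7 : ∑ j, eval ξ (C (p j) * X j) = ∑ j, p j * ξ j :=
      Finset.sum_congr rfl fun j _ => by rw [map_mul, eval_C, eval_X]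
    rw [h7] at h6
    rw [← h6]
    ring
  have h3' : C (F.coeff 0) + C p0 + ∑ j, C (p j) * C (ξ j) = (0 : MvPolynomial J ℂ) := by
    have h4 := congrArg (C : ℂ → MvPolynomial J ℂ) h3
    rw [C_add, C_add, map_sum, C_0] at h4
    rw [← h4]
    congr 1
    refine Finset.sum_congr rfl fun j _ => ?_
    rw [C_mul]
  -- conclusion
  have h4 : ∑ j, (X j - C (w j + ξ j)) * (C (p j) - S2 j) =
      ∑ j, C (p j) * (X j - C (w j)) - ∑ j, C (p j) * C (ξ j) -
        ∑ j, (X j - C (w j)) * S2 j + ∑ j, C (ξ j) * S2 j := by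
    rw [← Finset.sum_sub_distrib, ← Finset.sum_sub_distrib, ← Finset.sum_add_distrib]
    refine Finset.sum_congr rfl fun j _ => ?_
    rw [C_add]
    ring
  rw [h4]
  linear_combination h2 + h1 + h3'

/-- **Step 2.** Compare `ZL.step2`: same proof, with `final_identity` and `coeff_mem_of_LD`. -/
theorem step2 {A : Submodule Qa ℂ} [FiniteDimensional Qa A] (V : ℕ → Submodule Qa ℂ)
    (hV1 : ∀ i, (1 : ℂ) ∈ V i) (hVm : Monotone V) (hVL : ∀ i, V i ≤ Lt) {w ξ : J → ℂ}
    {δ : ℕ → J → ℂ} (hFF : FF A w δ m D) (hFF' : FF A (w + ξ) δ m D)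
    (hLD : ∀ i ≤ c, LD (A * P w δ m ^ D * V i) (V (i + 1)))
    (hg : Gen (A * P w δ m ^ D * V c) (D + 1) ξ) (hξ : ∀ j, ξ j ∈ Lt) (hξV : Ind (V (c + 1)) ξ)
    (hnum : (finrank Qa A * ((Ix J D).card * (m + 1) ^ D)) ^ 2 <
      ∑ i ∈ range (c + 1), m.choose i)
    (F : Cb m → MvPolynomial J ℂ) (hFc : ∀ q α, (F q).coeff α ∈ A * Lt)
    (hFd : ∀ q, (F q).totalDegree ≤ D)
    (hF0 : ∀ q : Cb m, eval (w + ∑ t ∈ q.1, δ t + ξ) (F q) = 0) :
    ∃ q : Cb m, ∃ G : J → MvPolynomial J ℂ, (∀ j α, (G j).coeff α ∈ A) ∧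
      (∀ j, (G j).totalDegree ≤ D) ∧
      F q = ∑ j, (X j - C (w j + (∑ t ∈ q.1, δ t) j + ξ j)) * G j := by
  -- a basis of `A`
  obtain ⟨b⟩ : Nonempty (Basis (Fin (finrank Qa A)) Qa A) := ⟨finBasis Qa A⟩
  obtain ⟨a, ha⟩ : ∃ a : Fin (finrank Qa A) → ℂ, a = fun i => (b i : ℂ) := ⟨_, rfl⟩
  have haA : ∀ i, a i ∈ A := by
    intro i
    rw [ha]
    exact (b i).2
  have hai : LinearIndependent Qa a := by
    rw [ha]
    exact b.linearIndependent.map' A.subtype (Submodule.ker_subtype A)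
  -- the elements of `A * Lt`
  have hdec : ∀ x ∈ A * Lt, ∃ l : Fin (finrank Qa A) → ℂ, (∀ i, l i ∈ Lt) ∧ x = ∑ i, a i * l i := by
    intro x hx
    induction hx using Submodule.mul_induction_on' with
    | mem_mul_mem y hy z hz =>
      refine ⟨fun i => b.repr ⟨y, hy⟩ i • z, fun i => Lt.smul_mem _ hz, ?_⟩
      have h1 := congrArg (fun v : A => (v : ℂ)) (b.sum_repr ⟨y, hy⟩)
      simp only [Submodule.coe_sum, Submodule.coe_smul] at h1
      have h2 : y * z = (∑ i, b.repr ⟨y, hy⟩ i • (b i : ℂ)) * z := by rw [h1]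
      rw [h2, Finset.sum_mul]
      refine Finset.sum_congr rfl fun i _ => ?_
      rw [ha, smul_mul_assoc, mul_smul_comm]
    | add x _ y _ hx hy =>
      obtain ⟨l, hl, rfl⟩ := hx
      obtain ⟨l', hl', rfl⟩ := hy
      refine ⟨fun i => l i + l' i, fun i => Lt.add_mem (hl i) (hl' i), ?_⟩
      rw [← Finset.sum_add_distrib]
      exact Finset.sum_congr rfl fun i _ => by ring
  choose l hlL hl using fun q α => hdec _ (hFc q α)
  -- the relations
  have hRl : Rl m D a w ξ δ l := by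
    refine ⟨fun q α i => hlL q α i, fun q => ?_⟩
    rw [← hF0 q, eval_eq_sum _ _ (hFd q)]
    refine Finset.sum_congr rfl fun α _ => ?_
    rw [hl q α, Finset.sum_mul]
  obtain ⟨q, hq⟩ := exists_q V hV1 hVm hVL hai haA hRl hFF hFF' (fun i hi => hLD i hi.le) hg hξ
    (by rw [Fintype.card_fin]; exact hnum)
  obtain ⟨W, hW⟩ : ∃ W : J → ℂ, W = w + ∑ t ∈ q.1, δ t := ⟨_, rfl⟩
  have hWP : ∀ j, W j ∈ P w δ m := by
    intro j
    rw [hW, Pi.add_apply, Finset.sum_apply]
    refine Submodule.add_mem _ (w_mem_P w δ m j) (Submodule.sum_mem _ fun t ht => ?_)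
    exact delta_mem_P w δ (Finset.mem_range.1 (Finset.mem_powerset.1 q.2 ht)) j
  have hx0 : eval (W + ξ) (F q) = 0 := by rw [hW]; exact hF0 q
  -- the parts of the `l q α i`
  have hpart : ∀ α i, ∃ t : ℂ, ∃ k : J → Qa, t ∈ V c ∧
      (α ∈ Ix J D → α ≠ 0 → l q α i = t + ∑ j, k j • ξ j) := by
    intro α i
    by_cases hα : α ∈ Ix J D ∧ α ≠ 0
    · obtain ⟨t, ht, y, hy, hty⟩ := Submodule.mem_sup.1 (hq α hα.1 hα.2 i)
      obtain ⟨k, rfl⟩ := (Submodule.mem_span_range_iff_exists_fun Qa).1 hy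
      exact ⟨t, k, ht, fun _ _ => hty.symm⟩
    · exact ⟨0, 0, (V c).zero_mem, fun h1 h2 => absurd ⟨h1, h2⟩ hα⟩
  choose t k htV htk using hpart
  obtain ⟨T, hT⟩ : ∃ T : (J →₀ ℕ) → ℂ, ∀ α, T α = ∑ i, a i * t α i := ⟨_, fun _ => rfl⟩
  obtain ⟨e, he⟩ : ∃ e : J → (J →₀ ℕ) → ℂ, ∀ j α, e j α = ∑ i, k α i j • a i :=
    ⟨_, fun _ _ => rfl⟩
  have hTm : ∀ α, T α ∈ A * V c := by
    intro α
    rw [hT]
    exact Submodule.sum_mem _ fun i _ => Submodule.mul_mem_mul (haA i) (htV α i)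
  have heA : ∀ j α, e j α ∈ A := by
    intro j α
    rw [he]
    exact Submodule.sum_mem _ fun i _ => A.smul_mem _ (haA i)
  have hem : ∀ j α, e j α ∈ A * V c := fun j α => le_mul_of_one_mem (hV1 c) (heA j α)
  have hcoef : ∀ α ∈ Ix J D, α ≠ 0 → (F q).coeff α = T α + ∑ j, e j α * ξ j := by
    intro α hα1 hα2
    rw [hl q α, hT]
    have h1 : ∑ j, e j α * ξ j = ∑ i, a i * ∑ j, k α i j • ξ j := by
      simp only [he, Finset.sum_mul, Finset.mul_sum]
      rw [Finset.sum_comm]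
      refine Finset.sum_congr rfl fun i _ => Finset.sum_congr rfl fun j _ => ?_
      rw [smul_mul_assoc, mul_smul_comm]
    rw [h1, ← Finset.sum_add_distrib]
    refine Finset.sum_congr rfl fun i _ => ?_
    rw [htk α i hα1 hα2, mul_add]
  -- the polynomial `H`
  obtain ⟨H, hH⟩ : ∃ H : MvPolynomial J ℂ, H = ∑ α ∈ (Ix J D).filter (fun α => α ≠ 0),
      (C (T α) + ∑ j, C (e j α) * X j) * ∏ j, (C (W j) + X j) ^ α j := ⟨_, rfl⟩
  have hdeg : ∀ α ∈ (Ix J D).filter (fun α => α ≠ 0), ∑ j, α j ≤ D := by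
    intro α hα
    rw [← Finsupp.degree_eq_sum]
    exact mem_Ix.1 (Finset.mem_filter.1 hα).1
  have hHc : ∀ β, H.coeff β ∈ A * P w δ m ^ D * V c := by
    intro β
    rw [hH, mul_right_comm, coeff_sum]
    refine Submodule.sum_mem _ fun α hα => cmem_mul (fun β => ?_) (fun β => ?_) β
    · rw [coeff_add, coeff_sum]
      refine Submodule.add_mem _ (cmem_C (hTm α) β) (Submodule.sum_mem _ fun j _ => ?_)
      have h1 := cmem_mul (S := A * V c) (T := 1) (cmem_C (J := J) (hem j α))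
        (cmem_X (Submodule.one_le.1 le_rfl) j) β
      rwa [mul_one] at h1
    · refine ZL.pow_le_pow_of_one_mem (one_mem_P w δ m) (hdeg α hα)
        (cmem_prod (fun j β => ?_) α Finset.univ β)
      rw [coeff_add]
      exact Submodule.add_mem _ (cmem_C (hWP j) β) (cmem_X (one_mem_P w δ m) j β)
  have hHd : H.totalDegree ≤ D + 1 := by
    rw [hH]
    refine totalDegree_finsetSum_le fun α hα => ?_
    refine (totalDegree_mul _ _).trans ?_
    have h1 : (C (T α) + ∑ j, C (e j α) * X j : MvPolynomial J ℂ).totalDegree ≤ 1 := by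
      refine (totalDegree_add _ _).trans (max_le ?_ ?_)
      · rw [totalDegree_C]
        exact Nat.zero_le _
      · refine totalDegree_finsetSum_le fun j _ => ?_
        refine (totalDegree_mul _ _).trans ?_
        rw [totalDegree_C, totalDegree_X]
    have h2 : (∏ j, (C (W j) + X j : MvPolynomial J ℂ) ^ α j).totalDegree ≤ D := by
      refine (totalDegree_finsetProd _ _).trans
        (le_trans (Finset.sum_le_sum fun j _ => ?_) (hdeg α hα))
      refine (totalDegree_pow _ _).trans ?_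
      have h3 : (C (W j) + X j : MvPolynomial J ℂ).totalDegree ≤ 1 := by
        refine (totalDegree_add _ _).trans (max_le ?_ ?_)
        · rw [totalDegree_C]
          exact Nat.zero_le _
        · rw [totalDegree_X]
      calc α j * _ ≤ α j * 1 := Nat.mul_le_mul_left _ h3
        _ = α j := mul_one _
    omega
  have hHe : eval ξ H = - (F q).coeff 0 := by
    have h1 := hx0
    rw [eval_eq_sum (W + ξ) (F q) (hFd q), ← Finset.add_sum_erase (Ix J D) _ (zero_mem_Ix D),
      ← Finset.filter_ne', mon_zero_right, mul_one] at h1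
    have h2 : eval ξ H = ∑ α ∈ (Ix J D).filter (fun α => α ≠ 0),
        (F q).coeff α * mon (W + ξ) α := by
      rw [hH, map_sum]
      refine Finset.sum_congr rfl fun α hα => ?_
      obtain ⟨h3, h4⟩ := Finset.mem_filter.1 hα
      rw [hcoef α h3 h4, map_mul, map_add, map_sum, map_prod]
      simp only [map_mul, eval_C, eval_X, map_pow, map_add]
      rfl
    rw [h2]
    linear_combination h1
  have hF0m : - (F q).coeff 0 ∈ A * Lt := Submodule.neg_mem _ (hFc q 0)
  have hAY : A ≤ A * P w δ m ^ D * V c :=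
    (le_mul_of_one_mem (one_mem_pow (one_mem_P w δ m) D)).trans (le_mul_of_one_mem (hV1 c))
  have hH1 : H.totalDegree ≤ 1 := by
    refine hg H hHc hHd ?_
    rw [hHe]
    exact (mul_le_mul_left hAY Lt : A * Lt ≤ _) hF0m
  have hHl := eq_of_deg_one hH1
  have hp1 : ∀ j, H.coeff (Finsupp.single j 1) ∈ A := by
    refine coeff_mem_of_LD (hLD c le_rfl) (hV1 (c + 1)) hAY hξ hξV (hHc 0) (fun j => hHc _) hF0m ?_
    rw [← hHe, eval_of_deg_one hH1]
  have hfin := final_identity (hFd q) hx0 T e hcoef (hH.symm.trans hHl)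
  refine ⟨q, fun j => C (H.coeff (Finsupp.single j 1)) -
    ∑ α ∈ (Ix J D).filter (fun α => α ≠ 0), C (e j α) * monomial α 1, ?_, ?_, ?_⟩
  · intro j β
    classical
    rw [coeff_sub, coeff_sum]
    refine A.sub_mem (cmem_C (hp1 j) β) (Submodule.sum_mem _ fun α _ => ?_)
    rw [C_mul_monomial, mul_one, coeff_monomial]
    split_ifs
    · exact heA j α
    · exact A.zero_mem
  · intro j
    refine (totalDegree_sub _ _).trans (max_le ?_ ?_)
    · rw [totalDegree_C]
      exact Nat.zero_le _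
    · refine totalDegree_finsetSum_le fun α hα => ?_
      rw [C_mul_monomial, mul_one]
      refine (totalDegree_monomial_le _ _).trans ?_
      exact mem_Ix.1 (Finset.mem_filter.1 hα).1
  · rw [hW] at hfin
    exact hfin

end MP60829e.ZV
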