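import Mathlib
import Pool.Agent.Lib.MP_60829e_nt.ZV.Cube
import Pool.Agent.Lib.MP_60829e_nt.ZV.StepF
import Pool.Agent.Lib.MP_60829e_nt.ZL.Chain

/-! # Theorem ZV: the grid theorem (compare ZL/Grid.lean) -/

open Module Finset MvPolynomial

namespace MP60829e.ZV

open MP60829e.ST (Qa Lt)
open MP60829e.ZL (Cb exists_num2 exists_chain finrank_mul_le finrank_pow_le le_mul_of_one_mem)

/-- **The grid theorem.** Compare `ZL.grid`: same proof. -/
theorem grid (J : Type) [Fintype J] (κ D ν : ℕ) : ∃ r T : ℕ, ∀ E V : Submodule Qa ℂ,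
    FiniteDimensional Qa E → FiniteDimensional Qa V → finrank Qa E ≤ κ → finrank Qa V ≤ ν →
    ∀ u : J → ℂ, (∀ j, u j ∈ Lt) → ∀ R : ℕ → Set (J → ℂ), (∀ i < r, Row T (R i)) →
      ∃ s : ℕ → J → ℂ, (∀ i < r, s i ∈ R i) ∧ Good E D (u + ∑ i ∈ range r, s i) ∧
        Ind V (u + ∑ i ∈ range r, s i) := by
  classical
  obtain ⟨m, hm⟩ := exists_num2 ((κ * (Ix J D).card) ^ 2) (2 * D)
  obtain ⟨M1, T1, hcube⟩ := exists_cube J κ D m
  obtain ⟨p, hp⟩ : ∃ p : ℕ, p = (m + 1) * Fintype.card J + 1 := ⟨_, rfl⟩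
  obtain ⟨N, hchain⟩ := exists_chain (κ * p ^ D) (2 * D + 1)
  obtain ⟨M2, T2, hgen⟩ := exists_gen J (κ * p ^ D * N) (D + 1) (N + ν + p)
  refine ⟨M1 + M2, max T1 T2, ?_⟩
  intro E V hEf hVf hE hV u hu R hR
  obtain ⟨w, δ, hFF, hw, hδ, hs⟩ := hcube E hEf hE u hu R fun i hi =>
    (hR i (by omega)).mono (le_max_left _ _)
  have hPd : finrank Qa (P w δ m) ≤ p := by
    rw [hp]
    exact finrank_P w δ m
  have hYd : finrank Qa (E * P w δ m ^ D : Submodule Qa ℂ) ≤ κ * p ^ D := by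
    refine (finrank_mul_le _ _).trans (Nat.mul_le_mul hE ?_)
    exact (finrank_pow_le _ _).trans (Nat.pow_le_pow_left hPd D)
  obtain ⟨W, hW1, hWm, hWL, hWLD, hWf, hWd⟩ := hchain (E * P w δ m ^ D) inferInstance hYd
  have := hWf (2 * D + 1)
  have := hWf (2 * D + 1 + 1)
  have hYV : finrank Qa (E * P w δ m ^ D * W (2 * D + 1) : Submodule Qa ℂ) ≤
      κ * p ^ D * N :=
    (finrank_mul_le _ _).trans (Nat.mul_le_mul hYd (hWd _ (by omega)))
  have hVd : finrank Qa (W (2 * D + 1 + 1) ⊔ V ⊔ P w δ m : Submodule Qa ℂ) ≤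
      N + ν + p := by
    have h4 := Submodule.finrank_add_le_finrank_add_finrank (W (2 * D + 1 + 1) ⊔ V) (P w δ m)
    have h5 := Submodule.finrank_add_le_finrank_add_finrank (W (2 * D + 1 + 1)) V
    have h7 := hWd (2 * D + 1 + 1) (by omega)
    omega
  obtain ⟨s2, hs2R, hs2g, hs2V⟩ := hgen (E * P w δ m ^ D * W (2 * D + 1))
    (W (2 * D + 1 + 1) ⊔ V ⊔ P w δ m) inferInstance inferInstance hYV hVd 0
    (fun i => R (M1 + i)) fun i hi => (hR (M1 + i) (by omega)).mono (le_max_right _ _)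
  rw [zero_add] at hs2g hs2V
  obtain ⟨ξ, hξ⟩ : ∃ ξ : J → ℂ, ξ = ∑ i ∈ range M2, s2 i := ⟨_, rfl⟩
  rw [← hξ] at hs2g hs2V
  have hξL : ∀ j, ξ j ∈ Lt := by
    intro j
    rw [hξ, Finset.sum_apply]
    refine Submodule.sum_mem _ fun i hi => ?_
    have hi' := Finset.mem_range.1 hi
    exact (hR (M1 + i) (by omega)).2.1 _ (hs2R i hi') j
  have hξW : Ind (W (2 * D + 1 + 1)) ξ := hs2V.mono (le_sup_left.trans le_sup_left)
  have hYW : ∀ i, E * P w δ m ^ D ≤ E * P w δ m ^ D * W i := fun i => le_mul_of_one_mem (hW1 i)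
  have hFF' : FF E (w + ξ) δ m D := by
    refine hFF.add ((hWLD 0).mono (hYW 0) le_rfl) (hW1 1)
      (hs2g.mono (hYW _) (Nat.le_succ D)) hξL (hξW.mono ?_)
    exact hWm (by omega : 1 ≤ 2 * D + 1 + 1)
  -- a good point of the cube
  obtain ⟨q, hq⟩ : ∃ q : Cb m, Good E D (w + ∑ t ∈ q.1, δ t + ξ) := by
    by_contra hcon
    push Not at hcon
    have hF : ∀ q : Cb m, ∃ F : MvPolynomial J ℂ, (∀ α, F.coeff α ∈ E * Lt) ∧
        F.totalDegree ≤ D ∧ eval (w + ∑ t ∈ q.1, δ t + ξ) F = 0 ∧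
        ¬ ∃ G : J → MvPolynomial J ℂ, (∀ j α, (G j).coeff α ∈ E) ∧
          (∀ j, (G j).totalDegree ≤ D) ∧
          F = ∑ j, (X j - C ((w + ∑ t ∈ q.1, δ t + ξ) j)) * G j := by
      intro q
      have h2 := hcon q
      unfold Good at h2
      push Not at h2
      obtain ⟨F, h3, h4, h5, h6⟩ := h2
      refine ⟨F, h3, h4, h5, ?_⟩
      rintro ⟨G, hG, hGd, hG'⟩
      exact h6 G hG hGd hG'
    choose F hFc hFd hF0 hFG using hF
    obtain ⟨q, G, hG, hGd, hG'⟩ := step2 (c := 2 * D + 1) W hW1 hWm hWL hFF hFF'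
      (fun i _ => hWLD i) hs2g hξL hξW (by
        refine lt_of_le_of_lt ?_ hm
        calc (finrank Qa E * ((Ix J D).card * (m + 1) ^ D)) ^ 2
            ≤ (κ * ((Ix J D).card * (m + 1) ^ D)) ^ 2 :=
              Nat.pow_le_pow_left (Nat.mul_le_mul_right _ hE) 2
          _ = (κ * (Ix J D).card) ^ 2 * (m + 1) ^ (2 * D) := by ring) F hFc hFd hF0
    exact hFG q ⟨G, hG, hGd, hG'⟩
  obtain ⟨s1, hs1R, hs1⟩ := hs q.1 q.2
  obtain ⟨s, hsd⟩ : ∃ s : ℕ → J → ℂ, s = fun i => if i < M1 then s1 i else s2 (i - M1) :=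
    ⟨_, rfl⟩
  have hsum : u + ∑ i ∈ range (M1 + M2), s i = w + ∑ t ∈ q.1, δ t + ξ := by
    rw [Finset.sum_range_add, ← add_assoc, hs1, hξ]
    congr 1
    · congr 1
      refine Finset.sum_congr rfl fun i hi => ?_
      rw [hsd]
      dsimp only
      rw [if_pos (Finset.mem_range.1 hi)]
    · refine Finset.sum_congr rfl fun i _ => ?_
      rw [hsd]
      dsimp only
      rw [if_neg (by omega), Nat.add_sub_cancel_left]
  refine ⟨s, fun i hi => ?_, ?_, ?_⟩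
  · rw [hsd]
    dsimp only
    split_ifs with h
    · exact hs1R i h
    · have h2 := hs2R (i - M1) (by omega)
      rwa [show M1 + (i - M1) = i by omega] at h2
  · rw [hsum]
    exact hq
  · rw [hsum]
    have h2 : Ind (V ⊔ P w δ m) ξ := hs2V.mono (by
      rw [sup_assoc]
      exact le_sup_right)
    refine (h2.add (y := w + ∑ t ∈ q.1, δ t) fun j => Submodule.mem_sup_right ?_).mono
      le_sup_left
    rw [Pi.add_apply, Finset.sum_apply]
    exact Submodule.add_mem _ (w_mem_P w δ m j) (Submodule.sum_mem _ fun t ht =>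
      delta_mem_P w δ (Finset.mem_range.1 (Finset.mem_powerset.1 q.2 ht)) j)

end MP60829e.ZV
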