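import Mathlib
import Pool.Agent.Lib.MP_60829e_nt.ZV.Grid
import Pool.Agent.Lib.MP_60829e_nt.ZL.One

/-! # Theorem ZV: one point, two-space form (compare ZL/One.lean) -/

open Module Finset MvPolynomial

namespace MP60829e.ZV

open MP60829e.ST (Qa Lt)
open MP60829e.ZL (LD exists_LD)

variable {J : Type} [Fintype J]

/-- The two-space property. -/
def GoodX {I : Type} [Fintype I] (E1 E : Submodule Qa ℂ) (D : ℕ) (y : I → ℂ) : Prop :=
  ∀ A ≤ E, ∀ F : MvPolynomial I ℂ, F.totalDegree ≤ D → (∀ α, F.coeff α ∈ E1 ⊔ A * Lt) →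
    eval y F = 0 → ∃ G : I → MvPolynomial I ℂ, (∀ i α, (G i).coeff α ∈ A) ∧
      F = ∑ i, (X i - C (y i)) * G i

omit [Fintype J] in
private theorem co_mul {S S' : Submodule Qa ℂ} {p p' : MvPolynomial J ℂ}
    (hp : ∀ α, p.coeff α ∈ S) (hp' : ∀ α, p'.coeff α ∈ S') (α : J →₀ ℕ) :
    (p * p').coeff α ∈ S * S' := by
  classical
  rw [coeff_mul]
  exact Submodule.sum_mem _ fun x _ => Submodule.mul_mem_mul (hp _) (hp' _)

omit [Fintype J] in
private theorem co_pow {S : Submodule Qa ℂ} {p : MvPolynomial J ℂ} (hp : ∀ α, p.coeff α ∈ S)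
    (k : ℕ) : ∀ α, (p ^ k).coeff α ∈ S ^ k := by
  classical
  induction k with
  | zero =>
    intro α
    rw [pow_zero, pow_zero, coeff_one]
    split_ifs
    · exact Submodule.one_le.1 le_rfl
    · exact Submodule.zero_mem _
  | succ k ih =>
    intro α
    rw [pow_succ, pow_succ]
    exact co_mul ih hp α

omit [Fintype J] in
private theorem co_prod {E : Submodule Qa ℂ} {r : J → MvPolynomial J ℂ}
    (hr : ∀ j α, (r j).coeff α ∈ E) (e : J → ℕ) (s : Finset J) :
    ∀ α, (∏ j ∈ s, r j ^ e j).coeff α ∈ E ^ (∑ j ∈ s, e j) := by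
  classical
  induction s using Finset.induction_on with
  | empty =>
    intro α
    rw [Finset.prod_empty, Finset.sum_empty, pow_zero, coeff_one]
    split_ifs
    · exact Submodule.one_le.1 le_rfl
    · exact Submodule.zero_mem _
  | insert j s hj ih =>
    intro α
    rw [Finset.prod_insert hj, Finset.sum_insert hj, pow_add]
    exact co_mul (co_pow (hr j) _) ih α

private theorem aeval_sum (r : J → MvPolynomial J ℂ) (p : MvPolynomial J ℂ) :
    aeval r p = ∑ d ∈ p.support, C (p.coeff d) * ∏ j, r j ^ d j := by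
  rw [aeval_def, eval₂_eq', algebraMap_eq]

private theorem co_comp {S E : Submodule Qa ℂ} (h1 : (1 : ℂ) ∈ E) {p : MvPolynomial J ℂ}
    {r : J → MvPolynomial J ℂ} {D : ℕ} (hp : ∀ α, p.coeff α ∈ S) (hd : p.totalDegree ≤ D)
    (hr : ∀ j α, (r j).coeff α ∈ E) (α : J →₀ ℕ) : (aeval r p).coeff α ∈ S * E ^ D := by
  rw [aeval_sum, coeff_sum]
  refine Submodule.sum_mem _ fun e he => ?_
  rw [coeff_C_mul]
  refine Submodule.mul_mem_mul (hp e) ?_
  refine MP60829e.ZL.pow_le_pow_of_one_mem h1 ?_ (co_prod hr (fun j => e j) univ α)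
  refine le_trans ?_ hd
  have h2 := le_totalDegree he
  rwa [Finsupp.sum_fintype _ _ (fun _ => rfl)] at h2

private theorem deg_comp {p : MvPolynomial J ℂ} {r : J → MvPolynomial J ℂ} {D : ℕ}
    (hd : p.totalDegree ≤ D) (hr : ∀ j, (r j).totalDegree ≤ 1) : (aeval r p).totalDegree ≤ D := by
  rw [aeval_sum]
  refine totalDegree_finsetSum_le fun e he => ?_
  refine (totalDegree_mul _ _).trans ?_
  rw [totalDegree_C, zero_add]
  refine (totalDegree_finsetProd _ _).trans ?_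
  have h2 := le_totalDegree he
  rw [Finsupp.sum_fintype _ _ (fun _ => rfl)] at h2
  refine le_trans (Finset.sum_le_sum fun j _ => ?_) (h2.trans hd)
  refine (totalDegree_pow _ _).trans ?_
  calc e j * (r j).totalDegree ≤ e j * 1 := Nat.mul_le_mul_left _ (hr j)
    _ = e j := mul_one _

omit [Fintype J] in
private theorem co_lin {E : Submodule Qa ℂ} (h1 : (1 : ℂ) ∈ E) (q : Qa) {h : ℂ} (hh : h ∈ E)
    (j : J) (α : J →₀ ℕ) : (C (q : ℂ) * X j + C h : MvPolynomial J ℂ).coeff α ∈ E := by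
  classical
  rw [coeff_add, coeff_C_mul, coeff_X, coeff_C]
  refine E.add_mem ?_ ?_
  · split_ifs
    · exact E.smul_mem q h1
    · rw [mul_zero]
      exact E.zero_mem
  · split_ifs
    · exact hh
    · exact E.zero_mem

omit [Fintype J] in
private theorem deg_lin (q h : ℂ) (j : J) :
    (C q * X j + C h : MvPolynomial J ℂ).totalDegree ≤ 1 := by
  refine (totalDegree_add _ _).trans (max_le ?_ ?_)
  · refine (totalDegree_mul _ _).trans ?_
    rw [totalDegree_C, zero_add, totalDegree_X]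
  · rw [totalDegree_C]
    exact Nat.zero_le _

private theorem eval_comp' (x : J → ℂ) (r : J → MvPolynomial J ℂ) (F : MvPolynomial J ℂ) :
    eval x (aeval r F) = eval (fun j => eval x (r j)) F := by
  rw [aeval_sum, eval_sum, eval_eq' (fun j => eval x (r j)) F]
  refine Finset.sum_congr rfl fun d _ => ?_
  rw [eval_mul, eval_C, eval_prod]
  congr 1
  refine Finset.prod_congr rfl fun j _ => ?_
  rw [map_pow]

/-- PROOF as for `ZL.good_all`: `F' = F (q X + h)` has coefficients in `E ^ (D + 1) * Lt`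
(`E ⊔ A * Lt ≤ E * Lt`) and the root `x`, so `F' = ∑ j, (X j - x j) * G' j`, `G' j` over
`E ^ (D + 1)`, of degree `≤ D`; `F = ∑ j, (X j - (q j * x j + h j)) * G j`,
`G j = (q j)⁻¹ * G' j ((X - h) / q)`, coefficients in `E ^ (2 D + 1)`. The coefficient at `α` of the
right side is `∑ j, (G j).coeff (α - single j 1) - ∑ j, (q j * x j + h j) * (G j).coeff α`
(`(G j).coeff (α - single j 1)` means `0` if `α j = 0`), so `coeff_mem_of_LD` with
`Y = E ^ (2 D + 2)` gives `q j * (G j).coeff α ∈ A`. -/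
theorem good_all {E V : Submodule Qa ℂ} {D : ℕ} {x : J → ℂ} (hE : (1 : ℂ) ∈ E)
    (hx : ∀ j, x j ∈ Lt) (hg : Good (E ^ (D + 1)) D x) (hLD : LD (E ^ (2 * D + 2)) V)
    (h1 : (1 : ℂ) ∈ V) (hxV : Ind V x) (y : J → ℂ)
    (hy : ∀ j, ∃ q : Qa, q ≠ 0 ∧ y j - q * x j ∈ E) : GoodX E E D y := by
  classical
  intro A hA F hD hF h0
  choose q hq hqy using hy
  have hqC : ∀ j, ((q j : Qa) : ℂ) ≠ 0 := fun j h2 => hq j (Subtype.ext h2)
  have h1L : (1 : ℂ) ∈ Lt := Submodule.subset_span (Or.inl rfl)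
  obtain ⟨h, hh⟩ : ∃ h : J → ℂ, ∀ j, h j = y j - q j * x j := ⟨_, fun _ => rfl⟩
  have hhE : ∀ j, h j ∈ E := fun j => by
    rw [hh]
    exact hqy j
  have hyj : ∀ j, y j = q j * x j + h j := fun j => by
    rw [hh]
    ring
  -- the polynomial in the logarithms
  obtain ⟨r, hr⟩ : ∃ r : J → MvPolynomial J ℂ, ∀ j, r j = C ((q j : Qa) : ℂ) * X j + C (h j) :=
    ⟨_, fun _ => rfl⟩
  obtain ⟨s, hs⟩ : ∃ s : J → MvPolynomial J ℂ, ∀ j, s j = C (((q j)⁻¹ : Qa) : ℂ) * X j +
      C (-(((q j)⁻¹ : Qa) : ℂ) * h j) := ⟨_, fun _ => rfl⟩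
  have hinv : ∀ j, (((q j)⁻¹ : Qa) : ℂ) = ((q j : Qa) : ℂ)⁻¹ := fun _ => rfl
  have hrE : ∀ j α, (r j).coeff α ∈ E := fun j α => by
    rw [hr]
    exact co_lin hE (q j) (hhE j) j α
  have hsE : ∀ j α, (s j).coeff α ∈ E := fun j α => by
    rw [hs]
    refine co_lin hE (q j)⁻¹ ?_ j α
    rw [neg_mul]
    exact E.neg_mem (E.smul_mem ((q j)⁻¹) (hhE j))
  have hrd : ∀ j, (r j).totalDegree ≤ 1 := fun j => by
    rw [hr]
    exact deg_lin _ _ _
  have hrs : ∀ j, aeval s (r j) = X j := by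
    intro j
    rw [hr, map_add, map_mul, aeval_X, hs, hinv]
    have e1 : (aeval s) (C ((q j : Qa) : ℂ)) = C ((q j : Qa) : ℂ) := by
      rw [aeval_C, algebraMap_eq]
    have e2 : (aeval s) (C (h j)) = C (h j) := by
      rw [aeval_C, algebraMap_eq]
    rw [e1, e2, mul_add, ← mul_assoc, ← C_mul, mul_inv_cancel₀ (hqC j), C_1, one_mul, ← C_mul,
      add_assoc, ← C_add]
    have : ((q j : Qa) : ℂ) * (-((q j : Qa) : ℂ)⁻¹ * h j) + h j = 0 := by
      have := hqC j
      field_simp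
      ring
    rw [this, C_0, add_zero]
  obtain ⟨F', hF'⟩ : ∃ F' : MvPolynomial J ℂ, F' = aeval r F := ⟨_, rfl⟩
  have hF'c : ∀ α, F'.coeff α ∈ E ^ (D + 1) * Lt := by
    intro α
    have h3 : ∀ α, F.coeff α ∈ E * Lt := fun α =>
      (sup_le (MP60829e.ZL.le_mul_of_one_mem h1L) (mul_le_mul' hA le_rfl) : E ⊔ A * Lt ≤ E * Lt) (hF α)
    have h4 := co_comp hE h3 hD hrE α
    rw [← hF'] at h4
    rwa [mul_right_comm, ← pow_succ'] at h4
  have hF'd : F'.totalDegree ≤ D := by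
    rw [hF']
    exact deg_comp hD hrd
  have hF'0 : eval x F' = 0 := by
    rw [hF', eval_comp']
    have : (fun j => eval x (r j)) = y := by
      funext j
      rw [hr, eval_add, eval_mul, eval_C, eval_X, eval_C, hyj]
    rw [this]
    exact h0
  obtain ⟨G', hG'c, hG'd, hG'⟩ := hg F' hF'c hF'd hF'0
  obtain ⟨G, hG⟩ : ∃ G : J → MvPolynomial J ℂ, ∀ j, G j = C (((q j)⁻¹ : Qa) : ℂ) * aeval s (G' j) :=
    ⟨_, fun _ => rfl⟩
  have hGc : ∀ j α, (G j).coeff α ∈ E ^ (2 * D + 1) := by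
    intro j α
    rw [hG, coeff_C_mul]
    have h6 := co_comp hE (hG'c j) (hG'd j) hsE α
    rw [← pow_add, show D + 1 + D = 2 * D + 1 by ring] at h6
    exact (E ^ (2 * D + 1)).smul_mem ((q j)⁻¹) h6
  have hFG : F = ∑ j, (X j - C (y j)) * G j := by
    have h7 : F = aeval s F' := by
      have h8 : ((aeval s : MvPolynomial J ℂ →ₐ[ℂ] MvPolynomial J ℂ).comp (aeval r)) =
          AlgHom.id ℂ _ := by
        refine MvPolynomial.algHom_ext fun j => ?_
        rw [AlgHom.comp_apply, aeval_X, hrs, AlgHom.id_apply]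
      have h9 := DFunLike.congr_fun h8 F
      rw [AlgHom.comp_apply, AlgHom.id_apply, ← hF'] at h9
      exact h9.symm
    rw [h7, hG', map_sum]
    refine Finset.sum_congr rfl fun j _ => ?_
    have e1 : (aeval s) (C (x j)) = C (x j) := by
      rw [aeval_C, algebraMap_eq]
    rw [map_mul, map_sub, aeval_X, e1, hG, ← mul_assoc]
    congr 1
    rw [hs, hinv, hyj, sub_mul, C_add, C_mul, add_mul, C_mul]
    have e2 : C ((q j : Qa) : ℂ) * C (x j) * C (((q j : Qa) : ℂ)⁻¹) =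
        (C (x j) : MvPolynomial J ℂ) := by
      rw [← C_mul, ← C_mul]
      congr 1
      have := hqC j
      field_simp
    rw [e2, C_neg]
    ring
  refine ⟨G, ?_, hFG⟩
  have hle : E ≤ E ^ (2 * D + 2) := by
    have := MP60829e.ZL.pow_le_pow_of_one_mem hE (show 1 ≤ 2 * D + 2 by omega)
    rwa [pow_one] at this
  have hle2 : E ^ (2 * D + 1) ≤ E ^ (2 * D + 2) := MP60829e.ZL.pow_le_pow_of_one_mem hE (by omega)
  intro j α
  obtain ⟨e, he, b, hb, heb⟩ := Submodule.mem_sup.1 (hF α)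
  have hXG : ∀ i, (X i * G i).coeff α ∈ E ^ (2 * D + 2) := by
    intro i
    rw [coeff_X_mul']
    split_ifs
    · exact hle2 (hGc i _)
    · exact Submodule.zero_mem _
  have hhG : ∀ i, h i * (G i).coeff α ∈ E ^ (2 * D + 2) := by
    intro i
    have h8 := Submodule.mul_mem_mul (hhE i) (hGc i α)
    rwa [← pow_succ'] at h8
  have hFα : F.coeff α = ∑ i, (X i * G i).coeff α - ∑ i, y i * (G i).coeff α := by
    conv_lhs => rw [hFG]
    rw [coeff_sum, ← Finset.sum_sub_distrib]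
    refine Finset.sum_congr rfl fun i _ => ?_
    rw [sub_mul, coeff_sub, coeff_C_mul]
  have hsum : (∑ i, (X i * G i).coeff α - ∑ i, h i * (G i).coeff α - e) +
      ∑ i, (-(q i • (G i).coeff α)) * x i = b := by
    have e3 : ∑ i, y i * (G i).coeff α =
        ∑ i, h i * (G i).coeff α - ∑ i, (-(q i • (G i).coeff α)) * x i := by
      rw [← Finset.sum_sub_distrib]
      refine Finset.sum_congr rfl fun i _ => ?_
      have e4 : q i • (G i).coeff α = ((q i : Qa) : ℂ) * (G i).coeff α := rfl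
      rw [e4, hyj]
      ring
    rw [hFα, e3] at heb
    linear_combination (-1 : ℂ) * heb
  have m1 : ∑ i, (X i * G i).coeff α ∈ E ^ (2 * D + 2) := Submodule.sum_mem _ fun i _ => hXG i
  have m2 : ∑ i, h i * (G i).coeff α ∈ E ^ (2 * D + 2) := Submodule.sum_mem _ fun i _ => hhG i
  have m3 : ∀ i, -(q i • (G i).coeff α) ∈ E ^ (2 * D + 2) := fun i =>
    Submodule.neg_mem _ (Submodule.smul_mem _ (q i) (hle2 (hGc i α)))
  have h5 : -(q j • (G j).coeff α) ∈ A :=
    coeff_mem_of_LD (a0 := ∑ i, (X i * G i).coeff α - ∑ i, h i * (G i).coeff α - e)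
      (a := fun i => -(q i • (G i).coeff α)) hLD h1 (hA.trans hle) hx hxV
      (Submodule.sub_mem _ (Submodule.sub_mem _ m1 m2) (hle he)) m3 hb hsum j
  have h6 : (G j).coeff α = (-(q j)⁻¹) • (-(q j • (G j).coeff α)) := by
    rw [neg_smul, smul_neg, neg_neg, smul_smul, inv_mul_cancel₀ (hq j), one_smul]
  rw [h6]
  exact A.smul_mem _ h5

end MP60829e.ZV
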