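import Mathlib
import Pool.Agent.Lib.MP_60829e_nt.ZV.One
import Pool.Agent.Lib.MP_60829e_nt.ZV.Ar2

/-! # Theorem ZV: families of vectors with the count of bad points -/

open Finset Module MvPolynomial

namespace MP60829e.ZV

open MP60829e.ST (Qa Lt)

/-- `S B` is the set of the objects of norm at most `B`, `x i` the vector of logarithms of `i`. If each of
`M` properties holds for some element of each grid of rows, then all of them hold for almost all objects. -/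
structure Fam (J ι : Type) [Fintype J] where
  S : ℕ → Finset ι
  x : ι → J → ℂ
  A : ℕ
  card_le : ∀ B : ℕ, 1 ≤ B → (S B).card ≤ A * B
  mem : ∀ i j, x i j ∈ Lt
  count : ∀ r T : ℕ, 1 ≤ r → 1 ≤ T → ∃ C : ℕ, ∀ M B : ℕ, 2 ≤ M → M ≤ B →
    ∀ Pr : Fin M → (J → ℂ) → Prop,
    (∀ (e : Fin M) (u : J → ℂ) (R : Fin r → Set (J → ℂ)), (∀ j, u j ∈ Lt) → (∀ i, Row T (R i)) →
      ∃ y : Fin r → J → ℂ, (∀ i, y i ∈ R i) ∧ Pr e (u + ∑ i, y i)) →
    ({i : ι | i ∈ S B ∧ ∃ e, ¬ Pr e (x i)}.ncard : ℝ) ≤ rt C M B * B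

/-- The bad points. -/
def Bad {J : Type} [Fintype J] (E : Submodule Qa ℂ) (D : ℕ) (x : J → ℂ) : Prop :=
  ∃ y : J → ℂ, (∀ j, ∃ q : Qa, q ≠ 0 ∧ y j - q * x j ∈ E) ∧ ¬ GoodX E E D y

/-- Compare `ZK.count_fam`: same proof with `grid`, `good_all`. -/
theorem count_fam {J ι : Type} [Fintype J] (Φ : Fam J ι) (κ D : ℕ) : ∃ C : ℕ, ∀ M B : ℕ, 2 ≤ M →
    M ≤ B → ∀ E : Fin M → Submodule Qa ℂ, (∀ e, FiniteDimensional Qa (E e)) →
      (∀ e, finrank Qa (E e) ≤ κ) → (∀ e, (1 : ℂ) ∈ E e) →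
      ({i : ι | i ∈ Φ.S B ∧ ∃ e, Bad (E e) D (Φ.x i)}.ncard : ℝ) ≤ rt C M B * B := by
  classical
  obtain ⟨r, T, hrT⟩ := grid J (κ ^ (D + 1)) D ((κ ^ (2 * D + 2)) ^ 3 + 1)
  obtain ⟨C, hC⟩ := Φ.count (r + 1) (T + 1) (by omega) (by omega)
  refine ⟨C, fun M B hM hMB E hfd hκ h1E => ?_⟩
  have hV := fun e : Fin M => by
    have := hfd e
    exact MP60829e.ZL.exists_LD (E e ^ (2 * D + 2))
  choose V _ h1V hVfd hVr hLD using hV
  have hVν : ∀ e, finrank Qa (V e) ≤ (κ ^ (2 * D + 2)) ^ 3 + 1 := by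
    intro e
    have := hfd e
    refine (hVr e).trans (Nat.succ_le_succ (Nat.pow_le_pow_left ?_ 3))
    exact (MP60829e.ZL.finrank_pow_le (E e) _).trans (Nat.pow_le_pow_left (hκ e) _)
  have hEκ : ∀ e, finrank Qa (E e ^ (D + 1) : Submodule Qa ℂ) ≤ κ ^ (D + 1) := by
    intro e
    have := hfd e
    exact (MP60829e.ZL.finrank_pow_le (E e) _).trans (Nat.pow_le_pow_left (hκ e) _)
  have hgf := hC M B hM hMB (fun e x => Good (E e ^ (D + 1)) D x ∧ Ind (V e) x) (by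
    intro e u R hu hR
    have := hfd e
    obtain ⟨s, hs, hgood, hsV⟩ := hrT (E e ^ (D + 1)) (V e) inferInstance (hVfd e) (hEκ e) (hVν e)
      u hu (fun i => if h : i < r + 1 then R ⟨i, h⟩ else {0}) (by
        intro i hi
        have hi' : i < r + 1 := by omega
        rw [dif_pos hi']
        exact (hR ⟨i, hi'⟩).mono (by omega))
    refine ⟨fun i => if (i : ℕ) < r then s i else 0, ?_, ?_⟩
    · intro i
      dsimp only
      split_ifs with hi
      · have h3 := hs i hi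
        rw [dif_pos i.2] at h3
        exact h3
      · exact (hR i).1
    · have h4 : ∑ i : Fin (r + 1), (if (i : ℕ) < r then s i else 0) =
          ∑ i ∈ range r, s i := by
        rw [Fin.sum_univ_eq_sum_range (fun i => if i < r then s i else 0) (r + 1),
          Finset.sum_range_succ, if_neg (lt_irrefl r), add_zero]
        exact Finset.sum_congr rfl fun i hi => if_pos (Finset.mem_range.1 hi)
      rw [h4]
      exact ⟨hgood, hsV⟩)
  refine le_trans ?_ hgf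
  have hsub : {i : ι | i ∈ Φ.S B ∧ ∃ e, Bad (E e) D (Φ.x i)} ⊆
      {i : ι | i ∈ Φ.S B ∧ ∃ e, ¬ (Good (E e ^ (D + 1)) D (Φ.x i) ∧ Ind (V e) (Φ.x i))} := by
    rintro i ⟨hi, e, y, hy, hbad⟩
    refine ⟨hi, e, ?_⟩
    rintro ⟨hgood, hxV⟩
    exact hbad (good_all (h1E e) (Φ.mem i) hgood (hLD e) (h1V e) hxV y hy)
  have hfin : {i : ι | i ∈ Φ.S B ∧
      ∃ e, ¬ (Good (E e ^ (D + 1)) D (Φ.x i) ∧ Ind (V e) (Φ.x i))}.Finite :=
    (Φ.S B).finite_toSet.subset fun i hi => hi.1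
  have h := Set.ncard_le_ncard hsub hfin
  exact_mod_cast h

end MP60829e.ZV
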