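import Mathlib

/-! # Theorem ZV: polynomials in two blocks of variables -/

open Module MvPolynomial

namespace MP60829e.ZV

variable {I I' : Type}

/-- the exponent with the two parts `α`, `β` -/
noncomputable def jn (α : I →₀ ℕ) (β : I' →₀ ℕ) : I ⊕ I' →₀ ℕ :=
  Finsupp.sumFinsuppAddEquivProdFinsupp.symm (α, β)

/-- the two parts of an exponent -/
noncomputable def pl (γ : I ⊕ I' →₀ ℕ) : I →₀ ℕ := (Finsupp.sumFinsuppAddEquivProdFinsupp γ).1

/-- the two parts of an exponent -/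
noncomputable def pr (γ : I ⊕ I' →₀ ℕ) : I' →₀ ℕ := (Finsupp.sumFinsuppAddEquivProdFinsupp γ).2

theorem jn_pl_pr (γ : I ⊕ I' →₀ ℕ) : jn (pl γ) (pr γ) = γ := by
  unfold jn pl pr
  rw [Prod.mk.eta, AddEquiv.symm_apply_apply]

theorem pl_jn (α : I →₀ ℕ) (β : I' →₀ ℕ) : pl (jn α β) = α := by
  unfold pl jn
  rw [AddEquiv.apply_symm_apply]

theorem pr_jn (α : I →₀ ℕ) (β : I' →₀ ℕ) : pr (jn α β) = β := by
  unfold pr jn
  rw [AddEquiv.apply_symm_apply]

theorem degree_jn [Fintype I] [Fintype I'] (α : I →₀ ℕ) (β : I' →₀ ℕ) :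
    (jn α β).degree = α.degree + β.degree := by
  rw [Finsupp.degree_eq_sum, Finsupp.degree_eq_sum, Finsupp.degree_eq_sum, Fintype.sum_sum_type]
  rfl

theorem sa_mon (γ : I ⊕ I' →₀ ℕ) (c : ℂ) :
    sumAlgEquiv ℂ I I' (monomial γ c) = monomial (pl γ) (monomial (pr γ) c) := by
  unfold pl pr
  simp [sumAlgEquiv, monomial]

theorem coeff_sa (F : MvPolynomial (I ⊕ I') ℂ) (α : I →₀ ℕ) (β : I' →₀ ℕ) :
    coeff β (coeff α (sumAlgEquiv ℂ I I' F)) = coeff (jn α β) F := by
  classical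
  induction F using MvPolynomial.induction_on' with
  | monomial γ c =>
    rw [sa_mon, coeff_monomial, coeff_monomial]
    by_cases h : γ = jn α β
    · subst h
      rw [pl_jn, pr_jn, if_pos rfl, if_pos rfl, coeff_monomial, if_pos rfl]
    · rw [if_neg h]
      split_ifs with h1
      · rw [coeff_monomial, if_neg]
        intro h2
        apply h
        rw [← h1, ← h2, jn_pl_pr]
      · rw [coeff_zero]
  | add p q hp hq => rw [map_add, coeff_add, coeff_add, coeff_add, hp, hq]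

theorem coeff_sa_symm (P : MvPolynomial I (MvPolynomial I' ℂ)) (γ : I ⊕ I' →₀ ℕ) :
    coeff γ ((sumAlgEquiv ℂ I I').symm P) = coeff (pr γ) (coeff (pl γ) P) := by
  have h1 := coeff_sa ((sumAlgEquiv ℂ I I').symm P) (pl γ) (pr γ)
  rw [AlgEquiv.apply_symm_apply, jn_pl_pr] at h1
  exact h1.symm

theorem eval_sa (F : MvPolynomial (I ⊕ I') ℂ) (y : I → ℂ) (y' : I' → ℂ) :
    eval y (map (eval y') (sumAlgEquiv ℂ I I' F)) = eval (Sum.elim y y') F := by
  induction F using MvPolynomial.induction_on with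
  | C a => rw [sumAlgEquiv_C_inl, map_C, eval_C, eval_C, eval_C]
  | add p q hp hq => rw [map_add, map_add, map_add, map_add, hp, hq]
  | mul_X p s hp =>
    rw [map_mul, map_mul, map_mul, map_mul, hp, eval_X]
    congr 1
    rcases s with s | s
    · rw [sumAlgEquiv_X_inl, map_X, eval_X, Sum.elim_inl]
    · rw [sumAlgEquiv_X_inr, map_C, eval_C, eval_X, Sum.elim_inr]

section Deg

variable [Fintype I] [Fintype I']

theorem td_iff {σ R : Type} [Fintype σ] [CommSemiring R] {p : MvPolynomial σ R} {D : ℕ} :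
    p.totalDegree ≤ D ↔ ∀ m, coeff m p ≠ 0 → m.degree ≤ D := by
  unfold totalDegree
  rw [Finset.sup_le_iff]
  constructor
  · intro h m hm
    have h1 := h m (MvPolynomial.mem_support_iff.2 hm)
    rwa [Finsupp.sum_fintype _ _ (fun _ => rfl), ← Finsupp.degree_eq_sum] at h1
  · intro h m hm
    rw [Finsupp.sum_fintype _ _ (fun _ => rfl), ← Finsupp.degree_eq_sum]
    exact h m (MvPolynomial.mem_support_iff.1 hm)

/-- The coefficients have degree at most `D`. -/
theorem td_coeff_sa {F : MvPolynomial (I ⊕ I') ℂ} {D : ℕ} (hF : F.totalDegree ≤ D)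
    (α : I →₀ ℕ) : (coeff α (sumAlgEquiv ℂ I I' F)).totalDegree ≤ D := by
  rw [td_iff] at hF ⊢
  intro β hβ
  rw [coeff_sa] at hβ
  have h1 := hF _ hβ
  rw [degree_jn] at h1
  omega

/-- The degree in the first variables is at most `D`. -/
theorem td_sa {F : MvPolynomial (I ⊕ I') ℂ} {D : ℕ} (hF : F.totalDegree ≤ D) :
    (sumAlgEquiv ℂ I I' F).totalDegree ≤ D := by
  rw [td_iff] at hF ⊢
  intro α hα
  obtain ⟨β, hβ⟩ := MvPolynomial.ne_zero_iff.1 hα
  rw [coeff_sa] at hβ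
  have h1 := hF _ hβ
  rw [degree_jn] at h1
  omega

theorem td_sa_symm {P : MvPolynomial I (MvPolynomial I' ℂ)} {D D' : ℕ} (hP : P.totalDegree ≤ D)
    (hP' : ∀ α, (coeff α P).totalDegree ≤ D') :
    ((sumAlgEquiv ℂ I I').symm P).totalDegree ≤ D + D' := by
  rw [td_iff] at hP ⊢
  intro γ hγ
  rw [coeff_sa_symm] at hγ
  have h1 : coeff (pl γ) P ≠ 0 := by
    intro h
    rw [h, coeff_zero] at hγ
    exact hγ rfl
  have h2 := hP _ h1
  have h3 := td_iff.1 (hP' (pl γ)) _ hγ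
  rw [← jn_pl_pr γ, degree_jn]
  omega

end Deg

end MP60829e.ZV
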