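import Mathlib
import Pool.Agent.Lib.MP_60829e_nt.ZV.One
import Pool.Agent.Lib.MP_60829e_nt.ZV.SumP

/-! # Theorem ZV: from one block of variables to several (compare ZL/Tup.lean) -/

open Module Finset MvPolynomial

namespace MP60829e.ZV

open MP60829e.ST (Qa Lt)

/-- the span of `1` and the `x i` -/
noncomputable def Sx {I : Type} (x : I → ℂ) : Submodule Qa ℂ := Submodule.span Qa ({1} ∪ Set.range x)

/-- `GoodX` is invariant under a change of the names of the variables. PROOF: `rename`. -/
theorem GoodX.reindex {I I' : Type} [Fintype I] [Fintype I'] (e : I' ≃ I) {E1 E : Submodule Qa ℂ}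
    {D : ℕ} {y : I → ℂ} (h : GoodX E1 E D fun i => y (e i)) : GoodX E1 E D y := by
  intro A hA F hFd hFc h0
  obtain ⟨G, hGc, hG⟩ := h A hA (rename e.symm F)
    ((totalDegree_rename_le _ _).trans hFd) (fun α => by
      have h1 := coeff_rename_mapDomain (e.symm : I → I') e.symm.injective F
        (Finsupp.mapDomain e α)
      rw [← Finsupp.mapDomain_comp, Equiv.symm_comp_self, Finsupp.mapDomain_id] at h1
      rw [h1]
      exact hFc _) (by
      rw [eval_rename]
      rw [← h0]
      congr 1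
      congr 1
      funext i
      show y (e (e.symm i)) = y i
      rw [Equiv.apply_symm_apply])
  refine ⟨fun i => rename e (G (e.symm i)), fun i α => ?_, ?_⟩
  · have h1 := coeff_rename_mapDomain (e : I' → I) e.injective (G (e.symm i))
        (Finsupp.mapDomain e.symm α)
    rw [← Finsupp.mapDomain_comp, Equiv.self_comp_symm, Finsupp.mapDomain_id] at h1
    rw [h1]
    exact hGc _ _
  · have h1 := congrArg (rename e) hG
    rw [rename_rename, Equiv.self_comp_symm, rename_id, AlgHom.id_apply] at h1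
    rw [h1, map_sum, ← e.sum_comp]
    refine Finset.sum_congr rfl fun i _ => ?_
    rw [map_mul, map_sub, rename_X, rename_C]
    show _ = (X (e i) - C (y (e i))) * rename e (G (e.symm (e i)))
    rw [Equiv.symm_apply_apply]

section Sp

variable {I : Type} [Fintype I]

omit [Fintype I] in
theorem one_mem_Sx (x : I → ℂ) : (1 : ℂ) ∈ Sx x := Submodule.subset_span (Or.inl rfl)

omit [Fintype I] in
theorem mem_Sx (x : I → ℂ) (i : I) : x i ∈ Sx x := Submodule.subset_span (Or.inr ⟨i, rfl⟩)

omit [Fintype I] in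
theorem Sx_pow_mono (x : I → ℂ) {m m' : ℕ} (h : m ≤ m') : Sx x ^ m ≤ Sx x ^ m' := by
  obtain ⟨k, rfl⟩ := Nat.exists_eq_add_of_le h
  clear h
  induction k with
  | zero => rw [add_zero]
  | succ k ih =>
    refine ih.trans ?_
    rw [← add_assoc, pow_succ (Sx x) (m + k)]
    intro a ha
    rw [← mul_one a]
    exact Submodule.mul_mem_mul ha (one_mem_Sx x)

omit [Fintype I] in
theorem monx_mem (x : I → ℂ) (a : I → ℕ) (s : Finset I) :
    ∏ i ∈ s, x i ^ a i ∈ Sx x ^ (∑ i ∈ s, a i) := by
  classical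
  induction s using Finset.induction_on with
  | empty =>
    rw [Finset.prod_empty, Finset.sum_empty, pow_zero]
    exact Submodule.one_le.1 le_rfl
  | insert i s hi ih =>
    rw [Finset.prod_insert hi, Finset.sum_insert hi, pow_add]
    exact Submodule.mul_mem_mul (Submodule.pow_mem_pow _ (mem_Sx x i) _) ih

omit [Fintype I] in
/-- The value at `x` of a polynomial with coefficients in `S`. -/
theorem eval_mem {D : ℕ} (x : I → ℂ) (S : Submodule Qa ℂ) (F : MvPolynomial I ℂ)
    (hF : ∀ a, coeff a F ∈ S) (hD : F.totalDegree ≤ D) : eval x F ∈ S * Sx x ^ D := by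
  classical
  rw [eval_eq]
  refine Submodule.sum_mem _ fun a ha => Submodule.mul_mem_mul (hF a) ?_
  refine Sx_pow_mono x ?_ (monx_mem x a a.support)
  exact (le_totalDegree ha).trans hD

/-- the values at `x` of the polynomials of degree at most `D` with coefficients in `A` -/
def Val (A : Submodule Qa ℂ) (x : I → ℂ) (D : ℕ) : Submodule Qa ℂ where
  carrier := {z | ∃ g : MvPolynomial I ℂ, (∀ a, coeff a g ∈ A) ∧ g.totalDegree ≤ D ∧
    eval x g = z}
  zero_mem' := ⟨0, fun a => by rw [coeff_zero]; exact Submodule.zero_mem _,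
    by rw [totalDegree_zero]; exact Nat.zero_le _, map_zero _⟩
  add_mem' := by
    rintro _ _ ⟨g, h1, h2, rfl⟩ ⟨g', h1', h2', rfl⟩
    exact ⟨g + g', fun a => by rw [coeff_add]; exact Submodule.add_mem _ (h1 a) (h1' a),
      (totalDegree_add _ _).trans (max_le h2 h2'), map_add _ _ _⟩
  smul_mem' := by
    rintro c _ ⟨g, h1, h2, rfl⟩
    refine ⟨C (c : ℂ) * g, fun a => ?_, ?_, ?_⟩
    · rw [coeff_C_mul]
      exact Submodule.smul_mem _ c (h1 a)
    · refine (totalDegree_mul _ _).trans ?_
      rw [totalDegree_C, zero_add]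
      exact h2
    · rw [map_mul, eval_C]
      rfl

omit [Fintype I] in
theorem mul_le_Val (A : Submodule Qa ℂ) (x : I → ℂ) (D : ℕ) :
    A * Sx x ^ D ≤ Val A x D := by
  classical
  induction D with
  | zero =>
    rw [pow_zero, mul_one]
    intro a ha
    refine ⟨C a, fun b => ?_, ?_, eval_C _⟩
    · rw [coeff_C]
      split_ifs
      · exact ha
      · exact Submodule.zero_mem _
    · rw [totalDegree_C]
  | succ D ih =>
    rw [pow_succ, ← mul_assoc]
    refine (mul_le_mul' ih le_rfl).trans ?_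
    rw [Submodule.mul_le]
    rintro z ⟨g, h1, h2, rfl⟩ s hs
    have h3 : Sx x ≤ (Val A x (D + 1)).comap (LinearMap.mulLeft Qa (eval x g)) := by
      unfold Sx
      rw [Submodule.span_le]
      rintro s (hs | ⟨i, rfl⟩)
      · rw [Set.mem_singleton_iff] at hs
        subst hs
        show eval x g * 1 ∈ Val A x (D + 1)
        rw [mul_one]
        exact ⟨g, h1, h2.trans (Nat.le_succ D), rfl⟩
      · show eval x g * x i ∈ Val A x (D + 1)
        refine ⟨g * X i, fun a => ?_, ?_, ?_⟩
        · rw [coeff_mul_X']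
          split_ifs
          · exact h1 _
          · exact Submodule.zero_mem _
        · refine (totalDegree_mul _ _).trans ?_
          rw [totalDegree_X]
          exact Nat.succ_le_succ h2
        · rw [map_mul, eval_X]
    exact h3 hs

end Sp

/-- **Two blocks of variables.** PROOF as for `ZL.many` (`succ` step), with `sumAlgEquiv` instead of
`finSuccEquiv`. Let `F` be given, `f : MvPolynomial J (MvPolynomial I ℂ)` its image, `F1 = f.map (eval y')`,
with coefficients in `E1 * Sx y' ^ D ⊔ (A * Sx y' ^ D) * Lt`; by `h0`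
`F1 = ∑ j, (X j - y0 j) * G1 j` with coefficients of `G1 j` in `A * Sx y' ^ D`; lift the coefficients of `G1 j`
to polynomials over `A` of degree `≤ D` in the variables `I` (`0` for `0`); the coefficients of
`R = f - ∑ j, (X j - C (C (y0 j))) * Gt j` are polynomials over `E1 ⊔ A * Lt` (`hy0`) of degree `≤ D` which
vanish at `y'`; apply `h1` to each of them. -/
theorem block {J I : Type} [Fintype J] [Fintype I] {D : ℕ} (E1 E : Submodule Qa ℂ) (hE : E ≤ E1)
    (y0 : J → ℂ) (y' : I → ℂ)
    (hy0 : ∀ j, ∀ a ∈ E, y0 j * a ∈ E1 ⊔ Submodule.span Qa {a} * Lt)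
    (h0 : GoodX (E1 * Sx y' ^ D) (E1 * Sx y' ^ D) D y0) (h1 : GoodX E1 E D y') :
    GoodX E1 E D (Sum.elim y0 y') := by
  classical
  intro A hA F hFd hFc hF0
  obtain ⟨f, hf⟩ : ∃ f, f = sumAlgEquiv ℂ J I F := ⟨_, rfl⟩
  have hfc : ∀ α a, coeff a (coeff α f) ∈ E1 ⊔ A * Lt := by
    intro α a
    rw [hf, coeff_sa]
    exact hFc _
  have hfd : ∀ α, (coeff α f).totalDegree ≤ D := by
    intro α
    rw [hf]
    exact td_coeff_sa hFd α
  -- the polynomial in the first block
  obtain ⟨F1, hF1⟩ : ∃ F1, F1 = map (eval y') f := ⟨_, rfl⟩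
  have hF1c : ∀ α, coeff α F1 ∈ E1 * Sx y' ^ D ⊔ A * Sx y' ^ D * Lt := by
    intro α
    rw [hF1, coeff_map]
    have h2 := eval_mem y' (E1 ⊔ A * Lt) (coeff α f) (hfc α) (hfd α)
    rw [Submodule.sup_mul] at h2
    rwa [mul_right_comm] at h2
  have hF1d : F1.totalDegree ≤ D := by
    rw [hF1, td_iff]
    intro α hα
    rw [coeff_map] at hα
    refine td_iff.1 (td_sa hFd) α fun h => hα ?_
    rw [hf, h, map_zero]
  have hF10 : eval y0 F1 = 0 := by
    rw [hF1, hf, eval_sa]
    exact hF0
  obtain ⟨G1, hG1c, hG1⟩ := h0 (A * Sx y' ^ D) (mul_le_mul' (hA.trans hE) le_rfl) F1 hF1d hF1c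
    hF10
  -- the lift
  have hlift : ∀ j α, ∃ g : MvPolynomial I ℂ, (∀ a, coeff a g ∈ A) ∧ g.totalDegree ≤ D ∧
      eval y' g = coeff α (G1 j) ∧ (coeff α (G1 j) = 0 → g = 0) := by
    intro j α
    by_cases h : coeff α (G1 j) = 0
    · refine ⟨0, fun a => ?_, ?_, ?_, fun _ => rfl⟩
      · rw [coeff_zero]
        exact Submodule.zero_mem _
      · rw [totalDegree_zero]
        exact Nat.zero_le _
      · rw [h, map_zero]
    · obtain ⟨g, h2, h3, h4⟩ := mul_le_Val A y' D (hG1c j α)
      exact ⟨g, h2, h3, h4, fun h5 => absurd h5 h⟩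
  choose g hgc hgd hge hgz using hlift
  obtain ⟨Gt, hGt⟩ : ∃ Gt : J → MvPolynomial J (MvPolynomial I ℂ),
      ∀ j α, coeff α (Gt j) = g j α := by
    refine ⟨fun j => ∑ α ∈ (G1 j).support, monomial α (g j α), fun j α => ?_⟩
    rw [coeff_sum]
    by_cases hα : α ∈ (G1 j).support
    · rw [Finset.sum_eq_single α]
      · rw [coeff_monomial, if_pos rfl]
      · intro b _ hb
        rw [coeff_monomial, if_neg hb]
      · intro h
        exact absurd hα h
    · rw [hgz j α (notMem_support_iff.1 hα)]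
      refine Finset.sum_eq_zero fun b hb => ?_
      rw [coeff_monomial, if_neg]
      intro h
      exact hα (h ▸ hb)
  -- the rest
  obtain ⟨R, hR⟩ : ∃ R, R = f - ∑ j, (X j - C (C (y0 j))) * Gt j := ⟨_, rfl⟩
  have hR0 : ∀ α, eval y' (coeff α R) = 0 := by
    intro α
    have h2 : map (eval y') R = 0 := by
      rw [hR, map_sub, ← hF1, hG1, map_sum, sub_eq_zero]
      refine Finset.sum_congr rfl fun j _ => ?_
      rw [map_mul, map_sub, map_X, map_C, eval_C]
      congr 1
      ext α
      rw [coeff_map, hGt, hge]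
    have h3 : coeff α (map (eval y') R) = 0 := by rw [h2, coeff_zero]
    rwa [coeff_map] at h3
  have hAE : A ≤ E1 ⊔ A * Lt := (hA.trans hE).trans le_sup_left
  have hyA : ∀ j, ∀ a ∈ A, y0 j * a ∈ E1 ⊔ A * Lt := by
    intro j a ha
    have h2 := hy0 j a (hA ha)
    have h3 : Submodule.span Qa {a} ≤ A := by
      rw [Submodule.span_le, Set.singleton_subset_iff]
      exact ha
    have h4 : E1 ⊔ Submodule.span Qa {a} * Lt ≤ E1 ⊔ A * Lt :=
      sup_le_sup le_rfl (mul_le_mul' h3 le_rfl)
    exact h4 h2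
  have hterm : ∀ j α, (∀ a, coeff a (coeff α ((X j - C (C (y0 j))) * Gt j)) ∈ E1 ⊔ A * Lt) ∧
      (coeff α ((X j - C (C (y0 j))) * Gt j)).totalDegree ≤ D := by
    intro j α
    have e : coeff α ((X j - C (C (y0 j))) * Gt j) =
        (if j ∈ α.support then g j (α - Finsupp.single j 1) else 0) - C (y0 j) * g j α := by
      rw [sub_mul, coeff_sub, coeff_X_mul', coeff_C_mul, hGt, hGt]
    rw [e]
    constructor
    · intro a
      rw [coeff_sub, coeff_C_mul]
      refine Submodule.sub_mem _ ?_ (hyA j _ (hgc j α a))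
      split_ifs
      · exact hAE (hgc _ _ _)
      · rw [coeff_zero]
        exact Submodule.zero_mem _
    · refine (totalDegree_sub _ _).trans (max_le ?_ ?_)
      · split_ifs
        · exact hgd _ _
        · rw [totalDegree_zero]
          exact Nat.zero_le _
      · refine (totalDegree_mul _ _).trans ?_
        rw [totalDegree_C, zero_add]
        exact hgd _ _
  have hRc : ∀ α a, coeff a (coeff α R) ∈ E1 ⊔ A * Lt := by
    intro α a
    rw [hR, coeff_sub, coeff_sub, coeff_sum, coeff_sum]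
    exact Submodule.sub_mem _ (hfc α a) (Submodule.sum_mem _ fun j _ => (hterm j α).1 a)
  have hRd : ∀ α, (coeff α R).totalDegree ≤ D := by
    intro α
    rw [hR, coeff_sub, coeff_sum]
    exact (totalDegree_sub _ _).trans (max_le (hfd α)
      (totalDegree_finsetSum_le fun j _ => (hterm j α).2))
  have hrec : ∀ α, ∃ H : I → MvPolynomial I ℂ, (∀ i a, coeff a (H i) ∈ A) ∧
      coeff α R = ∑ i, (X i - C (y' i)) * H i := fun α => h1 A hA _ (hRd α) (hRc α) (hR0 α)
  choose H hHc hH using hrec
  obtain ⟨Gi, hGi⟩ : ∃ Gi : I → MvPolynomial J (MvPolynomial I ℂ),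
      Gi = fun i => ∑ α ∈ R.support, monomial α (H α i) := ⟨_, rfl⟩
  have hGic : ∀ i α a, coeff a (coeff α (Gi i)) ∈ A := by
    intro i α a
    rw [hGi]
    dsimp only
    rw [coeff_sum, coeff_sum]
    refine Submodule.sum_mem _ fun b _ => ?_
    rw [coeff_monomial]
    split_ifs
    · exact hHc _ _ _
    · rw [coeff_zero]
      exact Submodule.zero_mem _
  have hRsum : R = ∑ i, C (X i - C (y' i)) * Gi i := by
    conv_lhs => rw [R.as_sum]
    rw [hGi]
    simp only [Finset.mul_sum]
    rw [Finset.sum_comm]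
    refine Finset.sum_congr rfl fun α _ => ?_
    rw [hH α, map_sum]
    refine Finset.sum_congr rfl fun i _ => ?_
    rw [C_mul_monomial]
  refine ⟨Sum.elim (fun j => (sumAlgEquiv ℂ J I).symm (Gt j))
    fun i => (sumAlgEquiv ℂ J I).symm (Gi i), ?_, ?_⟩
  · rintro (j | i) a
    · rw [Sum.elim_inl, coeff_sa_symm, hGt]
      exact hgc _ _ _
    · rw [Sum.elim_inr, coeff_sa_symm]
      exact hGic _ _ _
  · apply (sumAlgEquiv ℂ J I).injective
    rw [map_sum, Fintype.sum_sum_type, ← hf]
    simp only [Sum.elim_inl, Sum.elim_inr, map_mul, map_sub, sumAlgEquiv_X_inl,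
      sumAlgEquiv_X_inr, sumAlgEquiv_C_inl, AlgEquiv.apply_symm_apply]
    simp only [map_sub] at hRsum
    rw [← hRsum, hR]
    ring

/-- each vector has the two-space property relative to the following ones -/
def GoodT {J : Type} [Fintype J] (E : Submodule Qa ℂ) (D : ℕ) : (n : ℕ) → (Fin n → J → ℂ) → Prop
  | 0, _ => True
  | n + 1, x =>
    GoodX (E * Sx (fun p : Fin n × J => Fin.tail x p.1 p.2) ^ D)
      (E * Sx (fun p : Fin n × J => Fin.tail x p.1 p.2) ^ D) D (x 0) ∧ GoodT E D n (Fin.tail x)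

/-- the variables of the first block and the other variables -/
def eqB (J : Type) (n : ℕ) : J ⊕ (Fin n × J) ≃ Fin (n + 1) × J where
  toFun := Sum.elim (fun j => (0, j)) fun p => (p.1.succ, p.2)
  invFun := fun p => Fin.cases (Sum.inl p.2) (fun i => Sum.inr (i, p.2)) p.1
  left_inv := by
    rintro (j | ⟨i, j⟩)
    · rfl
    · rfl
  right_inv := by
    rintro ⟨i, j⟩
    refine Fin.cases ?_ (fun i => ?_) i
    · rfl
    · rfl

/-- **From one block to several blocks.** PROOF: induction on `n`, `block`, `GoodX.reindex` with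
`Fin (n + 1) × J ≃ J ⊕ (Fin n × J)`. -/
theorem many {J : Type} [Fintype J] {D : ℕ} (E1 E : Submodule Qa ℂ) (hE : E ≤ E1) :
    ∀ {n : ℕ} (y : Fin n → J → ℂ),
    (∀ i j, ∀ a ∈ E, y i j * a ∈ E1 ⊔ Submodule.span Qa {a} * Lt) → GoodT E1 D n y →
    GoodX E1 E D (fun p : Fin n × J => y p.1 p.2) := by
  intro n
  induction n with
  | zero =>
    intro y _ _ A _ F _ _ h0
    refine ⟨fun p => p.1.elim0, fun p => p.1.elim0, ?_⟩
    rw [Finset.univ_eq_empty, Finset.sum_empty, eq_C_of_isEmpty F]
    rw [eq_C_of_isEmpty F, eval_C] at h0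
    rw [h0, C_0]
  | succ n ih =>
    intro y hy hg
    obtain ⟨hg0, hgT⟩ := hg
    refine GoodX.reindex (eqB J n) ?_
    have h1 := block E1 E hE (y 0) (fun p : Fin n × J => Fin.tail y p.1 p.2) (hy 0) hg0
      (ih (Fin.tail y) (fun i j a ha => hy i.succ j a ha) hgT)
    have h2 : (fun i => y ((eqB J n) i).1 ((eqB J n) i).2) =
        Sum.elim (y 0) (fun p : Fin n × J => Fin.tail y p.1 p.2) := by
      funext s
      rcases s with j | ⟨i, j⟩
      · rfl
      · rfl
    rw [h2]
    exact h1

end MP60829e.ZV
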