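import Mathlib
import Pool.Agent.Lib.MP_60829e_nt.ZV.FamV
import Pool.Agent.Lib.MP_60829e_nt.ZV.Tup

/-! # Theorem ZV: tuples of points of a family (compare ZK/ManyF.lean) -/

open Finset Module MvPolynomial

namespace MP60829e.ZV

open MP60829e.ST (Qa Lt)
open MP60829e.ZL (finrank_mul_le finrank_pow_le)

/-- The property `GoodX` is inherited by smaller spaces. -/
theorem GoodX.mono {I : Type} [Fintype I] {E1 E E1' E' : Submodule Qa ℂ} {D : ℕ} {y : I → ℂ}
    (h : GoodX E1 E D y) (h1 : E1' ≤ E1) (h2 : E' ≤ E) : GoodX E1' E' D y :=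
  fun A hA F hFd hFc h0 => h A (hA.trans h2) F hFd
    (fun α => (sup_le_sup h1 le_rfl : _ ≤ E1 ⊔ A * Lt) (hFc α)) h0

/-- All the coordinates of some vectors. -/
private def fl {n : ℕ} {J : Type} (x : Fin n → J → ℂ) : Fin n × J → ℂ := fun p => x p.1 p.2

/-- The space for the first vector, when the others are fixed. -/
private noncomputable def EbK {n : ℕ} {J : Type} (E1 E : Submodule Qa ℂ) (D : ℕ)
    (x : Fin n → J → ℂ) : Submodule Qa ℂ :=
  E1 * (E ⊔ Submodule.span Qa (Set.range (fl x))) ^ D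

private theorem finrank_EbK {n : ℕ} {J : Type} [Fintype J] (E1 E : Submodule Qa ℂ)
    [FiniteDimensional Qa E1] [FiniteDimensional Qa E] (D : ℕ) (x : Fin n → J → ℂ) :
    FiniteDimensional Qa (EbK E1 E D x) ∧
      finrank Qa (EbK E1 E D x) ≤ finrank Qa E1 * (finrank Qa E + n * Fintype.card J) ^ D := by
  have h1 : FiniteDimensional Qa (Submodule.span Qa (Set.range (fl x))) :=
    FiniteDimensional.span_of_finite Qa (Set.finite_range _)
  have h2 : finrank Qa (Submodule.span Qa (Set.range (fl x))) ≤ n * Fintype.card J := by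
    refine (finrank_range_le_card _).trans ?_
    rw [Fintype.card_prod, Fintype.card_fin]
  obtain ⟨S, hS⟩ : ∃ S, S = E ⊔ Submodule.span Qa (Set.range (fl x)) := ⟨_, rfl⟩
  have h3 : FiniteDimensional Qa S := by
    rw [hS]
    infer_instance
  have h4 : finrank Qa S ≤ finrank Qa E + n * Fintype.card J := by
    rw [hS]
    exact (Submodule.finrank_add_le_finrank_add_finrank _ _).trans (by omega)
  have h5 : FiniteDimensional Qa ↥(S ^ D) :=
    Module.Finite.iff_fg.2 ((Module.Finite.iff_fg.1 h3).pow D)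
  unfold EbK
  rw [← hS]
  refine ⟨Module.Finite.iff_fg.2 ((Module.Finite.iff_fg.1 inferInstance).mul
    (Module.Finite.iff_fg.1 h5)), ?_⟩
  refine (finrank_mul_le _ _).trans (Nat.mul_le_mul_left _ ?_)
  exact (finrank_pow_le S D).trans (Nat.pow_le_pow_left h4 D)

/-- each vector is good relative to the following ones -/
private def GoodK {J : Type} [Fintype J] (E1 E : Submodule Qa ℂ) (D : ℕ) :
    (n : ℕ) → (Fin n → J → ℂ) → Prop
  | 0, _ => True
  | n + 1, x => ¬ Bad (EbK E1 E D (Fin.tail x)) D (x 0) ∧ GoodK E1 E D n (Fin.tail x)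

private theorem goodT_of_goodK {J : Type} [Fintype J] {E1 E : Submodule Qa ℂ} {D : ℕ}
    (h1 : (1 : ℂ) ∈ E) (hE : E ≤ E1) : ∀ {n : ℕ} (x y : Fin n → J → ℂ),
      (∀ i j, ∃ q : Qa, q ≠ 0 ∧ y i j - q * x i j ∈ E) → GoodK E1 E D n x →
        GoodT E1 D n y := by
  intro n
  induction n with
  | zero => intro x y _ _; trivial
  | succ n ih =>
    rintro x y hy ⟨hb0, hbt⟩
    refine ⟨?_, ih (Fin.tail x) (Fin.tail y) (fun i => hy i.succ) hbt⟩
    obtain ⟨S, hS⟩ : ∃ S, S = E ⊔ Submodule.span Qa (Set.range (fl (Fin.tail x))) := ⟨_, rfl⟩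
    have hSx : Sx (fun p : Fin n × J => Fin.tail y p.1 p.2) ≤ S := by
      unfold Sx
      rw [Submodule.span_le]
      rintro z (hz | ⟨⟨i, j⟩, rfl⟩)
      · rw [Set.mem_singleton_iff] at hz
        subst hz
        rw [hS]
        exact Submodule.mem_sup_left h1
      · obtain ⟨q, -, hq⟩ := hy i.succ j
        have h2 : Fin.tail y i j = (Fin.tail y i j - q * x i.succ j) + q * x i.succ j := by ring
        show Fin.tail y i j ∈ S
        rw [h2, hS]
        refine Submodule.add_mem _ (Submodule.mem_sup_left hq) (Submodule.mem_sup_right ?_)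
        exact Submodule.smul_mem _ q (Submodule.subset_span ⟨(i, j), rfl⟩)
    have hle : E1 * Sx (fun p : Fin n × J => Fin.tail y p.1 p.2) ^ D ≤
        EbK E1 E D (Fin.tail x) := by
      unfold EbK
      rw [← hS]
      exact mul_le_mul' le_rfl (pow_le_pow_left' hSx D)
    have h1S : (1 : ℂ) ∈ S ^ D := by
      have h3 : (1 : Submodule Qa ℂ) ≤ S := by
        rw [Submodule.one_le, hS]
        exact Submodule.mem_sup_left h1
      exact Submodule.one_le.1 (one_le_pow_of_one_le' h3 D)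
    have hEEb : E ≤ EbK E1 E D (Fin.tail x) := by
      unfold EbK
      rw [← hS]
      intro a ha
      rw [← mul_one a]
      exact Submodule.mul_mem_mul (hE ha) h1S
    have hgood : GoodX (EbK E1 E D (Fin.tail x)) (EbK E1 E D (Fin.tail x)) D (y 0) := by
      by_contra hcon
      refine hb0 ⟨y 0, fun j => ?_, hcon⟩
      obtain ⟨q, hq0, hq⟩ := hy 0 j
      exact ⟨q, hq0, hEEb hq⟩
    exact hgood.mono hle hle

/-- A good tuple is not bad. -/
private theorem goodX_of_goodK {J : Type} [Fintype J] {E : Submodule Qa ℂ} {n D : ℕ}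
    (h1 : (1 : ℂ) ∈ E) (x y : Fin n → J → ℂ) (hx : ∀ i j, x i j ∈ Lt)
    (hb : GoodK (E * E) E D n x) (hy : ∀ i j, ∃ q : Qa, q ≠ 0 ∧ y i j - q * x i j ∈ E) :
    GoodX E E D (fun p : Fin n × J => y p.1 p.2) := by
  have hEE : E ≤ E * E := by
    intro a ha
    rw [← mul_one a]
    exact Submodule.mul_mem_mul ha h1
  refine GoodX.mono (many (E * E) E hEE y (fun i j a ha => ?_)
    (goodT_of_goodK h1 hEE x y hy hb)) hEE le_rfl
  obtain ⟨q, -, hq⟩ := hy i j
  have h2 : y i j * a = (y i j - q * x i j) * a + a * (q * x i j) := by ring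
  rw [h2]
  refine Submodule.add_mem _ (Submodule.mem_sup_left (Submodule.mul_mem_mul hq ha))
    (Submodule.mem_sup_right (Submodule.mul_mem_mul (Submodule.mem_span_singleton_self a) ?_))
  exact Submodule.smul_mem _ q (hx i j)

section
variable {J ι : Type} [Fintype J] (Φ : Fam J ι)

/-- the tuples which are not good for one of the spaces -/
private def BadK {M : ℕ} (E : Fin M → Submodule Qa ℂ) (D B n : ℕ) : Set (Fin n → ι) :=
  {b | (∀ i, b i ∈ Φ.S B) ∧ ∃ e, ¬ GoodK (E e * E e) (E e) D n fun i => Φ.x (b i)}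

private theorem badK_finite {M : ℕ} (E : Fin M → Submodule Qa ℂ) (D B n : ℕ) :
    (BadK Φ E D B n).Finite := by
  classical
  refine (Finset.finite_toSet (Fintype.piFinset (fun _ : Fin n => Φ.S B))).subset ?_
  intro b hb
  rw [mem_coe, Fintype.mem_piFinset]
  exact hb.1

private theorem cardK_step {M : ℕ} (E : Fin M → Submodule Qa ℂ) (D B n : ℕ) (hB : 1 ≤ B) (c : ℝ)
    (hc0 : 0 ≤ c) (hc : ∀ x : Fin n → J → ℂ,
      ({i : ι | i ∈ Φ.S B ∧ ∃ e, Bad (EbK (E e * E e) (E e) D x) D (Φ.x i)}.ncard : ℝ) ≤ c) :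
    ((BadK Φ E D B (n + 1)).ncard : ℝ) ≤
      (Φ.A * B) * (BadK Φ E D B n).ncard + (Φ.A * B) ^ n * c := by
  classical
  have hcard : ((Φ.S B).card : ℝ) ≤ Φ.A * B := by exact_mod_cast Φ.card_le B hB
  obtain ⟨cube, hcube⟩ : ∃ cube : Finset (Fin (n + 1) → ι),
    cube = Fintype.piFinset (fun _ => Φ.S B) := ⟨_, rfl⟩
  obtain ⟨S1, hS1⟩ : ∃ S1 : Finset (Fin (n + 1) → ι),
    S1 = cube.filter (fun b => (Fin.tail b : Fin n → ι) ∈ BadK Φ E D B n) := ⟨_, rfl⟩
  obtain ⟨S2, hS2⟩ : ∃ S2 : Finset (Fin (n + 1) → ι),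
    S2 = cube.filter (fun b => ∃ e, Bad (EbK (E e * E e) (E e) D
      (fun i : Fin n => Φ.x (b i.succ))) D (Φ.x (b 0))) := ⟨_, rfl⟩
  have hsub : BadK Φ E D B (n + 1) ⊆ ((S1 ∪ S2 : Finset (Fin (n + 1) → ι)) : Set _) := by
    intro b hb
    have hbc : b ∈ cube := by
      rw [hcube, Fintype.mem_piFinset]
      exact hb.1
    rw [mem_coe, mem_union, hS1, hS2, mem_filter, mem_filter]
    by_contra hcon
    push Not at hcon
    have h1 := hcon.1 hbc
    have h2 := hcon.2 hbc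
    obtain ⟨hbS, e, he⟩ := hb
    refine he ⟨h2 e, ?_⟩
    by_contra h3
    exact h1 ⟨fun i => hbS i.succ, e, h3⟩
  have hcard' : ((BadK Φ E D B (n + 1)).ncard : ℝ) ≤ (S1.card : ℝ) + S2.card := by
    have h1 : (BadK Φ E D B (n + 1)).ncard ≤ (S1 ∪ S2).card := by
      rw [← Set.ncard_coe_finset]
      exact Set.ncard_le_ncard hsub (Finset.finite_toSet _)
    exact_mod_cast h1.trans (card_union_le _ _)
  have h1 : (S1.card : ℝ) ≤ (Φ.A * B) * (BadK Φ E D B n).ncard := by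
    have hfin := badK_finite Φ E D B n
    have h2 : S1.card ≤ (Φ.S B ×ˢ hfin.toFinset).card := by
      refine Finset.card_le_card_of_injOn (fun b => (b 0, Fin.tail b)) ?_ ?_
      · intro b hb
        rw [mem_coe, hS1, mem_filter, hcube, Fintype.mem_piFinset] at hb
        rw [mem_coe, mem_product]
        exact ⟨hb.1 0, hfin.mem_toFinset.mpr hb.2⟩
      · intro b _ b' _ h
        have h3 : b 0 = b' 0 := (Prod.mk.inj h).1
        have h4 : Fin.tail b = Fin.tail b' := (Prod.mk.inj h).2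
        rw [← Fin.cons_self_tail b, ← Fin.cons_self_tail b', h3, h4]
    rw [card_product, ← Set.ncard_eq_toFinset_card _ hfin] at h2
    have h3 : (S1.card : ℝ) ≤ (Φ.S B).card * (BadK Φ E D B n).ncard := by exact_mod_cast h2
    exact h3.trans (mul_le_mul_of_nonneg_right hcard (Nat.cast_nonneg _))
  have h2 : (S2.card : ℝ) ≤ (Φ.A * B) ^ n * c := by
    obtain ⟨W, hW⟩ : ∃ W : (Fin n → ι) → Finset ι, ∀ b' i, i ∈ W b' ↔
        i ∈ Φ.S B ∧ ∃ e, Bad (EbK (E e * E e) (E e) D (fun i => Φ.x (b' i))) D (Φ.x i) :=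
      ⟨fun b' => (Φ.S B).filter fun i =>
        ∃ e, Bad (EbK (E e * E e) (E e) D (fun i => Φ.x (b' i))) D (Φ.x i),
        fun b' i => mem_filter⟩
    have h3 : S2.card ≤ ((Fintype.piFinset (fun _ : Fin n => Φ.S B)).sigma W).card := by
      refine Finset.card_le_card_of_injOn
        (fun b => (⟨Fin.tail b, b 0⟩ : (_ : Fin n → ι) × ι)) ?_ ?_
      · intro b hb
        rw [mem_coe, hS2, mem_filter, hcube, Fintype.mem_piFinset] at hb
        rw [mem_coe, mem_sigma, Fintype.mem_piFinset]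
        exact ⟨fun i => hb.1 i.succ, (hW _ _).2 ⟨hb.1 0, hb.2⟩⟩
      · intro b _ b' _ h
        simp only [Sigma.mk.injEq, heq_eq_eq] at h
        rw [← Fin.cons_self_tail b, ← Fin.cons_self_tail b', h.1, h.2]
    rw [card_sigma] at h3
    have h4 : ∀ b' : Fin n → ι, ((W b').card : ℝ) ≤ c := by
      intro b'
      have h5 := hc fun i => Φ.x (b' i)
      have h6 : {i : ι | i ∈ Φ.S B ∧
          ∃ e, Bad (EbK (E e * E e) (E e) D fun i => Φ.x (b' i)) D (Φ.x i)} =
          ((W b' : Finset ι) : Set ι) := by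
        ext i
        rw [mem_coe, hW]
        exact Iff.rfl
      rwa [h6, Set.ncard_coe_finset] at h5
    have h5 : (S2.card : ℝ) ≤ ∑ b' ∈ Fintype.piFinset (fun _ : Fin n => Φ.S B), c := by
      refine le_trans ?_ (Finset.sum_le_sum fun b' _ => h4 b')
      exact_mod_cast h3
    rw [sum_const, nsmul_eq_mul, Fintype.card_piFinset_const, Nat.cast_pow] at h5
    refine h5.trans (mul_le_mul_of_nonneg_right ?_ hc0)
    exact pow_le_pow_left₀ (Nat.cast_nonneg _) hcard n
  linarith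

private theorem cardK_all {M : ℕ} (E : Fin M → Submodule Qa ℂ) (D B : ℕ) (hB : 1 ≤ B) (hcB : ℝ)
    (hcB0 : 0 ≤ hcB) (N : ℕ) (hc : ∀ n < N, ∀ x : Fin n → J → ℂ,
      ({i : ι | i ∈ Φ.S B ∧ ∃ e, Bad (EbK (E e * E e) (E e) D x) D (Φ.x i)}.ncard : ℝ) ≤
        hcB * B) :
    ∀ n ≤ N, ((BadK Φ E D B n).ncard : ℝ) ≤ n * hcB * (Φ.A + 1) ^ n * B ^ n := by
  intro n
  induction n with
  | zero =>
    intro _
    have h1 : BadK Φ E D B 0 = ∅ := by
      rw [Set.eq_empty_iff_forall_notMem]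
      rintro b ⟨_, e, h⟩
      exact h trivial
    rw [h1, Set.ncard_empty]
    simp
  | succ n ih =>
    intro hn
    have h1 := ih (by omega)
    have hB0 : (0 : ℝ) ≤ B := Nat.cast_nonneg _
    have hA0 : (0 : ℝ) ≤ Φ.A := Nat.cast_nonneg _
    have h2 := cardK_step Φ E D B n hB (hcB * B) (by positivity) (hc n (by omega))
    have h3 : (Φ.A * B : ℝ) * (BadK Φ E D B n).ncard ≤
        ((Φ.A + 1) * B) * (n * hcB * (Φ.A + 1) ^ n * B ^ n) := by
      refine mul_le_mul ?_ h1 (Nat.cast_nonneg _) (by positivity)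
      exact mul_le_mul_of_nonneg_right (by linarith) hB0
    have h4 : ((Φ.A : ℝ) * B) ^ n * (hcB * B) ≤ (Φ.A + 1) ^ (n + 1) * B ^ n * (hcB * B) := by
      refine mul_le_mul_of_nonneg_right ?_ (by positivity)
      rw [mul_pow]
      refine mul_le_mul_of_nonneg_right ?_ (by positivity)
      calc (Φ.A : ℝ) ^ n ≤ (Φ.A + 1) ^ n := pow_le_pow_left₀ hA0 (by linarith) n
        _ ≤ (Φ.A + 1) ^ (n + 1) := pow_le_pow_right₀ (by linarith) (Nat.le_succ n)
    refine h2.trans ((add_le_add h3 h4).trans (le_of_eq ?_))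
    push_cast
    ring

end

/-- Compare `ZK.count_many`: same proof, with blocks of variables and `M` spaces. -/
theorem count_many {J ι : Type} [Fintype J] (Φ : Fam J ι) (n D κ : ℕ) : ∃ C : ℕ, ∀ M B : ℕ,
    2 ≤ M → M ≤ B → ∀ E : Fin M → Submodule Qa ℂ, (∀ e, FiniteDimensional Qa (E e)) →
      (∀ e, finrank Qa (E e) ≤ κ) → (∀ e, (1 : ℂ) ∈ E e) →
      ({b : Fin n → ι | (∀ i, b i ∈ Φ.S B) ∧ ∃ e, ∃ y : Fin n → J → ℂ,
          (∀ i j, ∃ q : Qa, q ≠ 0 ∧ y i j - q * Φ.x (b i) j ∈ E e) ∧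
          ¬ GoodX (E e) (E e) D (fun p : Fin n × J => y p.1 p.2)}.ncard : ℝ) ≤ rt C M B * B ^ n := by
  obtain ⟨K, hK⟩ := count_fam Φ (κ * κ * (κ + n * Fintype.card J) ^ D) D
  obtain ⟨C, hC⟩ := exists_rt (n * (Φ.A + 1) ^ n * K) K
  refine ⟨C, fun M B hM hB E hE hκ h1 => ?_⟩
  have hE1 : ∀ e, FiniteDimensional Qa ↥(E e * E e) := fun e => Module.Finite.iff_fg.2
    ((Module.Finite.iff_fg.1 (hE e)).mul (Module.Finite.iff_fg.1 (hE e)))
  have h2 := cardK_all Φ E D B (by omega) (rt K M B) (rt_nonneg hM hB) n (fun m hm x => by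
      have hfr := fun e => @finrank_EbK m J _ (E e * E e) (E e) (hE1 e) (hE e) D x
      refine hK M B hM hB (fun e => EbK (E e * E e) (E e) D x) (fun e => (hfr e).1)
        (fun e => (hfr e).2.trans ?_) (fun e => ?_)
      · refine Nat.mul_le_mul ?_ (Nat.pow_le_pow_left ?_ D)
        · have := hE e
          exact (finrank_mul_le _ _).trans (Nat.mul_le_mul (hκ e) (hκ e))
        · exact Nat.add_le_add (hκ e) (Nat.mul_le_mul_right _ hm.le)
      · have h5 : (1 : Submodule Qa ℂ) ≤ EbK (E e * E e) (E e) D x := by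
          unfold EbK
          have h6 : (1 : Submodule Qa ℂ) ≤ E e := Submodule.one_le.2 (h1 e)
          exact one_le_mul (one_le_mul h6 h6) (one_le_pow_of_one_le' (h6.trans le_sup_left) D)
        exact Submodule.one_le.1 h5) n le_rfl
  have h3 : {b : Fin n → ι | (∀ i, b i ∈ Φ.S B) ∧ ∃ e, ∃ y : Fin n → J → ℂ,
      (∀ i j, ∃ q : Qa, q ≠ 0 ∧ y i j - q * Φ.x (b i) j ∈ E e) ∧
      ¬ GoodX (E e) (E e) D (fun p : Fin n × J => y p.1 p.2)}.ncard ≤
      (BadK Φ E D B n).ncard := by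
    refine Set.ncard_le_ncard ?_ (badK_finite Φ _ _ _ _)
    rintro b ⟨hb, e, y, hy, hN⟩
    exact ⟨hb, e, fun hg => hN (goodX_of_goodK (h1 e) _ y (fun i j => Φ.mem _ _) hg hy)⟩
  have h4 : ({b : Fin n → ι | (∀ i, b i ∈ Φ.S B) ∧ ∃ e, ∃ y : Fin n → J → ℂ,
      (∀ i j, ∃ q : Qa, q ≠ 0 ∧ y i j - q * Φ.x (b i) j ∈ E e) ∧
      ¬ GoodX (E e) (E e) D (fun p : Fin n × J => y p.1 p.2)}.ncard : ℝ) ≤
      (BadK Φ E D B n).ncard := by exact_mod_cast h3
  refine (h4.trans h2).trans ?_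
  refine mul_le_mul_of_nonneg_right ?_ (by positivity)
  refine le_trans (le_of_eq ?_) (hC M B hM hB)
  unfold rt
  ring

end MP60829e.ZV
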