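import Mathlib
import Pool.Agent.Lib.MP_60829e_nt.ZV.Conj

/-! # Theorem ZV: rows of logarithms of all conjugates -/

open Finset NumberField IsDedekindDomain Module

namespace MP60829e.ZV

open MP60829e.ST (Qa Lt)
open MP60829e.ZK (Pr toI lgK gen Ar nn)

variable (K : Type) [Field K] [NumberField K]

/-- PROOF: `exists_disc` and Baker (`FZ.baker_fin`), compare `ZK.lin_gen`, `ZK.row_gen`. -/
theorem linearIndependent_conj {Δ : ℕ} (hΔ : ∀ (s : Finset (Pr K)), (∀ x ∈ s, x ∈ GP K Δ) →
    (∀ x ∈ s, ∀ x' ∈ s, Ideal.absNorm x.asIdeal = Ideal.absNorm x'.asIdeal → x = x') →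
    ∀ n : Pr K → (K →+* ℂ) → ℤ, ∏ x ∈ s, ∏ σ : K →+* ℂ, (σ (gen K x : K)) ^ n x σ = 1 →
      ∀ x ∈ s, ∀ σ, n x σ = 0) {t : ℕ} (q : Fin t → Pr K) (hq : ∀ a, q a ∈ GP K Δ)
    (hn : ∀ a b, Ideal.absNorm (q a).asIdeal = Ideal.absNorm (q b).asIdeal → a = b) :
    LinearIndependent Qa fun p : Fin t × (K →+* ℂ) =>
      Complex.log (p.2 (gen K (q p.1) : K)) := by
  classical
  have hne : ∀ (x : Pr K) (σ : K →+* ℂ), σ (gen K x : K) ≠ 0 := fun x σ =>
    ZK.map_ne_zero' K σ (ZK.gen_ne_zero K x)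
  have hqi : Function.Injective q := fun a b h => hn a b (by rw [h])
  refine MP60829e.FZ.baker_fin _ (fun p => ?_) ?_
  · rw [Complex.exp_log (hne _ _)]
    exact ZK.isAlgebraic_int K p.2 _
  · refine (LinearIndependent.iff_fractionRing ℤ ℚ).1 ?_
    rw [Fintype.linearIndependent_iff]
    intro g hg
    obtain ⟨n, hn'⟩ : ∃ n : Pr K → (K →+* ℂ) → ℤ, ∀ a σ, n (q a) σ = g (a, σ) := by
      refine ⟨fun x σ => if h : ∃ a, q a = x then g (h.choose, σ) else 0, fun a σ => ?_⟩
      have h : ∃ b, q b = q a := ⟨a, rfl⟩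
      show (if h : ∃ b, q b = q a then g (h.choose, σ) else 0) = g (a, σ)
      rw [dif_pos h, hqi h.choose_spec]
    have h1 : ∏ x ∈ Finset.univ.image q, ∏ σ : K →+* ℂ, (σ (gen K x : K)) ^ n x σ = 1 := by
      rw [Finset.prod_image fun a _ b _ h => hqi h]
      have h2 := congrArg Complex.exp hg
      rw [Complex.exp_zero, Complex.exp_sum, Fintype.prod_prod_type] at h2
      rw [← h2]
      refine Finset.prod_congr rfl fun a _ => Finset.prod_congr rfl fun σ _ => ?_
      rw [hn', zsmul_eq_mul, Complex.exp_int_mul, Complex.exp_log (hne _ _)]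
    rintro ⟨a, σ⟩
    have h3 := hΔ (Finset.univ.image q) (fun x hx => by
      obtain ⟨b, -, rfl⟩ := Finset.mem_image.1 hx
      exact hq b) (fun x hx x' hx' h => by
      obtain ⟨b, -, rfl⟩ := Finset.mem_image.1 hx
      obtain ⟨b', -, rfl⟩ := Finset.mem_image.1 hx'
      rw [hn b b' h]) n h1 (q a) (Finset.mem_image.2 ⟨a, Finset.mem_univ a, rfl⟩) σ
    rw [← hn', h3]

/-- Among many different primes there are many with different norms. -/
private theorem exists_norms (Δ T : ℕ) : ∃ T' : ℕ, ∀ q : Fin (T' + 1) → Pr K,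
    (∀ a, q a ∈ GP K Δ) → Function.Injective q → ∃ j : Fin T → Fin (T' + 1),
      (∀ a, Ideal.absNorm (q (j a)).asIdeal ≠ Ideal.absNorm (q 0).asIdeal) ∧
      ∀ a b, Ideal.absNorm (q (j a)).asIdeal = Ideal.absNorm (q (j b)).asIdeal → a = b := by
  classical
  obtain ⟨𝔸, h𝔸⟩ := ZK.exists_ar K
  refine ⟨𝔸.d * (T + 1), fun q hq hqi => ?_⟩
  set Nm : Fin (𝔸.d * (T + 1) + 1) → ℕ := fun a => Ideal.absNorm (q a).asIdeal with hNm
  have hN : ∀ a, Nm a = 𝔸.N (q a) := by
    intro a
    rw [h𝔸]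
  have hpr : ∀ a, 𝔸.pr (q a) = Nm a := by
    intro a
    have h1 : (Nm a).Prime := (hq a).1
    have h2 := 𝔸.N_eq (q a)
    rw [← hN] at h2
    have h3 := h1
    rw [h2] at h3
    have h5 : 𝔸.f (q a) = 1 := Nat.Prime.eq_one_of_pow h3
    rw [h2, h5, pow_one]
  have hfib : ∀ v ∈ Finset.univ.image Nm, (Finset.univ.filter fun a => Nm a = v).card ≤ 𝔸.d := by
    intro v _
    have h1 := 𝔸.over_le v ((Finset.univ.filter fun a => Nm a = v).image q) (by
      intro x hx
      obtain ⟨a, ha, rfl⟩ := Finset.mem_image.1 hx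
      rw [hpr, (Finset.mem_filter.1 ha).2])
    rwa [Finset.card_image_of_injective _ hqi] at h1
  have hcard : 𝔸.d * (T + 1) + 1 ≤ 𝔸.d * (Finset.univ.image Nm).card := by
    have h1 := Finset.card_le_mul_card_image (s := (Finset.univ : Finset (Fin (𝔸.d * (T + 1) + 1))))
      (f := Nm) 𝔸.d hfib
    rwa [Finset.card_univ, Fintype.card_fin] at h1
  have hT : T + 1 ≤ (Finset.univ.image Nm).card := by
    by_contra hcon
    have h1 : (Finset.univ.image Nm).card ≤ T + 1 := by omega
    have h2 := Nat.mul_le_mul_left 𝔸.d h1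
    omega
  have hT2 : T ≤ ((Finset.univ.image Nm).erase (Nm 0)).card := by
    rw [Finset.card_erase_of_mem (Finset.mem_image.2 ⟨0, Finset.mem_univ 0, rfl⟩)]
    omega
  obtain ⟨v, hv⟩ : ∃ v : Fin T → ℕ, Function.Injective v ∧
      ∀ a, v a ∈ (Finset.univ.image Nm).erase (Nm 0) := by
    obtain ⟨u, hu, hc⟩ := Finset.exists_subset_card_eq hT2
    refine ⟨fun a => u.orderEmbOfFin hc a, (u.orderEmbOfFin hc).injective, fun a => ?_⟩
    exact hu (Finset.orderEmbOfFin_mem u hc a)
  have h1 : ∀ a, ∃ b, Nm b = v a := by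
    intro a
    obtain ⟨b, -, hb⟩ := Finset.mem_image.1 (Finset.mem_of_mem_erase (hv.2 a))
    exact ⟨b, hb⟩
  choose j hj using h1
  refine ⟨j, fun a h => ?_, fun a b h => ?_⟩
  · exact Finset.ne_of_mem_erase (hv.2 a) ((hj a).symm.trans h)
  · exact hv.1 ((hj a).symm.trans (h.trans (hj b)))

/-- PROOF: among `d T + d + 1` different primes (at most `d` over each prime number) there are `T` with
different norms, all different from the norm of `q 0`; if all the vectors
`x (q a) - x (q 0)` are dependent modulo `V` we get `T` linearly independent elements of `V`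
(`linearIndependent_conj`). -/
theorem row_conj : ∃ Δ : ℕ, Δ ≠ 0 ∧ ∀ T : ℕ, ∃ T' : ℕ, ∀ q : Fin (T' + 1) → Pr K,
    (∀ a, q a ∈ GP K Δ) → Function.Injective q →
    Row T (Set.range fun (a : Fin (T' + 1)) (σ : K →+* ℂ) =>
      lgK K σ (Finsupp.single (q a) 1) - lgK K σ (Finsupp.single (q 0) 1)) := by
  classical
  obtain ⟨Δ, hΔ0, hΔ⟩ := exists_disc K
  refine ⟨Δ, hΔ0, fun T => ?_⟩
  obtain ⟨T', hT'⟩ := exists_norms K Δ T
  refine ⟨T', fun q hq hqi => ?_⟩
  obtain ⟨j, hj0, hj⟩ := hT' q hq hqi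
  refine ⟨⟨0, by
    funext σ
    exact sub_self _⟩, ?_, fun V hV hVT => ?_⟩
  · rintro _ ⟨a, rfl⟩ σ
    exact Lt.sub_mem (ZK.lgK_mem K σ _) (ZK.lgK_mem K σ _)
  · by_contra hcon
    push Not at hcon
    -- the independent logarithms
    have hli := linearIndependent_conj K hΔ (Fin.cons (q 0) fun a : Fin T => q (j a))
      (fun a => by
        refine Fin.cases ?_ (fun b => ?_) a
        · exact hq 0
        · exact hq (j b))
      (fun a b => by
        refine Fin.cases ?_ (fun a' => ?_) a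
        · refine Fin.cases (fun _ => rfl) (fun b' => ?_) b
          intro h
          exact absurd h.symm (hj0 b')
        · refine Fin.cases ?_ (fun b' => ?_) b
          · intro h
            exact absurd h (hj0 a')
          · intro h
            exact congrArg Fin.succ (hj a' b' h))
    have h1 : ∀ a : Fin T, ∃ c : (K →+* ℂ) → Qa, c ≠ 0 ∧ ∑ σ, c σ •
        (lgK K σ (Finsupp.single (q (j a)) 1) - lgK K σ (Finsupp.single (q 0) 1)) ∈ V := by
      intro a
      have h2 := hcon _ ⟨j a, rfl⟩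
      unfold Ind at h2
      push Not at h2
      obtain ⟨c, hc, hc0⟩ := h2
      exact ⟨c, hc0, hc⟩
    choose c hc0 hcV using h1
    have h2 : LinearIndependent Qa fun a : Fin T => ∑ σ, c a σ •
        (lgK K σ (Finsupp.single (q (j a)) 1) - lgK K σ (Finsupp.single (q 0) 1)) := by
      rw [Fintype.linearIndependent_iff] at hli ⊢
      intro g hg a
      have h3 := hli (fun p => Fin.cases (-∑ b, g b * c b p.2) (fun b => g b * c b p.2) p.1) (by
        rw [Fintype.sum_prod_type, Fin.sum_univ_succ]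
        simp only [Fin.cases_zero, Fin.cases_succ, Fin.cons_zero, Fin.cons_succ]
        rw [← hg, ← sub_eq_zero]
        have h4 : ∀ b : Fin T, g b • ∑ σ, c b σ •
            (lgK K σ (Finsupp.single (q (j b)) 1) - lgK K σ (Finsupp.single (q 0) 1)) =
            ∑ σ, (g b * c b σ) • Complex.log (σ (gen K (q (j b)) : K)) -
              ∑ σ, (g b * c b σ) • Complex.log (σ (gen K (q 0) : K)) := by
          intro b
          rw [Finset.smul_sum, ← Finset.sum_sub_distrib]
          refine Finset.sum_congr rfl fun σ _ => ?_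
          rw [ZK.lgK_single, ZK.lgK_single, smul_smul, smul_sub]
        rw [Finset.sum_congr rfl fun b _ => h4 b, Finset.sum_sub_distrib]
        have h5 : ∑ σ : K →+* ℂ, (-∑ b, g b * c b σ) • Complex.log (σ (gen K (q 0) : K)) =
            -∑ b, ∑ σ : K →+* ℂ, (g b * c b σ) • Complex.log (σ (gen K (q 0) : K)) := by
          rw [Finset.sum_comm, ← Finset.sum_neg_distrib]
          refine Finset.sum_congr rfl fun σ _ => ?_
          rw [neg_smul, Finset.sum_smul]
        rw [h5]
        ring)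
      obtain ⟨σ, hσ⟩ := Function.ne_iff.1 (hc0 a)
      have h6 := h3 (a.succ, σ)
      simp only [Fin.cases_succ] at h6
      exact (mul_eq_zero.1 h6).resolve_right hσ
    have h3 : Submodule.span Qa (Set.range fun a : Fin T => ∑ σ, c a σ •
        (lgK K σ (Finsupp.single (q (j a)) 1) - lgK K σ (Finsupp.single (q 0) 1))) ≤ V := by
      rw [Submodule.span_le]
      rintro _ ⟨a, rfl⟩
      exact hcV a
    have h4 := Submodule.finrank_mono h3
    rw [finrank_span_eq_card h2, Fintype.card_fin] at h4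
    omega

end MP60829e.ZV
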