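import Mathlib
import Pool.Agent.Lib.MP_60829e_nt.ZV.FamV
import Pool.Agent.Lib.MP_60829e_nt.ZV.RowC
import Pool.Agent.Lib.MP_60829e_nt.ZV.ArK
import Pool.Agent.Lib.MP_60829e_nt.ZV.Cnt2
import Pool.Agent.Lib.MP_60829e_nt.ZV.ManyV
import Pool.Agent.Lib.MP_60829e_nt.ZK.OutK

/-! # Theorem ZV: the family of the ideals of a number field, with all conjugates -/

open Finset NumberField IsDedekindDomain Module

namespace MP60829e.ZV

open MP60829e.ST (Qa Lt)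
open MP60829e.ZK (Pr toI lgK)

variable (K : Type) [Field K] [NumberField K]

/-- The sum of logarithms of a box element. -/
private theorem lgK_box (σ : K →+* ℂ) {r : ℕ} (a : Pr K →₀ ℕ) (b : Fin r → Pr K →₀ ℕ)
    (s : Finset (Fin r)) :
    lgK K σ (a + ∑ i ∈ s, b i) = lgK K σ a + ∑ i ∈ s, lgK K σ (b i) := by
  classical
  induction s using Finset.induction_on with
  | empty => simp
  | insert i s hi ih =>
    rw [Finset.sum_insert hi, Finset.sum_insert hi, add_left_comm, ZK.lgK_add, ih]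
    ring

/-- Compare `ZK.exists_fam`: same proof, with `row_conj`, `exists_arG`, `count`. -/
theorem exists_fam : ∃ Φ : Fam (K →+* ℂ) (Pr K →₀ ℕ), (Φ.x = fun a σ => lgK K σ a) ∧
    ∀ B a, a ∈ Φ.S B ↔ Ideal.absNorm (toI K a) ≤ B := by
  classical
  obtain ⟨Δ, hΔ0, hΔ⟩ := row_conj K
  obtain ⟨𝔸, h𝔸, hG⟩ := exists_arG K Δ hΔ0
  refine ⟨⟨fun B => 𝔸.el B, fun a σ => lgK K σ a, 𝔸.A, fun B hB => 𝔸.card_el hB,
    fun a σ => ZK.lgK_mem K σ a, ?_⟩, rfl, ?_⟩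
  · intro r T hr hT
    obtain ⟨T', hT'⟩ := hΔ T
    obtain ⟨C, hC⟩ := count 𝔸 r (T' + 2) hr (by omega)
    refine ⟨C, fun M B hM hB P hP => ?_⟩
    have hfree : ∀ e, GridFree 𝔸.G r (T' + 2)
        {a : Pr K →₀ ℕ | ¬ P e (fun σ => lgK K σ a)} := by
      intro e m q hqG hq
      obtain ⟨y, hy, hPy⟩ := hP e
        (fun σ => lgK K σ (m + ∑ i, Finsupp.single (q i 0) 1))
        (fun i => Set.range fun (a : Fin (T' + 1)) (σ : K →+* ℂ) =>
          lgK K σ (Finsupp.single (q i a.castSucc) 1) - lgK K σ (Finsupp.single (q i 0) 1))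
        (fun σ => ZK.lgK_mem K σ _) (fun i => hT' (fun a => q i a.castSucc)
          (fun a => by rw [← hG]; exact hqG _ _)
          (fun a b h => Fin.castSucc_injective _ (hq i h)))
      choose c hc using hy
      refine ⟨fun i => (c i).castSucc, fun hbad => hbad ?_⟩
      have h1 : (fun σ => lgK K σ (m + ∑ i, Finsupp.single (q i 0) 1)) + ∑ i, y i =
          fun σ => lgK K σ (m + ∑ i, Finsupp.single (q i (c i).castSucc) 1) := by
        funext σ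
        rw [Pi.add_apply, Finset.sum_apply, lgK_box, lgK_box, add_assoc,
          ← Finset.sum_add_distrib]
        congr 1
        refine Finset.sum_congr rfl fun i _ => ?_
        rw [← hc i]
        simp only
        ring
      rw [← h1]
      exact hPy
    refine le_trans (le_of_eq ?_) (hC M B hM hB _ hfree)
    congr 2
    ext a
    simp only [Set.mem_ofPred_eq, ZK.Ar.mem_el]
  · intro B a
    change a ∈ 𝔸.el B ↔ _
    rw [ZK.Ar.mem_el, h𝔸, ZK.absNorm_toI]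

/-- `l` is a vector of logarithms of all the conjugates of a generator of a power of `I`. -/
def IsLog (I : Ideal (𝓞 K)) (l : (K →+* ℂ) → ℂ) : Prop :=
  ∃ (m : ℕ) (β : 𝓞 K), 1 ≤ m ∧ Ideal.span {β} = I ^ m ∧ ∀ σ, Complex.exp (l σ) = σ (β : K)

/-- PROOF: `ZK.exists_U` for each `σ`, `q = m / h`; `U` is the sum of the spaces. -/
theorem exists_U : ∃ U : Submodule Qa ℂ, FiniteDimensional Qa U ∧
    ∀ (a : Pr K →₀ ℕ) (l : (K →+* ℂ) → ℂ), IsLog K (toI K a) l →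
      ∀ σ, ∃ q : Qa, q ≠ 0 ∧ l σ - q * lgK K σ a ∈ U := by
  choose U hUf hU using fun σ : K →+* ℂ => ZK.exists_UK K σ
  refine ⟨⨆ σ, U σ, inferInstance, ?_⟩
  rintro a l ⟨m, β, hm, hβ, he⟩ σ
  obtain ⟨q, hq, hqU⟩ := hU σ a (l σ) ⟨m, β, hm, hβ, he σ⟩
  exact ⟨q, hq, Submodule.mem_iSup_of_mem σ hqU⟩

/-- Compare `ZK.ideals_many`: same proof, with `count_many`. -/
theorem ideals (n D κ : ℕ) : ∃ C : ℕ, ∀ M B : ℕ, 2 ≤ M → M ≤ B → ∀ E : Fin M → Submodule Qa ℂ,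
    (∀ e, FiniteDimensional Qa (E e)) → (∀ e, finrank Qa (E e) ≤ κ) →
      ({I : Fin n → Ideal (𝓞 K) | (∀ i, I i ≠ ⊥ ∧ Ideal.absNorm (I i) ≤ B) ∧
        ∃ e, ∃ l y : Fin n → (K →+* ℂ) → ℂ, (∀ i, IsLog K (I i) (l i)) ∧
          (∀ i σ, ∃ q : Qa, q ≠ 0 ∧ y i σ - q * l i σ ∈ E e) ∧
          ¬ GoodX (E e) (E e) D (fun p : Fin n × (K →+* ℂ) => y p.1 p.2)}.ncard : ℝ) ≤
        rt C M B * B ^ n := by
  classical
  obtain ⟨Φ, hx, hS⟩ := exists_fam K
  obtain ⟨U, hUf, hU⟩ := exists_U K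
  obtain ⟨C, hC⟩ := count_many Φ n D (κ + finrank Qa U + 1)
  refine ⟨C, fun M B hM hB E hE hκ => ?_⟩
  obtain ⟨E', hE'⟩ : ∃ E' : Fin M → Submodule Qa ℂ, ∀ e, E' e =
      E e ⊔ U ⊔ Submodule.span Qa {(1 : ℂ)} := ⟨_, fun e => rfl⟩
  have h12 : ∀ e, FiniteDimensional Qa (E' e) ∧ finrank Qa (E' e) ≤ κ + finrank Qa U + 1 := by
    intro e
    rw [hE']
    have := hE e
    exact ZK.finrank_EU (hκ e)
  have hle : ∀ e, E e ≤ E' e := fun e => by
    rw [hE', sup_assoc]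
    exact le_sup_left
  have hUle : ∀ e, U ≤ E' e := fun e => by
    rw [hE']
    exact le_sup_right.trans le_sup_left
  have h1E : ∀ e, (1 : ℂ) ∈ E' e := fun e => by
    rw [hE']
    exact Submodule.mem_sup_right (Submodule.mem_span_singleton_self 1)
  refine le_trans ?_ (hC M B hM hB E' (fun e => (h12 e).1) (fun e => (h12 e).2) h1E)
  obtain ⟨X, hX⟩ : ∃ X : Set (Fin n → (Pr K →₀ ℕ)), X = {b | (∀ i, b i ∈ Φ.S B) ∧
    ∃ e, ∃ y : Fin n → (K →+* ℂ) → ℂ,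
      (∀ i j, ∃ q : Qa, q ≠ 0 ∧ y i j - q * Φ.x (b i) j ∈ E' e) ∧
      ¬ GoodX (E' e) (E' e) D (fun p : Fin n × (K →+* ℂ) => y p.1 p.2)} := ⟨_, rfl⟩
  rw [← hX]
  have hfin : X.Finite := by
    refine (Finset.finite_toSet (Fintype.piFinset (fun _ : Fin n => Φ.S B))).subset ?_
    intro b hb
    rw [hX] at hb
    rw [mem_coe, Fintype.mem_piFinset]
    exact hb.1
  have hsub : {I : Fin n → Ideal (𝓞 K) | (∀ i, I i ≠ ⊥ ∧ Ideal.absNorm (I i) ≤ B) ∧
        ∃ e, ∃ l y : Fin n → (K →+* ℂ) → ℂ, (∀ i, IsLog K (I i) (l i)) ∧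
          (∀ i σ, ∃ q : Qa, q ≠ 0 ∧ y i σ - q * l i σ ∈ E e) ∧
          ¬ GoodX (E e) (E e) D (fun p : Fin n × (K →+* ℂ) => y p.1 p.2)} ⊆
      (fun b i => toI K (b i)) '' X := by
    rintro I ⟨hI, e, l, y, hl, hy, hbad⟩
    choose b hb using fun i => ZK.exists_toI K (I i) (hI i).1
    refine ⟨b, ?_, funext hb⟩
    rw [hX]
    refine ⟨fun i => (hS B (b i)).2 (by rw [hb]; exact (hI i).2), e, y, fun i σ => ?_,
      fun hg => hbad ?_⟩
    · obtain ⟨q, hq, hqE⟩ := hy i σ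
      obtain ⟨q', hq', hqU⟩ := hU (b i) (l i) (by rw [hb]; exact hl i) σ
      refine ⟨q * q', mul_ne_zero hq hq', ?_⟩
      have h3 : y i σ - ((q * q' : Qa) : ℂ) * Φ.x (b i) σ =
          (y i σ - q * l i σ) + q * (l i σ - q' * lgK K σ (b i)) := by
        have h4 : ((q * q' : Qa) : ℂ) = (q : ℂ) * (q' : ℂ) := rfl
        rw [h4, hx]
        ring
      rw [h3]
      exact (E' e).add_mem (hle e hqE) ((E' e).smul_mem q (hUle e hqU))
    · intro A hA F hF hc h0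
      exact hg A (hA.trans (hle e)) F hF
        (fun m => (sup_le_sup (hle e) le_rfl : E e ⊔ A * Lt ≤ E' e ⊔ A * Lt) (hc m)) h0
  have h3 := (Set.ncard_le_ncard hsub (hfin.image _)).trans (Set.ncard_image_le hfin)
  exact_mod_cast h3

end MP60829e.ZV
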