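import Mathlib
import Pool.Agent.Lib.MP_60829e_nt.ZV.Tup
import Pool.Agent.Lib.MP_60829e_nt.ZL.Four

/-! # Theorem ZV: four exponentials from the two-space property of a vector in degree two -/

open Finset Module MvPolynomial

namespace MP60829e.ZV

open MP60829e.ST (Qa Lt)

variable {J : Type} [Fintype J]

/-- The polynomial `b + ∑ j, a j X j`. -/
private noncomputable def lp (b : ℂ) (a : J → ℂ) : MvPolynomial J ℂ := C b + ∑ j, C (a j) * X j

private theorem eval_lp (b : ℂ) (a l : J → ℂ) : eval l (lp b a) = b + ∑ j, a j * l j := by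
  unfold lp
  rw [map_add, eval_C, map_sum]
  congr 1
  refine Finset.sum_congr rfl fun j _ => ?_
  rw [map_mul, eval_C, eval_X]

private theorem td_lp (b : ℂ) (a : J → ℂ) : (lp b a).totalDegree ≤ 1 := by
  unfold lp
  refine (totalDegree_add _ _).trans (max_le ?_ ?_)
  · rw [totalDegree_C]
    exact Nat.zero_le _
  · refine (totalDegree_finsetSum _ _).trans (Finset.sup_le fun j _ => ?_)
    refine (totalDegree_mul _ _).trans ?_
    rw [totalDegree_C, totalDegree_X]

private theorem coeff_lp_zero (b : ℂ) (a : J → ℂ) : coeff 0 (lp b a) = b := by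
  classical
  unfold lp
  rw [coeff_add, coeff_zero_C, coeff_sum, Finset.sum_eq_zero, add_zero]
  intro j _
  rw [coeff_C_mul, coeff_zero_X, mul_zero]

private theorem coeff_lp_single (b : ℂ) (a : J → ℂ) (i : J) :
    coeff (Finsupp.single i 1) (lp b a) = a i := by
  classical
  unfold lp
  rw [coeff_add, coeff_C, if_neg, coeff_sum, Finset.sum_eq_single_of_mem i (mem_univ i), zero_add,
    coeff_C_mul, coeff_X, if_pos rfl, mul_one]
  · intro j _ hj
    rw [coeff_C_mul, coeff_X, if_neg, mul_zero]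
    intro h
    exact hj (Finsupp.single_left_injective one_ne_zero h)
  · intro h
    have h1 := DFunLike.congr_fun h i
    rw [Finsupp.coe_zero, Pi.zero_apply, Finsupp.single_eq_same] at h1
    exact one_ne_zero h1.symm

private theorem coeff_lp_mem {S : Submodule Qa ℂ} {b : ℂ} {a : J → ℂ} (hb : b ∈ S)
    (ha : ∀ j, a j ∈ S) (α : J →₀ ℕ) : coeff α (lp b a) ∈ S := by
  classical
  unfold lp
  rw [coeff_add, coeff_sum]
  refine Submodule.add_mem _ ?_ (Submodule.sum_mem _ fun j _ => ?_)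
  · rw [coeff_C]
    split_ifs
    · exact hb
    · exact Submodule.zero_mem _
  · rw [coeff_C_mul, coeff_X]
    split_ifs
    · rw [mul_one]
      exact ha j
    · rw [mul_zero]
      exact Submodule.zero_mem _

omit [Fintype J] in
private theorem coeff_mul_mem {S T : Submodule Qa ℂ} {p q : MvPolynomial J ℂ}
    (hp : ∀ α, coeff α p ∈ S) (hq : ∀ α, coeff α q ∈ T) (α : J →₀ ℕ) :
    coeff α (p * q) ∈ S * T := by
  classical
  rw [coeff_mul]
  exact Submodule.sum_mem _ fun x _ => Submodule.mul_mem_mul (hp _) (hq _)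

omit [Fintype J] in
private theorem coeff_X_mul_mem {S : Submodule Qa ℂ} {p : MvPolynomial J ℂ}
    (hp : ∀ α, coeff α p ∈ S) (j : J) (α : J →₀ ℕ) : coeff α (X j * p) ∈ S := by
  classical
  rw [coeff_X_mul']
  split_ifs
  · exact hp _
  · exact Submodule.zero_mem _

private theorem coeff_comb (G : J → MvPolynomial J ℂ) (l : J → ℂ) (α : J →₀ ℕ) :
    coeff α (∑ j, (X j - C (l j)) * G j) =
      ∑ j, coeff α (X j * G j) - ∑ j, l j * coeff α (G j) := by
  rw [coeff_sum, ← Finset.sum_sub_distrib]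
  refine Finset.sum_congr rfl fun j _ => ?_
  rw [sub_mul, coeff_sub, coeff_C_mul]

/-- No polynomial over `E` vanishes at `l`. -/
theorem GoodX.eq_zero {E : Submodule Qa ℂ} {D : ℕ} {l : J → ℂ} (hg : GoodX E E D l)
    {F : MvPolynomial J ℂ} (hF : ∀ α, coeff α F ∈ E) (hd : F.totalDegree ≤ D)
    (h0 : eval l F = 0) : F = 0 := by
  obtain ⟨G, hG, hFG⟩ := hg ⊥ bot_le F hd (fun α => Submodule.mem_sup_left (hF α)) h0
  rw [hFG]
  refine Finset.sum_eq_zero fun j _ => ?_
  have h1 : G j = 0 := by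
    ext α
    rw [coeff_zero]
    exact (Submodule.mem_bot Qa).1 (hG j α)
  rw [h1, mul_zero]

/-- The coefficients of the `G j` are determined by those of `F`. -/
theorem GoodX.coeff_eq_zero {E : Submodule Qa ℂ} {D : ℕ} (hD : 1 ≤ D) {l : J → ℂ}
    (hg : GoodX E E D l) {F : MvPolynomial J ℂ} {G : J → MvPolynomial J ℂ}
    (hFG : F = ∑ j, (X j - C (l j)) * G j) (hG : ∀ j α, coeff α (G j) ∈ E) {α : J →₀ ℕ}
    (hα : coeff α F ∈ E) (j : J) : coeff α (G j) = 0 := by
  have h1 := coeff_comb G l α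
  rw [← hFG] at h1
  have h2 := hg.eq_zero (F := lp (coeff α F - ∑ j, coeff α (X j * G j)) fun j => coeff α (G j))
    (coeff_lp_mem (Submodule.sub_mem _ hα (Submodule.sum_mem _ fun j _ =>
      coeff_X_mul_mem (hG j) j α)) fun j => hG j α) ((td_lp _ _).trans hD) (by
      rw [eval_lp, h1]
      have h3 : ∑ j, coeff α (G j) * l j = ∑ j, l j * coeff α (G j) :=
        Finset.sum_congr rfl fun j _ => mul_comm _ _
      rw [h3]
      ring)
  rw [← coeff_lp_single (coeff α F - ∑ j, coeff α (X j * G j)) (fun j => coeff α (G j)) j, h2,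
    coeff_zero]

/-- A linear combination with integer coefficients of the coordinates is different from zero. -/
theorem sum_ne_zero_of_goodX {E : Submodule Qa ℂ} {D : ℕ} (hD : 1 ≤ D) (h1E : (1 : ℂ) ∈ E)
    {l : J → ℂ} (hg : GoodX E E D l) {c : J → ℤ} (hc : c ≠ 0) : ∑ j, (c j : ℂ) * l j ≠ 0 := by
  intro h0
  apply hc
  have h2 := hg.eq_zero (F := lp 0 fun j => (c j : ℂ)) (coeff_lp_mem (Submodule.zero_mem _)
    fun j => by
      have h3 : ((c j : Qa) : ℂ) * 1 ∈ E := Submodule.smul_mem E (c j : Qa) h1E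
      simpa using h3) ((td_lp _ _).trans hD) (by rw [eval_lp, h0, add_zero])
  funext j
  have h3 := coeff_lp_single 0 (fun j => (c j : ℂ)) j
  rw [h2, coeff_zero] at h3
  exact_mod_cast h3.symm

/-- **Strong four exponentials from the two-space property.** -/
theorem alg_of_goodX {E : Submodule Qa ℂ} (h1E : (1 : ℂ) ∈ E) {l : J → ℂ} (hg : GoodX E E 2 l)
    {c : J → ℤ} (hc : c ≠ 0) {θ t : ℂ} (hθ : θ ∈ E) (hθ0 : θ ≠ 0) (h1 : t * θ ∈ Lt)
    (h2 : t * ∑ j, (c j : ℂ) * l j ∈ Lt) : IsAlgebraic ℚ t := by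
  classical
  obtain ⟨l1, hl1⟩ : ∃ l1, l1 = t * θ := ⟨_, rfl⟩
  obtain ⟨l2, hl2⟩ : ∃ l2, l2 = t * ∑ j, (c j : ℂ) * l j := ⟨_, rfl⟩
  rw [← hl1] at h1
  rw [← hl2] at h2
  obtain ⟨i, hi⟩ : ∃ i, c i ≠ 0 := by
    by_contra hcon
    push Not at hcon
    exact hc (funext hcon)
  have hi' : (c i : ℂ) ≠ 0 := by exact_mod_cast hi
  have hcQ : ∀ j, (c j : ℂ) ∈ (1 : Submodule Qa ℂ) := by
    intro j
    rw [Submodule.mem_one]
    exact ⟨(c j : Qa), by simp⟩
  have hsc : ∀ {S : Submodule Qa ℂ} {z : ℂ}, z ∈ S → ∀ j, z * (c j : ℂ) ∈ S := by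
    intro S z hz j
    have h3 := Submodule.mul_mem_mul hz (hcQ j)
    rwa [mul_one] at h3
  have hLtE : Lt ≤ E ⊔ E * Lt := by
    intro z hz
    refine Submodule.mem_sup_right ?_
    rw [← one_mul z]
    exact Submodule.mul_mem_mul h1E hz
  -- the first step
  obtain ⟨a0, a, ha0, ha, hla⟩ : ∃ (a0 : ℂ) (a : J → ℂ), a0 ∈ E ∧ (∀ j, a j ∈ E) ∧
      l1 = a0 + ∑ j, a j * l j := by
    obtain ⟨G, hG, hFG⟩ := hg E le_rfl (lp (-(l2 * θ)) fun j => l1 * (c j : ℂ))
      ((td_lp _ _).trans (by norm_num)) (coeff_lp_mem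
        (Submodule.neg_mem _ (Submodule.mem_sup_right (by
          rw [mul_comm l2 θ]
          exact Submodule.mul_mem_mul hθ h2))) fun j => hLtE (hsc h1 j)) (by
        rw [eval_lp, hl1, hl2]
        have h3 : ∑ j, t * θ * (c j : ℂ) * l j = t * θ * ∑ j, (c j : ℂ) * l j := by
          rw [Finset.mul_sum]
          exact Finset.sum_congr rfl fun j _ => by ring
        rw [h3]
        ring)
    have h3 := coeff_comb G l (Finsupp.single i 1)
    rw [← hFG, coeff_lp_single] at h3
    refine ⟨(c i : ℂ)⁻¹ * ∑ j, coeff (Finsupp.single i 1) (X j * G j),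
      fun j => -((c i : ℂ)⁻¹ * coeff (Finsupp.single i 1) (G j)), ?_, fun j => ?_, ?_⟩
    · have h4 : (((c i : Qa)⁻¹ : Qa) : ℂ) * ∑ j, coeff (Finsupp.single i 1) (X j * G j) ∈ E :=
        Submodule.smul_mem E (c i : Qa)⁻¹ (Submodule.sum_mem _ fun j _ =>
          coeff_X_mul_mem (hG j) j _)
      simpa using h4
    · refine Submodule.neg_mem _ ?_
      have h4 : (((c i : Qa)⁻¹ : Qa) : ℂ) * coeff (Finsupp.single i 1) (G j) ∈ E :=
        Submodule.smul_mem E (c i : Qa)⁻¹ (hG j _)
      simpa using h4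
    · have h4 : ∑ j, -((c i : ℂ)⁻¹ * coeff (Finsupp.single i 1) (G j)) * l j =
          -((c i : ℂ)⁻¹ * ∑ j, l j * coeff (Finsupp.single i 1) (G j)) := by
        rw [Finset.mul_sum, ← Finset.sum_neg_distrib]
        exact Finset.sum_congr rfl fun j _ => by ring
      rw [h4]
      field_simp
      rw [← sub_eq_add_neg, ← h3]
  -- the second step
  obtain ⟨Q, hQ⟩ : ∃ Q, Q = lp a0 a * lp 0 fun j => (c j : ℂ) := ⟨_, rfl⟩
  have hQE : ∀ α, coeff α Q ∈ E := by
    intro α
    rw [hQ]
    have h3 := coeff_mul_mem (coeff_lp_mem ha0 ha) (coeff_lp_mem (Submodule.zero_mem _) hcQ) α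
    rwa [mul_one] at h3
  have hθE : Submodule.span Qa {θ} ≤ E := (Submodule.span_singleton_le_iff_mem _ _).2 hθ
  obtain ⟨G, hG, hFG⟩ := hg (Submodule.span Qa {θ}) hθE (Q - C (l2 * θ)) (by
      refine (totalDegree_sub _ _).trans (max_le ?_ ?_)
      · rw [hQ]
        exact (totalDegree_mul _ _).trans (add_le_add (td_lp _ _) (td_lp _ _))
      · rw [totalDegree_C]
        norm_num) (fun α => by
      rw [coeff_sub]
      refine Submodule.sub_mem _ (Submodule.mem_sup_left (hQE α)) (Submodule.mem_sup_right ?_)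
      rw [coeff_C]
      split_ifs
      · rw [mul_comm l2 θ]
        exact Submodule.mul_mem_mul (Submodule.mem_span_singleton_self θ) h2
      · exact Submodule.zero_mem _) (by
      rw [map_sub, eval_C, hQ, map_mul, eval_lp, eval_lp, ← hla, zero_add, hl1, hl2]
      ring)
  have hGc : ∀ j, G j = C (coeff 0 (G j)) := by
    intro j
    ext α
    rw [coeff_C]
    split_ifs with h3
    · rw [← h3]
    · refine hg.coeff_eq_zero (by norm_num) hFG (fun j α => hθE (hG j α)) ?_ j
      rw [coeff_sub, coeff_C, if_neg h3, sub_zero]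
      exact hQE α
  have hQ1 : Q = lp (l2 * θ - ∑ j, l j * coeff 0 (G j)) fun j => coeff 0 (G j) := by
    have h3 : Q = C (l2 * θ) + (Q - C (l2 * θ)) := by ring
    rw [h3, hFG]
    unfold lp
    rw [map_sub, map_sum, sub_add_eq_add_sub, add_sub_assoc, ← Finset.sum_sub_distrib]
    congr 1
    refine Finset.sum_congr rfl fun j _ => ?_
    conv_lhs => rw [hGc j]
    rw [map_mul]
    ring
  have hlc : 1 ≤ (lp 0 fun j => (c j : ℂ)).totalDegree := by
    have h3 : (Finsupp.single i 1 : J →₀ ℕ) ∈ (lp 0 fun j => (c j : ℂ)).support := by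
      rw [MvPolynomial.mem_support_iff, coeff_lp_single]
      exact hi'
    have h4 := le_totalDegree h3
    rwa [Finsupp.sum_single_index rfl] at h4
  have hla0 : lp a0 a = C a0 := by
    by_cases hz : lp a0 a = 0
    · have h3 := coeff_lp_zero a0 a
      rw [hz, coeff_zero] at h3
      rw [hz, ← h3, C_0]
    · have h3 : Q.totalDegree = (lp a0 a).totalDegree + (lp 0 fun j => (c j : ℂ)).totalDegree := by
        rw [hQ]
        refine totalDegree_mul_of_isDomain hz ?_
        intro h4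
        rw [h4, totalDegree_zero] at hlc
        omega
      have h4 : Q.totalDegree ≤ 1 := by
        rw [hQ1]
        exact td_lp _ _
      have h5 : (lp a0 a).totalDegree = 0 := by omega
      rw [totalDegree_eq_zero_iff_eq_C.1 h5, coeff_lp_zero]
  have hai : ∀ j, a j = 0 := by
    intro j
    have h3 := coeff_lp_single a0 a j
    rw [hla0, coeff_C, if_neg] at h3
    · exact h3.symm
    · intro h4
      have h5 := DFunLike.congr_fun h4 j
      rw [Finsupp.coe_zero, Pi.zero_apply, Finsupp.single_eq_same] at h5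
      exact one_ne_zero h5.symm
  have hl1a : l1 = a0 := by
    rw [hla, Finset.sum_eq_zero, add_zero]
    intro j _
    rw [hai j, zero_mul]
  have h3 : a0 * (c i : ℂ) = coeff 0 (G i) := by
    have h4 := congrArg (coeff (Finsupp.single i 1)) hQ1
    rw [coeff_lp_single, hQ, hla0, coeff_C_mul, coeff_lp_single] at h4
    exact h4
  obtain ⟨q, hq⟩ := Submodule.mem_span_singleton.1 (hG i 0)
  have hq' : (q : ℂ) * θ = coeff 0 (G i) := hq
  have h4 : t = (q : ℂ) * ((c i : ℂ))⁻¹ := by
    have h5 : t * θ * (c i : ℂ) = (q : ℂ) * θ := by rw [← hl1, hl1a, h3, hq']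
    field_simp
    have h6 : (t * (c i : ℂ)) * θ = (q : ℂ) * θ := by
      rw [← h5]
      ring
    exact mul_right_cancel₀ hθ0 h6
  rw [h4]
  refine IsAlgebraic.mul (mem_algebraicClosure_iff.mp q.2) (IsAlgebraic.inv ?_)
  exact_mod_cast isAlgebraic_intCast (R := ℚ) (A := ℂ) (c i)

end MP60829e.ZV
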