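import Mathlib
import Pool.Agent.Lib.MP_60829e_nt.ZV.ManyV
import Pool.Agent.Lib.MP_60829e_nt.ZV.FamK
import Pool.Agent.Lib.MP_60829e_nt.ZV.OutA
import Pool.Agent.Lib.MP_60829e_nt.ZL.Four

/-! # Theorem ZV: exponentials -/

open Finset NumberField IsDedekindDomain Module MvPolynomial

namespace MP60829e.ZV

open MP60829e.ST (Qa Lt)

variable (K : Type) [Field K] [NumberField K]

/-- The exponential of a combination with integer coefficients of the logarithms is algebraic. -/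
private theorem isAlgebraic_exp_sum {I : Ideal (𝓞 K)} {l : (K →+* ℂ) → ℂ} (hl : IsLog K I l)
    (c : (K →+* ℂ) → ℤ) : IsAlgebraic ℚ (Complex.exp (∑ σ, (c σ : ℂ) * l σ)) := by
  obtain ⟨m, β, -, -, he⟩ := hl
  rw [Complex.exp_sum]
  refine Finset.prod_induction _ (fun z => IsAlgebraic ℚ z) (fun _ _ ha hb => ha.mul hb)
    isAlgebraic_one fun σ _ => ?_
  rw [Complex.exp_int_mul, he]
  have h1 := ZK.isAlgebraic_int K σ β
  rcases Int.eq_nat_or_neg (c σ) with ⟨k, hk | hk⟩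
  · rw [hk, zpow_natCast]
    exact h1.pow k
  · rw [hk, zpow_neg, zpow_natCast]
    exact (h1.pow k).inv

/-- For almost all ideals, all `θ ≠ 0` in `M` spaces at once: the two-space property (`ideals` for one
ideal, degree two) and `alg_of_goodX`; if the exponentials are algebraic then `t` is rational by
Gelfond - Schneider. -/
theorem exponentials (κ : ℕ) : ∃ C : ℕ, ∀ M B : ℕ, 2 ≤ M → M ≤ B →
    ∀ E : Fin M → Submodule Qa ℂ, (∀ e, FiniteDimensional Qa (E e)) →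
      (∀ e, finrank Qa (E e) ≤ κ) →
      ({I : Ideal (𝓞 K) | (I ≠ ⊥ ∧ Ideal.absNorm I ≤ B) ∧ ∃ e, ∃ l : (K →+* ℂ) → ℂ, IsLog K I l ∧
        ∃ c : (K →+* ℂ) → ℤ, c ≠ 0 ∧ ∃ θ ∈ E e, θ ≠ 0 ∧ ∃ t : ℂ,
          (IsAlgebraic ℚ (Complex.exp (t * θ)) ∧
              IsAlgebraic ℚ (Complex.exp (t * ∑ σ, c σ * l σ)) ∧ ¬ ∃ q : ℚ, (q : ℂ) = t) ∨
            (t * θ ∈ Lt ∧ t * ∑ σ, c σ * l σ ∈ Lt ∧ ¬ IsAlgebraic ℚ t)}.ncard : ℝ) ≤
        rt C M B * B := by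
  classical
  obtain ⟨C, hC⟩ := ideals K 1 2 (κ + 1)
  refine ⟨C, fun M B hM hB E hE hκ => ?_⟩
  have hspan : finrank Qa (Submodule.span Qa {(1 : ℂ)}) = 1 := finrank_span_singleton one_ne_zero
  have hE' : ∀ e, FiniteDimensional Qa ↥(E e ⊔ Submodule.span Qa {(1 : ℂ)}) := fun e => by
    have := hE e
    infer_instance
  have hκ' : ∀ e, finrank Qa ↥(E e ⊔ Submodule.span Qa {(1 : ℂ)}) ≤ κ + 1 := fun e => by
    have := hE e
    refine (Submodule.finrank_add_le_finrank_add_finrank _ _).trans ?_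
    rw [hspan]
    exact Nat.add_le_add_right (hκ e) 1
  have h1 := hC M B hM hB (fun e => E e ⊔ Submodule.span Qa {(1 : ℂ)}) hE' hκ'
  rw [pow_one] at h1
  refine le_trans ?_ h1
  obtain ⟨X, hX⟩ : ∃ X : Set (Fin 1 → Ideal (𝓞 K)), X = {I : Fin 1 → Ideal (𝓞 K) |
      (∀ i, I i ≠ ⊥ ∧ Ideal.absNorm (I i) ≤ B) ∧
        ∃ e, ∃ l y : Fin 1 → (K →+* ℂ) → ℂ, (∀ i, IsLog K (I i) (l i)) ∧
          (∀ i σ, ∃ q : Qa, q ≠ 0 ∧ y i σ - q * l i σ ∈ E e ⊔ Submodule.span Qa {(1 : ℂ)}) ∧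
          ¬ GoodX (E e ⊔ Submodule.span Qa {(1 : ℂ)}) (E e ⊔ Submodule.span Qa {(1 : ℂ)}) 2
            (fun p : Fin 1 × (K →+* ℂ) => y p.1 p.2)} := ⟨_, rfl⟩
  rw [← hX]
  have hfin : X.Finite := by
    refine (Set.Finite.pi' (fun _ : Fin 1 => Ideal.finite_setOfPred_absNorm_le (S := 𝓞 K) B)).subset ?_
    intro I hI
    rw [hX] at hI
    exact fun i => (hI.1 i).2
  have hsub : (fun (I : Ideal (𝓞 K)) (_ : Fin 1) => I) ''
      {I : Ideal (𝓞 K) | (I ≠ ⊥ ∧ Ideal.absNorm I ≤ B) ∧ ∃ e, ∃ l : (K →+* ℂ) → ℂ, IsLog K I l ∧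
        ∃ c : (K →+* ℂ) → ℤ, c ≠ 0 ∧ ∃ θ ∈ E e, θ ≠ 0 ∧ ∃ t : ℂ,
          (IsAlgebraic ℚ (Complex.exp (t * θ)) ∧
              IsAlgebraic ℚ (Complex.exp (t * ∑ σ, c σ * l σ)) ∧ ¬ ∃ q : ℚ, (q : ℂ) = t) ∨
            (t * θ ∈ Lt ∧ t * ∑ σ, c σ * l σ ∈ Lt ∧ ¬ IsAlgebraic ℚ t)} ⊆ X := by
    rintro _ ⟨I, ⟨hI, e, l, hl, c, hc, θ, hθ, hθ0, t, ht⟩, rfl⟩
    rw [hX]
    refine ⟨fun _ => hI, e, fun _ => l, fun _ => l, fun _ => hl, fun _ σ => ⟨1, one_ne_zero, ?_⟩,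
      fun hg => ?_⟩
    · have h2 : l σ - ((1 : Qa) : ℂ) * l σ = 0 := by
        push_cast
        ring
      rw [h2]
      exact Submodule.zero_mem _
    · have hg' : GoodX (E e ⊔ Submodule.span Qa {(1 : ℂ)}) (E e ⊔ Submodule.span Qa {(1 : ℂ)}) 2
          l := GoodX.reindex (Equiv.uniqueProd (K →+* ℂ) (Fin 1)) hg
      have h1E : (1 : ℂ) ∈ E e ⊔ Submodule.span Qa {(1 : ℂ)} :=
        Submodule.mem_sup_right (Submodule.mem_span_singleton_self 1)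
      have hθ' : θ ∈ E e ⊔ Submodule.span Qa {(1 : ℂ)} := Submodule.mem_sup_left hθ
      rcases ht with ⟨ha, hb, hq⟩ | ⟨ha, hb, hc'⟩
      · have halg := alg_of_goodX h1E hg' hc hθ' hθ0 (Submodule.subset_span (Or.inr ha))
          (Submodule.subset_span (Or.inr hb))
        exact hq (MP60829e.ZB.rat_of_alg (sum_ne_zero_of_goodX (by norm_num) h1E hg' hc)
          (isAlgebraic_exp_sum K hl c) hb halg)
      · exact hc' (alg_of_goodX h1E hg' hc hθ' hθ0 ha hb)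
  have h3 := Set.ncard_le_ncard hsub hfin
  rw [Set.ncard_image_of_injective _ (fun I I' h => congrFun h 0)] at h3
  exact_mod_cast h3

end MP60829e.ZV
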